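import Pool.Agent.VG.Forms

/-!
Project VG, module Cmp: comparison of a cochain `v` (`cob v = - iE v`, `v [] = -1`) with the
standard cochain `mu`.
-/

namespace VG

universe u v

variable {K V : Type u} [Field K] [AddCommGroup V] [Module K V] {ι : Type v}

theorem cmp (ε : V →ₗ[K] K) (lam : ι → V) (hlam : ∀ t, ε (lam t) = 1)
    (v : List ι → ExteriorAlgebra K V) (h0 : v [] = -1)
    (hv : ∀ L, cob v L = - iE ε (v L)) (L : List ι) :
    v L + (-1) ^ L.length * mu lam L = iE ε (gg lam v L) - cob (gg lam v) L := by
  induction L with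
  | nil =>
    show v [] + (-1) ^ 0 * (1 : ExteriorAlgebra K V) = iE ε 0 - 0
    rw [h0, map_zero, pow_zero, one_mul, neg_add_cancel, sub_zero]
  | cons a L ih =>
    have e1 : gg lam v (a :: L) = io (lam a) * (v (a :: L) + gg lam v L) := rfl
    have e2 : iE ε (gg lam v (a :: L)) = (v (a :: L) + gg lam v L) -
        io (lam a) * (iE ε (v (a :: L)) + iE ε (gg lam v L)) := by
      rw [e1, iE_io_mul, hlam, one_smul, map_add]
    have e3 : cob (fun L' => gg lam v (a :: L')) L =
        io (lam a) * (cob (fun L' => v (a :: L')) L + cob (gg lam v) L) := by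
      have h1 := cob_map (AddMonoidHom.mulLeft (io (K := K) (lam a)))
        (fun L' => v (a :: L') + gg lam v L') L
      rw [cob_add (fun L' => v (a :: L')) (gg lam v) L] at h1
      exact h1
    have e4 : v L - cob (fun L' => v (a :: L')) L = - iE ε (v (a :: L)) := hv (a :: L)
    have e5 : cob (fun L' => v (a :: L')) L = v L + iE ε (v (a :: L)) := by
      have h1 : cob (fun L' => v (a :: L')) L = v L - (v L - cob (fun L' => v (a :: L')) L) := by
        abel
      rw [h1, e4]
      abel
    have e6 : cob (gg lam v) (a :: L) = gg lam v L - cob (fun L' => gg lam v (a :: L')) L := rfl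
    have e7 : (mu lam (a :: L) : ExteriorAlgebra K V) = io (lam a) * mu lam L := rfl
    have e8 : cob (gg lam v) L = iE ε (gg lam v L) - (v L + (-1) ^ L.length * mu lam L) := by
      rw [ih]
      abel
    rw [e2, e6, e3, e5, e7, e8, List.length_cons, pow_succ]
    rcases neg_one_pow_eq_or (ExteriorAlgebra K V) L.length with h | h
    · rw [h]
      noncomm_ring
    · rw [h]
      noncomm_ring

end VG
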