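import Mathlib

/-!
Project VG, module Der: partial derivatives on a finite extension of `k(y_1, .., y_d)`.

PLAN.  `exists_der`: `F` is formally etale over `Y = MvPolynomial (Fin d) k` (localization:
`Algebra.FormallyEtale.of_isLocalization`) and `L` is formally etale over `F` (finite separable
extension, characteristic zero: `Algebra.FormallyEtale.of_isSeparable`); derivations of `Y` with
values in `F` extend uniquely to `F`, those of `F` with values in `L` extend uniquely to `L`
(`KaehlerDifferential.tensorKaehlerEquivOfFormallyEtale`, or elementary: quotient rule, and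
`L = F(θ)`: `Derivation` determined by the minimal polynomial).  Use `k`-derivations
(`MvPolynomial.mkDerivation`) and `Derivation.restrictScalars ℤ`.  Another way for the second step:
Mathlib `Differential.differentialFiniteDimensional`,
`Differential.differentialAlgebraFiniteDimensional` (FieldTheory/Differential/Basic) applied to each
single derivation `dF a` of the field `F` (`Differential` is a class, use a local instance).
`unique_der`: let `x : R`.  Choose a nonzero polynomial `G = ∑ G_i T^i` over `Y` of minimal degree
with `∑ φ (g G_i) (φ x)^i = 0` (it exists by `hint`, `hinj` makes the leading coefficient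
nonzero in `L`).  With `Z = ∑ g (G_i) x^i` we have `φ Z = 0`, so `E Z = 0` by `hE0`; the Leibniz rule
and `hEg` give `E Z = ∑ i φ (g G_i) (φ x)^(i-1) * E x`.  By minimality of the degree and
characteristic zero the factor of `E x` is not zero.
-/

open MvPolynomial

namespace VG

universe u

private theorem der_ext {Y F : Type u} [CommRing Y] [IsDomain Y] [Field F] [Algebra Y F]
    [IsFractionRing Y F] (D : Derivation ℤ Y Y) :
    ∃ D' : Derivation ℤ F F, ∀ q, D' (algebraMap Y F q) = algebraMap Y F (D q) := by
  haveI : Algebra.FormallyEtale Y F := Algebra.FormallyEtale.of_isLocalization (nonZeroDivisors Y)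
  let l : KaehlerDifferential ℤ Y →ₗ[Y] F :=
    (Algebra.linearMap Y F).comp D.liftKaehlerDifferential
  let m : TensorProduct Y F (KaehlerDifferential ℤ Y) →ₗ[F] F := l.liftBaseChange F
  let e := KaehlerDifferential.tensorKaehlerEquivOfFormallyEtale ℤ Y F
  refine ⟨(m.comp e.symm.toLinearMap).compDer (KaehlerDifferential.D ℤ F), fun q => ?_⟩
  have h1 : e.symm (KaehlerDifferential.D ℤ F (algebraMap Y F q)) =
      TensorProduct.tmul Y 1 (KaehlerDifferential.D ℤ Y q) :=
    KaehlerDifferential.tensorKaehlerEquivOfFormallyEtale_symm_D_algebraMap _ _ _ q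
  have h2 : m (TensorProduct.tmul Y 1 (KaehlerDifferential.D ℤ Y q)) = algebraMap Y F (D q) := by
    rw [LinearMap.liftBaseChange_tmul, one_smul]
    change algebraMap Y F (D.liftKaehlerDifferential (KaehlerDifferential.D ℤ Y q)) = _
    rw [Derivation.liftKaehlerDifferential_comp_D]
  rw [← h2, ← h1]
  rfl

private theorem der_fin {F L : Type u} [Field F] [CharZero F] [Field L] [Algebra F L]
    [FiniteDimensional F L] (D : Derivation ℤ F F) :
    ∃ D' : Derivation ℤ L L, ∀ x, D' (algebraMap F L x) = algebraMap F L (D x) := by
  letI : Differential F := ⟨D⟩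
  letI := Differential.differentialFiniteDimensional F L
  have h := Differential.differentialAlgebraFiniteDimensional (F := F) (K := L)
  exact ⟨Differential.deriv, fun x => h.deriv_algebraMap x⟩

theorem exists_der {k : Type u} [Field k] [CharZero k] {d : ℕ} (F L : Type u) [Field F]
    [Algebra (MvPolynomial (Fin d) k) F] [IsFractionRing (MvPolynomial (Fin d) k) F]
    [Field L] [Algebra F L] [FiniteDimensional F L] :
    ∃ (dF : Fin d → Derivation ℤ F F) (dL : Fin d → Derivation ℤ L L),
      (∀ a x, dL a (algebraMap F L x) = algebraMap F L (dF a x)) ∧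
      (∀ a (q : MvPolynomial (Fin d) k),
        dF a (algebraMap _ F q) = algebraMap _ F (pderiv a q)) := by
  haveI : CharZero F :=
    charZero_of_injective_algebraMap (IsFractionRing.injective (MvPolynomial (Fin d) k) F)
  choose dF hdF using fun a : Fin d =>
    der_ext (F := F) ((pderiv (R := k) a).restrictScalars ℤ)
  choose dL hdL using fun a : Fin d => der_fin (L := L) (dF a)
  exact ⟨dF, dL, hdL, fun a q => hdF a q⟩

private theorem der_leib {Y R L : Type u} [CommRing Y] [CommRing R] [Field L]
    (g : Y →+* R) (φ : R →+* L) (E : R →+ L) (hE : ∀ x z, E (x * z) = φ x * E z + φ z * E x)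
    (hEg : ∀ q, E (g q) = 0) (x : R) (G : Polynomial Y) :
    E (G.eval₂ g x) = (Polynomial.derivative G).eval₂ (φ.comp g) (φ x) * E x := by
  have h1 : ∀ n : ℕ, E (x ^ n) = n * φ x ^ (n - 1) * E x := by
    intro n
    induction n with
    | zero =>
      have h := hEg 1
      rw [map_one] at h
      rw [pow_zero, h, Nat.cast_zero, zero_mul, zero_mul]
    | succ n ih =>
      rw [pow_succ, hE, ih, map_pow, Nat.add_sub_cancel, Nat.cast_succ]
      rcases n with _ | n
      · simp
      · rw [Nat.add_sub_cancel, pow_succ (φ x) n]
        ring
  induction G using Polynomial.induction_on' with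
  | add p q hp hq =>
    rw [Polynomial.eval₂_add, map_add, hp, hq, map_add, Polynomial.eval₂_add, add_mul]
  | monomial n a =>
    rw [Polynomial.eval₂_monomial, hE, hEg, mul_zero, add_zero, h1,
      Polynomial.derivative_monomial, Polynomial.eval₂_monomial, map_mul, map_natCast,
      RingHom.comp_apply]
    ring

theorem unique_der {Y R L : Type u} [CommRing Y] [IsDomain Y] [CommRing R] [Field L] [CharZero L]
    (g : Y →+* R) (φ : R →+* L) (hinj : Function.Injective (φ.comp g))
    (hint : ∀ x : R, (φ.comp g).IsIntegralElem (φ x))
    (E : R →+ L) (hE : ∀ x z, E (x * z) = φ x * E z + φ z * E x)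
    (hEg : ∀ q, E (g q) = 0) (hE0 : ∀ x, φ x = 0 → E x = 0) : ∀ x, E x = 0 := by
  intro x
  haveI : CharZero Y := (RingHom.charZero_iff hinj).2 inferInstance
  have key : ∀ n : ℕ, ∀ G : Polynomial Y, G.natDegree ≤ n → G ≠ 0 →
      G.eval₂ (φ.comp g) (φ x) = 0 → E x = 0 := by
    intro n
    induction n with
    | zero =>
      intro G hG hG0 h
      exfalso
      rw [Polynomial.eq_C_of_natDegree_le_zero hG, Polynomial.eval₂_C] at h
      have h2 : G.coeff 0 = 0 := hinj (by rw [h, map_zero])
      apply hG0
      rw [Polynomial.eq_C_of_natDegree_le_zero hG, h2, map_zero]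
    | succ n ih =>
      intro G hG hG0 h
      by_cases hn : G.natDegree ≤ n
      · exact ih G hn hG0 h
      have hn' : G.natDegree ≠ 0 := by omega
      have h3 : E (G.eval₂ g x) = 0 := by
        apply hE0
        rw [Polynomial.hom_eval₂, h]
      rw [der_leib g φ E hE hEg x G] at h3
      rcases mul_eq_zero.1 h3 with h4 | h4
      · refine ih (Polynomial.derivative G) ?_ ?_ h4
        · have := Polynomial.natDegree_derivative_lt hn'
          omega
        · intro h5
          apply hn'
          exact Polynomial.natDegree_eq_zero_of_derivative_eq_zero h5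
      · exact h4
  obtain ⟨p, hp, hp0⟩ := hint x
  exact key p.natDegree p le_rfl hp.ne_zero hp0

end VG
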