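import Pool.Agent.VG.GBas
import Pool.Agent.VG.Der

/-!
Project VG, module Eul: the Euler derivation of the graded ring is `∑ b_a y_a ∂/∂y_a`.
-/

open MvPolynomial

namespace VG

universe u

/-- the Euler derivation -/
private noncomputable def eulR {k R : Type u} [Field k] [CommRing R] [Algebra k R]
    (𝒜 : ℤ → Submodule k R) [GradedAlgebra 𝒜] : R →+ R :=
  (DirectSum.toAddMonoid (fun e : ℤ => (e • ((𝒜 e).subtype.toAddMonoidHom) : 𝒜 e →+ R))).comp
    (DirectSum.decomposeAddEquiv 𝒜).toAddMonoidHom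

private theorem eulR_mem {k R : Type u} [Field k] [CommRing R] [Algebra k R]
    (𝒜 : ℤ → Submodule k R) [GradedAlgebra 𝒜] {e : ℤ} {x : R} (hx : x ∈ 𝒜 e) :
    eulR 𝒜 x = e • x := by
  unfold eulR
  rw [AddMonoidHom.comp_apply]
  change DirectSum.toAddMonoid _ (DirectSum.decompose 𝒜 x) = _
  rw [DirectSum.decompose_of_mem 𝒜 hx, DirectSum.toAddMonoid_of]
  rfl

private theorem eulR_mul {k R : Type u} [Field k] [CommRing R] [Algebra k R]
    (𝒜 : ℤ → Submodule k R) [GradedAlgebra 𝒜] (x z : R) :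
    eulR 𝒜 (x * z) = x * eulR 𝒜 z + z * eulR 𝒜 x := by
  induction x using DirectSum.Decomposition.inductionOn 𝒜 with
  | zero => simp
  | add x1 x2 h1 h2 =>
    rw [add_mul, map_add, h1, h2, map_add]
    ring
  | homogeneous x =>
    rename_i m
    induction z using DirectSum.Decomposition.inductionOn 𝒜 with
    | zero => simp
    | add z1 z2 h1 h2 =>
      rw [mul_add, map_add, h1, h2, map_add]
      ring
    | homogeneous z =>
      rename_i n
      rw [eulR_mem 𝒜 (SetLike.mul_mem_graded x.2 z.2), eulR_mem 𝒜 x.2, eulR_mem 𝒜 z.2]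
      simp only [zsmul_eq_mul]
      push_cast
      ring

theorem euler_K {k R K : Type u} [Field k] [CommRing R] [Algebra k R]
    (𝒜 : ℤ → Submodule k R) [GradedAlgebra 𝒜] {d : ℕ} (y : Fin d → R)
    (b : Fin d → ℤ) (hy : ∀ a, y a ∈ 𝒜 (b a)) [Field K] [CharZero K]
    [Algebra (MvPolynomial (Fin d) k) K]
    (hinj : Function.Injective (algebraMap (MvPolynomial (Fin d) k) K)) (φ : R →+* K)
    (hφk : ∀ c : k, φ (algebraMap k R c) = algebraMap (MvPolynomial (Fin d) k) K (C c))
    (hφy : ∀ a, φ (y a) = algebraMap (MvPolynomial (Fin d) k) K (X a))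
    (hint : ∀ x, IsIntegral (MvPolynomial (Fin d) k) (φ x))
    (hker : ∀ x, φ x = 0 → ∀ e, φ (gc 𝒜 e x) = 0)
    (dK : Fin d → Derivation ℤ K K)
    (hdK : ∀ a (p : MvPolynomial (Fin d) k), dK a (algebraMap _ K p) = algebraMap _ K (pderiv a p))
    (e : ℤ) (x : R) (hx : x ∈ 𝒜 e) :
    ∑ a, ((b a : ℤ) : K) * φ (y a) * dK a (φ x) = ((e : ℤ) : K) * φ x := by
  let g : MvPolynomial (Fin d) k →+* R := ((aeval y : MvPolynomial (Fin d) k →ₐ[k] R) : _ →+* R)
  have hgC : ∀ c, g (C c) = algebraMap k R c := fun c => aeval_C y c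
  have hgX : ∀ a, g (X a) = y a := fun a => aeval_X y a
  have hcomp : φ.comp g = algebraMap (MvPolynomial (Fin d) k) K := by
    apply MvPolynomial.ringHom_ext
    · intro c
      rw [RingHom.comp_apply, hgC, hφk]
    · intro a
      rw [RingHom.comp_apply, hgX, hφy]
  let E : R →+ K := φ.toAddMonoidHom.comp (eulR 𝒜) -
    ∑ a, (AddMonoidHom.mulLeft (((b a : ℤ) : K) * φ (y a))).comp
      (((dK a).toLinearMap.toAddMonoidHom).comp φ.toAddMonoidHom)
  have hEx : ∀ x, E x = φ (eulR 𝒜 x) - ∑ a, ((b a : ℤ) : K) * φ (y a) * dK a (φ x) := by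
    intro x
    simp only [E, AddMonoidHom.sub_apply, AddMonoidHom.comp_apply, AddMonoidHom.finsetSum_apply]
    rfl
  have hE : ∀ x z, E (x * z) = φ x * E z + φ z * E x := by
    intro x z
    rw [hEx, hEx, hEx, eulR_mul, map_add, map_mul, map_mul, map_mul]
    have h1 : ∑ a, ((b a : ℤ) : K) * φ (y a) * dK a (φ x * φ z) =
        φ x * (∑ a, ((b a : ℤ) : K) * φ (y a) * dK a (φ z)) +
        φ z * (∑ a, ((b a : ℤ) : K) * φ (y a) * dK a (φ x)) := by
      rw [Finset.mul_sum, Finset.mul_sum, ← Finset.sum_add_distrib]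
      refine Finset.sum_congr rfl fun a _ => ?_
      rw [Derivation.leibniz]
      simp only [smul_eq_mul]
      ring
    rw [h1]
    ring
  have hEy : ∀ i, E (y i) = 0 := by
    intro i
    rw [hEx, eulR_mem 𝒜 (hy i), Finset.sum_eq_single i]
    · rw [hφy, hdK, pderiv_X_self, map_one, map_zsmul, zsmul_eq_mul, hφy, mul_one, sub_self]
    · intro a _ ha
      rw [hφy i, hdK, pderiv_X_of_ne ha.symm, map_zero, mul_zero]
    · intro h
      exact absurd (Finset.mem_univ i) h
  have hEg : ∀ q, E (g q) = 0 := by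
    intro q
    induction q using MvPolynomial.induction_on with
    | C c =>
      rw [hgC, hEx, eulR_mem 𝒜 (e := 0) (SetLike.algebraMap_mem_graded 𝒜 c), zero_smul, map_zero,
        Finset.sum_eq_zero, sub_zero]
      intro a _
      rw [hφk, hdK, pderiv_C, map_zero, mul_zero]
    | add p q hp hq => rw [map_add, map_add, hp, hq, add_zero]
    | mul_X p i hp => rw [map_mul, hE, hgX, hEy, hp, mul_zero, mul_zero, add_zero]
  have hE0 : ∀ x, φ x = 0 → E x = 0 := by
    intro x hx
    rw [hEx, hx]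
    have h1 : φ (eulR 𝒜 x) = 0 := by
      obtain ⟨s, hs, _⟩ := gc_sum 𝒜 x
      rw [hs, map_sum, map_sum]
      refine Finset.sum_eq_zero fun d _ => ?_
      rw [eulR_mem 𝒜 (gc_mem 𝒜 d x), map_zsmul, hker x hx d, smul_zero]
    rw [h1]
    simp
  have h1 := unique_der g φ (by rw [hcomp]; exact hinj) (fun x => by rw [hcomp]; exact hint x)
    E hE hEg hE0 x
  rw [hEx, eulR_mem 𝒜 hx, map_zsmul, zsmul_eq_mul, sub_eq_zero] at h1
  exact h1.symm

end VG
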