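import Pool.Agent.VG.KGr

/-!
Project VG, module FTI: the elements `y` such that `y • id` on `I/I^2` factors through a free module
form a homogeneous ideal containing `I`.
-/

open MvPolynomial

namespace VG

universe u

private theorem lift_indep {A : Type u} [CommRing A] (I : Ideal A) {ι : Type*} [Fintype ι]
    (ρ : ι → I) (c c' : ι → A) (h : ∀ j, Ideal.Quotient.mk I (c j) = Ideal.Quotient.mk I (c' j)) :
    ∑ j, c j * (ρ j : A) - ∑ j, c' j * (ρ j : A) ∈ I ^ 2 := by
  rw [← Finset.sum_sub_distrib, pow_two]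
  refine Ideal.sum_mem _ fun j _ => ?_
  rw [← sub_mul]
  exact Ideal.mul_mem_mul (Ideal.Quotient.eq.1 (h j)) (ρ j).2

private theorem ft_of_fintype {A : Type u} [CommRing A] (I : Ideal A) {ι : Type*} [Fintype ι]
    {y : A} (φ : ι → (I →ₗ[A] A ⧸ I)) (ρ : ι → I)
    (h : ∀ (x : I) (c : ι → A), (∀ j, Ideal.Quotient.mk I (c j) = φ j x) →
      y * x - ∑ j, c j * (ρ j : A) ∈ I ^ 2) : FT I y := by
  obtain ⟨e⟩ : Nonempty (ι ≃ Fin (Fintype.card ι)) := ⟨Fintype.equivFin ι⟩
  refine ⟨Fintype.card ι, fun j => φ (e.symm j), fun j => ρ (e.symm j), fun x c hc => ?_⟩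
  have h1 := h x (fun i => c (e i)) fun i => by
    rw [hc (e i)]
    beta_reduce
    rw [Equiv.symm_apply_apply]
  have h2 : ∑ i, c (e i) * (ρ i : A) = ∑ j, c j * (ρ (e.symm j) : A) := by
    rw [← Equiv.sum_comp e]
    refine Finset.sum_congr rfl fun i _ => ?_
    rw [Equiv.symm_apply_apply]
  rw [h2] at h1
  exact h1

/-- the ideal of all `y` such that `y • id` on `I/I^2` factors through a free module -/
def FTI {A : Type u} [CommRing A] (I : Ideal A) : Ideal A where
  carrier := {y | FT I y}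
  add_mem' := by
    rintro y y' ⟨m, φ, ρ, h⟩ ⟨m', φ', ρ', h'⟩
    refine ft_of_fintype I (ι := Fin m ⊕ Fin m') (Sum.elim φ φ') (Sum.elim ρ ρ') fun x c hc => ?_
    have h1 := h x (fun j => c (Sum.inl j)) fun j => hc (Sum.inl j)
    have h2 := h' x (fun j => c (Sum.inr j)) fun j => hc (Sum.inr j)
    have h3 := Ideal.add_mem _ h1 h2
    rw [Fintype.sum_sum_type]
    simp only [Sum.elim_inl, Sum.elim_inr]
    have h4 : (y + y') * (x : A) - (∑ j, c (Sum.inl j) * (ρ j : A) + ∑ j, c (Sum.inr j) * (ρ' j : A)) =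
        y * x - ∑ j, c (Sum.inl j) * (ρ j : A) + (y' * x - ∑ j, c (Sum.inr j) * (ρ' j : A)) := by
      ring
    rw [h4]
    exact h3
  zero_mem' := by
    refine ⟨0, fun j => j.elim0, fun j => j.elim0, fun x c _ => ?_⟩
    rw [Finset.univ_eq_empty, Finset.sum_empty, zero_mul, sub_zero]
    exact Ideal.zero_mem _
  smul_mem' := by
    rintro a y ⟨m, φ, ρ, h⟩
    refine ⟨m, φ, fun j => a • ρ j, fun x c hc => ?_⟩
    have h1 := Ideal.mul_mem_left _ a (h x c hc)
    have h2 : a • y * (x : A) - ∑ j, c j * ((a • ρ j : I) : A) = a * (y * x - ∑ j, c j * (ρ j : A)) := by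
      rw [mul_sub, Finset.mul_sum, smul_eq_mul, mul_assoc]
      congr 1
      refine Finset.sum_congr rfl fun j _ => ?_
      rw [Submodule.coe_smul, smul_eq_mul]
      ring
    rw [h2]
    exact h1

theorem mem_FTI {A : Type u} [CommRing A] (I : Ideal A) (y : A) : y ∈ FTI I ↔ FT I y :=
  Iff.rfl

theorem le_FTI {A : Type u} [CommRing A] (I : Ideal A) : I ≤ FTI I := by
  intro y hy
  refine ⟨0, fun j => j.elim0, fun j => j.elim0, fun x c _ => ?_⟩
  rw [Finset.univ_eq_empty, Finset.sum_empty, sub_zero, pow_two]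
  exact Ideal.mul_mem_mul hy x.2

private theorem ft_of_gens {A : Type u} [CommRing A] (I : Ideal A) {ι : Type*} [Fintype ι] {μ : ℕ}
    (f : Fin μ → I) (hspan : Submodule.span A (Set.range f) = ⊤) {y : A} (φ : ι → (I →ₗ[A] A ⧸ I))
    (ρ : ι → I) (h : ∀ l, ∃ c : ι → A, (∀ j, Ideal.Quotient.mk I (c j) = φ j (f l)) ∧
      y * f l - ∑ j, c j * (ρ j : A) ∈ I ^ 2) : FT I y := by
  refine ft_of_fintype I φ ρ fun x c hc => ?_
  have key : ∀ x : I, ∃ c : ι → A, (∀ j, Ideal.Quotient.mk I (c j) = φ j x) ∧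
      y * x - ∑ j, c j * (ρ j : A) ∈ I ^ 2 := by
    intro x
    have hx : x ∈ Submodule.span A (Set.range f) := by
      rw [hspan]
      exact Submodule.mem_top
    induction hx using Submodule.span_induction with
    | mem x hx =>
      obtain ⟨l, rfl⟩ := hx
      exact h l
    | zero =>
      refine ⟨0, fun j => by rw [map_zero]; exact map_zero _, ?_⟩
      simp
    | add x x' _ _ h1 h2 =>
      obtain ⟨c, h3, h4⟩ := h1
      obtain ⟨c', h5, h6⟩ := h2
      refine ⟨c + c', fun j => by rw [Pi.add_apply, map_add, h3, h5, map_add], ?_⟩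
      have h7 := Ideal.add_mem _ h4 h6
      have h8 : y * ((x + x' : I) : A) - ∑ j, (c + c') j * (ρ j : A) =
          y * x - ∑ j, c j * (ρ j : A) + (y * x' - ∑ j, c' j * (ρ j : A)) := by
        simp only [Pi.add_apply, add_mul, Finset.sum_add_distrib, Submodule.coe_add]
        ring
      rw [h8]
      exact h7
    | smul a x _ h1 =>
      obtain ⟨c, h3, h4⟩ := h1
      refine ⟨fun j => a * c j, fun j => ?_, ?_⟩
      · rw [map_mul, h3, map_smul]
        rfl
      · have h7 := Ideal.mul_mem_left _ a h4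
        have h8 : y * ((a • x : I) : A) - ∑ j, a * c j * (ρ j : A) =
            a * (y * x - ∑ j, c j * (ρ j : A)) := by
          rw [mul_sub, Finset.mul_sum, Submodule.coe_smul, smul_eq_mul]
          simp only [mul_assoc]
          ring
        rw [h8]
        exact h7
  obtain ⟨c', h1, h2⟩ := key x
  have h3 := lift_indep I ρ c' c fun j => by rw [h1, hc]
  have h4 := Ideal.add_mem _ h2 h3
  have h5 : y * (x : A) - ∑ j, c' j * (ρ j : A) + (∑ j, c' j * (ρ j : A) - ∑ j, c j * (ρ j : A)) =
      y * x - ∑ j, c j * (ρ j : A) := by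
    ring
  rw [h5] at h4
  exact h4

variable {k : Type u} [Field k] {n : ℕ} (w : Fin n → ℤ) (I : Ideal (MvPolynomial (Fin n) k))

section
attribute [local instance] MvPolynomial.weightedGradedAlgebra

private theorem gc_eq (d : ℤ) (f : MvPolynomial (Fin n) k) :
    gc (weightedHomogeneousSubmodule k w) d f = weightedHomogeneousComponent w d f :=
  weightedDecomposition.decompose'_apply k w f d

private theorem whc_sum (f : MvPolynomial (Fin n) k) : ∃ s : Finset ℤ,
    f = ∑ d ∈ s, weightedHomogeneousComponent w d f := by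
  obtain ⟨s, h1, -⟩ := gc_sum (weightedHomogeneousSubmodule k w) f
  refine ⟨s, ?_⟩
  simp only [gc_eq] at h1
  exact h1

private theorem whc_mul {m : ℤ} {a : MvPolynomial (Fin n) k}
    (ha : a ∈ weightedHomogeneousSubmodule k w m) (d : ℤ) (x : MvPolynomial (Fin n) k) :
    weightedHomogeneousComponent w d (a * x) = a * weightedHomogeneousComponent w (d - m) x := by
  have h := gc_mul (weightedHomogeneousSubmodule k w) ha d x
  rw [gc_eq, gc_eq] at h
  exact h

end

private theorem whc_conv (p q : MvPolynomial (Fin n) k) {s : Finset ℤ}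
    (hs : q = ∑ b ∈ s, weightedHomogeneousComponent w b q) (d : ℤ) :
    weightedHomogeneousComponent w d (p * q) =
      ∑ b ∈ s, weightedHomogeneousComponent w (d - b) p * weightedHomogeneousComponent w b q := by
  conv_lhs => rw [hs, Finset.mul_sum, map_sum]
  refine Finset.sum_congr rfl fun b _ => ?_
  rw [mul_comm, whc_mul w (weightedHomogeneousComponent_mem w q b), mul_comm]

private theorem sq_hom (hI : HomI w I) : HomI w (I ^ 2) := by
  intro f hf d
  rw [pow_two] at hf ⊢
  refine Submodule.mul_induction_on hf (fun p hp q hq => ?_) (fun x y hx hy => ?_)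
  · obtain ⟨s, hs⟩ := whc_sum w q
    rw [whc_conv w p q hs]
    exact Ideal.sum_mem _ fun b _ => Ideal.mul_mem_mul (hI p hp _) (hI q hq _)
  · rw [map_add]
    exact Ideal.add_mem _ hx hy

theorem FTI_hom (hI : HomI w I) : HomI w (FTI I) := by
  intro y hy d
  obtain ⟨μ, f, t, hf, hspan⟩ := exists_hom_gens w I hI
  obtain ⟨m, φ, ρ, h⟩ := hy
  have hψ : ∀ (j : Fin m) (e : ℤ), ∃ ψ : I →ₗ[MvPolynomial (Fin n) k] (MvPolynomial (Fin n) k ⧸ I),
      ∀ l, ψ (f l) = gq w I hI (e + t l) (φ j (f l)) := by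
    intro j e
    obtain ⟨ψ, hψ⟩ := K0_graded w I hI f t hf hspan (fun l => φ j (f l)) ⟨φ j, rfl⟩ e
    exact ⟨ψ, fun l => congrFun hψ l⟩
  choose ψ hψ using hψ
  choose c hc using fun (j : Fin m) (l : Fin μ) => Ideal.Quotient.mk_surjective (φ j (f l))
  choose s hs using fun j => whc_sum w (ρ j : MvPolynomial (Fin n) k)
  refine ft_of_gens I (ι := Σ j : Fin m, s j) f hspan (fun p => ψ p.1 (d - p.2))
    (fun p => ⟨weightedHomogeneousComponent w p.2 (ρ p.1 : MvPolynomial (Fin n) k), hI _ (ρ p.1).2 _⟩)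
    (fun l => ⟨fun p => weightedHomogeneousComponent w (d + t l - p.2) (c p.1 l), ?_, ?_⟩)
  · intro p
    rw [hψ, ← hc]
    have h1 : d - (p.2 : ℤ) + t l = d + t l - p.2 := by ring
    rw [h1]
    exact (gc_mk w I hI _ _).symm
  · have h1 := sq_hom w I hI _ (h (f l) (fun j => c j l) (fun j => hc j l)) (d + t l)
    have h2 : weightedHomogeneousComponent w (d + t l) (y * (f l : MvPolynomial (Fin n) k)) =
        weightedHomogeneousComponent w d y * f l := by
      rw [mul_comm, whc_mul w (hf l), add_sub_cancel_right, mul_comm]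
    rw [map_sub, map_sum, h2] at h1
    have h3 : ∑ j, weightedHomogeneousComponent w (d + t l) (c j l * (ρ j : MvPolynomial (Fin n) k)) =
        ∑ p : Σ j : Fin m, s j, weightedHomogeneousComponent w (d + t l - p.2) (c p.1 l) *
          weightedHomogeneousComponent w p.2 (ρ p.1 : MvPolynomial (Fin n) k) := by
      rw [Fintype.sum_sigma]
      refine Finset.sum_congr rfl fun j _ => ?_
      rw [whc_conv w (c j l) (ρ j) (hs j)]
      exact (Finset.sum_coe_sort (s j) fun b : ℤ =>
        weightedHomogeneousComponent w (d + t l - b) (c j l) *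
          weightedHomogeneousComponent w b (ρ j : MvPolynomial (Fin n) k)).symm
    rw [h3] at h1
    exact h1

end VG
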