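import Mathlib

/-!
Project VG, module Fld: fraction fields.

PLAN.  `F = FractionRing Y`, `K = FractionRing B`, `Algebra Y B` from `g` (`RingHom.toAlgebra`),
`FaithfulSMul Y B` from injectivity, `Algebra F K` = `FractionRing.liftAlgebra`, scalar towers from
Mathlib (`FractionRing.isScalarTower_liftAlgebra`), `FiniteDimensional F K`: `K` is the localization of
`B` at the image of `Y \ {0}` (Mathlib `IsIntegralClosure`/`Module.Finite` of fraction rings:
`FiniteDimensional (FractionRing _) (FractionRing _)` instance for finite extensions, or
`IsLocalization` of a finite module).  Integrality: finite implies integral, mapped to `K`.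
-/

open MvPolynomial

namespace VG

universe u

theorem exists_field {Y B : Type u} [CommRing Y] [IsDomain Y] [CommRing B] [IsDomain B]
    (g : Y →+* B) (hg : Function.Injective g) (hfin : g.Finite) :
    ∃ (F K : Type u) (_ : Field F) (_ : Field K) (_ : Algebra Y F) (_ : IsFractionRing Y F)
      (_ : Algebra F K) (_ : Algebra Y K) (_ : IsScalarTower Y F K) (_ : FiniteDimensional F K)
      (φ : B →+* K), Function.Injective φ ∧ (∀ p, φ (g p) = algebraMap Y K p) ∧
      ∀ x, IsIntegral Y (φ x) := by
  let i1 : Algebra Y B := g.toAlgebra
  have i2 : Module.Finite Y B := hfin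
  have i3 : FaithfulSMul Y B := (faithfulSMul_iff_algebraMap_injective Y B).2 hg
  let i4 : Algebra (FractionRing Y) (FractionRing B) := FractionRing.liftAlgebra Y (FractionRing B)
  have i5 : IsScalarTower Y (FractionRing Y) (FractionRing B) :=
    FractionRing.isScalarTower_liftAlgebra Y (FractionRing B)
  have i6 : FiniteDimensional (FractionRing Y) (FractionRing B) :=
    Module.Finite.of_isLocalization Y B (nonZeroDivisors Y)
  refine ⟨FractionRing Y, FractionRing B, inferInstance, inferInstance, inferInstance,
    inferInstance, i4, inferInstance, i5, i6, algebraMap B (FractionRing B),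
    IsFractionRing.injective B (FractionRing B), fun p => ?_, fun x => ?_⟩
  · exact (IsScalarTower.algebraMap_apply Y B (FractionRing B) p).symm
  · exact (Algebra.IsIntegral.isIntegral (R := Y) x).algebraMap

end VG
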