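import Mathlib

/-!
Project VG, module HtpA: contracting homotopies for `y` on a free resolution.

PLAN.  `Pi = P' * σ`: `σ * Pi = y • σ` by `hP'` applied to the columns, and `Pi * δ 0 = 0` by `cxσ`.
`s 0`: every column of `y • 1 - Pi` is in the kernel of `σ`, so by `exσ` it is `δ 0 *ᵥ w`; the `w`s are
the columns of `s 0`: `δ 0 * s 0 = y • 1 - Pi`.  `s 1`: `δ 0 * (y • 1 - s 0 * δ 0) = y • δ 0 -
(y • 1 - Pi) * δ 0 = Pi * δ 0 = 0`, so by `exδ 0` there is `s 1` with `δ 1 * s 1 = y • 1 - s 0 * δ 0`.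
`s (p+2)`: `δ (p+1) * (y • 1 - s (p+1) * δ (p+1)) = y • δ (p+1) - (y • 1 - s p * δ p) * δ (p+1)
= s p * (δ p * δ (p+1)) = 0`.  Recursive construction of the dependent sequence: define by `Nat.rec`
a sequence of pairs `(s p, property)`, i.e. of the subtype
`{s : Matrix (Fin (r (p+1))) (Fin (r p)) R // δ p * (y • 1 - s * δ p) = 0}`, and keep the relation
of consecutive terms by choosing `s (p+1)` with a specification (`Classical.choose`).
-/

open Matrix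

namespace VG

universe u

private theorem htpa_lift {R : Type u} [CommRing R] {a b c d : ℕ} (A : Matrix (Fin a) (Fin b) R)
    (B : Matrix (Fin b) (Fin c) R) (h : ∀ u, A *ᵥ u = 0 → ∃ w, u = B *ᵥ w)
    (X : Matrix (Fin b) (Fin d) R) (hX : A * X = 0) : ∃ Y : Matrix (Fin c) (Fin d) R, B * Y = X := by
  have h1 : ∀ j, ∃ w, (fun i => X i j) = B *ᵥ w := by
    intro j
    apply h
    funext i
    exact congrFun (congrFun hX i) j
  choose w hw using h1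
  refine ⟨fun i j => w j i, ?_⟩
  ext i j
  exact (congrFun (hw j) i).symm

theorem exists_htpy {R : Type u} [CommRing R] {μ : ℕ} (r : ℕ → ℕ)
    (σ : Matrix (Fin μ) (Fin (r 0)) R) (δ : ∀ p, Matrix (Fin (r p)) (Fin (r (p + 1))) R)
    (cxσ : σ * δ 0 = 0) (cxδ : ∀ p, δ p * δ (p + 1) = 0)
    (exσ : ∀ u, σ *ᵥ u = 0 → ∃ w, u = δ 0 *ᵥ w)
    (exδ : ∀ p u, δ p *ᵥ u = 0 → ∃ w, u = δ (p + 1) *ᵥ w)
    (y : R) (P' : Matrix (Fin (r 0)) (Fin μ) R) (hP' : σ * (P' * σ) = y • σ) :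
    ∃ s : ∀ p, Matrix (Fin (r (p + 1))) (Fin (r p)) R,
      δ 0 * s 0 = y • (1 : Matrix (Fin (r 0)) (Fin (r 0)) R) - P' * σ ∧
      (∀ p, δ (p + 1) * s (p + 1) + s p * δ p =
        y • (1 : Matrix (Fin (r (p + 1))) (Fin (r (p + 1))) R)) ∧
      (P' * σ) * δ 0 = 0 := by
  have hz : (P' * σ) * δ 0 = 0 := by rw [Matrix.mul_assoc, cxσ, Matrix.mul_zero]
  obtain ⟨s0, hs0⟩ := htpa_lift σ (δ 0) exσ (y • (1 : Matrix (Fin (r 0)) (Fin (r 0)) R) - P' * σ) (by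
    rw [Matrix.mul_sub, hP', Matrix.mul_smul, Matrix.mul_one, sub_self])
  have step : ∀ (p : ℕ) (x : {s : Matrix (Fin (r (p + 1))) (Fin (r p)) R //
      δ p * (y • (1 : Matrix (Fin (r (p + 1))) (Fin (r (p + 1))) R) - s * δ p) = 0}),
      ∃ x' : {s : Matrix (Fin (r (p + 1 + 1))) (Fin (r (p + 1))) R //
        δ (p + 1) * (y • (1 : Matrix (Fin (r (p + 1 + 1))) (Fin (r (p + 1 + 1))) R) - s * δ (p + 1)) = 0},
        δ (p + 1) * x'.1 + x.1 * δ p = y • (1 : Matrix (Fin (r (p + 1))) (Fin (r (p + 1))) R) := by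
    rintro p ⟨s, hs⟩
    obtain ⟨s', hs'⟩ := htpa_lift (δ p) (δ (p + 1)) (exδ p) _ hs
    refine ⟨⟨s', ?_⟩, ?_⟩
    · rw [Matrix.mul_sub, ← Matrix.mul_assoc, hs', Matrix.sub_mul, Matrix.smul_mul, Matrix.one_mul,
        Matrix.mul_smul, Matrix.mul_one, Matrix.mul_assoc, cxδ, Matrix.mul_zero, sub_zero, sub_self]
    · show δ (p + 1) * s' + s * δ p = _
      rw [hs', sub_add_cancel]
  have hx0 : δ 0 * (y • (1 : Matrix (Fin (r (0 + 1))) (Fin (r (0 + 1))) R) - s0 * δ 0) = 0 := by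
    rw [Matrix.mul_sub, ← Matrix.mul_assoc, hs0, Matrix.sub_mul, Matrix.smul_mul, Matrix.one_mul,
      Matrix.mul_smul, Matrix.mul_one, hz, sub_zero, sub_self]
  let sq : ∀ p : ℕ, {s : Matrix (Fin (r (p + 1))) (Fin (r p)) R //
      δ p * (y • (1 : Matrix (Fin (r (p + 1))) (Fin (r (p + 1))) R) - s * δ p) = 0} :=
    fun p => Nat.rec ⟨s0, hx0⟩ (fun p x => (step p x).choose) p
  refine ⟨fun p => (sq p).1, hs0, fun p => ?_, hz⟩
  exact (step p (sq p)).choose_spec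

end VG
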