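import Pool.Agent.VG.KGr

/-!
Project VG, module HtpB: a factorisation of `y • id` on the conormal module gives a section of the
resolution up to `y`, compatible with derivations.
-/

open MvPolynomial Matrix

namespace VG

universe u

variable {k : Type u} [Field k] {n : ℕ} (I : Ideal (MvPolynomial (Fin n) k))

private theorem kill_sq {A : Type u} [CommRing A] (I : Ideal A) (ψ : I →ₗ[A] A ⧸ I) (z : I)
    (hz : (z : A) ∈ I ^ 2) : ψ z = 0 := by
  have h1 : z ∈ I • (⊤ : Submodule A I) := by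
    rw [Submodule.mem_smul_top_iff, smul_eq_mul, ← pow_two]
    exact hz
  have h2 : I • (⊤ : Submodule A I) ≤ LinearMap.ker ψ := by
    rw [Submodule.smul_le]
    intro a ha b _
    rw [LinearMap.mem_ker, map_smul, Algebra.smul_def]
    have h3 : algebraMap A (A ⧸ I) a = 0 := Ideal.Quotient.eq_zero_iff_mem.mpr ha
    rw [h3, zero_mul]
  exact h2 h1

private theorem smul_mk {A : Type u} [CommRing A] (I : Ideal A) (a : A) (b : A ⧸ I) :
    a • b = Ideal.Quotient.mk I a * b := Algebra.smul_def a b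

private theorem comb {A : Type u} [CommRing A] (I : Ideal A) {m : ℕ} (φ : Fin m → (I →ₗ[A] A ⧸ I))
    (ρ : Fin m → I) (y : A)
    (h : ∀ (x : I) (c : Fin m → A), (∀ j, Ideal.Quotient.mk I (c j) = φ j x) →
      y * x - ∑ j, c j * ρ j ∈ I ^ 2) (ψ : I →ₗ[A] A ⧸ I) (x : I) :
    ∑ j, ψ (ρ j) * φ j x = Ideal.Quotient.mk I y * ψ x := by
  have h1 : ∀ j, ∃ c : A, Ideal.Quotient.mk I c = φ j x := fun j => Ideal.Quotient.mk_surjective _
  choose c hc using h1
  have h2 := kill_sq I ψ (y • x - ∑ j, c j • ρ j) (by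
    have h3 := h x c hc
    simpa using h3)
  rw [map_sub, map_smul, map_sum, sub_eq_zero, smul_mk] at h2
  rw [h2]
  refine Finset.sum_congr rfl fun j _ => ?_
  rw [map_smul, smul_mk, hc, mul_comm]

theorem exists_section {μ : ℕ} (f : Fin μ → I)
    (hspan : Submodule.span (MvPolynomial (Fin n) k) (Set.range f) = ⊤) (r0 : ℕ)
    (σ : Matrix (Fin μ) (Fin r0) (MvPolynomial (Fin n) k ⧸ I))
    (hK : ∀ u, u ∈ K0 I f ↔ ∃ v, u = σ *ᵥ v)
    (J : Fin n → Fin r0 → MvPolynomial (Fin n) k ⧸ I)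
    (hJ : ∀ i, evf I f (dfun I i) = σ *ᵥ J i)
    (y : MvPolynomial (Fin n) k) (hy : FT I y) :
    ∃ P' : Matrix (Fin r0) (Fin μ) (MvPolynomial (Fin n) k ⧸ I),
      σ * (P' * σ) = Ideal.Quotient.mk I y • σ ∧
      ∀ q : Fin r0, ∃ ρ ∈ I, ∀ i, ((P' * σ) *ᵥ J i) q = Ideal.Quotient.mk I (pderiv i ρ) := by
  classical
  obtain ⟨m, φ, ρ, hφ⟩ := hy
  have h1 : ∀ j, ∃ c : Fin μ → MvPolynomial (Fin n) k, ∑ l, c l • f l = ρ j := by
    intro j
    have h2 : ρ j ∈ Submodule.span (MvPolynomial (Fin n) k) (Set.range f) := by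
      rw [hspan]
      exact Submodule.mem_top
    exact (Submodule.mem_span_range_iff_exists_fun _).1 h2
  choose ρc hρc using h1
  have h2 : ∀ j, ∃ v, evf I f (φ j) = σ *ᵥ v := fun j => (hK _).1 ⟨φ j, rfl⟩
  choose v hv using h2
  have h3 : ∀ (ψ : I →ₗ[MvPolynomial (Fin n) k] (MvPolynomial (Fin n) k ⧸ I)) (j : Fin m),
      ∑ l, Ideal.Quotient.mk I (ρc j l) * evf I f ψ l = ψ (ρ j) := by
    intro ψ j
    rw [← hρc j, map_sum]
    refine Finset.sum_congr rfl fun l _ => ?_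
    rw [map_smul, smul_mk]
    rfl
  let P' : Matrix (Fin r0) (Fin μ) (MvPolynomial (Fin n) k ⧸ I) :=
    Matrix.of fun i l => ∑ j, Ideal.Quotient.mk I (ρc j l) * v j i
  have h4 : ∀ (ψ : I →ₗ[MvPolynomial (Fin n) k] (MvPolynomial (Fin n) k ⧸ I)) (i : Fin r0),
      (P' *ᵥ evf I f ψ) i = ∑ j, ψ (ρ j) * v j i := by
    intro ψ i
    have h5 : (P' *ᵥ evf I f ψ) i =
        ∑ l, (∑ j, Ideal.Quotient.mk I (ρc j l) * v j i) * evf I f ψ l := rfl
    rw [h5]
    simp only [Finset.sum_mul]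
    rw [Finset.sum_comm]
    refine Finset.sum_congr rfl fun j _ => ?_
    rw [← h3 ψ j, Finset.sum_mul]
    refine Finset.sum_congr rfl fun l _ => ?_
    ring
  have h5 : ∀ (ψ : I →ₗ[MvPolynomial (Fin n) k] (MvPolynomial (Fin n) k ⧸ I)),
      σ *ᵥ (P' *ᵥ evf I f ψ) = Ideal.Quotient.mk I y • evf I f ψ := by
    intro ψ
    funext l
    have h6 : (σ *ᵥ (P' *ᵥ evf I f ψ)) l = ∑ i, σ l i * (P' *ᵥ evf I f ψ) i := rfl
    have h7 : ∀ j, ∑ i, σ l i * v j i = φ j (f l) := by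
      intro j
      have h8 := congrFun (hv j) l
      exact h8.symm
    rw [h6]
    simp only [h4, Finset.mul_sum]
    rw [Finset.sum_comm]
    have h8 : ∀ j, ∑ i, σ l i * (ψ (ρ j) * v j i) = ψ (ρ j) * φ j (f l) := by
      intro j
      rw [← h7 j, Finset.mul_sum]
      refine Finset.sum_congr rfl fun i _ => ?_
      ring
    simp only [h8]
    rw [comb I φ ρ y hφ ψ (f l)]
    rfl
  refine ⟨P', ?_, ?_⟩
  · ext l q
    have h6 : σ *ᵥ (Pi.single q 1) ∈ K0 I f := (hK _).2 ⟨_, rfl⟩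
    obtain ⟨ψ, hψ⟩ := h6
    have h7 := congrFun (h5 ψ) l
    rw [hψ, Matrix.mulVec_mulVec, Matrix.mulVec_mulVec, Matrix.mulVec_single_one] at h7
    rw [Matrix.mulVec_single_one, Matrix.mul_assoc] at h7
    exact h7
  · intro q
    have h6 : ∀ j, ∃ c : MvPolynomial (Fin n) k, Ideal.Quotient.mk I c = v j q :=
      fun j => Ideal.Quotient.mk_surjective _
    choose c hc using h6
    refine ⟨∑ j, c j * ρ j, Submodule.sum_mem _ fun j _ => I.mul_mem_left _ (ρ j).2, ?_⟩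
    intro i
    rw [← Matrix.mulVec_mulVec, ← hJ i, h4, map_sum, map_sum]
    refine Finset.sum_congr rfl fun j _ => ?_
    rw [Derivation.leibniz, map_add, smul_eq_mul, smul_eq_mul, map_mul, map_mul, hc]
    have h7 : Ideal.Quotient.mk I (ρ j : MvPolynomial (Fin n) k) = 0 :=
      Ideal.Quotient.eq_zero_iff_mem.mpr (ρ j).2
    rw [h7, zero_mul, add_zero, mul_comm]
    rfl

end VG
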