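import Pool.Agent.VG.GAv

/-!
Project VG, module FinK: a graded ring is finite over the subalgebra generated by homogeneous
elements `y` with `irr^N ≤ (y)`.

PLAN.  `irr` is generated by finitely many homogeneous elements `z_1, .., z_g` of positive degree
(Noetherian).  `R = k-span(monomials in z of length < N) + irr^N`: by induction on `N`
(`x = gc 0 x + (x - gc 0 x)`, `gc 0 x = algebraMap c`, the rest in `irr`, `irr = ∑ z_i R`).  Let `U` be
the finite set of monomials in `z` of length `< N` (homogeneous elements) and `W` the sum of the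
`k[y] u`, `u ∈ U`, where `k[y]` is the range of `aeval y`.  Claim: `𝒜 e ⊆ W` for all `e`, by strong
induction on `e` (`e < 0` trivial): `x ∈ 𝒜 e`; `x = ∑ c_u u + ∑ y_a r_a`; take the component of degree
`e`: `x = ∑ gc e (c_u u) + ∑ y_a gc (e - b a) (r_a)` (`gc_mul`); `gc e (c_u u)` is `c_u u` or `0`, and
`gc (e - b a) (r_a) ∈ W` by induction as `b a > 0`; `y_a W ⊆ W`.  So `W = R` (`gc_sum`), i.e. `R` is a
finite module over `MvPolynomial (Fin d) k` via `aeval y`; then also `R ⧸ q`
(`RingHom.Finite.comp` with the surjection `R → R ⧸ q`).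
-/

open MvPolynomial

namespace VG

universe u

variable {k R : Type u} [Field k] [CommRing R] [Algebra k R] (𝒜 : ℤ → Submodule k R)
  [GradedAlgebra 𝒜]

private theorem fk_gens [IsNoetherianRing R] :
    ∃ Z : Finset R, (∀ z ∈ Z, z ∈ irr 𝒜 ∧ ∃ e, z ∈ 𝒜 e) ∧ irr 𝒜 = Ideal.span (Z : Set R) := by
  have h1 : (Submodule.span R {x : R | ∃ d : ℤ, 0 < d ∧ x ∈ 𝒜 d}).FG := IsNoetherian.noetherian _
  obtain ⟨Z, hZ, h2⟩ := (Submodule.fg_span_iff_fg_span_finset_subset _).1 h1
  refine ⟨Z, fun z hz => ⟨Ideal.subset_span (hZ hz), ?_⟩, h2⟩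
  obtain ⟨e, _, he⟩ := hZ hz
  exact ⟨e, he⟩

private theorem fk_span (hC : Conn 𝒜) (Z : Finset R) (hZ : ∀ z ∈ Z, z ∈ irr 𝒜 ∧ ∃ e, z ∈ 𝒜 e)
    (hirr : irr 𝒜 = Ideal.span (Z : Set R)) (N : ℕ) :
    ∃ U : Finset R, (∀ u ∈ U, ∃ e, u ∈ 𝒜 e) ∧
      ∀ x : R, ∃ v ∈ Submodule.span k (U : Set R), x - v ∈ (irr 𝒜) ^ N := by
  classical
  induction N with
  | zero =>
    refine ⟨∅, fun u hu => absurd hu (Finset.notMem_empty u), fun x => ⟨0, Submodule.zero_mem _, ?_⟩⟩
    rw [pow_zero, Ideal.one_eq_top]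
    exact Submodule.mem_top
  | succ N ih =>
    obtain ⟨U, hU, hN⟩ := ih
    refine ⟨insert 1 ((Z ×ˢ U).image fun p => p.1 * p.2), ?_, ?_⟩
    · intro u hu
      rcases Finset.mem_insert.1 hu with rfl | hu
      · exact ⟨0, SetLike.GradedOne.one_mem⟩
      · obtain ⟨⟨z, u'⟩, hp, rfl⟩ := Finset.mem_image.1 hu
        obtain ⟨h1, h2⟩ := Finset.mem_product.1 hp
        obtain ⟨e, he⟩ := (hZ z h1).2
        obtain ⟨e', he'⟩ := hU u' h2
        exact ⟨e + e', SetLike.GradedMul.mul_mem he he'⟩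
    · intro x
      have h1 : x - gc 𝒜 0 x ∈ irr 𝒜 := by
        rw [irr_iff 𝒜 hC, map_sub, gc_same 𝒜 (gc_mem 𝒜 0 x), sub_self]
      obtain ⟨c, hc⟩ := hC.zero _ (gc_mem 𝒜 0 x)
      rw [hirr] at h1
      obtain ⟨f, _, hf⟩ := Submodule.mem_span_finset.1 h1
      choose v hv hv' using hN
      refine ⟨c • (1 : R) + ∑ a ∈ Z, a * v (f a), ?_, ?_⟩
      · refine Submodule.add_mem _ (Submodule.smul_mem _ c (Submodule.subset_span ?_)) (Submodule.sum_mem _ fun a ha => ?_)
        · exact Finset.mem_coe.2 (Finset.mem_insert_self _ _)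
        · have h2 : ∀ w ∈ Submodule.span k (U : Set R), a * w ∈ Submodule.span k
              (((insert 1 ((Z ×ˢ U).image fun p => p.1 * p.2) : Finset R)) : Set R) := by
            intro w hw
            induction hw using Submodule.span_induction with
            | mem u hu =>
              refine Submodule.subset_span (Finset.mem_coe.2 (Finset.mem_insert_of_mem (Finset.mem_image.2
                ⟨(a, u), Finset.mem_product.2 ⟨ha, Finset.mem_coe.1 hu⟩, rfl⟩)))
            | zero =>
              rw [mul_zero]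
              exact Submodule.zero_mem _
            | add u u' _ _ h3 h4 =>
              rw [mul_add]
              exact Submodule.add_mem _ h3 h4
            | smul r u _ h3 =>
              rw [mul_smul_comm]
              exact Submodule.smul_mem _ r h3
          exact h2 _ (hv _)
      · have h3 : x - (c • (1 : R) + ∑ a ∈ Z, a * v (f a)) = ∑ a ∈ Z, a * (f a - v (f a)) := by
          have h4 : x = c • (1 : R) + ∑ a ∈ Z, f a • a := by
            rw [hf, hc, Algebra.algebraMap_eq_smul_one]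
            ring
          conv_lhs => rw [h4]
          have h5 : ∑ a ∈ Z, a * (f a - v (f a)) = ∑ a ∈ Z, f a • a - ∑ a ∈ Z, a * v (f a) := by
            rw [← Finset.sum_sub_distrib]
            refine Finset.sum_congr rfl fun a _ => ?_
            rw [smul_eq_mul]
            ring
          rw [h5]
          ring
        rw [h3, pow_succ']
        exact Ideal.sum_mem _ fun a ha => Ideal.mul_mem_mul (hZ a ha).1 (hv' _)

private theorem fk_top (hC : Conn 𝒜) {d : ℕ} (y : Fin d → R)
    (b : Fin d → ℤ) (hy : ∀ a, 0 < b a ∧ y a ∈ 𝒜 (b a)) (U : Finset R) (hU : ∀ u ∈ U, ∃ e, u ∈ 𝒜 e)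
    (hx : ∀ x : R, ∃ v ∈ Submodule.span k (U : Set R), x - v ∈ Ideal.span (Set.range y))
    (W : Submodule k R) (hUW : ∀ u ∈ U, u ∈ W) (hW : ∀ a, ∀ w ∈ W, y a * w ∈ W) : ∀ x : R, x ∈ W := by
  have hgc : ∀ (e : ℤ), ∀ v ∈ Submodule.span k (U : Set R), gc 𝒜 e v ∈ W := by
    intro e v hv
    induction hv using Submodule.span_induction with
    | mem u hu =>
      obtain ⟨e', he'⟩ := hU u (Finset.mem_coe.1 hu)
      by_cases h : e' = e
      · subst h
        rw [gc_same 𝒜 he']
        exact hUW u (Finset.mem_coe.1 hu)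
      · rw [gc_ne 𝒜 he' h]
        exact W.zero_mem
    | zero =>
      rw [map_zero]
      exact W.zero_mem
    | add u u' _ _ h3 h4 =>
      rw [map_add]
      exact W.add_mem h3 h4
    | smul r u _ h3 =>
      rw [map_smul]
      exact W.smul_mem r h3
  have hdeg : ∀ (n : ℕ) (e : ℤ), e < n → ∀ x ∈ 𝒜 e, x ∈ W := by
    intro n
    induction n with
    | zero =>
      intro e he x hxe
      rw [hC.neg e (by simpa using he) x hxe]
      exact W.zero_mem
    | succ n ih =>
      intro e he x hxe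
      obtain ⟨v, hv, hxv⟩ := hx x
      obtain ⟨c, hc⟩ := (Ideal.mem_span_range_iff_exists_fun).1 hxv
      have h1 : x = gc 𝒜 e v + ∑ a, y a * gc 𝒜 (e - b a) (c a) := by
        have h2 : x = v + ∑ a, y a * c a := by
          have h3 : ∑ a, y a * c a = x - v := by
            rw [← hc]
            exact Finset.sum_congr rfl fun a _ => mul_comm _ _
          rw [h3]
          ring
        have h4 := congrArg (gc 𝒜 e) h2
        rw [gc_same 𝒜 hxe, map_add, map_sum] at h4
        rw [h4]
        congr 1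
        exact Finset.sum_congr rfl fun a _ => gc_mul 𝒜 (hy a).2 e (c a)
      rw [h1]
      refine W.add_mem (hgc e v hv) (W.sum_mem fun a _ => hW a _ (ih (e - b a) ?_ _ (gc_mem 𝒜 _ _)))
      have := (hy a).1
      push_cast at he
      omega
  intro x
  obtain ⟨s, hs, _⟩ := gc_sum 𝒜 x
  rw [hs]
  refine W.sum_mem fun e _ => hdeg (e.toNat + 1) e ?_ _ (gc_mem 𝒜 e x)
  have := Int.self_le_toNat e
  push_cast
  omega

theorem finite_of_sop [Nontrivial R] [IsNoetherianRing R] (hC : Conn 𝒜) {d : ℕ} (y : Fin d → R)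
    (b : Fin d → ℤ) (hy : ∀ a, 0 < b a ∧ y a ∈ 𝒜 (b a)) (N : ℕ)
    (hN : (irr 𝒜) ^ N ≤ Ideal.span (Set.range y)) :
    (aeval y : MvPolynomial (Fin d) k →ₐ[k] R).toRingHom.Finite := by
  obtain ⟨Z, hZ, hirr⟩ := fk_gens 𝒜
  obtain ⟨U, hU, hx⟩ := fk_span 𝒜 hC Z hZ hirr N
  have hx' : ∀ x : R, ∃ v ∈ Submodule.span k (U : Set R), x - v ∈ Ideal.span (Set.range y) := by
    intro x
    obtain ⟨v, hv, h⟩ := hx x
    exact ⟨v, hv, hN h⟩
  letI : Algebra (MvPolynomial (Fin d) k) R := (aeval y : MvPolynomial (Fin d) k →ₐ[k] R).toRingHom.toAlgebra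
  have hsm : ∀ (p : MvPolynomial (Fin d) k) (x : R), p • x = aeval y p * x := fun p x => rfl
  let W : Submodule k R :=
    { carrier := {w | w ∈ Submodule.span (MvPolynomial (Fin d) k) (U : Set R)}
      add_mem' := fun h1 h2 => Submodule.add_mem (Submodule.span (MvPolynomial (Fin d) k) (U : Set R)) h1 h2
      zero_mem' := Submodule.zero_mem (Submodule.span (MvPolynomial (Fin d) k) (U : Set R))
      smul_mem' := by
        intro c w hw
        have hw' : w ∈ Submodule.span (MvPolynomial (Fin d) k) (U : Set R) := hw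
        have h1 := Submodule.smul_mem _ (C c) hw'
        rw [hsm, algHom_C, ← Algebra.smul_def] at h1
        exact h1 }
  have h1 := fk_top 𝒜 hC y b hy U hU hx' W (fun u hu => Submodule.subset_span hu) (by
    intro a w hw
    have hw' : w ∈ Submodule.span (MvPolynomial (Fin d) k) (U : Set R) := hw
    have h1 := Submodule.smul_mem _ (X a) hw'
    rw [hsm, aeval_X] at h1
    exact h1)
  refine ⟨⟨U, ?_⟩⟩
  rw [eq_top_iff]
  intro x _
  exact h1 x

end VG
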