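import Pool.Agent.VG.Forms

/-!
Project VG, module RegF: regularity (control of denominators).

All forms which occur in the main argument are regular: for lists with elements in `T` the only
denominators are the `y t`, `t ∈ T`.
-/

open Matrix

namespace VG

universe u v

variable {R K V : Type u} [CommRing R] [Field K] [AddCommGroup V] [Module K V]
  {ι : Type v} (H : FDat R K V ι)

private theorem bt_phi (T : Set ι) (q : R) : H.φ q ∈ BT H.φ H.y T :=
  Subring.subset_closure (Or.inl ⟨q, rfl⟩)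

private theorem bt_inv {T : Set ι} {t : ι} (ht : t ∈ T) : (H.φ (H.y t))⁻¹ ∈ BT H.φ H.y T :=
  Subring.subset_closure (Or.inr ⟨t, ht, rfl⟩)

private theorem om_alg (T : Set ι) {b : K} (hb : b ∈ BT H.φ H.y T) :
    algebraMap K (ExteriorAlgebra K V) b ∈ OmT H.φ H.D H.y T := by
  induction hb using Subring.closure_induction with
  | mem x hx =>
    rcases hx with ⟨q, rfl⟩ | ⟨t, ht, rfl⟩
    · exact Subring.subset_closure (Or.inl (Or.inl ⟨q, rfl⟩))
    · exact Subring.subset_closure (Or.inl (Or.inr ⟨t, ht, rfl⟩))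
  | zero =>
    rw [map_zero]
    exact Subring.zero_mem _
  | one =>
    rw [map_one]
    exact Subring.one_mem _
  | add x y _ _ h1 h2 =>
    rw [map_add]
    exact Subring.add_mem _ h1 h2
  | neg x _ h1 =>
    rw [map_neg]
    exact Subring.neg_mem _ h1
  | mul x y _ _ h1 h2 =>
    rw [map_mul]
    exact Subring.mul_mem _ h1 h2

private theorem om_smul (T : Set ι) {b : K} (hb : b ∈ BT H.φ H.y T) {z : ExteriorAlgebra K V}
    (hz : z ∈ OmT H.φ H.D H.y T) : b • z ∈ OmT H.φ H.D H.y T := by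
  rw [Algebra.smul_def]
  exact Subring.mul_mem _ (om_alg H T hb) hz

private theorem om_D (T : Set ι) (q : R) : io (H.D q) ∈ OmT H.φ H.D H.y T :=
  Subring.subset_closure (Or.inr ⟨q, rfl⟩)

private theorem om_io_smul (T : Set ι) {b : K} (hb : b ∈ BT H.φ H.y T) {x : V}
    (hx : io x ∈ OmT H.φ H.D H.y T) : io (b • x) ∈ OmT H.φ H.D H.y T := by
  rw [map_smul]
  exact om_smul H T hb hx

private theorem om_lam {T : Set ι} {t : ι} (ht : t ∈ T) : io (H.lam t) ∈ OmT H.φ H.D H.y T :=
  om_io_smul H T (Subring.mul_mem _ (bt_phi H T _) (bt_inv H ht)) (om_D H T _)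

private theorem bt_dot (T : Set ι) {n : ℕ} {x y : Fin n → K} (hx : ∀ i, x i ∈ BT H.φ H.y T)
    (hy : ∀ i, y i ∈ BT H.φ H.y T) : x ⬝ᵥ y ∈ BT H.φ H.y T :=
  Subring.sum_mem _ fun i _ => Subring.mul_mem _ (hx i) (hy i)

private theorem bt_S {T : Set ι} {t : ι} (ht : t ∈ T) (p : ℕ) (i : Fin (H.r (p + 1)))
    (j : Fin (H.r p)) : H.S t p i j ∈ BT H.φ H.y T :=
  Subring.mul_mem _ (bt_inv H ht) (bt_phi H T _)

private theorem om_U (T : Set ι) (p : ℕ) : ∀ (L : List ι) (χ : Fin (H.r (p + 1)) → K),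
    (∀ t ∈ L, t ∈ T) → (∀ k, χ k ∈ BT H.φ H.y T) → io (H.U p L χ) ∈ OmT H.φ H.D H.y T := by
  induction p with
  | zero =>
    intro L χ hL hχ
    rcases L with _ | ⟨t, L⟩
    · have h0 : H.U 0 [] χ = 0 := rfl
      rw [h0, map_zero]
      exact Subring.zero_mem _
    · have ht : t ∈ T := hL t (List.mem_cons_self ..)
      have h0 : H.U 0 (t :: L) χ =
          (∑ i, (χ ⬝ᵥ (H.S t 0 *ᵥ fun j => H.φ (H.J i j))) • H.D (H.X i)) +
          (χ ⬝ᵥ (H.Δ 1 *ᵥ (H.S t 1 *ᵥ fun j => H.φ (H.τ j)))) • H.lam t := rfl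
      rw [h0, map_add, map_sum]
      refine Subring.add_mem _ (Subring.sum_mem _ fun i _ => ?_) ?_
      · refine om_io_smul H T (bt_dot H T hχ fun k => ?_) (om_D H T _)
        exact bt_dot H T (fun j => bt_S H ht 0 k j) fun j => bt_phi H T _
      · refine om_io_smul H T (bt_dot H T hχ fun k => ?_) (om_lam H ht)
        refine bt_dot H T (fun j => bt_phi H T _) fun j => ?_
        exact bt_dot H T (fun i => bt_S H ht 1 j i) fun i => bt_phi H T _
  | succ p ih =>
    intro L χ hL hχ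
    rcases L with _ | ⟨t, L⟩
    · have h0 : H.U (p + 1) [] χ = 0 := rfl
      rw [h0, map_zero]
      exact Subring.zero_mem _
    · have ht : t ∈ T := hL t (List.mem_cons_self ..)
      have h0 : H.U (p + 1) (t :: L) χ =
          cob (fun L' => H.U p L' (χ ᵥ* H.S t (p + 1))) (t :: L) := rfl
      rw [h0]
      have h1 := cob_map (io : V →ₗ[K] ExteriorAlgebra K V).toAddMonoidHom
        (fun L' => H.U p L' (χ ᵥ* H.S t (p + 1))) (t :: L)
      have h2 : io (cob (fun L' => H.U p L' (χ ᵥ* H.S t (p + 1))) (t :: L)) =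
          cob (fun L' => io (H.U p L' (χ ᵥ* H.S t (p + 1)))) (t :: L) := h1.symm
      rw [h2]
      refine cob_mem (OmT H.φ H.D H.y T).toAddSubgroup _ _ fun L' hs _ => ?_
      refine ih L' _ (fun t' ht' => hL t' (hs.subset ht')) fun k => ?_
      exact bt_dot H T hχ fun i => bt_S H ht (p + 1) i k

private theorem om_inv (T : Set ι) (m : ℤ) : ((m : ℤ) : K)⁻¹ ∈ BT H.φ H.y T := by
  obtain ⟨q, hq⟩ := H.inv m
  rw [← hq]
  exact bt_phi H T q

private theorem om_beta (T : Set ι) (p : ℕ) : ∀ k, H.beta p k ∈ OmT H.φ H.D H.y T := by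
  induction p with
  | zero =>
    intro l
    exact om_smul H T (om_inv H T _) (om_D H T _)
  | succ p ih =>
    intro l
    exact om_smul H T (om_inv H T _)
      (Subring.sum_mem _ fun k _ => Subring.mul_mem _ (om_D H T _) (ih k))

private theorem om_vp (T : Set ι) (p : ℕ) (L : List ι) (hL : ∀ t ∈ L, t ∈ T) :
    H.vp p L ∈ OmT H.φ H.D H.y T := by
  rcases p with _ | _ | p
  · exact Subring.neg_mem _ (Subring.one_mem _)
  · exact om_U H T 0 L _ hL fun k => bt_phi H T _
  · refine Subring.sum_mem _ fun k _ => Subring.mul_mem _ (om_U H T (p + 1) L _ hL fun j => ?_)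
      (om_beta H T p k)
    rw [Pi.single_apply]
    split_ifs
    · exact Subring.one_mem _
    · exact Subring.zero_mem _

theorem v_mem (T : Set ι) (L : List ι) (hL : ∀ t ∈ L, t ∈ T) :
    H.v L ∈ OmT H.φ H.D H.y T :=
  om_vp H T _ L hL

theorem gg_mem (T : Set ι) (L : List ι) (hL : ∀ t ∈ L, t ∈ T) :
    gg H.lam H.v L ∈ OmT H.φ H.D H.y T := by
  induction L with
  | nil => exact Subring.zero_mem _
  | cons a L ih =>
    exact Subring.mul_mem _ (om_lam H (hL a (List.mem_cons_self ..)))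
      (Subring.add_mem _ (v_mem H T _ hL) (ih fun t ht => hL t (List.mem_cons_of_mem _ ht)))

end VG
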