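import Pool.Agent.VG.KGr

/-!
Project VG, module Tau: an undetected homogeneous minimal generator forces the Euler lift `τ` to
have a unit coefficient of degree `0`.

Here `A = k[x]`, `m = Ideal.span (range X)`, `R = A/I`, `σ`: columns `φ_l (f j) = σ j l` for
functionals `φ_l : I → R` (each column of `σ` is in `K0`), `dfun I i` the functional `∂/∂x_i`.
The proof takes homogeneous components of a lift `J i` of `∂/∂x_i` along `σ` and of a lift `τ` of
`∑ w_i x_i J_i` (which is in the kernel of `σ` by Euler's identity) along `δ 0`; if all entries of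
`τ` were in the irrelevant ideal, Euler's identity for `x` would give `D x ∈ m I`.
-/

open MvPolynomial Matrix

namespace VG

universe u

variable {k : Type u} [Field k] [CharZero k] {n : ℕ} (w : Fin n → ℤ)
  (I : Ideal (MvPolynomial (Fin n) k))

omit [CharZero k] in
private theorem tgq_mul (hI : HomI w I) {m : ℤ} {a : MvPolynomial (Fin n) k ⧸ I}
    (ha : a ∈ qgr w I m) (d : ℤ) (x : MvPolynomial (Fin n) k ⧸ I) :
    gq w I hI d (a * x) = a * gq w I hI (d - m) x :=
  @gc_mul k _ _ _ _ (qgr w I) (qGraded w I hI) m a ha d x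

omit [CharZero k] in
private theorem tgq_mem (hI : HomI w I) (d : ℤ) (x : MvPolynomial (Fin n) k ⧸ I) :
    gq w I hI d x ∈ qgr w I d :=
  @gc_mem k _ _ _ _ (qgr w I) (qGraded w I hI) d x

omit [CharZero k] in
private theorem tgq_same (hI : HomI w I) {d : ℤ} {x : MvPolynomial (Fin n) k ⧸ I}
    (hx : x ∈ qgr w I d) : gq w I hI d x = x :=
  @gc_same k _ _ _ _ (qgr w I) (qGraded w I hI) d x hx

omit [CharZero k] in
/-- weights are positive -/
private theorem tweight_pos (hw : ∀ i, 0 < w i) (m : Fin n →₀ ℕ) {i : Fin n} (hi : m i ≠ 0) :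
    0 < Finsupp.weight w m := by
  rw [Finsupp.weight_apply, Finsupp.sum_fintype _ _ (fun j => zero_smul ℕ (w j))]
  apply Finset.sum_pos' (fun j _ => by
    have := (hw j).le
    positivity)
  refine ⟨i, Finset.mem_univ _, ?_⟩
  have h1 := hw i
  have h2 : (0 : ℤ) < (m i : ℤ) := by exact_mod_cast Nat.pos_of_ne_zero hi
  change 0 < m i • w i
  rw [nsmul_eq_mul]
  positivity

omit [CharZero k] in
/-- Euler's identity on monomials -/
private theorem euler_mon (m : Fin n →₀ ℕ) (c : k) :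
    ∑ i, ((w i : ℤ) : MvPolynomial (Fin n) k) * X i * pderiv i (monomial m c) =
      ((Finsupp.weight w m : ℤ) : MvPolynomial (Fin n) k) * monomial m c := by
  rw [Finsupp.weight_apply, Finsupp.sum_fintype _ _ (fun j => zero_smul ℕ (w j)), Int.cast_sum,
    Finset.sum_mul]
  refine Finset.sum_congr rfl fun i _ => ?_
  rw [mul_assoc, X_mul_pderiv_monomial, nsmul_eq_mul, nsmul_eq_mul]
  push_cast
  ring

omit [CharZero k] in
/-- Euler's identity -/
private theorem euler (t : ℤ) (f : MvPolynomial (Fin n) k)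
    (hf : f ∈ weightedHomogeneousSubmodule k w t) :
    ∑ i, ((w i : ℤ) : MvPolynomial (Fin n) k) * X i * pderiv i f =
      ((t : ℤ) : MvPolynomial (Fin n) k) * f := by
  have h1 : ∀ i, pderiv i f = ∑ m ∈ f.support, pderiv i (monomial m (coeff m f)) := by
    intro i
    conv_lhs => rw [← support_sum_monomial_coeff f]
    rw [map_sum]
  calc ∑ i, ((w i : ℤ) : MvPolynomial (Fin n) k) * X i * pderiv i f
      = ∑ i, ∑ m ∈ f.support, ((w i : ℤ) : MvPolynomial (Fin n) k) * X i *
          pderiv i (monomial m (coeff m f)) := by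
        refine Finset.sum_congr rfl fun i _ => ?_
        rw [h1 i, Finset.mul_sum]
    _ = ∑ m ∈ f.support, ∑ i, ((w i : ℤ) : MvPolynomial (Fin n) k) * X i *
          pderiv i (monomial m (coeff m f)) := Finset.sum_comm
    _ = ∑ m ∈ f.support, ((t : ℤ) : MvPolynomial (Fin n) k) * monomial m (coeff m f) := by
        refine Finset.sum_congr rfl fun m hm => ?_
        rw [euler_mon w m, hf (mem_support_iff.1 hm)]
    _ = ((t : ℤ) : MvPolynomial (Fin n) k) * f := by
        rw [← Finset.mul_sum, support_sum_monomial_coeff]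

omit [CharZero k] in
private theorem mk_pderiv_mem {t : ℤ} {f : MvPolynomial (Fin n) k}
    (hf : f ∈ weightedHomogeneousSubmodule k w t) (i : Fin n) :
    Ideal.Quotient.mk I (pderiv i f) ∈ qgr w I (t - w i) := by
  refine ⟨pderiv i f, ?_, rfl⟩
  exact IsWeightedHomogeneous.pderiv (w := w) (i := i) hf (by ring)

omit [CharZero k] in
/-- the values of a functional are the coefficients in a lift -/
private theorem evf_inj {μ : ℕ} (f : Fin μ → I)
    (hspan : Submodule.span (MvPolynomial (Fin n) k) (Set.range f) = ⊤)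
    {φ ψ : I →ₗ[MvPolynomial (Fin n) k] (MvPolynomial (Fin n) k ⧸ I)}
    (h : evf I f φ = evf I f ψ) : φ = ψ := by
  apply LinearMap.ext_on_range hspan
  intro j
  exact congrFun h j

omit [CharZero k] in
/-- homogeneous lifts along a homogeneous matrix -/
private theorem lift_hom (hI : HomI w I) {p q : ℕ} (α : Fin p → ℤ) (β : Fin q → ℤ)
    (M : Matrix (Fin p) (Fin q) (MvPolynomial (Fin n) k ⧸ I))
    (hM : ∀ i j, M i j ∈ qgr w I (β j + α i)) (e : ℤ)
    (u : Fin p → MvPolynomial (Fin n) k ⧸ I) (hu : ∀ i, u i ∈ qgr w I (e + α i))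
    (v : Fin q → MvPolynomial (Fin n) k ⧸ I) (h : u = M *ᵥ v) :
    u = M *ᵥ fun j => gq w I hI (e - β j) (v j) := by
  funext i
  have h1 := congrArg (gq w I hI (e + α i)) (congrFun h i)
  rw [tgq_same w I hI (hu i)] at h1
  rw [h1]
  show gq w I hI (e + α i) (∑ j, M i j * v j) = ∑ j, M i j * gq w I hI (e - β j) (v j)
  rw [map_sum]
  refine Finset.sum_congr rfl fun j _ => ?_
  rw [tgq_mul w I hI (hM i j), show e + α i - (β j + α i) = e - β j by ring]

theorem tau_unit (hw : ∀ i, 0 < w i) (hI : HomI w I)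
    (hIm : I ≤ Ideal.span (Set.range (X : Fin n → MvPolynomial (Fin n) k)))
    {μ : ℕ} (f : Fin μ → I) (t : Fin μ → ℤ)
    (hf : ∀ j, (f j : MvPolynomial (Fin n) k) ∈ weightedHomogeneousSubmodule k w (t j))
    (hspan : Submodule.span (MvPolynomial (Fin n) k) (Set.range f) = ⊤)
    (r : ℕ → ℕ) (a : ∀ p, Fin (r p) → ℤ)
    (σ : Matrix (Fin μ) (Fin (r 0)) (MvPolynomial (Fin n) k ⧸ I))
    (δ : ∀ p, Matrix (Fin (r p)) (Fin (r (p + 1))) (MvPolynomial (Fin n) k ⧸ I))
    (hres : IsRes (qgr w I) t r a σ δ) (hK : ∀ u, u ∈ K0 I f ↔ ∃ v, u = σ *ᵥ v)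
    (x : I) (D : ℤ) (hxD : (x : MvPolynomial (Fin n) k) ∈ weightedHomogeneousSubmodule k w D)
    (hx0 : (x : MvPolynomial (Fin n) k) ∉
      Ideal.span (Set.range (X : Fin n → MvPolynomial (Fin n) k)) * I)
    (hund : ∀ φ : I →ₗ[MvPolynomial (Fin n) k] (MvPolynomial (Fin n) k ⧸ I),
      φ x ∈ irr (qgr w I)) :
    ∃ (J : Fin n → Fin (r 0) → MvPolynomial (Fin n) k ⧸ I)
      (τ : Fin (r 1) → MvPolynomial (Fin n) k ⧸ I) (l : Fin (r 1)) (c : k),
      (∀ i, evf I f (dfun I i) = σ *ᵥ J i) ∧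
      (∀ j, ∑ i, ((w i : ℤ) : MvPolynomial (Fin n) k ⧸ I) * Ideal.Quotient.mk I (X i) * J i j =
        (δ 0 *ᵥ τ) j) ∧
      a 1 l = 0 ∧ c ≠ 0 ∧ τ l = algebraMap k _ c := by
  classical
  -- (1) the lifts of the derivatives
  have hJ : ∀ i, ∃ v : Fin (r 0) → MvPolynomial (Fin n) k ⧸ I,
      evf I f (dfun I i) = σ *ᵥ v := fun i => (hK _).1 ⟨_, rfl⟩
  choose J' hJ' using hJ
  obtain ⟨J, hJdef⟩ : ∃ J : Fin n → Fin (r 0) → MvPolynomial (Fin n) k ⧸ I,
      ∀ i l, J i l = gq w I hI (- w i - a 0 l) (J' i l) := ⟨fun i l => _, fun i l => rfl⟩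
  have hJm : ∀ i l, J i l ∈ qgr w I (- w i - a 0 l) := fun i l => by
    rw [hJdef]
    exact tgq_mem w I hI _ _
  have hJ1 : ∀ i, evf I f (dfun I i) = σ *ᵥ J i := by
    intro i
    have h1 := lift_hom w I hI t (a 0) σ hres.homσ (- w i) (evf I f (dfun I i)) (fun j => by
      have h2 := mk_pderiv_mem w I (hf j) i
      rw [show t j - w i = - w i + t j by ring] at h2
      exact h2) (J' i) (hJ' i)
    rw [h1]
    congr 1
    funext l
    exact (hJdef i l).symm
  -- (2) the lift of the Euler vector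
  obtain ⟨E, hE⟩ : ∃ E : Fin (r 0) → MvPolynomial (Fin n) k ⧸ I,
      ∀ j, E j = ∑ i, ((w i : ℤ) : MvPolynomial (Fin n) k ⧸ I) * Ideal.Quotient.mk I (X i) *
        J i j := ⟨fun j => _, fun j => rfl⟩
  have hEσ : σ *ᵥ E = 0 := by
    funext j
    have h1 : (σ *ᵥ E) j = ∑ i, ((w i : ℤ) : MvPolynomial (Fin n) k ⧸ I) *
        Ideal.Quotient.mk I (X i) * (σ *ᵥ J i) j := by
      show ∑ l, σ j l * E l = ∑ i, ((w i : ℤ) : MvPolynomial (Fin n) k ⧸ I) *
        Ideal.Quotient.mk I (X i) * ∑ l, σ j l * J i l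
      simp_rw [hE, Finset.mul_sum]
      rw [Finset.sum_comm]
      refine Finset.sum_congr rfl fun i _ => Finset.sum_congr rfl fun l _ => ?_
      ring
    rw [h1]
    have h2 : ∀ i, (σ *ᵥ J i) j = Ideal.Quotient.mk I (pderiv i (f j : MvPolynomial (Fin n) k)) := by
      intro i
      rw [← hJ1 i]
      rfl
    simp_rw [h2]
    have h3 := congrArg (Ideal.Quotient.mk I) (euler w (t j) _ (hf j))
    rw [map_sum, map_mul, Ideal.Quotient.eq_zero_iff_mem.2 (f j).2, mul_zero] at h3
    rw [Pi.zero_apply, ← h3]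
    refine Finset.sum_congr rfl fun i _ => ?_
    rw [map_mul, map_mul, map_intCast]
  obtain ⟨τ', hτ'⟩ := hres.exσ E hEσ
  obtain ⟨τ, hτdef⟩ : ∃ τ : Fin (r 1) → MvPolynomial (Fin n) k ⧸ I,
      ∀ q, τ q = gq w I hI (0 - a 1 q) (τ' q) := ⟨fun q => _, fun q => rfl⟩
  have hτm : ∀ q, τ q ∈ qgr w I (0 - a 1 q) := fun q => by
    rw [hτdef]
    exact tgq_mem w I hI _ _
  have hEm : ∀ l, E l ∈ qgr w I (0 + - a 0 l) := by
    intro l
    rw [hE]
    refine Submodule.sum_mem _ fun i _ => ?_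
    let _ := qGraded w I hI
    have h1 : Ideal.Quotient.mk I (X i) ∈ qgr w I (w i) := ⟨X i, isWeightedHomogeneous_X k w i, rfl⟩
    have h2 : Ideal.Quotient.mk I (X i) * J i l ∈ qgr w I (w i + (- w i - a 0 l)) :=
      SetLike.mul_mem_graded h1 (hJm i l)
    rw [show w i + (- w i - a 0 l) = 0 + - a 0 l by ring] at h2
    rw [mul_assoc, ← zsmul_eq_mul]
    exact zsmul_mem h2 _
  have hτ1 : E = δ 0 *ᵥ τ := by
    have h1 := lift_hom w I hI (fun l => - a 0 l) (a 1) (δ 0) (fun i j => by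
      have h2 := hres.homδ 0 i j
      rw [show a (0 + 1) j - a 0 i = a 1 j + - a 0 i by ring] at h2
      exact h2) 0 E hEm τ' hτ'
    rw [h1]
    congr 1
    funext q
    exact (hτdef q).symm
  -- (3) an entry outside the irrelevant ideal
  by_cases hall : ∀ q, τ q ∈ irr (qgr w I)
  swap
  · push Not at hall
    obtain ⟨q, hq⟩ := hall
    obtain ⟨h1, c, hc, h2⟩ := @unit_of_not_irr k _ _ _ _ (qgr w I) (qGraded w I hI)
      (qgr_conn w I hw) _ _ (hτm q) hq
    refine ⟨J, τ, q, c, hJ1, fun j => ?_, by omega, hc, h2⟩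
    rw [← hE, hτ1]
  -- (4) all entries in the irrelevant ideal: contradiction
  exfalso
  have hcol : ∀ l, ∃ φ : I →ₗ[MvPolynomial (Fin n) k] (MvPolynomial (Fin n) k ⧸ I),
      ∀ j, φ (f j) = σ j l := by
    intro l
    obtain ⟨φ, hφ⟩ := (hK (σ *ᵥ Pi.single l 1)).2 ⟨_, rfl⟩
    refine ⟨φ, fun j => ?_⟩
    have h1 := congrFun hφ j
    rw [mulVec_single_one] at h1
    exact h1
  choose φ hφ using hcol
  have hd : ∀ i, dfun I i = ∑ l, J i l • φ l := by
    intro i
    apply evf_inj I f hspan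
    rw [hJ1 i, map_sum]
    funext j
    rw [Finset.sum_apply]
    show ∑ l, σ j l * J i l = ∑ l, J i l * φ l (f j)
    refine Finset.sum_congr rfl fun l _ => ?_
    rw [hφ, mul_comm]
  have hz : ∀ q, ∑ l, δ 0 l q • φ l = 0 := by
    intro q
    apply evf_inj I f hspan
    rw [map_sum, map_zero]
    funext j
    rw [Finset.sum_apply]
    show ∑ l, δ 0 l q * φ l (f j) = 0
    have h1 := congrFun (congrFun hres.cxσ j) q
    rw [mul_apply] at h1
    rw [← Matrix.zero_apply (α := MvPolynomial (Fin n) k ⧸ I) j q, ← h1]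
    refine Finset.sum_congr rfl fun l _ => ?_
    rw [hφ, mul_comm]
  have hsurj : Function.Surjective (Ideal.Quotient.mk I) := Ideal.Quotient.mk_surjective
  have hF : ∀ l, ∃ F ∈ Ideal.span (Set.range (X : Fin n → MvPolynomial (Fin n) k)),
      Ideal.Quotient.mk I F = φ l x := by
    intro l
    have h1 := hund (φ l)
    rw [irr_qgr w I hw] at h1
    exact (Ideal.mem_map_iff_of_surjective _ hsurj).1 h1
  choose F hFm hF using hF
  have hτt : ∀ q, ∃ F ∈ Ideal.span (Set.range (X : Fin n → MvPolynomial (Fin n) k)),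
      Ideal.Quotient.mk I F = τ q := by
    intro q
    have h1 := hall q
    rw [irr_qgr w I hw] at h1
    exact (Ideal.mem_map_iff_of_surjective _ hsurj).1 h1
  choose τt hτtm hτt using hτt
  have hJt : ∀ i l, ∃ F, Ideal.Quotient.mk I F = J i l := fun i l => hsurj _
  choose Jt hJt using hJt
  have hdt : ∀ l q, ∃ F, Ideal.Quotient.mk I F = δ 0 l q := fun l q => hsurj _
  choose dt hdt using hdt
  obtain ⟨xv, hxv⟩ : ∃ xv : MvPolynomial (Fin n) k, xv = x := ⟨_, rfl⟩
  rw [← hxv] at hxD hx0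
  have hxI : xv ∈ I := by
    rw [hxv]
    exact x.2
  have hXm : ∀ i, (X i : MvPolynomial (Fin n) k) ∈
      Ideal.span (Set.range (X : Fin n → MvPolynomial (Fin n) k)) :=
    fun i => Ideal.subset_span ⟨i, rfl⟩
  -- the derivatives of `x`
  have hA : ∀ i, pderiv i xv - ∑ l, Jt i l * F l ∈ I := by
    intro i
    rw [← Ideal.Quotient.eq_zero_iff_mem, map_sub, map_sum, sub_eq_zero]
    have h1 := LinearMap.congr_fun (hd i) x
    rw [LinearMap.sum_apply] at h1
    rw [hxv]
    refine Eq.trans h1 (Finset.sum_congr rfl fun l _ => ?_)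
    rw [map_mul, hJt, hF]
    rfl
  have hB : ∀ l, ∑ i, ((w i : ℤ) : MvPolynomial (Fin n) k) * X i * Jt i l -
      ∑ q, dt l q * τt q ∈ I := by
    intro l
    rw [← Ideal.Quotient.eq_zero_iff_mem, map_sub, map_sum, map_sum, sub_eq_zero]
    have h1 := congrFun hτ1 l
    rw [hE] at h1
    have h2 : (δ 0 *ᵥ τ) l = ∑ q, δ 0 l q * τ q := rfl
    rw [h2] at h1
    refine Eq.trans ?_ (h1.trans (Finset.sum_congr rfl fun q _ => ?_))
    · refine Finset.sum_congr rfl fun i _ => ?_
      rw [map_mul, map_mul, map_intCast, hJt]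
    · rw [map_mul, hdt, hτt]
  have hCq : ∀ q, ∑ l, dt l q * F l ∈ I := by
    intro q
    rw [← Ideal.Quotient.eq_zero_iff_mem, map_sum]
    have h1 := LinearMap.congr_fun (hz q) x
    rw [LinearMap.sum_apply, LinearMap.zero_apply] at h1
    rw [← h1]
    refine Finset.sum_congr rfl fun l _ => ?_
    rw [map_mul, hdt, hF]
    rfl
  have hDx : ((D : ℤ) : MvPolynomial (Fin n) k) * xv ∈
      Ideal.span (Set.range (X : Fin n → MvPolynomial (Fin n) k)) * I := by
    have e1 : ((D : ℤ) : MvPolynomial (Fin n) k) * xv =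
        ∑ i, (((w i : ℤ) : MvPolynomial (Fin n) k) * X i) * (pderiv i xv - ∑ l, Jt i l * F l) +
        ∑ l, F l * (∑ i, ((w i : ℤ) : MvPolynomial (Fin n) k) * X i * Jt i l -
          ∑ q, dt l q * τt q) +
        ∑ q, τt q * ∑ l, dt l q * F l := by
      rw [← euler w D xv hxD]
      simp_rw [mul_sub, Finset.sum_sub_distrib, Finset.mul_sum]
      have e2 : ∑ l, ∑ i, F l * (((w i : ℤ) : MvPolynomial (Fin n) k) * X i * Jt i l) =
          ∑ i, ∑ l, ((w i : ℤ) : MvPolynomial (Fin n) k) * X i * (Jt i l * F l) := by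
        rw [Finset.sum_comm]
        refine Finset.sum_congr rfl fun i _ => Finset.sum_congr rfl fun l _ => ?_
        ring
      have e3 : ∑ l, ∑ q, F l * (dt l q * τt q) = ∑ q, ∑ l, τt q * (dt l q * F l) := by
        rw [Finset.sum_comm]
        refine Finset.sum_congr rfl fun i _ => Finset.sum_congr rfl fun l _ => ?_
        ring
      rw [e2, e3]
      ring
    rw [e1]
    refine Ideal.add_mem _ (Ideal.add_mem _ ?_ ?_) ?_
    · exact Ideal.sum_mem _ fun i _ => Ideal.mul_mem_mul (Ideal.mul_mem_left _ _ (hXm i)) (hA i)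
    · exact Ideal.sum_mem _ fun l _ => Ideal.mul_mem_mul (hFm l) (hB l)
    · exact Ideal.sum_mem _ fun q _ => Ideal.mul_mem_mul (hτtm q) (hCq q)
  by_cases hD : D = 0
  · -- a constant
    apply hx0
    have h0 : xv = 0 := by
      ext m
      rw [coeff_zero]
      by_contra h
      have h1 := hIm hxI
      rw [← Set.image_univ, mem_ideal_span_X_image] at h1
      obtain ⟨i, -, hi⟩ := h1 m (mem_support_iff.2 h)
      have h2 := tweight_pos w hw m hi
      have h3 : Finsupp.weight w m = D := hxD h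
      omega
    rw [h0]
    exact Ideal.zero_mem _
  · apply hx0
    have h1 := Ideal.mul_mem_left _ (C ((D : k)⁻¹)) hDx
    have hDk : (D : k) ≠ 0 := Int.cast_ne_zero.2 hD
    have h2 : C ((D : k)⁻¹) * (((D : ℤ) : MvPolynomial (Fin n) k) * xv) = xv := by
      rw [← mul_assoc, ← map_intCast (C : k →+* MvPolynomial (Fin n) k) D, ← map_mul,
        inv_mul_cancel₀ hDk, map_one, one_mul]
    rwa [h2] at h1

end VG
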