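import Pool.Agent.VG.UpsA

/-!
Project VG, module UpsB: the Cech differential of the null homotopy `U`.

`U_exact_zero`: the value of `U 0 [t]` on a functional which extends to `P_0`; the part of the
homotopy coming from the idempotent `Pi t` vanishes by `hPiJ`, the part coming from `τ` since
`δ 0 * δ 1 = 0`.  `U_cob`: induction on `p`; by the homotopy relation `h1 t p` the difference of
the two sides is `cob` of the cochain `U p L (g ᵥ* Δ p)`, which vanishes by `cob_const_two` and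
`U_exact_zero` for `p = 0`, and by the induction hypothesis and `cob_cob` for `p > 0`.
-/

open Matrix

namespace VG

universe u v

variable {R K V : Type u} [CommRing R] [Field K] [AddCommGroup V] [Module K V]
  {ι : Type v} (H : FDat R K V ι)

private theorem delta_delta (p : ℕ) : H.Δ p * H.Δ (p + 1) = 0 := by
  unfold FDat.Δ
  rw [← Matrix.map_mul, H.cx]
  ext i j
  simp

private theorem delta_S_zero (t : ι) :
    H.Δ 0 * H.S t 0 = 1 - (H.φ (H.y t))⁻¹ • (H.Pi t).map H.φ := by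
  unfold FDat.Δ FDat.S
  rw [Matrix.mul_smul, ← Matrix.map_mul, H.h0]
  ext i j
  simp only [Matrix.smul_apply, Matrix.map_apply, Matrix.sub_apply, map_sub, smul_eq_mul,
    map_mul, mul_sub]
  rw [← mul_assoc, inv_mul_cancel₀ (H.y0 t), one_mul]
  by_cases h : i = j
  · subst h; simp
  · simp [Matrix.one_apply_ne h]

private theorem delta_S_succ (t : ι) (p : ℕ) :
    H.Δ (p + 1) * H.S t (p + 1) = 1 - H.S t p * H.Δ p := by
  rw [eq_sub_iff_add_eq]
  unfold FDat.Δ FDat.S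
  rw [Matrix.mul_smul, Matrix.smul_mul, ← Matrix.map_mul, ← Matrix.map_mul, ← smul_add]
  ext i j
  have h := congrArg H.φ (congrFun (congrFun (H.h1 t p) i) j)
  simp only [Matrix.add_apply, Matrix.smul_apply, smul_eq_mul, map_add, map_mul] at h
  simp only [Matrix.add_apply, Matrix.smul_apply, smul_eq_mul, Matrix.map_apply]
  rw [h, ← mul_assoc, inv_mul_cancel₀ (H.y0 t), one_mul]
  by_cases h : i = j
  · subst h; simp
  · simp [Matrix.one_apply_ne h]

private theorem map_mulVec' {m n : ℕ} (M : Matrix (Fin m) (Fin n) R) (x : Fin n → R) :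
    (M.map H.φ) *ᵥ (fun j => H.φ (x j)) = fun j => H.φ ((M *ᵥ x) j) := by
  funext i
  simp [Matrix.mulVec, dotProduct, map_sum]

theorem U_exact_zero (t : ι) (g : Fin (H.r 0) → K) :
    H.U 0 [t] (g ᵥ* H.Δ 0) = ∑ i, (g ⬝ᵥ fun j => H.φ (H.J i j)) • H.D (H.X i) := by
  have e1 : (g ᵥ* H.Δ 0) ⬝ᵥ (H.Δ 1 *ᵥ (H.S t 1 *ᵥ fun j => H.φ (H.τ j))) = 0 := by
    rw [← Matrix.dotProduct_mulVec, Matrix.mulVec_mulVec, delta_delta, Matrix.zero_mulVec,
      dotProduct_zero]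
  have e2 : ∀ i, (g ᵥ* H.Δ 0) ⬝ᵥ (H.S t 0 *ᵥ fun j => H.φ (H.J i j)) =
      (g ⬝ᵥ fun j => H.φ (H.J i j)) -
        (H.φ (H.y t))⁻¹ * (g ⬝ᵥ fun j => H.φ ((H.Pi t *ᵥ H.J i) j)) := by
    intro i
    rw [← Matrix.dotProduct_mulVec, Matrix.mulVec_mulVec, delta_S_zero, Matrix.sub_mulVec,
      Matrix.one_mulVec, dotProduct_sub, Matrix.smul_mulVec, dotProduct_smul, map_mulVec',
      smul_eq_mul]
  have e3 : ∑ i, (g ⬝ᵥ fun j => H.φ ((H.Pi t *ᵥ H.J i) j)) • H.D (H.X i) = 0 := by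
    simp only [dotProduct, Finset.sum_smul]
    rw [Finset.sum_comm]
    refine Finset.sum_eq_zero fun j _ => ?_
    simp only [mul_smul]
    rw [← Finset.smul_sum, H.hPiJ, smul_zero]
  show (∑ i, ((g ᵥ* H.Δ 0) ⬝ᵥ (H.S t 0 *ᵥ fun j => H.φ (H.J i j))) • H.D (H.X i)) +
      ((g ᵥ* H.Δ 0) ⬝ᵥ (H.Δ 1 *ᵥ (H.S t 1 *ᵥ fun j => H.φ (H.τ j)))) • H.lam t = _
  rw [e1, zero_smul, add_zero]
  simp only [e2, sub_smul, mul_smul]
  rw [Finset.sum_sub_distrib, ← Finset.smul_sum, e3, smul_zero, sub_zero]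

private theorem U_sub (p : ℕ) (L : List ι) (χ χ' : Fin (H.r (p + 1)) → K) :
    H.U p L (χ - χ') = H.U p L χ - H.U p L χ' := by
  rw [eq_sub_iff_add_eq, ← U_add, sub_add_cancel]

theorem U_cob (p : ℕ) (L : List ι) (hL : L.length = p + 2) (χ : Fin (H.r (p + 1)) → K) :
    cob (fun L' => H.U p L' χ) L = H.U (p + 1) L (χ ᵥ* H.Δ (p + 1)) := by
  induction p generalizing L with
  | zero =>
    match L, hL with
    | t :: L, hL =>
      have hv : (χ ᵥ* H.Δ 1) ᵥ* H.S t 1 = χ - (χ ᵥ* H.S t 0) ᵥ* H.Δ 0 := by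
        rw [Matrix.vecMul_vecMul, delta_S_succ, Matrix.vecMul_sub, Matrix.vecMul_one,
          Matrix.vecMul_vecMul]
      show _ = cob (fun L' => H.U 0 L' ((χ ᵥ* H.Δ 1) ᵥ* H.S t 1)) (t :: L)
      simp only [hv, U_sub]
      rw [cob_sub, cob_const_two (fun L' => H.U 0 L' ((χ ᵥ* H.S t 0) ᵥ* H.Δ 0)) _
        (fun a => U_exact_zero H a (χ ᵥ* H.S t 0)) (t :: L) hL, sub_zero]
  | succ p ih =>
    match L, hL with
    | t :: L, hL =>
      have hv : (χ ᵥ* H.Δ (p + 2)) ᵥ* H.S t (p + 2) = χ - (χ ᵥ* H.S t (p + 1)) ᵥ* H.Δ (p + 1) := by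
        rw [Matrix.vecMul_vecMul, delta_S_succ, Matrix.vecMul_sub, Matrix.vecMul_one,
          Matrix.vecMul_vecMul]
      show _ = cob (fun L' => H.U (p + 1) L' ((χ ᵥ* H.Δ (p + 2)) ᵥ* H.S t (p + 2))) (t :: L)
      simp only [hv, U_sub]
      rw [cob_sub]
      have h0 : cob (fun L' => H.U (p + 1) L' ((χ ᵥ* H.S t (p + 1)) ᵥ* H.Δ (p + 1))) (t :: L) =
          0 := by
        rw [← cob_cob (fun L' => H.U p L' (χ ᵥ* H.S t (p + 1))) (t :: L)]
        refine cob_congr _ _ _ fun L' _ hL' => ?_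
        exact (ih L' (by omega) (χ ᵥ* H.S t (p + 1))).symm
      rw [h0, sub_zero]

end VG
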