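import Pool.Agent.VG.Beta
import Pool.Agent.VG.UpsB

/-!
Project VG, module Vco: the cochain `v` satisfies `cob v = - iE v`, `v [] = -1`, and vanishes on
long lists.

Cases on the length of the list.
-/

open Matrix

namespace VG

universe u v

variable {R K V : Type u} [CommRing R] [Field K] [CharZero K] [AddCommGroup V] [Module K V]
  {ι : Type v} (H : FDat R K V ι)

private theorem vco_len (L : List ι) {m : ℕ} (hL : L.length = m) : H.v L = H.vp m L := by
  show H.vp L.length L = _
  rw [hL]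

private theorem vco_cob (L : List ι) {m : ℕ} (hL : L.length = m + 1) :
    cob H.v L = cob (fun L' => H.vp m L') L := by
  apply cob_congr
  intro L' _ h
  exact vco_len H L' (by omega)

private theorem vco_c (k : Fin (H.r 2)) : ((fun j => H.φ (H.ψ j)) ᵥ* H.Δ 1) k = H.φ (H.c k) := by
  simp only [FDat.Δ, FDat.c, Matrix.vecMul, dotProduct, Matrix.map_apply, map_sum, map_mul]

private theorem vco_single (p : ℕ) (k : Fin (H.r p)) (l : Fin (H.r (p + 1))) :
    ((Pi.single k 1 : Fin (H.r p) → K) ᵥ* H.Δ p) l = H.φ (H.δ p k l) := by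
  simp only [FDat.Δ, Matrix.vecMul, dotProduct, Matrix.map_apply]
  rw [Finset.sum_eq_single k]
  · rw [Pi.single_eq_same, one_mul]
  · intro j _ hj
    rw [Pi.single_eq_of_ne hj, zero_mul]
  · intro hk
    exact absurd (Finset.mem_univ k) hk

private theorem vco_io_sum (p : ℕ) (L : List ι) (χ : Fin (H.r (p + 1)) → K) :
    (io (H.U p L χ) : ExteriorAlgebra K V) = ∑ k, χ k • io (H.U p L (Pi.single k 1)) := by
  rw [U_sum, map_sum]
  exact Finset.sum_congr rfl fun k _ => map_smul _ _ _

private theorem vco_iE (q : ℕ) (L : List ι) (hL : L.length = q + 2) :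
    iE H.ε (H.vp (q + 2) L) =
      - ∑ k, io (H.U (q + 1) L (Pi.single k 1)) * iE H.ε (H.beta q k) := by
  show iE H.ε (∑ k, io (H.U (q + 1) L (Pi.single k 1)) * H.beta q k) = _
  rw [map_sum, ← Finset.sum_neg_distrib]
  refine Finset.sum_congr rfl fun k _ => ?_
  rw [iE_io_mul, U_contract_succ H q L hL, zero_smul, zero_sub]

theorem v_nil : H.v [] = -1 := rfl

theorem cob_v (L : List ι) : cob H.v L = - iE H.ε (H.v L) := by
  match L with
  | [] =>
    rw [cob_nil, v_nil, map_neg, iE_one, neg_zero, neg_zero]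
  | [t] =>
    rw [cob_cons, cob_nil, sub_zero, v_nil, vco_len H [t] (m := 1) rfl]
    show -1 = - iE H.ε (io (H.U 0 [t] fun j => H.φ (H.ψ j)))
    rw [iE_io, U_contract_zero]
    have h1 : ((fun j => H.φ (H.ψ j)) ⬝ᵥ fun j => H.φ (H.τ j)) = 1 := by
      have h2 := congrArg H.φ H.hψ
      simp only [dotProduct, map_sum, map_mul, map_one] at h2 ⊢
      exact h2
    rw [h1, map_one]
  | [a, b] =>
    rw [vco_cob H [a, b] (m := 1) rfl, vco_len H [a, b] (m := 2) rfl, vco_iE H 0 [a, b] rfl, neg_neg]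
    show cob (fun L' => (io (H.U 0 L' fun j => H.φ (H.ψ j)) : ExteriorAlgebra K V)) [a, b] = _
    refine (cob_map (f := (io : V →ₗ[K] ExteriorAlgebra K V).toAddMonoidHom)
      (fun L' => H.U 0 L' fun j => H.φ (H.ψ j)) [a, b]).trans ?_
    rw [U_cob H 0 [a, b] rfl]
    show (io (H.U (0 + 1) [a, b] ((fun j => H.φ (H.ψ j)) ᵥ* H.Δ (0 + 1))) : ExteriorAlgebra K V) = _
    rw [vco_io_sum]
    refine Finset.sum_congr rfl fun k _ => ?_
    rw [beta_iE_zero, vco_c]
    rw [← Algebra.commutes, Algebra.smul_def]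
  | a :: b :: c :: L =>
    obtain ⟨q, hq⟩ : ∃ q, q = L.length := ⟨_, rfl⟩
    have hL : (a :: b :: c :: L).length = q + 3 := by
      rw [hq]
      rfl
    rw [vco_cob H _ (m := q + 2) hL, vco_len H _ (m := q + 3) hL, vco_iE H (q + 1) _ hL, neg_neg]
    have h1 : ∀ k : Fin (H.r (q + 2)), cob (fun L' => (io (H.U (q + 1) L' (Pi.single k 1)) : ExteriorAlgebra K V) *
        H.beta q k) (a :: b :: c :: L) =
        ∑ l, H.φ (H.δ (q + 2) k l) • (io (H.U (q + 2) (a :: b :: c :: L) (Pi.single l 1)) * H.beta q k) := by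
      intro k
      have h2 := cob_map (f := (AddMonoidHom.mulRight (H.beta q k)).comp
        (io : V →ₗ[K] ExteriorAlgebra K V).toAddMonoidHom)
        (fun L' => H.U (q + 1) L' (Pi.single k 1)) (a :: b :: c :: L)
      refine h2.trans ?_
      rw [U_cob H (q + 1) _ hL]
      show (io (H.U (q + 2) (a :: b :: c :: L) (Pi.single k 1 ᵥ* H.Δ (q + 2))) : ExteriorAlgebra K V) *
        H.beta q k = _
      rw [vco_io_sum, Finset.sum_mul]
      refine Finset.sum_congr rfl fun l _ => ?_
      rw [vco_single, smul_mul_assoc]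
    show cob (fun L' => ∑ k, (io (H.U (q + 1) L' (Pi.single k 1)) : ExteriorAlgebra K V) * H.beta q k)
      (a :: b :: c :: L) = _
    rw [cob_sum, Finset.sum_congr rfl (fun k _ => h1 k), Finset.sum_comm]
    refine Finset.sum_congr rfl fun l _ => ?_
    rw [beta_iE_succ, Finset.mul_sum]
    refine Finset.sum_congr rfl fun k _ => ?_
    rw [mul_smul_comm]

theorem v_long (q : ℕ) (hr : H.r (q + 2) = 0) (L : List ι) (hL : L.length = q + 2) :
    H.v L = 0 := by
  have h1 : IsEmpty (Fin (H.r (q + 2))) := by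
    rw [hr]
    infer_instance
  rw [vco_len H L hL]
  show ∑ k, io (H.U (q + 1) L (Pi.single k 1)) * H.beta q k = 0
  exact Finset.sum_of_isEmpty _

end VG
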