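import Pool.Agent.VG.Contra
import Pool.Agent.VG.Cmp
import Pool.Agent.VG.Vco
import Pool.Agent.VG.RegF
import Pool.Agent.VG.Tau
import Pool.Agent.VG.HtpA
import Pool.Agent.VG.HtpB
import Pool.Agent.VG.FTI
import Pool.Agent.VG.Par
import Pool.Agent.VG.Fld
import Pool.Agent.VG.Eul

/-!
Project VG, assembly of the graded contradiction.
-/

open MvPolynomial Matrix

namespace VG

universe u

variable {k : Type u} [Field k] [CharZero k] {n : ℕ} (w : Fin n → ℤ)
  (I : Ideal (MvPolynomial (Fin n) k))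

private theorem zero_of_deg {R : Type u} [CommRing R] [Algebra k R] (𝒜 : ℤ → Submodule k R)
    [GradedAlgebra 𝒜] (hC : Conn 𝒜) {e : ℤ} (he : e ≤ 0) {x : R} (hx : x ∈ 𝒜 e)
    (hi : x ∈ irr 𝒜) : x = 0 := by
  rcases lt_or_eq_of_le he with h | h
  · exact hC.neg e h x hx
  · subst h
    have h1 := (irr_iff 𝒜 hC x).mp hi
    rwa [gc_same 𝒜 hx] at h1

theorem graded_contra (hw : ∀ i, 0 < w i) (hI : HomI w I)
    (hIm : I ≤ Ideal.span (Set.range (X : Fin n → MvPolynomial (Fin n) k)))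
    {μ : ℕ} (f : Fin μ → I) (t : Fin μ → ℤ)
    (hspan : Submodule.span (MvPolynomial (Fin n) k) (Set.range f) = ⊤)
    (r : ℕ → ℕ) (a : ∀ p, Fin (r p) → ℤ)
    (σ : Matrix (Fin μ) (Fin (r 0)) (MvPolynomial (Fin n) k ⧸ I))
    (δ : ∀ p, Matrix (Fin (r p)) (Fin (r (p + 1))) (MvPolynomial (Fin n) k ⧸ I))
    (hres : IsRes (qgr w I) t r a σ δ) (hK : ∀ u, u ∈ K0 I f ↔ ∃ v, u = σ *ᵥ v)
    (J : Fin n → Fin (r 0) → MvPolynomial (Fin n) k ⧸ I)
    (τ : Fin (r 1) → MvPolynomial (Fin n) k ⧸ I) (l : Fin (r 1)) (c : k)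
    (hJ : ∀ i, evf I f (dfun I i) = σ *ᵥ J i)
    (hτ : ∀ j, ∑ i, ((w i : ℤ) : MvPolynomial (Fin n) k ⧸ I) *
      Ideal.Quotient.mk I (X i) * J i j = (δ 0 *ᵥ τ) j)
    (hl : a 1 l = 0) (hc : c ≠ 0) (hτl : τ l = algebraMap k _ c)
    (h : ℕ) (hh : 1 ≤ h) (hr : r (h + 1) = 0)
    (hm : ((h + 1 : ℕ) : ℕ∞) ≤ (irr (qgr w I)).height)
    (hFT : ∀ p : Ideal (MvPolynomial (Fin n) k ⧸ I), p.IsPrime → (∀ z ∈ p, ∀ d, gq w I hI d z ∈ p) →
      (FTI I).map (Ideal.Quotient.mk I) ≤ p → ((h + 1 : ℕ) : ℕ∞) ≤ p.height) : False := by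
  classical
  letI iG : GradedAlgebra (qgr w I) := qGraded w I hI
  have hC : Conn (qgr w I) := qgr_conn w I hw
  have hne : I ≠ ⊤ := by
    intro htop
    have h1 : (1 : MvPolynomial (Fin n) k) ∈
        Ideal.span (Set.range (X : Fin n → MvPolynomial (Fin n) k)) := hIm (htop ▸ trivial)
    have h2 : ∀ p ∈ Ideal.span (Set.range (X : Fin n → MvPolynomial (Fin n) k)),
        constantCoeff p = 0 := by
      intro p hp
      have h3 : Ideal.span (Set.range (X : Fin n → MvPolynomial (Fin n) k)) ≤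
          RingHom.ker (constantCoeff : MvPolynomial (Fin n) k →+* k) := by
        rw [Ideal.span_le]
        rintro _ ⟨i, rfl⟩
        simp
      exact h3 hp
    have h4 := h2 1 h1
    simp at h4
  haveI : Nontrivial (MvPolynomial (Fin n) k ⧸ I) := Ideal.Quotient.nontrivial_iff.mpr hne
  -- the ideal of good denominators
  have hJ'h : ((FTI I).map (Ideal.Quotient.mk I)).IsHomogeneous (qgr w I) := by
    rw [hom_iff]
    intro z hz d
    rw [Ideal.mem_map_iff_of_surjective _ Ideal.Quotient.mk_surjective] at hz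
    obtain ⟨y, hy, rfl⟩ := hz
    rw [gc_mk w I hI]
    exact Ideal.mem_map_of_mem _ (FTI_hom w I hI y hy d)
  obtain ⟨q, d, y, b, hq, hqh, hd, hy, hyJ, hinj, hfin⟩ := exists_par (qgr w I) hC
    ((FTI I).map (Ideal.Quotient.mk I)) hJ'h h hm (fun p hp hph hle =>
      hFT p hp (fun z hz e => (hom_iff (qgr w I) p).mp hph z hz e) hle)
  haveI := hq
  obtain ⟨F, K, iF, iK, i1, i2, i3, i4, i5, i6, φ', hφ'inj, hφ'g, hφ'int⟩ := exists_field
    (aeval (fun a => Ideal.Quotient.mk q (y a)) :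
        MvPolynomial (Fin d) k →ₐ[k] (MvPolynomial (Fin n) k ⧸ I) ⧸ q).toRingHom hinj hfin
  have hYK : Function.Injective (algebraMap (MvPolynomial (Fin d) k) K) := by
    intro p p' hpp
    rw [← hφ'g, ← hφ'g] at hpp
    exact hinj (hφ'inj hpp)
  haveI : CharZero K := charZero_of_injective_ringHom hYK
  obtain ⟨dF, dK, hcd, hYd⟩ := exists_der (k := k) (d := d) F K
  set φ : (MvPolynomial (Fin n) k ⧸ I) →+* K := φ'.comp (Ideal.Quotient.mk q) with hφ
  have hφY : ∀ a, φ (y a) = algebraMap (MvPolynomial (Fin d) k) K (X a) := by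
    intro a
    rw [← hφ'g]
    simp [hφ]
  have hφk : ∀ c : k, φ (algebraMap k _ c) = algebraMap (MvPolynomial (Fin d) k) K (C c) := by
    intro c
    rw [← hφ'g]
    simp only [hφ, RingHom.comp_apply, AlgHom.toRingHom_eq_coe, RingHom.coe_coe]
    congr 1
    rw [← MvPolynomial.algebraMap_eq, AlgHom.commutes]
    rfl
  have hφint : ∀ x, IsIntegral (MvPolynomial (Fin d) k) (φ x) := fun x => hφ'int _
  have hdK : ∀ a (p : MvPolynomial (Fin d) k),
      dK a (algebraMap _ K p) = algebraMap _ K (pderiv a p) := by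
    intro a p
    rw [IsScalarTower.algebraMap_apply (MvPolynomial (Fin d) k) F K, hcd, hYd,
      ← IsScalarTower.algebraMap_apply]
  have hker : ∀ x, φ x = 0 → ∀ e, φ (gc (qgr w I) e x) = 0 := by
    intro x hx e
    have h1 : x ∈ q := by
      rw [← Ideal.Quotient.eq_zero_iff_mem]
      apply hφ'inj
      rw [map_zero]
      exact hx
    have h2 := (hom_iff (qgr w I) q).mp hqh x h1 e
    rw [hφ, RingHom.comp_apply, Ideal.Quotient.eq_zero_iff_mem.mpr h2, map_zero]
  have heul := euler_K (qgr w I) y b (fun a => (hy a).2) hYK φ hφk hφY hφint hker dK hdK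
  -- the derivation and the contraction
  let D : (MvPolynomial (Fin n) k ⧸ I) →+ (Fin d → K) :=
    { toFun := fun x a => dK a (φ x)
      map_zero' := by funext a; simp
      map_add' := by intro x z; funext a; simp }
  let ε : (Fin d → K) →ₗ[K] K := ∑ a, (((b a : ℤ) : K) * φ (y a)) • LinearMap.proj a
  have hε : ∀ v : Fin d → K, ε v = ∑ a, ((b a : ℤ) : K) * φ (y a) * v a := by
    intro v
    simp [ε, LinearMap.sum_apply]
  have hDapp : ∀ x a, D x a = dK a (φ x) := fun x a => rfl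
  have heulD : ∀ e x, x ∈ qgr w I e → ε (D x) = ((e : ℤ) : K) * φ x := by
    intro e x hx
    rw [hε]
    exact heul e x hx
  have hleib : ∀ x z, D (x * z) = φ x • D z + φ z • D x := by
    intro x z
    funext a
    simp only [hDapp, map_mul, Derivation.leibniz, Pi.add_apply, Pi.smul_apply]
  have hDc : ∀ c : k, D (algebraMap k _ c) = 0 := by
    intro c
    funext a
    rw [hDapp, hφk, hdK]
    simp
  have hDX : ∀ p : MvPolynomial (Fin n) k, D (Ideal.Quotient.mk I p) =
      ∑ i, φ (Ideal.Quotient.mk I (pderiv i p)) • D (Ideal.Quotient.mk I (X i)) := by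
    intro p
    induction p using MvPolynomial.induction_on with
    | C c =>
      have h1 : (Ideal.Quotient.mk I (C c) : MvPolynomial (Fin n) k ⧸ I) = algebraMap k _ c := rfl
      rw [h1, hDc]
      simp
    | add p p' hp hp' =>
      rw [map_add, map_add, hp, hp', ← Finset.sum_add_distrib]
      refine Finset.sum_congr rfl fun i _ => ?_
      rw [map_add, map_add, map_add, add_smul]
    | mul_X p j hp =>
      rw [map_mul, hleib, hp]
      have h1 : ∀ i, φ (Ideal.Quotient.mk I (pderiv i (p * X j))) •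
          D (Ideal.Quotient.mk I (X i)) =
          (if i = j then φ (Ideal.Quotient.mk I p) • D (Ideal.Quotient.mk I (X i)) else 0) +
          φ (Ideal.Quotient.mk I (X j)) • (φ (Ideal.Quotient.mk I (pderiv i p)) •
            D (Ideal.Quotient.mk I (X i))) := by
        intro i
        rw [Derivation.leibniz, pderiv_X]
        rcases eq_or_ne i j with rfl | hij
        · simp [add_smul, mul_smul]
        · simp [hij, mul_smul, hij.symm]
      rw [Finset.sum_congr rfl fun i _ => h1 i, Finset.sum_add_distrib, Finset.sum_ite_eq',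
        if_pos (Finset.mem_univ j), ← Finset.smul_sum]
  have hDI : ∀ ρ ∈ I, ∑ i, φ (Ideal.Quotient.mk I (pderiv i ρ)) •
      D (Ideal.Quotient.mk I (X i)) = 0 := by
    intro ρ hρ
    rw [← hDX, Ideal.Quotient.eq_zero_iff_mem.mpr hρ, map_zero]
  have hcast : ∀ t : Fin (h + 1), (Fin.castLE hd t).val ≤ h := fun t => by
    have := t.2
    simp only [Fin.val_castLE]
    omega
  -- sections and homotopies
  have hex : ∀ t : Fin (h + 1), ∃ (P' : Matrix (Fin (r 0)) (Fin μ) (MvPolynomial (Fin n) k ⧸ I))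
      (s : ∀ p, Matrix (Fin (r (p + 1))) (Fin (r p)) (MvPolynomial (Fin n) k ⧸ I)),
      δ 0 * s 0 = y (Fin.castLE hd t) • (1 : Matrix (Fin (r 0)) (Fin (r 0)) _) - P' * σ ∧
      (∀ p, δ (p + 1) * s (p + 1) + s p * δ p =
        y (Fin.castLE hd t) • (1 : Matrix (Fin (r (p + 1))) (Fin (r (p + 1))) _)) ∧
      (P' * σ) * δ 0 = 0 ∧
      ∀ q : Fin (r 0), ∃ ρ ∈ I, ∀ i, ((P' * σ) *ᵥ J i) q = Ideal.Quotient.mk I (pderiv i ρ) := by
    intro t
    have h1 := hyJ (Fin.castLE hd t) (hcast t)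
    rw [Ideal.mem_map_iff_of_surjective _ Ideal.Quotient.mk_surjective] at h1
    obtain ⟨yt, hyt, hyt'⟩ := h1
    obtain ⟨P', hP', hρ⟩ := exists_section I f hspan (r 0) σ hK J hJ yt hyt
    rw [hyt'] at hP'
    obtain ⟨s, hs0, hs1, hs2⟩ := exists_htpy r σ δ hres.cxσ hres.cxδ hres.exσ hres.exδ
      (y (Fin.castLE hd t)) P' hP'
    exact ⟨P', s, hs0, hs1, hs2, hρ⟩
  choose P' s hs0 hs1 hs2 hρ using hex
  have hyK0 : ∀ a, φ (y a) ≠ 0 := by
    intro a h0
    rw [hφY, ← map_zero (algebraMap (MvPolynomial (Fin d) k) K)] at h0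
    exact X_ne_zero a (hYK h0)
  have hbne : ∀ a, ((b a : ℤ) : k) ≠ 0 := fun a => by
    have := (hy a).1
    exact_mod_cast this.ne'
  have hinvK : ∀ z : k, φ (algebraMap k _ z⁻¹) = (φ (algebraMap k _ z))⁻¹ := fun z =>
    map_inv₀ (φ.comp (algebraMap k (MvPolynomial (Fin n) k ⧸ I))) z
  have hintK : ∀ m : ℤ, φ (algebraMap k _ ((m : ℤ) : k)) = ((m : ℤ) : K) := fun m =>
    map_intCast (φ.comp (algebraMap k (MvPolynomial (Fin n) k ⧸ I))) m
  have hX : ∀ i, Ideal.Quotient.mk I (X i) ∈ qgr w I (w i) := by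
    intro i
    refine ⟨X i, ?_, rfl⟩
    exact (mem_weightedHomogeneousSubmodule k w (w i) (X i)).mpr (isWeightedHomogeneous_X k w i)
  let ψ : Fin (r 1) → MvPolynomial (Fin n) k ⧸ I := Pi.single l (algebraMap k _ c⁻¹)
  have hcj : ∀ j, (ψ ᵥ* δ 1) j = algebraMap k _ c⁻¹ * δ 1 l j := by
    intro j
    simp [ψ, Matrix.vecMul, single_dotProduct]
  have hcjd : ∀ j, (ψ ᵥ* δ 1) j ∈ qgr w I (a 2 j) := by
    intro j
    rw [hcj, ← Algebra.smul_def]
    have h1 := hres.homδ 1 l j
    rw [hl, sub_zero] at h1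
    exact Submodule.smul_mem _ _ h1
  have hcji : ∀ j, (ψ ᵥ* δ 1) j ∈ irr (qgr w I) := by
    intro j
    rw [hcj]
    exact Ideal.mul_mem_left _ _ (hres.minδ 1 l j)
  let H : FDat (MvPolynomial (Fin n) k ⧸ I) K (Fin d → K) (Fin (h + 1)) :=
    { φ := φ
      D := D
      ε := ε
      leib := hleib
      r := r
      a := a
      δ := δ
      cx := hres.cxδ
      eulδ := fun p i j => heulD _ _ (hres.homδ p i j)
      posδ := fun p i j hle => zero_of_deg (qgr w I) hC hle (hres.homδ p i j) (hres.minδ p i j)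
      ψ := ψ
      eulc := fun j => heulD _ _ (hcjd j)
      posc := fun j hle => zero_of_deg (qgr w I) hC hle (hcjd j) (hcji j)
      n := n
      X := fun i => Ideal.Quotient.mk I (X i)
      w := w
      eulX := fun i => heulD _ _ (hX i)
      J := J
      τ := τ
      hτ := hτ
      hψ := by
        simp only [ψ, single_dotProduct, hτl]
        rw [← map_mul, inv_mul_cancel₀ hc, map_one]
      y := fun t => y (Fin.castLE hd t)
      y0 := fun t => hyK0 _
      κ := fun t => algebraMap k _ ((b (Fin.castLE hd t) : ℤ) : k)⁻¹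
      hκ := fun t => by
        rw [heulD _ _ (hy _).2, hinvK, hintK, ← mul_assoc, inv_mul_cancel₀, one_mul]
        have := (hy (Fin.castLE hd t)).1
        exact_mod_cast this.ne'
      s := s
      Pi := fun t => P' t * σ
      h0 := hs0
      h1 := hs1
      hPi0 := hs2
      hPiJ := fun t j => by
        obtain ⟨ρ, hρI, hρ'⟩ := hρ t j
        rw [← hDI ρ hρI]
        exact Finset.sum_congr rfl fun i _ => by rw [hρ' i]
      inv := fun m => ⟨algebraMap k _ ((m : ℤ) : k)⁻¹, by rw [hinvK, hintK]⟩ }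
  have hDY : ∀ j, D (y j) = Pi.single j 1 := by
    intro j
    funext i
    rw [hDapp, hφY, hdK, pderiv_X]
    rcases eq_or_ne i j with rfl | hij
    · simp
    · simp [hij, Pi.single_apply, hij.symm]
  have hcmp := cmp H.ε H.lam (lam_ε H) H.v (v_nil H) (cob_v H) (List.finRange (h + 1))
  have hlen : (List.finRange (h + 1)).length = h + 1 := List.length_finRange
  have hv0 : H.v (List.finRange (h + 1)) = 0 := by
    obtain ⟨q', rfl⟩ : ∃ q', h = q' + 1 := ⟨h - 1, by omega⟩
    exact v_long H q' hr _ hlen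
  rw [hv0, zero_add, hlen] at hcmp
  refine final_contra hd dF dK hcd hYd φ hφint D hDapp y hφY ε (fun a => ((b a : ℤ) : k)) ?_
    H.lam (fun t => ((b (Fin.castLE hd t) : ℤ) : k)⁻¹) (fun t => inv_ne_zero (hbne _)) ?_
    (gg H.lam H.v) (fun T L hL => gg_mem H (T : Set (Fin (h + 1))) L hL) hcmp
  · intro t
    rw [hε, Finset.sum_eq_single t]
    · simp only [Pi.single_eq_same, mul_one, map_mul, hφY, ← hφk, hintK]
    · intro j _ hj
      simp [hj]
    · simp
  · intro t
    change (φ (algebraMap k _ ((b (Fin.castLE hd t) : ℤ) : k)⁻¹) *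
      (φ (y (Fin.castLE hd t)))⁻¹) • D (y (Fin.castLE hd t)) = _
    rw [hDY, hφk]

end VG
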