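import Mathlib

/-!
Project VG, module KosR: relations among the members of a regular sequence.

PLAN.  `∑ i, a i * g i = 0` for a regular sequence `g` implies `a i ∈ (g)`.  Induction on the length,
removing the last element: `g = g' ++ [x]`: `x` is regular on `T ⧸ (g')` (`IsWeaklyRegular` for
appended lists, or `isWeaklyRegular_iff_Fin`), so `a_last ∈ (g')`, `a_last = ∑ b i * g' i`, and
`∑ (a i + b i * x) * g' i = 0`; by induction `a i + b i * x ∈ (g')`, so `a i ∈ (g', x)`.
Alternatively prove the statement for all weakly regular sequences given as lists.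
`exists_functionals`: with `J = Ideal.ofList rs`, `g i = rs.get i`: the map `J → T ⧸ J`,
`∑ a i * g i ↦ mk (a j)` is well defined and linear.
-/

namespace VG

universe u

open RingTheory.Sequence

private theorem relN {T : Type u} [CommRing T] (f : ℕ → T) (N : ℕ)
    (h : ∀ n, n < N → ∀ t : T, t * f n ∈ Ideal.span (f '' (Finset.range n : Finset ℕ)) →
      t ∈ Ideal.span (f '' (Finset.range n : Finset ℕ))) :
    ∀ n, n ≤ N → ∀ a : ℕ → T, ∑ i ∈ Finset.range n, a i * f i = 0 → ∀ i, i < n →
      a i ∈ Ideal.span (f '' (Finset.range n : Finset ℕ)) := by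
  intro n
  induction n with
  | zero =>
    intro _ a _ i hi
    omega
  | succ n ih =>
    intro hn a ha i hi
    have hsub : Ideal.span (f '' (Finset.range n : Finset ℕ)) ≤
        Ideal.span (f '' (Finset.range (n + 1) : Finset ℕ)) := by
      apply Ideal.span_mono
      apply Set.image_mono
      intro x hx
      simp only [Finset.coe_range, Set.mem_Iio] at hx ⊢
      omega
    rw [Finset.sum_range_succ] at ha
    have h1 : a n * f n ∈ Ideal.span (f '' (Finset.range n : Finset ℕ)) := by
      have h2 : a n * f n = - ∑ i ∈ Finset.range n, a i * f i := by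
        linear_combination ha
      rw [h2]
      apply neg_mem
      apply Submodule.sum_mem
      intro j hj
      exact Ideal.mul_mem_left _ _ (Ideal.subset_span ⟨j, hj, rfl⟩)
    have h3 := h n (by omega) (a n) h1
    obtain ⟨b0, hb0⟩ := (Submodule.mem_span_image_finset_iff_exists_fun T).1 h3
    obtain ⟨b, hb⟩ : ∃ b : ℕ → T, ∑ i ∈ Finset.range n, b i • f i = a n := by
      refine ⟨fun i => if hi : i ∈ Finset.range n then b0 ⟨i, hi⟩ else 0, ?_⟩
      rw [← hb0, ← Finset.sum_coe_sort (Finset.range n)]
      apply Finset.sum_congr rfl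
      intro i _
      show (if hi : (i : ℕ) ∈ Finset.range n then b0 ⟨i, hi⟩ else 0) • f i = b0 i • f i
      rw [dif_pos i.2]
    have h4 : ∑ i ∈ Finset.range n, (a i + b i * f n) * f i = 0 := by
      have h5 : ∑ i ∈ Finset.range n, (a i + b i * f n) * f i =
          ∑ i ∈ Finset.range n, a i * f i + (∑ i ∈ Finset.range n, b i • f i) * f n := by
        rw [Finset.sum_mul, ← Finset.sum_add_distrib]
        apply Finset.sum_congr rfl
        intro j _
        simp only [smul_eq_mul]
        ring
      rw [h5, hb]
      exact ha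
    rcases Nat.lt_succ_iff_lt_or_eq.1 hi with hi' | hi'
    · have h6 := ih (by omega) (fun i => a i + b i * f n) h4 i hi'
      have h7 : a i = (a i + b i * f n) - b i * f n := by ring
      rw [h7]
      apply sub_mem (hsub h6)
      exact Ideal.mul_mem_left _ _ (Ideal.subset_span ⟨n, by simp, rfl⟩)
    · rw [hi']
      exact hsub h3

private theorem take_span {T : Type u} [CommRing T] (rs : List T) (n : ℕ) (hn : n ≤ rs.length) :
    Ideal.ofList (rs.take n) =
      Ideal.span ((fun i => rs.getD i 0) '' (Finset.range n : Finset ℕ)) := by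
  unfold Ideal.ofList
  congr 1
  ext x
  simp only [Set.mem_ofPred_eq, Finset.coe_range, Set.mem_image, Set.mem_Iio]
  rw [List.mem_take_iff_getElem]
  constructor
  · rintro ⟨i, hi, rfl⟩
    refine ⟨i, by omega, ?_⟩
    rw [List.getD_eq_getElem]
  · rintro ⟨i, hi, rfl⟩
    refine ⟨i, by omega, ?_⟩
    rw [List.getD_eq_getElem _ _ (by omega)]

theorem regular_relations {T : Type u} [CommRing T] (rs : List T) (h : IsWeaklyRegular T rs)
    (a : Fin rs.length → T) (ha : ∑ i, a i * rs.get i = 0) (i : Fin rs.length) :
    a i ∈ Ideal.ofList rs := by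
  have key := relN (fun i => rs.getD i 0) rs.length (by
    intro n hn t ht
    rw [← take_span rs n hn.le] at ht ⊢
    have h1 := h.regular_mod_prev n hn
    rw [isSMulRegular_quotient_iff_mem_of_smul_mem] at h1
    have h2 := h1 t
    simp only [Ideal.mul_top, smul_eq_mul] at h2
    apply h2
    have h3 : rs.getD n 0 = rs[n] := List.getD_eq_getElem _ _ hn
    rw [h3] at ht
    rw [mul_comm]
    exact ht) rs.length le_rfl (fun i => if hi : i < rs.length then a ⟨i, hi⟩ else 0) (by
    rw [Finset.sum_range]
    rw [← ha]
    apply Finset.sum_congr rfl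
    intro i _
    simp) i i.2
  rw [← take_span rs rs.length le_rfl, List.take_length] at key
  simpa using key

theorem exists_functionals {T : Type u} [CommRing T] (rs : List T) (h : IsWeaklyRegular T rs)
    (j : Fin rs.length) :
    ∃ φ : (Ideal.ofList rs) →ₗ[T] (T ⧸ Ideal.ofList rs),
      ∀ (x : Ideal.ofList rs) (a : Fin rs.length → T), (x : T) = ∑ i, a i * rs.get i →
        φ x = Ideal.Quotient.mk _ (a j) := by
  classical
  have hex : ∀ x : Ideal.ofList rs, ∃ a : Fin rs.length → T, (x : T) = ∑ i, a i * rs.get i := by
    intro x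
    have h1 : (x : T) ∈ Ideal.span (Set.range rs.get) := by
      have h2 : (x : T) ∈ Ideal.ofList rs := x.2
      have h3 : Ideal.ofList rs = Ideal.span (Set.range rs.get) := by
        unfold Ideal.ofList
        congr 1
        ext y
        simp only [Set.mem_ofPred_eq, Set.mem_range]
        exact List.mem_iff_get
      exact (le_of_eq h3) h2
    obtain ⟨c, hc⟩ := (Ideal.mem_span_range_iff_exists_fun).1 h1
    exact ⟨c, hc.symm⟩
  choose c hc using hex
  have hw : ∀ (x : Ideal.ofList rs) (a : Fin rs.length → T), (x : T) = ∑ i, a i * rs.get i →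
      Ideal.Quotient.mk (Ideal.ofList rs) (c x j) = Ideal.Quotient.mk _ (a j) := by
    intro x a hx
    rw [Ideal.Quotient.eq]
    have h1 := regular_relations rs h (fun i => c x i - a i) (by
      simp only [sub_mul, Finset.sum_sub_distrib]
      rw [← hx, ← hc x, sub_self]) j
    exact h1
  refine ⟨{ toFun := fun x => Ideal.Quotient.mk _ (c x j), map_add' := ?_, map_smul' := ?_ }, ?_⟩
  · intro x y
    rw [hw (x + y) (fun i => c x i + c y i) (by
      simp only [add_mul, Finset.sum_add_distrib]
      rw [← hc x, ← hc y]
      rfl)]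
    exact map_add _ _ _
  · intro t x
    rw [hw (t • x) (fun i => t * c x i) (by
      simp only [mul_assoc]
      rw [← Finset.mul_sum, ← hc x]
      rfl)]
    simp only [map_mul, RingHom.id_apply]
    rfl
  · intro x a hx
    exact hw x a hx

end VG
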