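import Pool.Agent.VG.GDef
import Pool.Agent.VG.KosR

/-!
Project VG, module FTp: where `I` is locally generated by a regular sequence, some `y` outside the
prime has `FT I y`.

PLAN.  `T` is the localization of the Noetherian ring `A` at the prime `P`, `IT = I.map _ =
Ideal.ofList rs`, `rs = [g_1, .., g_c]` weakly regular.  `exists_functionals` gives
`φ_j : IT → T/IT`, with `x ≡ ∑ φ_j(x) g_j` (any lifts) modulo `IT^2`: write `x = ∑ a_i g_i`, then
`φ_j x = mk a_j`, and two lifts differ by an element of `IT`.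
`x ↦ φ_j x` on `I` (composition `I → IT → T/IT`) is `A`-linear, `I` is finitely presented and
`A/I → T/IT` is a localized module for `P.primeCompl`: `exists_lift_of_isLocalizedModule` gives
`h_j : I →ₗ[A] A ⧸ I`, `s_j ∈ P.primeCompl` with `loc (h_j x) = s_j • φ_j x`.  Also
`s'_j g_j = loc ρ_j`, `ρ_j ∈ I`, `s'_j ∉ P`.  Let `s = ∏ s_j s'_j`; replacing `h_j`, `ρ_j` by
multiples we may assume `loc (h_j x) = s • φ_j x`, `loc ρ_j = s • g_j` for all `j`.  Then for
`x ∈ I` and lifts `c_j` of `h_j x`: `loc (s^2 x - ∑ c_j ρ_j) ∈ IT^2 = (I^2) T`, so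
`s_x (s^2 x - ∑ c_j ρ_j) ∈ I^2` for some `s_x ∉ P`.  Do this for finitely many generators `x` of `I`
and take the product `s''` of the `s_x`; the condition is linear in `x` (modulo `I^2`, change of
lifts is harmless).  So `FT I (s'' * s^2)` with `ρ_j` replaced by `s'' * ρ_j`, and
`s'' * s^2 ∉ P`.
-/

namespace VG

universe u

open RingTheory.Sequence

private theorem ftp_fun {A T : Type u} [CommRing A] [IsNoetherianRing A] [CommRing T] [Algebra A T]
    (M : Submonoid A) [IsLocalization M T] (I : Ideal A) (rs : List T)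
    (hrs : IsWeaklyRegular T rs) (hI : Ideal.ofList rs = I.map (algebraMap A T))
    (j : Fin rs.length) :
    ∃ (h : I →ₗ[A] A ⧸ I) (s : M), ∀ (x : I) (c : A), Ideal.Quotient.mk I c = h x →
      ∀ a : Fin rs.length → T, algebraMap A T x = ∑ i, a i * rs.get i →
        algebraMap A T (s : A) * a j - algebraMap A T c ∈ I.map (algebraMap A T) := by
  have key : ∀ J : Ideal T, Ideal.ofList rs = J → ∃ φ : J →ₗ[T] (T ⧸ J),
      ∀ (x : J) (a : Fin rs.length → T), (x : T) = ∑ i, a i * rs.get i →
        φ x = Ideal.Quotient.mk _ (a j) := by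
    rintro J rfl
    exact exists_functionals rs hrs j
  have hJ : Submodule.localized' T M (Algebra.linearMap A T) I = I.map (algebraMap A T) :=
    Ideal.localized'_eq_map T M I
  obtain ⟨φ, hφ⟩ := key (Submodule.localized' T M (Algebra.linearMap A T) I) (hI.trans hJ.symm)
  let ι : I →ₗ[A] (Submodule.localized' T M (Algebra.linearMap A T) I) :=
    { toFun := fun x => ⟨algebraMap A T x, by rw [hJ]; exact Ideal.mem_map_of_mem _ x.2⟩
      map_add' := fun x y => by
        apply Subtype.ext
        simp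
      map_smul' := fun c x => by
        apply Subtype.ext
        simp [Algebra.smul_def] }
  let ψ : I →ₗ[A] (T ⧸ Submodule.localized' T M (Algebra.linearMap A T) I) :=
    (φ.restrictScalars A) ∘ₗ ι
  have hfp : Module.FinitePresentation A I := Module.finitePresentation_of_finite A I
  obtain ⟨h, s, hs⟩ := Module.FinitePresentation.exists_lift_of_isLocalizedModule M
    (Submodule.toLocalizedQuotient' T M (Algebra.linearMap A T) I) ψ
  refine ⟨h, s, fun x c hc a ha => ?_⟩
  have h1 := LinearMap.congr_fun hs x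
  have h2 : ψ x = Ideal.Quotient.mk _ (a j) := hφ (ι x) a ha
  have h3 : (s : A) • ψ x = Submodule.Quotient.mk (algebraMap A T (s : A) * a j) := by
    rw [h2]
    have h4 : (Ideal.Quotient.mk (Submodule.localized' T M (Algebra.linearMap A T) I) (a j)) =
        Submodule.Quotient.mk (a j) := rfl
    rw [h4, ← Submodule.Quotient.mk_smul, Algebra.smul_def]
  have h5 : (Submodule.toLocalizedQuotient' T M (Algebra.linearMap A T) I) (h x) =
      Submodule.Quotient.mk (algebraMap A T c) := by
    rw [← hc]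
    rfl
  have h6 : (Submodule.Quotient.mk (algebraMap A T (s : A) * a j) :
      T ⧸ Submodule.localized' T M (Algebra.linearMap A T) I) =
      Submodule.Quotient.mk (algebraMap A T c) := by
    rw [← h3, ← h5]
    exact h1.symm
  have h7 := (Submodule.Quotient.eq _).1 h6
  rw [hJ] at h7
  exact h7

private theorem ftp_unif {A : Type u} [CommRing A] [IsNoetherianRing A] (M : Submonoid A)
    (I : Ideal A) {N : Type u} [AddCommGroup N] [Module A N] (Θ : I →ₗ[A] N)
    (h : ∀ x : I, ∃ s ∈ M, s • Θ x = 0) : ∃ u ∈ M, ∀ x : I, u • Θ x = 0 := by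
  choose s hsM hs using h
  obtain ⟨S, hS⟩ := (Module.Finite.fg_top : (⊤ : Submodule A I).FG)
  refine ⟨∏ x ∈ S, s x, M.prod_mem fun x _ => hsM x, fun x => ?_⟩
  have hle : (⊤ : Submodule A I) ≤ LinearMap.ker ((∏ x ∈ S, s x) • Θ) := by
    rw [← hS, Submodule.span_le]
    intro y hy
    obtain ⟨r, hr⟩ := Finset.dvd_prod_of_mem s (Finset.mem_coe.1 hy)
    rw [SetLike.mem_coe, LinearMap.mem_ker, LinearMap.smul_apply, hr, mul_comm, mul_smul, hs y,
      smul_zero]
  have h1 := hle (Submodule.mem_top (x := x))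
  rw [LinearMap.mem_ker, LinearMap.smul_apply] at h1
  exact h1

theorem ft_of_regular {A T : Type u} [CommRing A] [IsNoetherianRing A] [CommRing T] [Algebra A T]
    (P : Ideal A) [P.IsPrime] [IsLocalization.AtPrime T P] (I : Ideal A) (rs : List T)
    (hrs : IsWeaklyRegular T rs) (hI : Ideal.ofList rs = I.map (algebraMap A T)) :
    ∃ y : A, y ∉ P ∧ FT I y := by
  classical
  have hget : ∀ j : Fin rs.length, rs.get j ∈ I.map (algebraMap A T) := by
    intro j
    rw [← hI]
    exact Ideal.subset_span (List.get_mem rs j)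
  choose h s hs using fun j => ftp_fun P.primeCompl I rs hrs hI j
  have hρ : ∀ j : Fin rs.length, ∃ (ρ : I) (t : P.primeCompl),
      rs.get j * algebraMap A T (t : A) = algebraMap A T (ρ : A) := by
    intro j
    obtain ⟨⟨ρ, t⟩, h1⟩ := (IsLocalization.mem_map_algebraMap_iff P.primeCompl T).1 (hget j)
    exact ⟨ρ, t, h1⟩
  choose ρ t ht using hρ
  let r : Fin rs.length → A := fun j => (s j : A) * t j
  let e : Fin rs.length → A := fun j => ∏ i ∈ Finset.univ.erase j, r i
  let y : A := ∏ j, r j
  have hye : ∀ j, y = r j * e j := fun j =>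
    (Finset.mul_prod_erase Finset.univ r (Finset.mem_univ j)).symm
  have hrP : ∀ j, r j ∈ P.primeCompl := fun j => P.primeCompl.mul_mem (s j).2 (t j).2
  have hyP : y ∈ P.primeCompl := P.primeCompl.prod_mem fun j _ => hrP j
  -- the key membership
  have hloc : ∀ (x : I) (c : Fin rs.length → A), (∀ j, Ideal.Quotient.mk I (c j) = h j x) →
      algebraMap A T (y * x - ∑ j, c j * (e j * ρ j)) ∈ (I ^ 2).map (algebraMap A T) := by
    intro x c hc
    have hx : algebraMap A T (x : A) ∈ Ideal.ofList rs := by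
      rw [hI]
      exact Ideal.mem_map_of_mem _ x.2
    obtain ⟨a, ha⟩ : ∃ a : Fin rs.length → T, algebraMap A T (x : A) = ∑ i, a i * rs.get i := by
      have h1 : Ideal.ofList rs = Ideal.span (Set.range rs.get) := by
        unfold Ideal.ofList
        congr 1
        ext z
        simp [List.mem_iff_get]
      rw [h1] at hx
      obtain ⟨a, ha⟩ := (Ideal.mem_span_range_iff_exists_fun (R := T)).1 hx
      exact ⟨a, ha.symm⟩
    have h2 : algebraMap A T (y * x - ∑ j, c j * (e j * ρ j)) =
        ∑ j, (algebraMap A T (e j) * algebraMap A T (t j : A) *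
          ((algebraMap A T (s j : A) * a j - algebraMap A T (c j)) * rs.get j)) := by
      rw [map_sub, map_mul, ha, map_sum, Finset.mul_sum, ← Finset.sum_sub_distrib]
      refine Finset.sum_congr rfl fun j _ => ?_
      rw [map_mul, map_mul, ← ht j, hye j, map_mul, map_mul]
      ring
    rw [h2, Ideal.map_pow, pow_two]
    refine Ideal.sum_mem _ fun j _ => Ideal.mul_mem_left _ _ ?_
    exact Ideal.mul_mem_mul (hs j x (c j) (hc j) a ha) (hget j)
  -- the linear map
  let μ : Fin rs.length → ((A ⧸ I) →ₗ[A] (A ⧸ I ^ 2)) := fun j =>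
    Submodule.mapQ I (I ^ 2) (LinearMap.mulRight A (e j * ρ j : A)) (fun a ha => by
      show a * (e j * ρ j : A) ∈ I ^ 2
      rw [pow_two]
      exact Ideal.mul_mem_mul ha (I.mul_mem_left _ (ρ j).2))
  let Θ : I →ₗ[A] (A ⧸ I ^ 2) :=
    (Submodule.mkQ (I ^ 2)) ∘ₗ (LinearMap.mulLeft A y) ∘ₗ (Submodule.subtype I) -
      ∑ j, (μ j) ∘ₗ (h j)
  have hΘ : ∀ (x : I) (c : Fin rs.length → A), (∀ j, Ideal.Quotient.mk I (c j) = h j x) →
      Θ x = Submodule.Quotient.mk (y * x - ∑ j, c j * (e j * ρ j)) := by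
    intro x c hc
    have h1 : ∀ j, (μ j) (h j x) = (Submodule.mkQ (I ^ 2)) (c j * (e j * ρ j)) := by
      intro j
      rw [← hc j]
      rfl
    have h2 : Θ x = (Submodule.mkQ (I ^ 2)) (y * x) - ∑ j, (μ j) (h j x) := by
      simp only [Θ, LinearMap.sub_apply, LinearMap.sum_apply, LinearMap.comp_apply]
      rfl
    rw [h2, Finset.sum_congr rfl fun j _ => h1 j, ← map_sum, ← map_sub]
    rfl
  obtain ⟨u, huM, hu⟩ := ftp_unif P.primeCompl I Θ (fun x => by
    choose c hc using fun j => Ideal.Quotient.mk_surjective (I := I) (h j x)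
    obtain ⟨m, hm, hmx⟩ := (IsLocalization.algebraMap_mem_map_algebraMap_iff P.primeCompl T
      (I ^ 2) (y * x - ∑ j, c j * (e j * ρ j))).1 (hloc x c hc)
    refine ⟨m, hm, ?_⟩
    rw [hΘ x c hc, ← Submodule.Quotient.mk_smul, Submodule.Quotient.mk_eq_zero]
    exact hmx)
  refine ⟨u * y, P.primeCompl.mul_mem huM hyP, rs.length, h, fun j => (u * e j) • ρ j,
    fun x c hc => ?_⟩
  have h1 := hu x
  rw [hΘ x c hc, ← Submodule.Quotient.mk_smul, Submodule.Quotient.mk_eq_zero] at h1
  have h2 : u * y * (x : A) - ∑ j, c j * (((u * e j) • ρ j : I) : A) =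
      u • (y * x - ∑ j, c j * (e j * ρ j)) := by
    rw [smul_eq_mul, mul_sub, Finset.mul_sum]
    congr 1
    · ring
    · refine Finset.sum_congr rfl fun j _ => ?_
      rw [SetLike.val_smul, smul_eq_mul]
      ring
  rw [h2]
  exact h1

end VG
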