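import Pool.Agent.VG.GBas

/-!
Project VG, module GAv: graded prime avoidance; minimal primes of homogeneous ideals.

PLAN.  `graded_avoid`: induction on the cardinality of `S` (strong).  `S = ∅`: need some homogeneous
element of positive degree in `J`: take `0 ∈ 𝒜 1`.  In general, for each `p ∈ S` the induction
hypothesis for `S.erase p` gives a homogeneous `y_p ∈ J` of degree `b_p > 0` avoiding the others; if
some `y_p ∉ p`, done.  Otherwise `y_p ∈ p` for all `p`.  If `S = {p}`: `J ≰ p`, so some `x ∈ J`, `x ∉ p`,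
and some component `gc d x ∉ p` (`gc_sum`), `gc d x ∈ J` (`hom_iff`); `d < 0` impossible (`Conn.neg`),
`d = 0`: a nonzero constant in `J ≤ irr`, impossible (`hJm`; `p ≠ ⊤`), so `0 < d`.  If `|S| ≥ 2` fix
`p₁ ∈ S` and put `z = ∏_{p ∈ S, p ≠ p₁} y_p` of degree `B > 0`; `y = y_{p₁}^B' + z^{b'}` with exponents
such that the degrees agree (`B' = B.toNat`, `b' = (b p₁).toNat`, degree `b p₁ * B`): for `p = p₁`:
`y_{p₁} ∈ p₁`, `z ∉ p₁` (prime; the factors `y_p`, `p ≠ p₁`, avoid `p₁`); for `p ≠ p₁`: `z ∈ p`,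
`y_{p₁} ∉ p`.
`minimal_hom`: for `p` minimal over a homogeneous `J` the ideal `p.homogeneousCore 𝒜` is prime
(`Ideal.IsPrime.homogeneousCore`), contains `J` and is contained in `p`, so equals `p`.
`hom_le_irr`: a proper homogeneous ideal is contained in `irr`: components of degree `0` of its
elements are constants in it, hence zero (`irr_iff`).
-/

namespace VG

universe u

variable {k R : Type u} [Field k] [CommRing R] [Algebra k R] (𝒜 : ℤ → Submodule k R)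
  [GradedAlgebra 𝒜]

theorem graded_avoid [Nontrivial R] (hC : Conn 𝒜) (J : Ideal R) (hJ : J.IsHomogeneous 𝒜)
    (hJm : J ≤ irr 𝒜) (S : Finset (Ideal R)) (hS : ∀ p ∈ S, p.IsPrime ∧ ¬ J ≤ p) :
    ∃ (y : R) (b : ℤ), 0 < b ∧ y ∈ 𝒜 b ∧ y ∈ J ∧ ∀ p ∈ S, y ∉ p := by
  classical
  induction S using Finset.strongInduction with
  | H S ih =>
  by_cases hS0 : S = ∅
  · refine ⟨0, 1, one_pos, Submodule.zero_mem _, J.zero_mem, fun p hp => ?_⟩
    rw [hS0] at hp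
    exact absurd hp (Finset.notMem_empty p)
  obtain ⟨p₁, hp₁⟩ := Finset.nonempty_iff_ne_empty.2 hS0
  have hex : ∀ p ∈ S, ∃ (y : R) (b : ℤ), 0 < b ∧ y ∈ 𝒜 b ∧ y ∈ J ∧ ∀ q ∈ S.erase p, y ∉ q :=
    fun p hp => ih (S.erase p) (Finset.erase_ssubset hp) fun q hq => hS q (Finset.mem_of_mem_erase hq)
  by_cases hgood : ∃ p ∈ S, ∃ (y : R) (b : ℤ), 0 < b ∧ y ∈ 𝒜 b ∧ y ∈ J ∧ (∀ q ∈ S.erase p, y ∉ q) ∧ y ∉ p
  · obtain ⟨p, hp, y, b, h1, h2, h3, h4, h5⟩ := hgood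
    refine ⟨y, b, h1, h2, h3, fun q hq => ?_⟩
    by_cases hqp : q = p
    · rw [hqp]
      exact h5
    · exact h4 q (Finset.mem_erase.2 ⟨hqp, hq⟩)
  by_cases hS1 : S = {p₁}
  · obtain ⟨hpr, hnle⟩ := hS p₁ hp₁
    obtain ⟨x, hxJ, hxp⟩ := Set.not_subset.1 (fun h => hnle h)
    obtain ⟨s, hs, -⟩ := gc_sum 𝒜 x
    have h1 : ∃ d ∈ s, gc 𝒜 d x ∉ p₁ := by
      by_contra hc
      push Not at hc
      apply hxp
      rw [hs]
      exact p₁.sum_mem hc
    obtain ⟨d, -, hd⟩ := h1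
    have hdJ : gc 𝒜 d x ∈ J := (hom_iff 𝒜 J).1 hJ x hxJ d
    have hd0 : 0 < d := by
      by_contra hc
      rcases lt_or_eq_of_le (not_lt.1 hc) with h2 | h2
      · exact hd (by rw [hC.neg d h2 _ (gc_mem 𝒜 d x)]; exact p₁.zero_mem)
      · have h3 := (irr_iff 𝒜 hC _).1 (hJm hxJ)
        rw [h2, h3] at hd
        exact hd p₁.zero_mem
    refine ⟨gc 𝒜 d x, d, hd0, gc_mem 𝒜 d x, hdJ, fun p hp => ?_⟩
    rw [hS1, Finset.mem_singleton] at hp
    rw [hp]
    exact hd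
  · choose! y b hb hyb hyJ hyq using hex
    have hyp : ∀ p ∈ S, y p ∈ p := by
      intro p hp
      by_contra hc
      exact hgood ⟨p, hp, y p, b p, hb p hp, hyb p hp, hyJ p hp, hyq p hp, hc⟩
    set T := S.erase p₁ with hT
    have hTne : T.Nonempty := by
      rw [Finset.nonempty_iff_ne_empty]
      intro h
      apply hS1
      rw [← Finset.insert_erase hp₁, ← hT, h]
      rfl
    have hTS : ∀ p ∈ T, p ∈ S := fun p hp => Finset.mem_of_mem_erase hp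
    have hB : 0 < ∑ p ∈ T, b p := Finset.sum_pos (fun p hp => hb p (hTS p hp)) hTne
    have hz : ∏ p ∈ T, y p ∈ 𝒜 (∑ p ∈ T, b p) :=
      SetLike.prod_mem_graded _ _ _ fun p hp => hyb p (hTS p hp)
    set B := ∑ p ∈ T, b p with hBdef
    set z := ∏ p ∈ T, y p with hzdef
    have hb1 := hb p₁ hp₁
    have hBt : ((B.toNat : ℕ) : ℤ) = B := Int.toNat_of_nonneg hB.le
    have hbt : (((b p₁).toNat : ℕ) : ℤ) = b p₁ := Int.toNat_of_nonneg hb1.le
    have hBt0 : B.toNat ≠ 0 := by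
      intro h
      rw [h] at hBt
      simp at hBt
      omega
    have hbt0 : (b p₁).toNat ≠ 0 := by
      intro h
      rw [h] at hbt
      simp at hbt
      omega
    have hm1 : (y p₁) ^ B.toNat ∈ 𝒜 (b p₁ * B) := by
      have h1 := SetLike.pow_mem_graded (A := 𝒜) B.toNat (hyb p₁ hp₁)
      have h2 : B.toNat • b p₁ = b p₁ * B := by
        rw [nsmul_eq_mul, hBt, mul_comm]
      rwa [h2] at h1
    have hm2 : z ^ (b p₁).toNat ∈ 𝒜 (b p₁ * B) := by
      have h1 := SetLike.pow_mem_graded (A := 𝒜) (b p₁).toNat hz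
      have h2 : (b p₁).toNat • B = b p₁ * B := by
        rw [nsmul_eq_mul, hbt]
      rwa [h2] at h1
    have hzq : ∀ q ∈ T, ∀ I : Ideal R, y q ∈ I → z ∈ I := by
      intro q hq I hI
      rw [hzdef, ← Finset.mul_prod_erase _ _ hq]
      exact I.mul_mem_right _ hI
    obtain ⟨p₂, hp₂⟩ := hTne
    refine ⟨(y p₁) ^ B.toNat + z ^ (b p₁).toNat, b p₁ * B, mul_pos hb1 hB, Submodule.add_mem _ hm1 hm2,
      J.add_mem (J.pow_mem_of_mem (hyJ p₁ hp₁) _ (Nat.pos_of_ne_zero hBt0))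
        (J.pow_mem_of_mem (hzq p₂ hp₂ J (hyJ p₂ (hTS p₂ hp₂))) _ (Nat.pos_of_ne_zero hbt0)), ?_⟩
    intro p hp hmem
    obtain ⟨hpr, -⟩ := hS p hp
    by_cases hpp : p = p₁
    · subst hpp
      have h1 : (y p) ^ B.toNat ∈ p := p.pow_mem_of_mem (hyp p hp) _ (Nat.pos_of_ne_zero hBt0)
      have h2 : z ^ (b p).toNat ∈ p := by
        have h3 := p.sub_mem hmem h1
        rwa [add_sub_cancel_left] at h3
      have h3 : z ∈ p := hpr.mem_of_pow_mem _ h2
      obtain ⟨q, hq, hqp⟩ := hpr.prod_mem_iff.1 h3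
      refine hyq q (hTS q hq) p (Finset.mem_erase.2 ⟨?_, hp⟩) hqp
      intro h
      rw [← h] at hq
      exact (Finset.mem_erase.1 hq).1 rfl
    · have hpT : p ∈ T := Finset.mem_erase.2 ⟨hpp, hp⟩
      have h1 : z ^ (b p₁).toNat ∈ p :=
        p.pow_mem_of_mem (hzq p hpT p (hyp p hp)) _ (Nat.pos_of_ne_zero hbt0)
      have h2 : (y p₁) ^ B.toNat ∈ p := by
        have h3 := p.sub_mem hmem h1
        rwa [add_sub_cancel_right] at h3
      exact hyq p₁ hp₁ p hpT (hpr.mem_of_pow_mem _ h2)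

theorem minimal_hom (J : Ideal R) (hJ : J.IsHomogeneous 𝒜) (p : Ideal R)
    (hp : p ∈ J.minimalPrimes) : p.IsHomogeneous 𝒜 := by
  have hpr : p.IsPrime := hp.1.1
  have hJp : J ≤ p := hp.1.2
  have h1 : ((p.homogeneousCore 𝒜).toIdeal).IsPrime := Ideal.IsPrime.homogeneousCore hpr
  have h2 : J ≤ (p.homogeneousCore 𝒜).toIdeal := by
    have h3 := hJ.toIdeal_homogeneousCore_eq_self
    rw [← h3]
    exact Ideal.homogeneousCore_mono 𝒜 hJp
  have h3 : (p.homogeneousCore 𝒜).toIdeal ≤ p := Ideal.toIdeal_homogeneousCore_le 𝒜 p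
  have h4 := hp.2 ⟨h1, h2⟩ h3
  have h5 : (p.homogeneousCore 𝒜).toIdeal = p := le_antisymm h3 h4
  rw [← h5]
  exact (p.homogeneousCore 𝒜).isHomogeneous

theorem hom_le_irr [Nontrivial R] (hC : Conn 𝒜) (J : Ideal R) (hJ : J.IsHomogeneous 𝒜)
    (hJ1 : J ≠ ⊤) : J ≤ irr 𝒜 := by
  intro x hx
  rw [irr_iff 𝒜 hC]
  have h1 := (hom_iff 𝒜 J).1 hJ x hx 0
  obtain ⟨c, hc⟩ := hC.zero _ (gc_mem 𝒜 0 x)
  by_cases hc0 : c = 0
  · rw [hc, hc0, map_zero]
  · exfalso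
    apply hJ1
    rw [hc] at h1
    exact Ideal.eq_top_of_isUnit_mem J h1 ((isUnit_iff_ne_zero.2 hc0).map (algebraMap k R))

end VG
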