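import Mathlib

/-!
Project VG, module AssD: the length of a regular sequence on a finite module over a Noetherian local
ring is at most the dimension of the quotient by an associated prime.
-/

open IsLocalRing RingTheory.Sequence

open scoped Pointwise

namespace VG

universe u

private theorem dim_succ_le {B : Type u} [CommRing B] {p q : Ideal B} (hp : p.IsPrime)
    (hpq : p ≤ q) {x : B} (hx : x ∉ p) (hxq : x ∈ q) :
    ringKrullDim (B ⧸ q) + 1 ≤ ringKrullDim (B ⧸ p) := by
  have : IsDomain (B ⧸ p) := Ideal.Quotient.isDomain p
  refine ringKrullDim_succ_le_of_surjective (Ideal.Quotient.factor hpq)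
    (Ideal.Quotient.factor_surjective hpq) (r := Ideal.Quotient.mk p x) ?_ ?_
  · rw [mem_nonZeroDivisors_iff_ne_zero]
    intro h
    exact hx (Ideal.Quotient.eq_zero_iff_mem.mp h)
  · rw [Ideal.Quotient.factor_mk]
    exact Ideal.Quotient.eq_zero_iff_mem.mpr hxq

theorem length_le_dim_ass {B : Type u} [CommRing B] [IsLocalRing B] [IsNoetherianRing B]
    (rs : List B) : ∀ (M : Type u) [AddCommGroup M] [Module B M] [Module.Finite B M]
      (_ : IsRegular M rs) (p : Ideal B) (_ : IsAssociatedPrime p M),
      ((rs.length : ℕ) : WithBot ℕ∞) ≤ ringKrullDim (B ⧸ p) := by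
  induction rs with
  | nil =>
    intro M _ _ _ _ p hp
    have : Nontrivial (B ⧸ p) := Ideal.Quotient.nontrivial_iff.mpr hp.isPrime.ne_top
    simpa using ringKrullDim_nonneg_of_nontrivial
  | cons x rs ih =>
    intro M _ _ _ hrs p hp
    have hpp : p.IsPrime := hp.isPrime
    rw [isRegular_cons_iff] at hrs
    obtain ⟨hx, hrs⟩ := hrs
    have hxm : x ∈ maximalIdeal B := by
      by_contra hxm
      have hu : IsUnit x := by
        by_contra h
        exact hxm ((mem_maximalIdeal x).mpr h)
      have h1 : Subsingleton (QuotSMulTop x M) := by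
        rw [Submodule.Quotient.subsingleton_iff, eq_top_iff]
        intro y _
        obtain ⟨v, rfl⟩ := hu
        refine ⟨(↑v⁻¹ : B) • y, trivial, ?_⟩
        simp [smul_smul]
      exact hrs.2 (Subsingleton.elim _ _)
    -- the elements killed by `p`
    let N : Submodule B M :=
      { carrier := {y | ∀ a ∈ p, a • y = 0}
        add_mem' := fun {y z} hy hz a ha => by rw [smul_add, hy a ha, hz a ha, add_zero]
        zero_mem' := fun a _ => smul_zero a
        smul_mem' := fun c y hy a ha => by rw [smul_comm, hy a ha, smul_zero] }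
    have hN : ∀ y, y ∈ N ↔ ∀ a ∈ p, a • y = 0 := fun y => Iff.rfl
    obtain ⟨-, z, hz⟩ := isAssociatedPrime_iff.mp hp
    have hz' : ∀ a, a ∈ p ↔ a • z = 0 := by
      intro a
      rw [hz, Submodule.mem_colon_singleton, Submodule.mem_bot]
    have hzN : z ∈ N := fun a ha => (hz' a).mp ha
    have hz0 : z ≠ 0 := by
      intro h0
      apply hpp.ne_top
      rw [Ideal.eq_top_iff_one, hz', h0, smul_zero]
    have hxp : x ∉ p := by
      intro h
      rw [hz'] at h
      exact hz0 (hx (by simpa using h))
    have hex : ∃ y ∈ N, y ∉ x • (⊤ : Submodule B M) := by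
      by_contra hcon
      push Not at hcon
      have hle : N ≤ maximalIdeal B • N := by
        intro y hy
        obtain ⟨y', -, hy'⟩ := hcon y hy
        have h1 : y' ∈ N := by
          intro a ha
          apply hx
          have h2 : x • y' = y := hy'
          simp only [smul_zero]
          rw [smul_comm, h2]
          exact hy a ha
        have h2 : x • y' = y := hy'
        rw [← h2]
        exact Submodule.smul_mem_smul hxm h1
      have hbot : N = ⊥ := Submodule.eq_bot_of_le_smul_of_le_jacobson_bot (maximalIdeal B) N
        (IsNoetherian.noetherian N) hle (IsLocalRing.maximalIdeal_le_jacobson ⊥)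
      rw [hbot] at hzN
      exact hz0 ((Submodule.mem_bot B).mp hzN)
    obtain ⟨y, hyN, hy⟩ := hex
    have hy0 : (Submodule.Quotient.mk y : QuotSMulTop x M) ≠ 0 := by
      intro h
      exact hy ((Submodule.Quotient.mk_eq_zero _).mp h)
    obtain ⟨q, hq, hle⟩ := exists_le_isAssociatedPrime_of_isNoetherianRing B _ hy0
    have hann : ∀ a : B, a • y ∈ x • (⊤ : Submodule B M) → a ∈ q := by
      intro a ha
      apply hle
      rw [Submodule.mem_colon_singleton, Submodule.mem_bot, ← Submodule.Quotient.mk_smul,
        Submodule.Quotient.mk_eq_zero]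
      exact ha
    have hpq : p ≤ q := by
      intro a ha
      apply hann
      rw [hyN a ha]
      exact zero_mem _
    have hxq : x ∈ q := hann x ⟨y, trivial, rfl⟩
    have h3 := ih (QuotSMulTop x M) hrs q hq
    have h4 := dim_succ_le hpp hpq hxp hxq
    rw [List.length_cons, Nat.cast_add, Nat.cast_one]
    exact le_trans (by gcongr) h4

end VG
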