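import Mathlib

/-!
Project VG, module LocEx: exactness of matrices localizes.

PLAN.  Given `u` over `B` with `P u = 0`, choose a common denominator `s ∈ M` and `u' : Fin b → R`
with `s • u = u'` (`IsLocalization.exist_integer_multiples_of_finset` or
`IsLocalization.exist_integer_multiples`).  Then `P *ᵥ u'` maps to `0` in `B`, so some `s' ∈ M` kills
its finitely many entries: `P *ᵥ (s' u') = 0`, `s' u' = Q *ᵥ w`, and
`u = Q *ᵥ ((s s')⁻¹ w)` over `B`.
-/

open Matrix

namespace VG

universe u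

theorem exact_loc {R B : Type u} [CommRing R] [CommRing B] [Algebra R B] (M : Submonoid R)
    [IsLocalization M B] {a b c : ℕ} (P : Matrix (Fin a) (Fin b) R) (Q : Matrix (Fin b) (Fin c) R)
    (h : ∀ u, P *ᵥ u = 0 → ∃ w, u = Q *ᵥ w) (u : Fin b → B)
    (hu : (P.map (algebraMap R B)) *ᵥ u = 0) : ∃ w, u = (Q.map (algebraMap R B)) *ᵥ w := by
  obtain ⟨s, hs⟩ := IsLocalization.exist_integer_multiples_of_finite M u
  have hs' : ∀ i, ∃ r : R, algebraMap R B r = algebraMap R B s * u i := by
    intro i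
    obtain ⟨r, hr⟩ := hs i
    refine ⟨r, ?_⟩
    rw [hr, Algebra.smul_def]
  choose u' hu' using hs'
  have hmap : (algebraMap R B) ∘ u' = (algebraMap R B s) • u := by
    funext i
    exact hu' i
  have h1 : ∀ i, ∃ m : M, (m : R) * (P *ᵥ u') i = 0 := by
    intro i
    apply (IsLocalization.map_eq_zero_iff M B _).1
    rw [RingHom.map_mulVec, hmap, Matrix.mulVec_smul, hu, smul_zero]
    rfl
  choose m hm using h1
  have h2 : P *ᵥ ((∏ i, (m i : R)) • u') = 0 := by
    rw [Matrix.mulVec_smul]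
    funext i
    show (∏ i, (m i : R)) * (P *ᵥ u') i = 0
    rw [← Finset.mul_prod_erase _ _ (Finset.mem_univ i), mul_assoc, mul_left_comm, hm i, mul_zero]
  obtain ⟨w, hw⟩ := h _ h2
  have hunit : IsUnit (algebraMap R B ((∏ i, (m i : R)) * s)) := by
    have h3 : (∏ i, (m i : R)) * s = (((∏ i, m i) * s : M) : R) := by
      rw [Submonoid.coe_mul, Submonoid.coe_finsetProd]
    rw [h3]
    exact IsLocalization.map_units B _
  obtain ⟨t, ht⟩ := hunit
  refine ⟨(((t⁻¹ : Bˣ) : B)) • ((algebraMap R B) ∘ w), ?_⟩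
  have h4 : (Q.map (algebraMap R B)) *ᵥ ((algebraMap R B) ∘ w) = (t : B) • u := by
    funext i
    rw [← RingHom.map_mulVec, ← hw]
    show algebraMap R B ((∏ i, (m i : R)) * u' i) = (t : B) * u i
    rw [map_mul, hu', ht, map_mul, mul_assoc]
  rw [Matrix.mulVec_smul, h4, smul_smul, Units.inv_mul, one_smul]

end VG
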