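import Pool.Agent.Helper19.PdBasic

/-!
Project VG, module PdRes: a finite free resolution bounds the projective dimension, and conversely
a minimal resolution over a local ring stops at the projective dimension.

Recall (`Helper19.PdBasic`): `PD B X n` means `pd X < n`.
`pd_of_res`: if `r (h+1) = 0` then the range of `δ h` is zero, and the short exact sequences given
by the ranges of the matrices bound the projective dimensions step by step (`pd_coker`).
`inj_zero`, `inj_succ`: if the range of a matrix has projective dimension zero, its kernel is a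
direct summand of the free module, contained in the maximal ideal times the free module, so it
vanishes by Nakayama; `pd_ker` reduces to this case.
-/

open Matrix

namespace VG

universe u

open Pool.Agent.Helper19

private theorem exact_range {B X Y W : Type u} [CommRing B] [AddCommGroup X] [Module B X]
    [AddCommGroup Y] [Module B Y] [AddCommGroup W] [Module B W] (f : X →ₗ[B] Y) (g : W →ₗ[B] X)
    (hc : ∀ w, f (g w) = 0) (he : ∀ x, f x = 0 → ∃ w, x = g w) :
    Function.Exact (LinearMap.range g).subtype f.rangeRestrict := by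
  intro x
  constructor
  · intro hx
    have hx' : f x = 0 := congrArg Subtype.val hx
    obtain ⟨w, rfl⟩ := he x hx'
    exact ⟨⟨g w, LinearMap.mem_range_self g w⟩, rfl⟩
  · rintro ⟨⟨y, w, rfl⟩, rfl⟩
    exact Subtype.ext (hc w)

private theorem step_ker {B X Y W : Type u} [CommRing B] [AddCommGroup X] [Module B X]
    [AddCommGroup Y] [Module B Y] [AddCommGroup W] [Module B W] [Module.Free B X]
    (f : X →ₗ[B] Y) (g : W →ₗ[B] X)
    (hc : ∀ w, f (g w) = 0) (he : ∀ x, f x = 0 → ∃ w, x = g w) {n : ℕ}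
    (h : PD B (LinearMap.range f) (n + 2)) : PD B (LinearMap.range g) (n + 1) :=
  pd_ker (f := (LinearMap.range g).subtype) (g := f.rangeRestrict) Subtype.val_injective
    f.surjective_rangeRestrict (exact_range f g hc he) h

private theorem step_coker {B X Y W : Type u} [CommRing B] [AddCommGroup X] [Module B X]
    [AddCommGroup Y] [Module B Y] [AddCommGroup W] [Module B W] [Module.Free B X]
    (f : X →ₗ[B] Y) (g : W →ₗ[B] X)
    (hc : ∀ w, f (g w) = 0) (he : ∀ x, f x = 0 → ∃ w, x = g w) {n : ℕ}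
    (h : PD B (LinearMap.range g) n) : PD B (LinearMap.range f) (n + 1) :=
  pd_coker (f := (LinearMap.range g).subtype) (g := f.rangeRestrict) Subtype.val_injective
    f.surjective_rangeRestrict (exact_range f g hc he) h (PD.mono pd_of_free (by omega))

private theorem mulVec_comp_zero {B : Type u} [CommRing B] {a b c : ℕ}
    {M : Matrix (Fin a) (Fin b) B} {N : Matrix (Fin b) (Fin c) B} (h : M * N = 0) :
    ∀ w, M.mulVecLin (N.mulVecLin w) = 0 := by
  intro w
  rw [mulVecLin_apply, mulVecLin_apply, Matrix.mulVec_mulVec, h, Matrix.zero_mulVec]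

private theorem pd_down {B : Type u} [CommRing B] (r : ℕ → ℕ)
    (δ : ∀ p, Matrix (Fin (r p)) (Fin (r (p + 1))) B)
    (cxδ : ∀ p, δ p * δ (p + 1) = 0)
    (exδ : ∀ p u, δ p *ᵥ u = 0 → ∃ w, u = δ (p + 1) *ᵥ w) :
    ∀ h q : ℕ, r (q + h + 1) = 0 → PD B (LinearMap.range (δ q).mulVecLin) h := by
  intro h
  induction h with
  | zero =>
    intro q hr
    have hs : Subsingleton (LinearMap.range (δ q).mulVecLin) := by
      refine ⟨?_⟩
      rintro ⟨x, u, rfl⟩ ⟨y, v, rfl⟩
      have huv : u = v := by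
        funext i
        have hr' : r (q + 1) = 0 := hr
        have := i.isLt
        omega
      exact Subtype.ext (congrArg (δ q).mulVecLin huv)
    exact (ModuleCat.isZero_iff_subsingleton.mpr hs).hasProjectiveDimensionLT_zero
  | succ h ih =>
    intro q hr
    refine step_coker _ (δ (q + 1)).mulVecLin (mulVec_comp_zero (cxδ q)) ?_ (ih (q + 1) ?_)
    · intro x hx
      exact exδ q x hx
    · rw [← hr]
      ring_nf

theorem pd_of_res {B : Type u} [CommRing B] {μ : ℕ} (r : ℕ → ℕ)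
    (σ : Matrix (Fin μ) (Fin (r 0)) B) (δ : ∀ p, Matrix (Fin (r p)) (Fin (r (p + 1))) B)
    (cxσ : σ * δ 0 = 0) (cxδ : ∀ p, δ p * δ (p + 1) = 0)
    (exσ : ∀ u, σ *ᵥ u = 0 → ∃ w, u = δ 0 *ᵥ w)
    (exδ : ∀ p u, δ p *ᵥ u = 0 → ∃ w, u = δ (p + 1) *ᵥ w) (h : ℕ) (hr : r (h + 1) = 0) :
    PD B (LinearMap.range σ.mulVecLin) (h + 1) := by
  refine step_coker _ (δ 0).mulVecLin (mulVec_comp_zero cxσ) (fun x hx => exσ x hx)
    (pd_down r δ cxδ exδ h 0 ?_)
  rw [zero_add]
  exact hr

private theorem ker_zero {B : Type u} [CommRing B] [IsLocalRing B] [IsNoetherianRing B]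
    {Y : Type u} [AddCommGroup Y] [Module B Y] {n : ℕ} (f : (Fin n → B) →ₗ[B] Y)
    (hmin : ∀ u, f u = 0 → ∀ i, u i ∈ IsLocalRing.maximalIdeal B)
    (h : PD B (LinearMap.range f) 1) : ∀ u, f u = 0 → u = 0 := by
  have hproj : Module.Projective B (LinearMap.range f) := projective_of_pd_one h
  obtain ⟨s, hs⟩ := Module.projective_lifting_property f.rangeRestrict LinearMap.id
    f.surjective_rangeRestrict
  have hs' : ∀ x, f (s x) = x := by
    intro x
    have := congrArg (fun g : LinearMap.range f →ₗ[B] LinearMap.range f => (g x : Y)) hs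
    exact this
  set π : (Fin n → B) →ₗ[B] (Fin n → B) := LinearMap.id - s ∘ₗ f.rangeRestrict with hπ
  have hπk : ∀ x, π x ∈ LinearMap.ker f := by
    intro x
    rw [LinearMap.mem_ker, hπ, LinearMap.sub_apply, map_sub, LinearMap.id_apply,
      LinearMap.comp_apply, hs' (f.rangeRestrict x)]
    simp
  have hπi : ∀ x, f x = 0 → π x = x := by
    intro x hx
    have h0 : f.rangeRestrict x = 0 := Subtype.ext hx
    rw [hπ, LinearMap.sub_apply, LinearMap.comp_apply, h0, map_zero, sub_zero, LinearMap.id_apply]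
  have hbot : LinearMap.ker f = ⊥ := by
    refine Submodule.eq_bot_of_le_smul_of_le_jacobson_bot (IsLocalRing.maximalIdeal B)
      (LinearMap.ker f) (IsNoetherian.noetherian _) ?_ (IsLocalRing.maximalIdeal_le_jacobson _)
    intro u hu
    have hu' : f u = 0 := hu
    rw [← hπi u hu', pi_eq_sum_univ' u, map_sum]
    refine Submodule.sum_mem _ fun i _ => ?_
    rw [map_smul]
    exact Submodule.smul_mem_smul (hmin u hu' i) (hπk _)
  intro u hu
  have : u ∈ LinearMap.ker f := hu
  rwa [hbot, Submodule.mem_bot] at this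

private theorem mulVec_mem {B : Type u} [CommRing B] [IsLocalRing B] {a b : ℕ}
    (M : Matrix (Fin a) (Fin b) B) (hM : ∀ i j, M i j ∈ IsLocalRing.maximalIdeal B)
    (w : Fin b → B) (i : Fin a) : (M *ᵥ w) i ∈ IsLocalRing.maximalIdeal B := by
  show ∑ j, M i j * w j ∈ IsLocalRing.maximalIdeal B
  exact Ideal.sum_mem _ fun j _ => Ideal.mul_mem_right _ _ (hM i j)

theorem inj_zero {B : Type u} [CommRing B] [IsLocalRing B] [IsNoetherianRing B] {μ : ℕ}
    (r : ℕ → ℕ) (σ : Matrix (Fin μ) (Fin (r 0)) B)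
    (δ : ∀ p, Matrix (Fin (r p)) (Fin (r (p + 1))) B)
    (cxσ : σ * δ 0 = 0) (exσ : ∀ u, σ *ᵥ u = 0 → ∃ w, u = δ 0 *ᵥ w)
    (minδ : ∀ p i j, δ p i j ∈ IsLocalRing.maximalIdeal B)
    (hpd : PD B (LinearMap.range σ.mulVecLin) 1) : ∀ u, σ *ᵥ u = 0 → u = 0 := by
  have _ := cxσ
  refine ker_zero σ.mulVecLin (fun u hu i => ?_) hpd
  obtain ⟨w, rfl⟩ := exσ u hu
  exact mulVec_mem (δ 0) (minδ 0) w i

private theorem pd_up {B : Type u} [CommRing B] (r : ℕ → ℕ)
    (δ : ∀ p, Matrix (Fin (r p)) (Fin (r (p + 1))) B)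
    (cxδ : ∀ p, δ p * δ (p + 1) = 0)
    (exδ : ∀ p u, δ p *ᵥ u = 0 → ∃ w, u = δ (p + 1) *ᵥ w) :
    ∀ p q : ℕ, PD B (LinearMap.range (δ q).mulVecLin) (p + 1) →
      PD B (LinearMap.range (δ (q + p)).mulVecLin) 1 := by
  intro p
  induction p with
  | zero => intro q h; exact h
  | succ p ih =>
    intro q h
    have h1 : PD B (LinearMap.range (δ (q + 1)).mulVecLin) (p + 1) :=
      step_ker (δ q).mulVecLin _ (mulVec_comp_zero (cxδ q)) (fun x hx => exδ q x hx) h
    have h2 := ih (q + 1) h1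
    have h3 : q + (p + 1) = q + 1 + p := by omega
    rw [h3]
    exact h2

theorem inj_succ {B : Type u} [CommRing B] [IsLocalRing B] [IsNoetherianRing B] {μ : ℕ}
    (r : ℕ → ℕ) (σ : Matrix (Fin μ) (Fin (r 0)) B)
    (δ : ∀ p, Matrix (Fin (r p)) (Fin (r (p + 1))) B)
    (cxσ : σ * δ 0 = 0) (cxδ : ∀ p, δ p * δ (p + 1) = 0)
    (exσ : ∀ u, σ *ᵥ u = 0 → ∃ w, u = δ 0 *ᵥ w)
    (exδ : ∀ p u, δ p *ᵥ u = 0 → ∃ w, u = δ (p + 1) *ᵥ w)
    (minδ : ∀ p i j, δ p i j ∈ IsLocalRing.maximalIdeal B) (p : ℕ)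
    (hpd : PD B (LinearMap.range σ.mulVecLin) (p + 2)) : ∀ u, δ p *ᵥ u = 0 → u = 0 := by
  have h0 : PD B (LinearMap.range (δ 0).mulVecLin) (p + 1) :=
    step_ker σ.mulVecLin _ (mulVec_comp_zero cxσ) (fun x hx => exσ x hx) hpd
  have h1 := pd_up r δ cxδ exδ p 0 h0
  rw [zero_add] at h1
  refine ker_zero (δ p).mulVecLin (fun u hu i => ?_) h1
  obtain ⟨w, rfl⟩ := exδ p u hu
  exact mulVec_mem (δ (p + 1)) (minδ (p + 1)) w i

end VG
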