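import Pool.Agent.VG.LocHom
import Pool.Agent.VG.LocEx
import Pool.Agent.VG.PdRes
import Pool.Agent.Helper19.FreeNormalMain

/-! Project VG, module LciL: the known cases in dimension one and two. -/

open Matrix CategoryTheory RingTheory.Sequence

namespace VG

universe u

open Pool.Agent.Helper19

theorem regT {k : Type u} [Field k] {n : ℕ} {T : Type u} [CommRing T]
    [Algebra (MvPolynomial (Fin n) k) T] (P : Ideal (MvPolynomial (Fin n) k)) [P.IsPrime]
    [IsLocalization.AtPrime T P] : IsRegularLocalRing T := by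
  exact IsRegularLocalRing.of_ringEquiv
    (IsLocalization.algEquiv P.primeCompl (Localization.AtPrime P) T).toRingEquiv

private theorem len_le {B : Type u} [CommRing B] [IsLocalRing B] [IsNoetherianRing B] {d : ℕ}
    (hdim : ringKrullDim B ≤ d) (rs : List B) (hrs : IsRegular B rs) : rs.length ≤ d := by
  have h1 := ringKrullDim_add_length_eq_ringKrullDim_of_isRegular rs hrs
  have h2 : Nontrivial (B ⧸ Ideal.ofList rs) := by
    refine Ideal.Quotient.nontrivial_iff.2 fun h3 => hrs.2 ?_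
    rw [h3]
    simp
  have h3 : (0 : WithBot ℕ∞) ≤ ringKrullDim (B ⧸ Ideal.ofList rs) := ringKrullDim_nonneg_of_nontrivial
  have h4 : (rs.length : WithBot ℕ∞) ≤ d := by
    calc (rs.length : WithBot ℕ∞) = 0 + rs.length := (zero_add _).symm
      _ ≤ ringKrullDim (B ⧸ Ideal.ofList rs) + rs.length := by gcongr
      _ = ringKrullDim B := h1
      _ ≤ d := hdim
  exact_mod_cast h4

variable {A T : Type u} [CommRing A] [IsNoetherianRing A] [CommRing T] [Algebra A T]
  (M : Submonoid A) [IsLocalization M T] (I : Ideal A) {μ : ℕ} (f : Fin μ → I)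
  (hspan : Submodule.span A (Set.range f) = ⊤) (r : ℕ → ℕ)
  (σ : Matrix (Fin μ) (Fin (r 0)) (A ⧸ I)) (δ : ∀ p, Matrix (Fin (r p)) (Fin (r (p + 1))) (A ⧸ I))
  (cxσ : σ * δ 0 = 0) (cxδ : ∀ p, δ p * δ (p + 1) = 0)
  (exσ : ∀ u, σ *ᵥ u = 0 → ∃ w, u = δ 0 *ᵥ w)
  (exδ : ∀ p u, δ p *ᵥ u = 0 → ∃ w, u = δ (p + 1) *ᵥ w)
  (hK : ∀ u, u ∈ K0 I f ↔ ∃ v, u = σ *ᵥ v) (h : ℕ) (hr : r (h + 1) = 0)

include M hspan cxσ cxδ exσ exδ hK hr

theorem pd_normal :
    projectiveDimension (ModuleCat.of (T ⧸ I.map (algebraMap A T))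
      ((I.map (algebraMap A T)).Cotangent →ₗ[T ⧸ I.map (algebraMap A T)]
        (T ⧸ I.map (algebraMap A T)))) < ⊤ := by
  obtain ⟨e⟩ := hom_loc (T := T) M I f hspan (r 0) σ hK
  have hmul : ∀ {a b c : ℕ} (P : Matrix (Fin a) (Fin b) (A ⧸ I)) (Q : Matrix (Fin b) (Fin c) (A ⧸ I)),
      P * Q = 0 → P.map (algebraMap (A ⧸ I) (T ⧸ I.map (algebraMap A T))) *
        Q.map (algebraMap (A ⧸ I) (T ⧸ I.map (algebraMap A T))) = 0 := by
    intro a b c P Q h1
    rw [← Matrix.map_mul, h1]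
    exact Matrix.map_zero _ (map_zero _)
  have h1 : PD (T ⧸ I.map (algebraMap A T))
      (LinearMap.range (σ.map (algebraMap (A ⧸ I) (T ⧸ I.map (algebraMap A T)))).mulVecLin) (h + 1) :=
    pd_of_res r (σ.map (algebraMap (A ⧸ I) (T ⧸ I.map (algebraMap A T))))
      (fun p => (δ p).map (algebraMap (A ⧸ I) (T ⧸ I.map (algebraMap A T))))
      (hmul _ _ cxσ) (fun p => hmul _ _ (cxδ p))
      (fun u hu => exact_loc (Algebra.algebraMapSubmonoid (A ⧸ I) M) σ (δ 0) exσ u hu)
      (fun p u hu => exact_loc (Algebra.algebraMapSubmonoid (A ⧸ I) M) (δ p) (δ (p + 1)) (exδ p) u hu)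
      h hr
  have h2 := PD.congr e.symm h1
  exact lt_of_lt_of_le (projectiveDimension_lt_iff.mpr h2) le_top

theorem lci_one [IsRegularLocalRing T] (hne : I.map (algebraMap A T) ≠ ⊤)
    (hdim : ringKrullDim (T ⧸ I.map (algebraMap A T)) ≤ 1) :
    ∃ rs : List T, IsRegular T rs ∧ Ideal.ofList rs = I.map (algebraMap A T) := by
  have hnt : Nontrivial (T ⧸ I.map (algebraMap A T)) := Ideal.Quotient.nontrivial_iff.2 hne
  have hloc : IsLocalRing (T ⧸ I.map (algebraMap A T)) :=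
    IsLocalRing.of_surjective' (Ideal.Quotient.mk _) Ideal.Quotient.mk_surjective
  have hfree : PD (T ⧸ I.map (algebraMap A T)) (T ⧸ I.map (algebraMap A T)) 1 := pd_of_free
  exact depth_le_one_theorem T (I.map (algebraMap A T)) hne
    (projectiveDimension_lt_top_of_regular T (T ⧸ I.map (algebraMap A T)))
    (fun rs hrs => len_le (d := 1) (by exact_mod_cast hdim) rs hrs) (T ⧸ I.map (algebraMap A T))
    (lt_of_lt_of_le (projectiveDimension_lt_iff.mpr hfree) le_top)
    (pd_normal M I f hspan r σ δ cxσ cxδ exσ exδ hK h hr)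

theorem lci_two [IsRegularLocalRing T] (hne : I.map (algebraMap A T) ≠ ⊤)
    (hdim : ringKrullDim (T ⧸ I.map (algebraMap A T)) ≤ 2) (gs : List T) (hgs : IsRegular T gs)
    (hmem : ∀ g ∈ gs, g ∈ I.map (algebraMap A T))
    (hpd : projectiveDimension (ModuleCat.of T (T ⧸ I.map (algebraMap A T))) ≤ gs.length) :
    ∃ rs : List T, IsRegular T rs ∧ Ideal.ofList rs = I.map (algebraMap A T) := by
  have hnt : Nontrivial (T ⧸ I.map (algebraMap A T)) := Ideal.Quotient.nontrivial_iff.2 hne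
  have hloc : IsLocalRing (T ⧸ I.map (algebraMap A T)) :=
    IsLocalRing.of_surjective' (Ideal.Quotient.mk _) Ideal.Quotient.mk_surjective
  exact free_normal_main T (I.map (algebraMap A T)) hne
    (projectiveDimension_lt_top_of_regular T (T ⧸ I.map (algebraMap A T)))
    (Or.inr ⟨fun rs hrs => len_le (d := 2) (by exact_mod_cast hdim) rs hrs,
      pd_normal M I f hspan r σ δ cxσ cxδ exσ exδ hK h hr⟩)
    (Or.inl ⟨gs, hgs, hmem, hpd⟩)

end VG
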