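import Pool.Agent.Helper15.NC.CA3
import Pool.Agent.VG.AssD
import Pool.Agent.VG.LciL

/-!
Project VG, module PerfT: over a regular local ring, a quotient whose depth is at least its dimension
is perfect; Vasconcelos' conjecture in dimension at most two.
-/

open CategoryTheory IsLocalRing RingTheory.Sequence

namespace VG

universe u

open Pool.Agent.Helper19 Pool.Agent.Helper15.NC

/-- a maximal regular sequence in an ideal -/
private theorem exists_max_in {A : Type u} [CommRing A] [IsLocalRing A] [IsNoetherianRing A]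
    (J : Ideal A) (hJ : J ≠ ⊤) :
    ∃ gs : List A, (∀ x ∈ gs, x ∈ J) ∧ IsWeaklyRegular A gs ∧
      ∃ q : Ideal A, IsAssociatedPrime q (A ⧸ Ideal.ofList gs) ∧ J ≤ q := by
  classical
  obtain ⟨S, hS⟩ : ∃ S : Set (Ideal A), ∀ I, I ∈ S ↔ ∃ a : List A, (∀ x ∈ a, x ∈ J) ∧
    IsWeaklyRegular A a ∧ I = Ideal.ofList a := ⟨{I | _}, fun _ => Iff.rfl⟩
  have hSne : S.Nonempty := ⟨_, (hS _).mpr ⟨[], by simp, IsWeaklyRegular.nil A A, rfl⟩⟩
  obtain ⟨I0, hI0, hmax⟩ := set_has_maximal_iff_noetherian.mpr
    (inferInstance : IsNoetherian A A) S hSne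
  obtain ⟨a, ham, har, hIa⟩ := (hS _).mp hI0
  refine ⟨a, ham, har, ?_⟩
  subst hIa
  have hIm : Ideal.ofList a ≤ J := (ofList_le_iff _ _).mpr ham
  have hIne : (1 : A) ∉ Ideal.ofList a := fun h => hJ ((Ideal.eq_top_iff_one _).mpr (hIm h))
  -- every element of J is a zero divisor on A/I
  have hzd : ∀ x ∈ J, ∃ y, y ∉ Ideal.ofList a ∧ x * y ∈ Ideal.ofList a := by
    intro x hx
    by_contra hcon
    push Not at hcon
    have hreg : IsWeaklyRegular A (a ++ [x]) := by
      rw [isWeaklyRegular_append_singleton_iff]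
      exact ⟨har, fun y hy => by
        by_contra hy'
        exact hcon y hy' hy⟩
    have hmem : Ideal.ofList (a ++ [x]) ∈ S := by
      refine (hS _).mpr ⟨a ++ [x], ?_, hreg, rfl⟩
      intro y hy
      rcases List.mem_append.mp hy with h | h
      · exact ham y h
      · rw [List.mem_singleton] at h
        exact h ▸ hx
    have hx1 : x ∉ Ideal.ofList a := by
      intro hxI
      exact hcon 1 hIne (by simpa using hxI)
    refine hmax _ hmem (lt_of_le_of_ne ?_ ?_)
    · rw [Ideal.ofList_append a [x]]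
      exact le_sup_left
    · intro heq
      apply hx1
      rw [heq]
      apply Ideal.subset_span
      simp
  have hsub : ((J : Ideal A) : Set A) ⊆
      ⋃ p ∈ associatedPrimes A (A ⧸ Ideal.ofList a), (p : Set A) := by
    rw [biUnion_associatedPrimes_eq_zero_divisors]
    intro x hx
    obtain ⟨y, hyI, hxy⟩ := hzd x hx
    refine ⟨Ideal.Quotient.mk _ y, ?_, ?_⟩
    · rw [Ne, Ideal.Quotient.eq_zero_iff_mem]
      exact hyI
    · have : x • (Ideal.Quotient.mk (Ideal.ofList a) y) =
        Ideal.Quotient.mk (Ideal.ofList a) (x * y) := rfl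
      rw [this, Ideal.Quotient.eq_zero_iff_mem]
      exact hxy
  obtain ⟨p, hp, hle⟩ := (Ideal.subset_union_prime_finite
    (associatedPrimes.finite A (A ⧸ Ideal.ofList a))
    (f := fun q : Ideal A => q) 0 0 (fun p hp _ _ => IsAssociatedPrime.isPrime hp)).mp hsub
  exact ⟨p, hp, hle⟩

theorem perf_of_dim_le {T : Type u} [CommRing T] [IsRegularLocalRing T] [IsRegularRing T]
    (J : Ideal T) (hne : J ≠ ⊤) (xs : List (T ⧸ J)) (hxs : IsRegular (T ⧸ J) xs)
    (hdim : ringKrullDim (T ⧸ J) ≤ xs.length) :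
    ∃ gs : List T, IsRegular T gs ∧ (∀ g ∈ gs, g ∈ J) ∧
      projectiveDimension (ModuleCat.of T (T ⧸ J)) ≤ gs.length := by
  have hnt : Nontrivial (T ⧸ J) := Ideal.Quotient.nontrivial_iff.mpr hne
  have hloc : IsLocalRing (T ⧸ J) :=
    IsLocalRing.of_surjective' (Ideal.Quotient.mk J) Ideal.Quotient.mk_surjective
  obtain ⟨ds, hds, hdsm, hdsr⟩ := exists_isRegular_length_eq_dim T
  obtain ⟨gs, hgJ, hgr, q, hq, hJq⟩ := exists_max_in J hne
  have hJm : J ≤ maximalIdeal T := IsLocalRing.le_maximalIdeal hne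
  have hgm : ∀ g ∈ gs, g ∈ maximalIdeal T := fun g hg => hJm (hgJ g hg)
  refine ⟨gs, IsRegular.of_isWeaklyRegular_of_mem_maximalIdeal T hgm hgr, hgJ, ?_⟩
  obtain ⟨a, ham, har, z, hz, hmz⟩ := exists_maximal_regular gs hgr hgm
  -- the maximal ideal is associated to the longer sequence
  have h1 : (maximalIdeal T).height ≤ (gs ++ a).length := by
    refine height_le_of_mem_associatedPrimes _ har _ ?_
    rw [AssociatedPrimes.mem_iff, isAssociatedPrime_iff]
    refine ⟨inferInstance, Ideal.Quotient.mk _ z, ?_⟩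
    ext t
    rw [Submodule.mem_colon_singleton, Submodule.mem_bot]
    have h2 : t • (Ideal.Quotient.mk (Ideal.ofList (gs ++ a)) z) =
      Ideal.Quotient.mk (Ideal.ofList (gs ++ a)) (t * z) := rfl
    rw [h2, Ideal.Quotient.eq_zero_iff_mem]
    constructor
    · exact hmz t
    · intro ht
      by_contra hu
      have hu' : IsUnit t := by
        by_contra h
        exact hu ((mem_maximalIdeal t).mpr h)
      exact hz ((Ideal.unit_mul_mem_iff_mem _ hu').mp ht)
  have h3 : (ds.length : WithBot ℕ∞) ≤ ((gs ++ a).length : ℕ∞) := by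
    rw [hds, ← maximalIdeal_height_eq_ringKrullDim]
    exact_mod_cast h1
  have h3' : ds.length ≤ gs.length + a.length := by
    rw [List.length_append] at h3
    exact_mod_cast h3
  -- the rest of the sequence is short
  have h4 : IsRegular (T ⧸ Ideal.ofList gs) a := by
    rw [isWeaklyRegular_append_iff] at har
    have h5 : IsWeaklyRegular (T ⧸ Ideal.ofList gs) a := by
      have h6 := har.2
      have e : (T ⧸ (Ideal.ofList gs • (⊤ : Submodule T T))) ≃ₗ[T] (T ⧸ Ideal.ofList gs) :=
        Submodule.quotEquivOfEq _ _ (by rw [smul_eq_mul, Ideal.mul_top])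
      exact (e.isWeaklyRegular_congr a).mp h6
    have h7 : Nontrivial (T ⧸ Ideal.ofList gs) := by
      refine Ideal.Quotient.nontrivial_iff.mpr fun htop => ?_
      have h8 : Ideal.ofList gs ≤ maximalIdeal T := (ofList_le_iff _ _).mpr hgm
      rw [htop, top_le_iff] at h8
      exact (maximalIdeal.isMaximal T).ne_top h8
    exact IsRegular.of_isWeaklyRegular_of_mem_maximalIdeal _ ham h5
  have h5 := length_le_dim_ass a (T ⧸ Ideal.ofList gs) h4 q hq
  have h6 : ringKrullDim (T ⧸ q) ≤ ringKrullDim (T ⧸ J) :=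
    ringKrullDim_le_of_surjective (Ideal.Quotient.factor hJq) (Ideal.Quotient.factor_surjective hJq)
  have h7 : a.length ≤ xs.length := by
    have h8 := h5.trans (h6.trans hdim)
    exact_mod_cast h8
  -- the projective dimension
  obtain ⟨ys, rfl⟩ : ∃ ys : List T, ys.map (Ideal.Quotient.mk J) = xs :=
    List.map_surjective_iff.mpr (Ideal.Quotient.mk_surjective (I := J)) xs
  have hyr : IsWeaklyRegular (T ⧸ J) ys := by
    have h9 := (isWeaklyRegular_map_algebraMap_iff (R := T) (S := T ⧸ J) (T ⧸ J) ys).mp hxs.1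
    exact h9
  have hym : ∀ y ∈ ys, y ∈ maximalIdeal T := by
    intro y hy
    by_contra hu
    have hu' : IsUnit y := by
      by_contra h
      exact hu ((mem_maximalIdeal y).mpr h)
    have h9 : Ideal.ofList (ys.map (Ideal.Quotient.mk J)) = ⊤ := by
      refine Ideal.eq_top_of_isUnit_mem _ (Ideal.subset_span ?_) (hu'.map (Ideal.Quotient.mk J))
      exact List.mem_map_of_mem hy
    apply hxs.2
    rw [h9]
    simp
  have hpd := ModuleCat.projectiveDimension_quotient_eq_add_length_of_isWeaklyRegular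
    (ModuleCat.of T (T ⧸ J)) ys hyr hym
  have hdep : ∀ rs : List T, IsRegular T rs → rs.length ≤ ds.length := by
    intro rs hrs
    have h10 := ringKrullDim_add_length_eq_ringKrullDim_of_isRegular rs hrs
    have h11 : Nontrivial (T ⧸ Ideal.ofList rs) := by
      refine Ideal.Quotient.nontrivial_iff.2 fun h12 => hrs.2 ?_
      rw [h12]
      simp
    have h13 : (0 : WithBot ℕ∞) ≤ ringKrullDim (T ⧸ Ideal.ofList rs) :=
      ringKrullDim_nonneg_of_nontrivial
    have h14 : (rs.length : WithBot ℕ∞) ≤ ds.length := by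
      calc (rs.length : WithBot ℕ∞) = 0 + rs.length := (zero_add _).symm
        _ ≤ ringKrullDim (T ⧸ Ideal.ofList rs) + rs.length := by gcongr
        _ = ringKrullDim T := h10
        _ = ds.length := hds.symm
    exact_mod_cast h14
  have hfin : projectiveDimension (ModuleCat.of T ((T ⧸ J) ⧸ Ideal.ofList ys •
      (⊤ : Submodule T (T ⧸ J)))) ≤ ds.length := by
    have h15 := projectiveDimension_lt_top_of_regular T ((T ⧸ J) ⧸ Ideal.ofList ys •
      (⊤ : Submodule T (T ⧸ J)))
    obtain ⟨l, hl⟩ := (projectiveDimension_ne_top_iff _).mp h15.ne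
    have h16 := pd_of_depth_le ds.length T hdep (l + 1) _ hl
    exact (projectiveDimension_le_iff _ _).mpr h16
  have hpd' : projectiveDimension (ModuleCat.of T (T ⧸ J)) + ys.length ≤ ds.length := by
    rw [← hpd]
    exact hfin
  rw [List.length_map] at h7
  have h17 : ds.length ≤ gs.length + ys.length := by omega
  have h18 : projectiveDimension (ModuleCat.of T (T ⧸ J)) + ys.length ≤
      (gs.length : WithBot ℕ∞) + ys.length := by
    refine hpd'.trans ?_
    exact_mod_cast h17
  exact (ENat.WithBot.add_le_add_natCast_right_iff).mp h18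

end VG
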