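import Pool.Agent.VG.LciL
import Pool.Agent.VG.PerfT
import Pool.Agent.VG.FTp
import Pool.Agent.VG.LocS
import Pool.Agent.VG.GAv

/-!
Project VG, module ClsT: primes at which `I` is not locally generated by a regular sequence have
height `≥ h + 1` in `A/I`.  For `h ≤ 2` this needs no hypothesis: a local ring of dimension at most
two has depth at most one or is Cohen-Macaulay.
-/

open MvPolynomial Matrix CategoryTheory RingTheory.Sequence

namespace VG

universe u

variable {k : Type u} [Field k] {n : ℕ} (w : Fin n → ℤ) (I : Ideal (MvPolynomial (Fin n) k))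

private theorem qsub {A : Type u} [CommRing A] (I : Ideal A) (p : Ideal (A ⧸ I)) [p.IsPrime]
    (P : Ideal A) [P.IsPrime] (hP : P = p.comap (Ideal.Quotient.mk I)) :
    Algebra.algebraMapSubmonoid (A ⧸ I) P.primeCompl = p.primeCompl := by
  ext x
  obtain ⟨a, rfl⟩ := Ideal.Quotient.mk_surjective x
  constructor
  · rintro ⟨b, hb, hba⟩ hx
    apply hb
    rw [hP, SetLike.mem_coe, Ideal.mem_comap]
    have : Ideal.Quotient.mk I b = Ideal.Quotient.mk I a := hba
    rw [this]
    exact hx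
  · intro h
    refine ⟨a, fun ha => h ?_, rfl⟩
    rw [hP, SetLike.mem_coe, Ideal.mem_comap] at ha
    exact ha

private theorem qloc {A T : Type u} [CommRing A] [CommRing T] [Algebra A T] (I : Ideal A)
    (p : Ideal (A ⧸ I)) [p.IsPrime] (P : Ideal A) [P.IsPrime]
    (hP : P = p.comap (Ideal.Quotient.mk I)) [IsLocalization.AtPrime T P] :
    IsLocalization.AtPrime (T ⧸ I.map (algebraMap A T)) p := by
  have h1 : IsLocalization (Algebra.algebraMapSubmonoid (A ⧸ I) P.primeCompl)
      (T ⧸ I.map (algebraMap A T)) := inferInstance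
  rw [qsub I p P hP] at h1
  exact h1

private theorem qheight {A S : Type u} [CommRing A] [CommRing S] [Algebra A S] (I : Ideal A)
    (p : Ideal (A ⧸ I)) [p.IsPrime] (P m : Ideal A) [m.IsPrime] [IsLocalization.AtPrime S m]
    (hP : P = p.comap (Ideal.Quotient.mk I)) (hPm : P ≤ m) :
    ((P.map (algebraMap A S)).map (Ideal.Quotient.mk (I.map (algebraMap A S)))).height =
      p.height := by
  have h1 : IsLocalization (Algebra.algebraMapSubmonoid (A ⧸ I) m.primeCompl)
      (S ⧸ I.map (algebraMap A S)) := inferInstance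
  have h2 : p = P.map (Ideal.Quotient.mk I) := by
    rw [hP, Ideal.map_comap_of_surjective _ Ideal.Quotient.mk_surjective]
  have h3 : (P.map (algebraMap A S)).map (Ideal.Quotient.mk (I.map (algebraMap A S))) =
      p.map (algebraMap (A ⧸ I) (S ⧸ I.map (algebraMap A S))) := by
    rw [h2, Ideal.map_map, Ideal.map_map]
    rfl
  rw [h3]
  refine IsLocalization.height_map_of_disjoint
    (Algebra.algebraMapSubmonoid (A ⧸ I) m.primeCompl) p ?_
  rw [Set.disjoint_left]
  rintro x ⟨a, ha, rfl⟩ hx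
  apply ha
  apply hPm
  rw [hP]
  exact hx

section Two

variable {A T : Type u} [CommRing A] [IsNoetherianRing A] [CommRing T] [Algebra A T]
  (M : Submonoid A) [IsLocalization M T] (I : Ideal A) {μ : ℕ} (f : Fin μ → I)
  (hspan : Submodule.span A (Set.range f) = ⊤) (r : ℕ → ℕ)
  (σ : Matrix (Fin μ) (Fin (r 0)) (A ⧸ I)) (δ : ∀ p, Matrix (Fin (r p)) (Fin (r (p + 1))) (A ⧸ I))
  (cxσ : σ * δ 0 = 0) (cxδ : ∀ p, δ p * δ (p + 1) = 0)
  (exσ : ∀ u, σ *ᵥ u = 0 → ∃ w, u = δ 0 *ᵥ w)
  (exδ : ∀ p u, δ p *ᵥ u = 0 → ∃ w, u = δ (p + 1) *ᵥ w)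
  (hK : ∀ u, u ∈ K0 I f ↔ ∃ v, u = σ *ᵥ v) (h : ℕ) (hr : r (h + 1) = 0)

include M hspan cxσ cxδ exσ exδ hK hr

open Pool.Agent.Helper19 in
theorem lci_two' [IsRegularLocalRing T] [IsRegularRing T] (hne : I.map (algebraMap A T) ≠ ⊤)
    (hdim : ringKrullDim (T ⧸ I.map (algebraMap A T)) ≤ 2) :
    ∃ rs : List T, IsRegular T rs ∧ Ideal.ofList rs = I.map (algebraMap A T) := by
  have hnt : Nontrivial (T ⧸ I.map (algebraMap A T)) := Ideal.Quotient.nontrivial_iff.2 hne
  by_cases hd : ∀ rs : List (T ⧸ I.map (algebraMap A T)),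
      IsRegular (T ⧸ I.map (algebraMap A T)) rs → rs.length ≤ 1
  · have hfree : PD (T ⧸ I.map (algebraMap A T)) (T ⧸ I.map (algebraMap A T)) 1 := pd_of_free
    exact depth_le_one_theorem T (I.map (algebraMap A T)) hne
      (projectiveDimension_lt_top_of_regular T (T ⧸ I.map (algebraMap A T))) hd
      (T ⧸ I.map (algebraMap A T))
      (lt_of_lt_of_le (projectiveDimension_lt_iff.mpr hfree) le_top)
      (pd_normal M I f hspan r σ δ cxσ cxδ exσ exδ hK h hr)
  · push Not at hd
    obtain ⟨xs, hxs, hlen⟩ := hd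
    obtain ⟨gs, hgs, hmem, hpd⟩ := perf_of_dim_le (I.map (algebraMap A T)) hne xs hxs (by
      refine hdim.trans ?_
      exact_mod_cast hlen)
    exact lci_two M I f hspan r σ δ cxσ cxδ exσ exδ hK h hr hne hdim gs hgs hmem hpd

end Two

private theorem core {A S T : Type u} [CommRing A] [IsNoetherianRing A] [CommRing S]
    [IsNoetherianRing S] [CommRing T] [Algebra A S] [Algebra A T] [Algebra S T]
    [IsScalarTower A S T] (I P m : Ideal A) [P.IsPrime] [m.IsPrime] [IsLocalization.AtPrime S m]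
    (Q : Ideal S) [Q.IsPrime] [IsLocalization.AtPrime T Q] [IsRegularLocalRing T]
    [IsRegularRing T]
    (hQP : Q.comap (algebraMap A S) = P)
    (p : Ideal (A ⧸ I)) [p.IsPrime] (hP : P = p.comap (Ideal.Quotient.mk I)) {μ : ℕ} (f : Fin μ → I)
    (hspan : Submodule.span A (Set.range f) = ⊤) (r : ℕ → ℕ)
    (σ : Matrix (Fin μ) (Fin (r 0)) (A ⧸ I))
    (δ : ∀ p, Matrix (Fin (r p)) (Fin (r (p + 1))) (A ⧸ I))
    (cxσ : σ * δ 0 = 0) (cxδ : ∀ p, δ p * δ (p + 1) = 0)
    (exσ : ∀ u, σ *ᵥ u = 0 → ∃ w, u = δ 0 *ᵥ w)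
    (exδ : ∀ p u, δ p *ᵥ u = 0 → ∃ w, u = δ (p + 1) *ᵥ w)
    (hK : ∀ u, u ∈ K0 I f ↔ ∃ v, u = σ *ᵥ v) (h : ℕ) (hr : r (h + 1) = 0)
    (hl : p.height ≤ 2 ∨ ∃ rs : List T, IsRegular T rs ∧
            Ideal.ofList rs = (I.map (algebraMap A S)).map (algebraMap S T)) :
    ∃ y : A, y ∉ P ∧ FT I y := by
  have hIP : I ≤ P := by
    intro x hx
    rw [hP, Ideal.mem_comap, Ideal.Quotient.eq_zero_iff_mem.mpr hx]
    exact zero_mem _
  have hloc : IsLocalization.AtPrime T P := by
    have h1 := IsLocalization.isLocalization_isLocalization_atPrime_isLocalization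
      m.primeCompl T Q
    simp_rw [hQP] at h1
    exact h1
  have hIT : I.map (algebraMap A T) = (I.map (algebraMap A S)).map (algebraMap S T) := by
    rw [Ideal.map_map, IsScalarTower.algebraMap_eq A S T]
  have hne : I.map (algebraMap A T) ≠ ⊤ := by
    intro h'
    have h1 : I.map (algebraMap A T) ≤ P.map (algebraMap A T) := Ideal.map_mono hIP
    rw [h', top_le_iff, IsLocalization.AtPrime.map_eq_maximalIdeal P] at h1
    exact Ideal.IsPrime.ne_top (IsLocalRing.maximalIdeal.isMaximal _).isPrime h1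
  have hqloc : IsLocalization.AtPrime (T ⧸ I.map (algebraMap A T)) p := qloc I p P hP
  have hdim : ringKrullDim (T ⧸ I.map (algebraMap A T)) = p.height :=
    IsLocalization.AtPrime.ringKrullDim_eq_height p _
  have key : ∃ rs : List T, IsRegular T rs ∧ Ideal.ofList rs = I.map (algebraMap A T) := by
    rcases hl with h2 | h3
    · refine lci_two' P.primeCompl I f hspan r σ δ cxσ cxδ exσ exδ hK h hr hne ?_
      rw [hdim]
      exact WithBot.coe_le_coe.mpr h2
    · rw [hIT]
      exact h3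
  obtain ⟨rs, hrs, hrI⟩ := key
  exact ft_of_regular P I rs hrs.toIsWeaklyRegular hrI

theorem ht_boundT (hw : ∀ i, 0 < w i) (hI : HomI w I)
    (m : Ideal (MvPolynomial (Fin n) k)) [m.IsPrime] (hm : m = Ideal.span (Set.range X))
    (S : Type u) [CommRing S] [Algebra (MvPolynomial (Fin n) k) S] [IsLocalization.AtPrime S m]
    (hIm : I ≤ m) {μ : ℕ} (f : Fin μ → I)
    (hspan : Submodule.span (MvPolynomial (Fin n) k) (Set.range f) = ⊤)
    (t : Fin μ → ℤ) (r : ℕ → ℕ) (a : ∀ p, Fin (r p) → ℤ)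
    (σ : Matrix (Fin μ) (Fin (r 0)) (MvPolynomial (Fin n) k ⧸ I))
    (δ : ∀ p, Matrix (Fin (r p)) (Fin (r (p + 1))) (MvPolynomial (Fin n) k ⧸ I))
    (hres : IsRes (qgr w I) t r a σ δ) (hK : ∀ u, u ∈ K0 I f ↔ ∃ v, u = σ *ᵥ v)
    (h : ℕ) (hr : r (h + 1) = 0)
    (hl : ∀ (Q : Ideal S) (_ : Q.IsPrime),
          I.map (algebraMap _ S) ≤ Q →
          3 ≤ (Q.map (Ideal.Quotient.mk (I.map (algebraMap _ S)))).height →
          (Q.map (Ideal.Quotient.mk (I.map (algebraMap _ S)))).height ≤ h →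
          ∃ rs : List (Localization.AtPrime Q), IsRegular (Localization.AtPrime Q) rs ∧
            Ideal.ofList rs = (I.map (algebraMap _ S)).map
              (algebraMap S (Localization.AtPrime Q)))
    (p : Ideal (MvPolynomial (Fin n) k ⧸ I)) (hp : p.IsPrime) (hph : ∀ z ∈ p, ∀ d,
      @gc k _ _ _ _ (qgr w I) (qGraded w I hI) d z ∈ p)
    (hle : ∀ y : MvPolynomial (Fin n) k, FT I y → Ideal.Quotient.mk I y ∈ p) :
    ((h + 1 : ℕ) : ℕ∞) ≤ p.height := by
  by_contra hlt
  have hph' : p.height ≤ h := by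
    rw [not_le, Nat.cast_add, Nat.cast_one] at hlt
    exact Order.le_of_lt_add_one hlt
  have hIne : I ≠ ⊤ := fun h' => Ideal.IsPrime.ne_top ‹m.IsPrime› (top_le_iff.mp (h' ▸ hIm))
  have : Nontrivial (MvPolynomial (Fin n) k ⧸ I) := Ideal.Quotient.nontrivial_iff.mpr hIne
  obtain ⟨P, hP⟩ : ∃ P, P = p.comap (Ideal.Quotient.mk I) := ⟨_, rfl⟩
  have hPp : P.IsPrime := hP ▸ Ideal.comap_isPrime _ _
  have hIP : I ≤ P := by
    intro x hx
    rw [hP, Ideal.mem_comap, Ideal.Quotient.eq_zero_iff_mem.mpr hx]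
    exact zero_mem _
  have hPm : P ≤ m := by
    let _ := qGraded w I hI
    have h1 : p ≤ irr (qgr w I) :=
      hom_le_irr _ (qgr_conn w I hw) p ((hom_iff _ p).mpr hph) hp.ne_top
    rw [irr_qgr w I hw, ← hm] at h1
    intro x hx
    rw [hP, Ideal.mem_comap] at hx
    have h2 := h1 hx
    rw [Ideal.mem_map_iff_of_surjective _ Ideal.Quotient.mk_surjective] at h2
    obtain ⟨z, hz, hzx⟩ := h2
    have h3 : z - x ∈ I := Ideal.Quotient.eq.mp hzx
    have : x = z - (z - x) := by ring
    rw [this]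
    exact m.sub_mem hz (hIm h3)
  have hdisj : Disjoint (m.primeCompl : Set (MvPolynomial (Fin n) k)) (P : Set _) := by
    rw [Set.disjoint_left]
    intro x hx hx'
    exact hx (hPm hx')
  obtain ⟨Q, hQ⟩ : ∃ Q, Q = P.map (algebraMap (MvPolynomial (Fin n) k)
    S) := ⟨_, rfl⟩
  have hQp : Q.IsPrime := hQ ▸ IsLocalization.isPrime_of_isPrime_disjoint m.primeCompl _ P hPp hdisj
  have hQP : Q.comap (algebraMap (MvPolynomial (Fin n) k) S) = P := by
    rw [hQ]
    exact IsLocalization.under_map_of_isPrime_disjoint m.primeCompl _ hPp hdisj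
  have hnoe : IsNoetherianRing S :=
    IsLocalization.isNoetherianRing m.primeCompl _ inferInstance
  have hloc : IsLocalization.AtPrime (Localization.AtPrime Q) P := by
    have h1 := IsLocalization.isLocalization_isLocalization_atPrime_isLocalization
      m.primeCompl (Localization.AtPrime Q) Q
    simp_rw [hQP] at h1
    exact h1
  have hreg : IsRegularLocalRing (Localization.AtPrime Q) := regT P
  have hregm : IsRegularRing (Localization.AtPrime m) :=
    Pool.Agent.Helper15.NC.isRegularRing_localization _ m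
  have hregS : IsRegularRing S := IsRegularRing.of_ringEquiv
    (IsLocalization.algEquiv m.primeCompl (Localization.AtPrime m) S).toRingEquiv
  have hregQ : IsRegularRing (Localization.AtPrime Q) :=
    Pool.Agent.Helper15.NC.isRegularRing_localization _ Q
  obtain ⟨y, hy, hFT⟩ := core (S := S) (T := Localization.AtPrime Q)
    I P m Q hQP p hP f hspan r σ δ hres.cxσ hres.cxδ hres.exσ hres.exδ hK h hr (by
      rcases le_or_gt p.height 2 with h2 | h3
      · exact Or.inl h2
      · refine Or.inr (hl Q hQp ?_ ?_ ?_)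
        · rw [hQ]
          exact Ideal.map_mono hIP
        · rw [hQ, qheight I p P m hP hPm]
          exact Order.add_one_le_of_lt h3
        · rw [hQ, qheight I p P m hP hPm]
          exact hph')
  apply hy
  rw [hP, Ideal.mem_comap]
  exact hle y hFT

end VG
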