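import Pool.Agent.Helper19.ABound

/-!
Project VG, module DepB: a dual module of finite projective dimension over a ring of depth at most
`h + 2` has projective dimension at most `h`.
-/

universe u

open CategoryTheory Abelian IsLocalRing Module TensorProduct Pointwise RingTheory.Sequence

namespace VG

open Pool.Agent.Helper19

variable {R : Type u} [CommRing R] [IsLocalRing R] [IsNoetherianRing R]
variable {Q : Type u} [CommRing Q] [IsNoetherianRing Q] [Algebra Q R]

theorem pd_dual_of_depth_le (h : ℕ) (hR : ∀ rs : List R, IsRegular R rs → rs.length ≤ h + 2)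
    {X : Type u} [AddCommGroup X] [Module Q X]
    [Module.Finite Q X] (hfin : FinPD R (X →ₗ[Q] R)) : PD R (X →ₗ[Q] R) (h + 1) := by
  obtain ⟨t, x, hx⟩ := Module.Finite.exists_fin (R := Q) (M := X)
  -- relations
  let π : (Fin t → Q) →ₗ[Q] X := Fintype.linearCombination Q x
  have hπ : Function.Surjective π := by
    rw [← LinearMap.range_eq_top, Fintype.range_linearCombination]; exact hx
  obtain ⟨s, y, hy⟩ := Module.Finite.exists_fin (R := Q) (M := LinearMap.ker π)
  -- `R^t → R^s`
  let θ : (Fin t → R) →ₗ[R] (Fin s → R) :=
    LinearMap.pi fun j => ∑ i, (algebraMap Q R ((y j : Fin t → Q) i)) • LinearMap.proj i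
  have hθ : ∀ v j, θ v j = ∑ i, algebraMap Q R ((y j : Fin t → Q) i) * v i := by
    intro v j
    simp only [θ, LinearMap.pi_apply, LinearMap.sum_apply, LinearMap.smul_apply,
      LinearMap.proj_apply, smul_eq_mul]
  let ε : (X →ₗ[Q] R) →ₗ[R] (Fin t → R) := evalFam (Q := Q) (R := R) R x
  have hε : Function.Injective ε := evalFam_injective x hx
  have hex : Function.Exact ε θ := by
    intro v
    constructor
    · intro hv
      -- define a map on `Q^t`
      let g : (Fin t → Q) →ₗ[Q] R := Fintype.linearCombination Q v
      have hg : ∀ w, g w = ∑ i, algebraMap Q R (w i) * v i := by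
        intro w
        simp [g, Fintype.linearCombination_apply, Algebra.smul_def]
      have hker : LinearMap.ker π ≤ LinearMap.ker g := by
        intro w hw
        have h1 : (⟨w, hw⟩ : LinearMap.ker π) ∈ Submodule.span Q (Set.range y) := by
          rw [hy]; trivial
        have h2 : ∀ z : LinearMap.ker π, z ∈ Submodule.span Q (Set.range y) → g z = 0 := by
          intro z hz
          induction hz using Submodule.span_induction with
          | mem z hz =>
            obtain ⟨j, rfl⟩ := hz
            rw [hg, ← hθ, hv]; rfl
          | zero => simp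
          | add a b _ _ ha hb => rw [Submodule.coe_add, map_add, ha, hb, add_zero]
          | smul r a _ ha => rw [Submodule.coe_smul, map_smul, ha, smul_zero]
        exact h2 _ h1
      refine ⟨((LinearMap.ker π).liftQ g hker) ∘ₗ
        (π.quotKerEquivOfSurjective hπ).symm.toLinearMap, ?_⟩
      funext i
      rw [evalFam_apply]
      have h3 : (π.quotKerEquivOfSurjective hπ).symm (x i) =
          Submodule.Quotient.mk (Pi.single i 1) := by
        rw [LinearEquiv.symm_apply_eq]
        change x i = π (Pi.single i 1)
        simp [π]
      change ((LinearMap.ker π).liftQ g hker) ((π.quotKerEquivOfSurjective hπ).symm (x i)) = _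
      rw [h3]
      change g (Pi.single i 1) = v i
      simp [g]
    · rintro ⟨φ, rfl⟩
      funext j
      rw [hθ]
      have h1 : π (y j : Fin t → Q) = 0 := (y j).2
      have h2 := congrArg φ h1
      rw [Fintype.linearCombination_apply, map_sum, map_zero] at h2
      rw [Pi.zero_apply, ← h2]
      refine Finset.sum_congr rfl fun i _ => ?_
      rw [map_smul, Algebra.smul_def]
      rfl
  -- the cokernel
  let D := (Fin s → R) ⧸ LinearMap.range θ
  obtain ⟨n, hn⟩ := hfin
  have hinjB : Function.Injective (LinearMap.range θ).subtype := Subtype.val_injective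
  have hexB : Function.Exact (LinearMap.range θ).subtype (LinearMap.range θ).mkQ := by
    intro v
    rw [Submodule.mkQ_apply, Submodule.Quotient.mk_eq_zero]
    constructor
    · intro hv; exact ⟨⟨v, hv⟩, rfl⟩
    · rintro ⟨w, rfl⟩; exact w.2
  have hexA : Function.Exact ε θ.rangeRestrict := by
    intro v
    rw [← hex v]
    constructor
    · intro hv
      have := congrArg Subtype.val hv
      exact this
    · intro hv; exact Subtype.ext hv
  have hB : PD R (LinearMap.range θ) (n + 1) :=
    pd_coker hε (LinearMap.surjective_rangeRestrict θ) hexA hn (PD.mono pd_of_free (by omega))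
  have hD : PD R D (n + 2) :=
    pd_coker hinjB (Submodule.mkQ_surjective _) hexB hB (PD.mono pd_of_free (by omega))
  have hD3 : PD R D (h + 3) := pd_of_depth_le (h + 2) R hR _ D hD
  have hB2 : PD R (LinearMap.range θ) (h + 2) :=
    pd_ker hinjB (Submodule.mkQ_surjective _) hexB hD3
  exact pd_ker hε (LinearMap.surjective_rangeRestrict θ) hexA hB2

end VG
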