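import Pool.Agent.Helper19.Detect
import Pool.Agent.Helper19.DepthOneMain

/-!
Project VG, module DetB: if every element of `J` undetected by functionals `J → S/J` lies in `m J`,
then `J` is generated by a regular sequence.
-/

namespace VG

universe u

open Pool.Agent.Helper19 IsLocalRing RingTheory.Sequence

theorem det_final {S : Type u} [CommRing S] [IsLocalRing S] [IsNoetherianRing S] (J : Ideal S)
    [IsLocalRing (S ⧸ J)] (n : ℕ) (hpd : PD S (S ⧸ J) n)
    (hdet : ∀ x : J, (∀ φ : J →ₗ[S] (S ⧸ J), φ x ∈ maximalIdeal (S ⧸ J)) →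
      (x : S) ∈ maximalIdeal S * J) :
    ∃ rs : List S, IsRegular S rs ∧ Ideal.ofList rs = J := by
  have hfin : Module.Finite (S ⧸ J) (J →ₗ[S] (S ⧸ J)) := finite_hom
  obtain ⟨s, μ, hμ⟩ := Module.Finite.exists_fin (R := S ⧸ J) (M := J →ₗ[S] (S ⧸ J))
  have hK : RingHom.ker (algebraMap S (S ⧸ J)) = J := Ideal.mk_ker
  obtain ⟨rs, h1, h2⟩ := exists_regularSeq_of_detect (R := S ⧸ J) s S
    Ideal.Quotient.mk_surjective n hpd J J.subtype (by
      rw [Submodule.range_subtype]
      exact hK.symm) (by
      intro e e'
      apply Subtype.ext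
      exact mul_comm (e : S) (e' : S)) 0 0 (fun v w _ => Subsingleton.elim v w) (by
      rw [Submodule.ker_subtype]
      simp) μ (by
      intro k v
      rw [LinearMap.zero_apply, map_zero]
      exact Ideal.zero_mem _) (by
      intro e he
      have h3 : ∀ φ : J →ₗ[S] (S ⧸ J), φ e ∈ maximalIdeal (S ⧸ J) := by
        intro φ
        have h4 : φ ∈ Submodule.span (S ⧸ J) (Set.range μ) := by
          rw [hμ]
          exact Submodule.mem_top
        induction h4 using Submodule.span_induction with
        | mem x hx =>
          obtain ⟨k, rfl⟩ := hx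
          exact he k
        | zero =>
          rw [LinearMap.zero_apply]
          exact Ideal.zero_mem _
        | add x y _ _ h5 h6 =>
          rw [LinearMap.add_apply]
          exact Ideal.add_mem _ h5 h6
        | smul a x _ h5 =>
          rw [LinearMap.smul_apply, smul_eq_mul]
          exact Ideal.mul_mem_left _ _ h5
      have h5 := hdet e h3
      rw [hK]
      exact h5)
  exact ⟨rs, h1, h2.trans hK⟩

end VG
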