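import Pool.Agent.VG.PdRes
import Pool.Agent.Helper19.ABound

/-!
Project VG, module DimB: the dimension is larger than the length of the resolution.

The Auslander-Buchsbaum inequality bounds the length of the resolution.
-/

open Matrix

namespace VG

universe u

open Pool.Agent.Helper19

private theorem dimb_fin {B : Type u} [CommRing B] [Nontrivial B] {a b c : ℕ} (D : Matrix (Fin a) (Fin b) B)
    (D' : Matrix (Fin b) (Fin c) B) (hD : ∀ w, D *ᵥ w = 0) (ex : ∀ u, D *ᵥ u = 0 → ∃ w, u = D' *ᵥ w)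
    (hc : c = 0) (hb : b ≠ 0) : False := by
  subst hc
  obtain ⟨w, hw⟩ := ex (fun _ => 1) (hD _)
  have h1 := congrFun hw ⟨0, Nat.pos_of_ne_zero hb⟩
  simp [Matrix.mulVec, dotProduct] at h1

theorem dim_ge {B : Type u} [CommRing B] [IsLocalRing B] [IsNoetherianRing B] {μ : ℕ}
    (r : ℕ → ℕ) (σ : Matrix (Fin μ) (Fin (r 0)) B)
    (δ : ∀ p, Matrix (Fin (r p)) (Fin (r (p + 1))) B)
    (cxσ : σ * δ 0 = 0) (cxδ : ∀ p, δ p * δ (p + 1) = 0)
    (exσ : ∀ u, σ *ᵥ u = 0 → ∃ w, u = δ 0 *ᵥ w)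
    (exδ : ∀ p u, δ p *ᵥ u = 0 → ∃ w, u = δ (p + 1) *ᵥ w)
    (minδ : ∀ p i j, δ p i j ∈ IsLocalRing.maximalIdeal B) (h : ℕ) (hh : 1 ≤ h)
    (hr : r (h + 1) = 0) (hr' : r h ≠ 0) :
    ((h + 1 : ℕ) : WithBot ℕ∞) ≤ ringKrullDim B := by
  by_contra hcon
  have hreg : ∀ rs : List B, RingTheory.Sequence.IsRegular B rs → rs.length ≤ h := by
    intro rs hrs
    by_contra hlen
    apply hcon
    have h1 := ringKrullDim_add_length_eq_ringKrullDim_of_isRegular rs hrs
    have h2 : Nontrivial (B ⧸ Ideal.ofList rs) := by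
      apply Ideal.Quotient.nontrivial_iff.2
      intro htop
      apply hrs.2
      rw [htop]
      simp
    have h3 : 0 ≤ ringKrullDim (B ⧸ Ideal.ofList rs) := ringKrullDim_nonneg_of_nontrivial
    rw [← h1]
    have h4 : h + 1 ≤ rs.length := by omega
    calc ((h + 1 : ℕ) : WithBot ℕ∞) ≤ ((rs.length : ℕ) : WithBot ℕ∞) := by exact_mod_cast h4
      _ ≤ ringKrullDim (B ⧸ Ideal.ofList rs) + ((rs.length : ℕ) : WithBot ℕ∞) := le_add_of_nonneg_left h3
  have hinj : Function.Injective (LinearMap.range σ.mulVecLin).subtype := Subtype.val_injective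
  have hsur : Function.Surjective (LinearMap.range σ.mulVecLin).mkQ := Submodule.mkQ_surjective _
  have hex : Function.Exact (LinearMap.range σ.mulVecLin).subtype (LinearMap.range σ.mulVecLin).mkQ := by
    intro x
    rw [← LinearMap.mem_ker, Submodule.ker_mkQ]
    constructor
    · intro hx
      exact ⟨⟨x, hx⟩, rfl⟩
    · rintro ⟨y, hy⟩
      rw [← hy]
      exact y.2
  have hpd0 := pd_of_res r σ δ cxσ cxδ exσ exδ h hr
  have hpd1 : PD B ((Fin μ → B) ⧸ LinearMap.range σ.mulVecLin) (h + 1 + 1) :=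
    pd_coker hinj hsur hex hpd0 (PD.mono pd_of_free (by omega))
  have hpd2 : PD B ((Fin μ → B) ⧸ LinearMap.range σ.mulVecLin) (h + 1) :=
    pd_of_depth_le h B hreg (h + 1 + 1) _ hpd1
  obtain ⟨m, rfl⟩ : ∃ m, h = m + 1 := ⟨h - 1, by omega⟩
  have hpd3 : PD B (LinearMap.range σ.mulVecLin) (m + 1) := pd_ker hinj hsur hex hpd2
  cases m with
  | zero =>
    have h1 := inj_zero r σ δ cxσ exσ minδ hpd3
    refine dimb_fin (δ 0) (δ 1) (fun w => h1 _ ?_) (exδ 0) hr hr'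
    rw [Matrix.mulVec_mulVec, cxσ, Matrix.zero_mulVec]
  | succ p =>
    have h1 := inj_succ r σ δ cxσ cxδ exσ exδ minδ p hpd3
    refine dimb_fin (δ (p + 1)) (δ (p + 2)) (fun w => h1 _ ?_) (exδ (p + 1)) hr hr'
    rw [Matrix.mulVec_mulVec, cxδ, Matrix.zero_mulVec]

end VG
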