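import Pool.Agent.VG.MinG

/-!
Project VG, module ExRes: existence of minimal graded resolutions.
-/

open Matrix

namespace VG

universe u

variable {k R : Type u} [Field k] [CommRing R] [Algebra k R] (𝒜 : ℤ → Submodule k R)
  [GradedAlgebra 𝒜]

/-- a graded submodule of a graded free module -/
private structure Stt : Type u where
  m : ℕ
  a : Fin m → ℤ
  K : Submodule R (Fin m → R)
  hK : ∀ u ∈ K, ∀ d : ℤ, (fun i => gc 𝒜 (d - a i) (u i)) ∈ K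

private def kerM {m s : ℕ} (M : Matrix (Fin m) (Fin s) R) : Submodule R (Fin s → R) :=
  LinearMap.ker (Matrix.mulVecLin M)

private theorem mem_kerM {m s : ℕ} (M : Matrix (Fin m) (Fin s) R) (w : Fin s → R) :
    w ∈ kerM M ↔ M *ᵥ w = 0 := by
  unfold kerM
  rw [LinearMap.mem_ker, Matrix.mulVecLin_apply]

private theorem kerM_gr {m s : ℕ} {a : Fin m → ℤ} {b : Fin s → ℤ} {M : Matrix (Fin m) (Fin s) R}
    (hM : ∀ i j, M i j ∈ 𝒜 (b j - a i)) (w : Fin s → R) (hw : w ∈ kerM M) (d : ℤ) :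
    (fun j => gc 𝒜 (d - b j) (w j)) ∈ kerM M := by
  rw [mem_kerM] at hw ⊢
  funext i
  have h1 := congrFun hw i
  have h2 : gc 𝒜 (d - a i) ((M *ᵥ w) i) = ∑ j, M i j * gc 𝒜 (d - b j) (w j) := by
    rw [Matrix.mulVec, dotProduct, map_sum]
    refine Finset.sum_congr rfl fun j _ => ?_
    have h3 : d - a i - (b j - a i) = d - b j := by ring
    rw [gc_mul 𝒜 (hM i j), h3]
  rw [h1] at h2
  rw [Matrix.mulVec, dotProduct, ← h2, Pi.zero_apply, map_zero]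

private structure Gen (x : Stt 𝒜) (s : ℕ) (b : Fin s → ℤ) (M : Matrix (Fin x.m) (Fin s) R) : Prop where
  hom : ∀ i j, M i j ∈ 𝒜 (b j - x.a i)
  gen : ∀ u, u ∈ x.K ↔ ∃ w, u = M *ᵥ w
  min : ∀ w, M *ᵥ w = 0 → ∀ j, w j ∈ irr 𝒜
  zero : (∀ u ∈ x.K, u = 0) → s = 0

private theorem gen_ex [Nontrivial R] [IsNoetherianRing R] (hC : Conn 𝒜) (x : Stt 𝒜) :
    ∃ y : Σ s : ℕ, (Fin s → ℤ) × Matrix (Fin x.m) (Fin s) R, Gen 𝒜 x y.1 y.2.1 y.2.2 := by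
  obtain ⟨s, b, M, h1, h2, h3, h4⟩ := min_gens 𝒜 hC x.a x.K x.hK
  exact ⟨⟨s, b, M⟩, h1, h2, h3, h4⟩

private noncomputable def nd [Nontrivial R] [IsNoetherianRing R] (hC : Conn 𝒜) (x : Stt 𝒜) :
    Σ s : ℕ, (Fin s → ℤ) × Matrix (Fin x.m) (Fin s) R := (gen_ex 𝒜 hC x).choose

private theorem nd_spec [Nontrivial R] [IsNoetherianRing R] (hC : Conn 𝒜) (x : Stt 𝒜) :
    Gen 𝒜 x (nd 𝒜 hC x).1 (nd 𝒜 hC x).2.1 (nd 𝒜 hC x).2.2 := (gen_ex 𝒜 hC x).choose_spec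

private noncomputable def nxt [Nontrivial R] [IsNoetherianRing R] (hC : Conn 𝒜) (x : Stt 𝒜) : Stt 𝒜 where
  m := (nd 𝒜 hC x).1
  a := (nd 𝒜 hC x).2.1
  K := kerM (nd 𝒜 hC x).2.2
  hK := fun u hu d => kerM_gr 𝒜 (nd_spec 𝒜 hC x).hom u hu d

private noncomputable def mt [Nontrivial R] [IsNoetherianRing R] (hC : Conn 𝒜) (x : Stt 𝒜) :
    Matrix (Fin x.m) (Fin (nxt 𝒜 hC x).m) R := (nd 𝒜 hC x).2.2

private theorem mt_spec [Nontrivial R] [IsNoetherianRing R] (hC : Conn 𝒜) (x : Stt 𝒜) :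
    Gen 𝒜 x (nxt 𝒜 hC x).m (nxt 𝒜 hC x).a (mt 𝒜 hC x) := nd_spec 𝒜 hC x

private theorem mem_nxt [Nontrivial R] [IsNoetherianRing R] (hC : Conn 𝒜) (x : Stt 𝒜)
    (w : Fin (nxt 𝒜 hC x).m → R) : w ∈ (nxt 𝒜 hC x).K ↔ mt 𝒜 hC x *ᵥ w = 0 := mem_kerM _ w

private noncomputable def sq [Nontrivial R] [IsNoetherianRing R] (hC : Conn 𝒜) (x : Stt 𝒜) : ℕ → Stt 𝒜
  | 0 => x
  | n + 1 => nxt 𝒜 hC (sq hC x n)

private theorem col_mem [Nontrivial R] [IsNoetherianRing R] (hC : Conn 𝒜) (x : Stt 𝒜)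
    (j : Fin (nxt 𝒜 hC x).m) : (fun i => mt 𝒜 hC x i j) ∈ x.K := by
  rw [(mt_spec 𝒜 hC x).gen]
  refine ⟨Pi.single j 1, ?_⟩
  rw [Matrix.mulVec_single_one]
  rfl

private theorem mt_cx [Nontrivial R] [IsNoetherianRing R] (hC : Conn 𝒜) (x : Stt 𝒜) :
    mt 𝒜 hC x * mt 𝒜 hC (nxt 𝒜 hC x) = 0 := by
  ext i j
  have h := (mem_nxt 𝒜 hC x _).1 (col_mem 𝒜 hC (nxt 𝒜 hC x) j)
  exact congrFun h i

private theorem mt_min [Nontrivial R] [IsNoetherianRing R] (hC : Conn 𝒜) (x : Stt 𝒜)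
    (i : Fin (nxt 𝒜 hC x).m) (j : Fin (nxt 𝒜 hC (nxt 𝒜 hC x)).m) :
    mt 𝒜 hC (nxt 𝒜 hC x) i j ∈ irr 𝒜 :=
  (mt_spec 𝒜 hC x).min _ ((mem_nxt 𝒜 hC x _).1 (col_mem 𝒜 hC (nxt 𝒜 hC x) j)) i

private theorem mt_ex [Nontrivial R] [IsNoetherianRing R] (hC : Conn 𝒜) (x : Stt 𝒜)
    (u : Fin (nxt 𝒜 hC x).m → R) (hu : mt 𝒜 hC x *ᵥ u = 0) :
    ∃ w, u = mt 𝒜 hC (nxt 𝒜 hC x) *ᵥ w :=
  ((mt_spec 𝒜 hC (nxt 𝒜 hC x)).gen u).1 ((mem_nxt 𝒜 hC x u).2 hu)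

private theorem mt_z [Nontrivial R] [IsNoetherianRing R] (hC : Conn 𝒜) (x : Stt 𝒜)
    (h : ∀ u, mt 𝒜 hC x *ᵥ u = 0 → u = 0) : (nxt 𝒜 hC (nxt 𝒜 hC x)).m = 0 :=
  (mt_spec 𝒜 hC (nxt 𝒜 hC x)).zero fun u hu => h u ((mem_nxt 𝒜 hC x u).1 hu)

theorem exists_res [Nontrivial R] [IsNoetherianRing R] (hC : Conn 𝒜) {μ : ℕ} (t : Fin μ → ℤ)
    (K : Submodule R (Fin μ → R))
    (hK : ∀ u ∈ K, ∀ d : ℤ, (fun i => gc 𝒜 (d + t i) (u i)) ∈ K) :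
    ∃ (r : ℕ → ℕ) (a : ∀ p, Fin (r p) → ℤ) (σ : Matrix (Fin μ) (Fin (r 0)) R)
      (δ : ∀ p, Matrix (Fin (r p)) (Fin (r (p + 1))) R),
      IsRes 𝒜 t r a σ δ ∧ ∀ u, u ∈ K ↔ ∃ w, u = σ *ᵥ w := by
  have hK' : ∀ u ∈ K, ∀ d : ℤ, (fun i => gc 𝒜 (d - (-t i)) (u i)) ∈ K := by
    intro u hu d
    have h := hK u hu d
    simpa only [sub_neg_eq_add] using h
  let x0 : Stt 𝒜 := ⟨μ, fun i => -t i, K, hK'⟩
  refine ⟨fun p => (sq 𝒜 hC x0 (p + 1)).m, fun p => (sq 𝒜 hC x0 (p + 1)).a, mt 𝒜 hC x0,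
    fun p => mt 𝒜 hC (sq 𝒜 hC x0 (p + 1)), ?_, (mt_spec 𝒜 hC x0).gen⟩
  refine ⟨fun i j => ?_, fun p i j => ?_, fun p i j => ?_, ?_, fun p => ?_, fun u hu => ?_,
    fun p u hu => ?_, fun h => ?_, fun p h => ?_⟩
  · have h := (mt_spec 𝒜 hC x0).hom i j
    have h2 : (nxt 𝒜 hC x0).a j - x0.a i = (nxt 𝒜 hC x0).a j + t i := sub_neg_eq_add _ _
    rw [h2] at h
    exact h
  · exact (mt_spec 𝒜 hC (sq 𝒜 hC x0 (p + 1))).hom i j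
  · exact mt_min 𝒜 hC (sq 𝒜 hC x0 p) i j
  · exact mt_cx 𝒜 hC x0
  · exact mt_cx 𝒜 hC (sq 𝒜 hC x0 (p + 1))
  · exact mt_ex 𝒜 hC x0 u hu
  · exact mt_ex 𝒜 hC (sq 𝒜 hC x0 (p + 1)) u hu
  · exact mt_z 𝒜 hC x0 h
  · exact mt_z 𝒜 hC (sq 𝒜 hC x0 (p + 1)) h

end VG
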