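import Pool.Agent.VG.LocS

/-!
Project VG, module UndS: undetected elements of the local ring come from undetected elements of the
graded ring.
-/

open MvPolynomial

namespace VG

universe u

/-- extension of a functional to the localization -/
private theorem und_ext {A S : Type u} [CommRing A] [CommRing S] [Algebra A S] (M : Submonoid A)
    [IsLocalization M S] (I : Ideal A) (φ : I →ₗ[A] A ⧸ I) :
    ∃ φS : (I.map (algebraMap A S)) →ₗ[S] (S ⧸ I.map (algebraMap A S)),
      ∀ x : I, φS (Algebra.idealMap S I x) =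
        algebraMap (A ⧸ I) (S ⧸ I.map (algebraMap A S)) (φ x) := by
  have hu : ∀ s : M, IsUnit (algebraMap A (Module.End A (S ⧸ I.map (algebraMap A S))) s) := by
    intro s
    have h1 : IsUnit (algebraMap A (S ⧸ I.map (algebraMap A S)) s) := by
      rw [IsScalarTower.algebraMap_apply A S (S ⧸ I.map (algebraMap A S))]
      exact (IsLocalization.map_units S s).map _
    rw [Module.End.isUnit_iff]
    constructor
    · intro b c h
      rw [Module.algebraMap_end_apply, Module.algebraMap_end_apply, Algebra.smul_def,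
        Algebra.smul_def] at h
      exact h1.mul_left_cancel h
    · intro b
      obtain ⟨u, hu⟩ := h1
      refine ⟨(↑u⁻¹ : S ⧸ I.map (algebraMap A S)) * b, ?_⟩
      rw [Module.algebraMap_end_apply, Algebra.smul_def, ← hu, Units.mul_inv_cancel_left]
  refine ⟨LinearMap.extendScalarsOfIsLocalization M S
    (IsLocalizedModule.lift M (Algebra.idealMap S I)
      ((IsScalarTower.toAlgHom A (A ⧸ I) (S ⧸ I.map (algebraMap A S))).toLinearMap ∘ₗ φ) hu),
    fun x => ?_⟩
  rw [LinearMap.extendScalarsOfIsLocalization_apply', IsLocalizedModule.lift_apply]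
  rfl

variable {k : Type u} [Field k] {n : ℕ} (w : Fin n → ℤ) (I : Ideal (MvPolynomial (Fin n) k))

theorem und_locS (S : Type u) [CommRing S] [Algebra (MvPolynomial (Fin n) k) S]
    (hw : ∀ i, 0 < w i) (m : Ideal (MvPolynomial (Fin n) k)) [m.IsPrime] (hm : m = Ideal.span (Set.range X))
    (hIm : I ≤ m) [IsLocalization.AtPrime S m] [IsLocalRing S] [IsLocalRing (S ⧸
      I.map (algebraMap _ S))]
    (x : I.map (algebraMap _ S))
    (hx : ∀ φ : (I.map (algebraMap _ S)) →ₗ[S]
      (S ⧸ I.map (algebraMap _ S)),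
      φ x ∈ IsLocalRing.maximalIdeal _) :
    ∃ (x₀ : I) (s : m.primeCompl), (∀ φ : I →ₗ[MvPolynomial (Fin n) k]
        (MvPolynomial (Fin n) k ⧸ I), φ x₀ ∈ irr (qgr w I)) ∧
      algebraMap _ S (s : MvPolynomial (Fin n) k) *
        (x : S) =
        algebraMap _ S (x₀ : MvPolynomial (Fin n) k) := by
  obtain ⟨⟨x₀, s⟩, h⟩ := (IsLocalization.mem_map_algebraMap_iff m.primeCompl
    S).1 x.2
  dsimp only at h
  refine ⟨x₀, s, fun φ => ?_, by rw [mul_comm]; exact h⟩
  obtain ⟨φS, hφ⟩ := und_ext (S := S) m.primeCompl I φ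
  rw [← mem_maxS w I S hw m hm hIm, ← hφ x₀]
  have h1 : Algebra.idealMap S I x₀ =
      algebraMap _ S (s : MvPolynomial (Fin n) k) • x := by
    apply Subtype.ext
    rw [Submodule.coe_smul, smul_eq_mul, mul_comm, h]
    rfl
  rw [h1, map_smul, Algebra.smul_def]
  exact Ideal.mul_mem_left _ _ (hx φS)

end VG
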