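import Pool.Agent.VG.AsmF
import Pool.Agent.VG.ClsT
import Pool.Agent.VG.DepB
import Pool.Agent.VG.ExRes
import Pool.Agent.VG.DimB
import Pool.Agent.VG.UndS
import Pool.Agent.VG.DetB

/-!
Project VG, final assembly.
-/

open MvPolynomial Matrix CategoryTheory RingTheory.Sequence

namespace VG

universe u

open Pool.Agent.Helper19

variable {k : Type u} [Field k]

private theorem weight_cast {n : ℕ} (w : Fin n → ℕ) (d : Fin n →₀ ℕ) :
    Finsupp.weight (fun i => (w i : ℤ)) d = ((Finsupp.weight w d : ℕ) : ℤ) := by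
  simp [Finsupp.weight_apply, Finsupp.sum]

private theorem homI_cast {n : ℕ} (w : Fin n → ℕ) (I : Ideal (MvPolynomial (Fin n) k))
    (hI : ∀ f ∈ I, ∀ d, weightedHomogeneousComponent w d f ∈ I) :
    HomI (fun i => (w i : ℤ)) I := by
  classical
  intro f hf d
  rcases lt_or_ge d 0 with hd | hd
  · have h1 : weightedHomogeneousComponent (fun i => (w i : ℤ)) d f = 0 := by
      ext m
      rw [coeff_weightedHomogeneousComponent, coeff_zero, if_neg]
      rw [weight_cast]
      omega
    rw [h1]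
    exact I.zero_mem
  · have h1 : weightedHomogeneousComponent (fun i => (w i : ℤ)) d f =
        weightedHomogeneousComponent w d.toNat f := by
      ext m
      rw [coeff_weightedHomogeneousComponent, coeff_weightedHomogeneousComponent, weight_cast]
      congr 1
      apply propext
      constructor
      · intro h; omega
      · intro h; omega
    rw [h1]
    exact hI f hf _

private theorem map_mulVec' {R B : Type u} [CommRing R] [CommRing B] (ψ : R →+* B) {a b : ℕ}
    (P : Matrix (Fin a) (Fin b) R) (u : Fin b → R) :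
    (P.map ψ) *ᵥ (fun i => ψ (u i)) = fun i => ψ ((P *ᵥ u) i) := by
  funext i
  exact (RingHom.map_mulVec ψ P u i).symm

theorem vg_main [CharZero k] {n : ℕ} (w : Fin n → ℕ) (hw : ∀ i, 0 < w i)
    (I m : Ideal (MvPolynomial (Fin n) k)) [m.IsPrime] (hm : m = Ideal.span (Set.range X))
    (hIm : I ≤ m) (hI : ∀ f ∈ I, ∀ d, weightedHomogeneousComponent w d f ∈ I)
    (S : Type u) [CommRing S] [Algebra (MvPolynomial (Fin n) k) S] [IsLocalization.AtPrime S m]
    (h : ℕ)
    (hpd : projectiveDimension (ModuleCat.of (S ⧸ I.map (algebraMap _ S))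
          ((I.map (algebraMap _ S)).Cotangent →ₗ[S ⧸ I.map (algebraMap _ S)]
            (S ⧸ I.map (algebraMap _ S)))) ≤ h ∨
        (projectiveDimension (ModuleCat.of (S ⧸ I.map (algebraMap _ S))
          ((I.map (algebraMap _ S)).Cotangent →ₗ[S ⧸ I.map (algebraMap _ S)]
            (S ⧸ I.map (algebraMap _ S)))) < ⊤ ∧
          ∀ rs : List (S ⧸ I.map (algebraMap _ S)), IsRegular (S ⧸ I.map (algebraMap _ S)) rs →
            rs.length ≤ h + 2))
    (hl : ∀ (Q : Ideal S) (_ : Q.IsPrime), I.map (algebraMap _ S) ≤ Q →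
          3 ≤ (Q.map (Ideal.Quotient.mk (I.map (algebraMap _ S)))).height →
          (Q.map (Ideal.Quotient.mk (I.map (algebraMap _ S)))).height ≤ h →
          ∃ rs : List (Localization.AtPrime Q), IsRegular (Localization.AtPrime Q) rs ∧
            Ideal.ofList rs = (I.map (algebraMap _ S)).map (algebraMap S (Localization.AtPrime Q))) :
    ∃ rs : List S, IsRegular S rs ∧ Ideal.ofList rs = I.map (algebraMap _ S) := by
  classical
  have hwz : ∀ i, 0 < (fun i => (w i : ℤ)) i := fun i => by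
    show (0 : ℤ) < (w i : ℤ)
    exact_mod_cast hw i
  have hIz : HomI (fun i => (w i : ℤ)) I := homI_cast w I hI
  set wz : Fin n → ℤ := fun i => (w i : ℤ) with hwzdef
  have hIm' : I ≤ Ideal.span (Set.range (X : Fin n → MvPolynomial (Fin n) k)) := hm ▸ hIm
  letI iG : GradedAlgebra (qgr wz I) := qGraded wz I hIz
  have hC : Conn (qgr wz I) := qgr_conn wz I hwz
  have hne : I ≠ ⊤ := fun htop => Ideal.IsPrime.ne_top ‹m.IsPrime› (top_le_iff.mp (htop ▸ hIm))
  haveI : Nontrivial (MvPolynomial (Fin n) k ⧸ I) := Ideal.Quotient.nontrivial_iff.mpr hne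
  haveI : IsLocalRing S := IsLocalization.AtPrime.isLocalRing S m
  have hISne := map_ne_topS I S m hIm
  set IS : Ideal S := I.map (algebraMap (MvPolynomial (Fin n) k) S) with hIS
  haveI : Nontrivial (S ⧸ IS) := Ideal.Quotient.nontrivial_iff.mpr hISne
  haveI : IsLocalRing (S ⧸ IS) :=
    IsLocalRing.of_surjective' (Ideal.Quotient.mk IS) Ideal.Quotient.mk_surjective
  haveI : IsNoetherianRing S := IsLocalization.isNoetherianRing m.primeCompl S inferInstance
  haveI : IsRegularLocalRing S := regT m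
  obtain ⟨μ, f, t, hf, hspan⟩ := exists_hom_gens wz I hIz
  obtain ⟨r, a, σ, δ, hres, hK⟩ := exists_res (qgr wz I) hC t (K0 I f)
    (fun u hu d => K0_graded wz I hIz f t hf hspan u hu d)
  set ψ : (MvPolynomial (Fin n) k ⧸ I) →+* (S ⧸ IS) := algebraMap _ _ with hψ
  have hψinj : Function.Injective ψ := loc_injS wz I S hwz hIz m hm
  have cxσ : (σ.map ψ) * (δ 0).map ψ = 0 := by
    rw [← Matrix.map_mul, hres.cxσ]
    simp
  have cxδ : ∀ p, (δ p).map ψ * (δ (p + 1)).map ψ = 0 := fun p => by
    rw [← Matrix.map_mul, hres.cxδ]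
    simp
  have exσ : ∀ u, (σ.map ψ) *ᵥ u = 0 → ∃ v, u = (δ 0).map ψ *ᵥ v := fun u hu =>
    exact_loc (Algebra.algebraMapSubmonoid (MvPolynomial (Fin n) k ⧸ I) m.primeCompl) σ (δ 0)
      hres.exσ u hu
  have exδ : ∀ p u, (δ p).map ψ *ᵥ u = 0 → ∃ v, u = (δ (p + 1)).map ψ *ᵥ v := fun p u hu =>
    exact_loc (Algebra.algebraMapSubmonoid (MvPolynomial (Fin n) k ⧸ I) m.primeCompl) (δ p)
      (δ (p + 1)) (hres.exδ p) u hu
  have minδ : ∀ p i j, ((δ p).map ψ) i j ∈ IsLocalRing.maximalIdeal (S ⧸ IS) := fun p i j =>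
    (mem_maxS wz I S hwz m hm hIm _).mpr (hres.minδ p i j)
  obtain ⟨e⟩ := hom_loc (T := S) m.primeCompl I f hspan (r 0) σ hK
  have hPD0 : PD (S ⧸ IS) (IS.Cotangent →ₗ[S ⧸ IS] (S ⧸ IS)) (h + 1) := by
    rcases hpd with hpd | ⟨hfin, hdep⟩
    · exact pd_of_projectiveDimension_le hpd
    · obtain ⟨l, hl'⟩ := (projectiveDimension_ne_top_iff _).mp hfin.ne
      exact PD.congr (cotangentHomEquiv IS (S ⧸ IS)).symm (pd_dual_of_depth_le h hdep
        ⟨l + 1, PD.congr (cotangentHomEquiv IS (S ⧸ IS)) hl'⟩)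
  have hPD : PD (S ⧸ IS) (LinearMap.range (σ.map ψ).mulVecLin) (h + 1) := PD.congr e hPD0
  have hinj : ∀ {a b : ℕ} (P : Matrix (Fin a) (Fin b) (MvPolynomial (Fin n) k ⧸ I)),
      (∀ u, (P.map ψ) *ᵥ u = 0 → u = 0) → ∀ u, P *ᵥ u = 0 → u = 0 := by
    intro a b P hP u hu
    have h1 := hP (fun i => ψ (u i)) (by
      rw [map_mulVec', hu]
      funext i
      simp)
    funext i
    apply hψinj
    rw [Pi.zero_apply, map_zero]
    exact congrFun h1 i
  have hr : r (h + 1) = 0 := by
    rcases h with _ | p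
    · exact hres.z0 (hinj σ (inj_zero r (σ.map ψ) (fun p => (δ p).map ψ) cxσ exσ minδ hPD))
    · exact hres.zp p (hinj (δ p) (inj_succ r (σ.map ψ) (fun p => (δ p).map ψ) cxσ cxδ exσ exδ
        minδ p hPD))
  obtain ⟨N, hN⟩ := finPD_of_isRegularLocalRing S
  refine det_final IS N (hN (S ⧸ IS)) ?_
  intro x hx
  obtain ⟨x₀, s, hx₀, hsx⟩ := und_locS wz I S hwz m hm hIm x hx
  -- the graded statement
  have key : (x₀ : MvPolynomial (Fin n) k) ∈ m * I := by
    have hcomp : ∀ d, weightedHomogeneousComponent wz d (x₀ : MvPolynomial (Fin n) k) ∈ m * I := by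
      intro d
      by_contra hcon
      have hund := und_comp wz I hwz hIz f t hf hspan x₀ hx₀ d
      obtain ⟨J, τ, l, c, hJ, hτ, hl0, hc, hτl⟩ := tau_unit wz I hwz hIz hIm' f t hf hspan r a σ δ
        hres hK ⟨_, hIz _ x₀.2 d⟩ d (weightedHomogeneousComponent_mem wz _ d)
        (by rw [← hm]; exact hcon) hund
      have hr1 : r 1 ≠ 0 := fun h0 => by
        rw [h0] at l
        exact l.elim0
      have h1h : 1 ≤ h := by
        rcases Nat.eq_zero_or_pos h with h0 | h0
        · subst h0
          exact absurd hr hr1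
        · exact h0
      set h' := Nat.findGreatest (fun p => r p ≠ 0) h with hh'
      have hh1 : 1 ≤ h' := Nat.le_findGreatest h1h hr1
      have hh2 : r h' ≠ 0 := Nat.findGreatest_spec (P := fun p => r p ≠ 0) h1h hr1
      have hh3 : h' ≤ h := Nat.findGreatest_le h
      have hh4 : r (h' + 1) = 0 := by
        rcases Nat.lt_or_ge h' h with h5 | h5
        · have := Nat.findGreatest_is_greatest (P := fun p => r p ≠ 0) (n := h) (k := h' + 1)
            (by omega) (by omega)
          simpa using this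
        · have h6 : h' = h := le_antisymm hh3 h5
          rw [h6]
          exact hr
      have hdim := dim_ge r (σ.map ψ) (fun p => (δ p).map ψ) cxσ cxδ exσ exδ minδ h' hh1 hh4 hh2
      have hht : ((h' + 1 : ℕ) : ℕ∞) ≤ (irr (qgr wz I)).height := by
        rw [height_irrS wz I S hwz m hm hIm] at hdim
        exact_mod_cast hdim
      refine graded_contra wz I hwz hIz hIm' f t hspan r a σ δ hres hK J τ l c hJ hτ hl0 hc hτl
        h' hh1 hh4 hht ?_
      intro p hp hph hle
      have h7 := ht_boundT wz I hwz hIz m hm S hIm f hspan t r a σ δ hres hK h hr hl p hp hph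
        (fun y hy => hle (Ideal.mem_map_of_mem _ hy))
      refine le_trans ?_ h7
      exact_mod_cast Nat.succ_le_succ hh3
    rw [← sum_weightedHomogeneousComponent wz (x₀ : MvPolynomial (Fin n) k),
      finsum_eq_sum _ (weightedHomogeneousComponent_finsupp (w := wz) _)]
    exact Ideal.sum_mem _ fun d _ => hcomp d
  have h8 : algebraMap (MvPolynomial (Fin n) k) S (x₀ : MvPolynomial (Fin n) k) ∈
      IsLocalRing.maximalIdeal S * IS := by
    have h9 := Ideal.mem_map_of_mem (algebraMap (MvPolynomial (Fin n) k) S) key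
    rw [Ideal.map_mul, IsLocalization.AtPrime.map_eq_maximalIdeal m S] at h9
    exact h9
  rw [← hsx] at h8
  exact (Ideal.unit_mul_mem_iff_mem _ (IsLocalization.map_units S s)).mp h8

end VG
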