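import Pool.Agent.VG.Forms

/-!
Project VG, module Beta: contraction of the forms `beta p`.

PLAN.  Put `A p l := (H.a (p + 2) l : K)`.
(1) For all `p l`: if `H.a (p + 2) l ≤ 0` then `beta p l = 0`.  `p = 0`: `H.c l = 0` by `posc`
(`H.c = H.ψ ᵥ* H.δ 1`), so `D (c l) = 0`.  `p + 1`: every summand vanishes: if `0 < a (p + 2) k`
then `a (p + 3) l - a (p + 2) k ≤ 0`, so `δ (p + 2) k l = 0` by `posδ`; otherwise `beta p k = 0` by
induction.
(2) Hence `A 0 l • beta 0 l = io (D (c l))` and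
`A (p + 1) l • beta (p + 1) l = ∑ k, io (D (δ (p + 2) k l)) * beta p k` (if `a ≤ 0` both sides are
`0`, by the argument of (1)); `CharZero` gives `A ≠ 0` if `a > 0`.
(3) `beta_iE_zero`: `iE (io (D (c l))) = algebraMap (ε (D (c l))) = A 0 l * φ (c l)` (`eulc`); if
`a 2 l ≤ 0` both sides are `0`.
(4) Put `th 0 l = algebraMap (φ (c l))`, `th (p + 1) l = ∑ k, φ (δ (p + 2) k l) • beta p k` (the
claimed contractions).  Claim (C p): for all `l` in `Fin (r (p + 3))`
`∑ k, io (D (δ (p + 2) k l)) * th p k + ∑ k, φ (δ (p + 2) k l) • (A p k • beta p k) = 0`.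
`p = 0`: the sum is `io (∑ k, φ (c k) • D (δ 2 k l) + φ (δ 2 k l) • D (c k))`
`= io (D (∑ k, c k * δ 2 k l)) = io (D ((ψ ᵥ* (δ 1 * δ 2)) l)) = 0` (`leib`, `cx`).
`p + 1`: with `A (p+1) k • beta (p+1) k = ∑ j, io (D (δ (p+2) j k)) * beta p j` the sum is
`∑ j, io (∑ k, φ (δ (p+2) j k) • D (δ (p+3) k l) + φ (δ (p+3) k l) • D (δ (p+2) j k)) * beta p j`
`= ∑ j, io (D ((δ (p+2) * δ (p+3)) j l)) * beta p j = 0`.
(5) `iE (beta (p+1) l) = th (p+1) l` by induction on `p` (using `iE (beta p k) = th p k`):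
`A (p+1) l • iE (beta (p+1) l) = ∑ k, ε (D (δ (p+2) k l)) • beta p k - io (D (δ (p+2) k l)) * th p k`
`= ∑ k, (A (p+1) l - A p k) φ (δ (p+2) k l) • beta p k + ∑ k, φ (δ (p+2) k l) • (A p k • beta p k)`
`= A (p+1) l • th (p+1) l` (`eulδ`, (C p)); divide by `A (p+1) l` (if `a (p+3) l ≤ 0`, both sides
vanish as in (1)).
-/

open Matrix

namespace VG

universe u v

variable {R K V : Type u} [CommRing R] [Field K] [CharZero K] [AddCommGroup V] [Module K V]
  {ι : Type v} (H : FDat R K V ι)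

omit [CharZero K] in
private theorem beta_nonpos : ∀ (p : ℕ) (l : Fin (H.r (p + 2))),
    H.a (p + 2) l ≤ 0 → H.beta p l = 0 := by
  intro p
  induction p with
  | zero =>
    intro l hl
    have hc : H.c l = 0 := H.posc l hl
    show ((H.a 2 l : ℤ) : K)⁻¹ • io (H.D (H.c l)) = 0
    rw [hc, map_zero, map_zero, smul_zero]
  | succ p ih =>
    intro l hl
    show ((H.a (p + 3) l : ℤ) : K)⁻¹ • ∑ k, io (H.D (H.δ (p + 2) k l)) * H.beta p k = 0
    rw [Finset.sum_eq_zero, smul_zero]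
    intro k _
    rcases le_or_gt (H.a (p + 2) k) 0 with hk | hk
    · rw [ih k hk, mul_zero]
    · have hl' : H.a (p + 2 + 1) l ≤ 0 := hl
      have h0 : H.δ (p + 2) k l = 0 := H.posδ (p + 2) k l (by linarith)
      rw [h0, map_zero, map_zero, zero_mul]

omit [CharZero K] in
private theorem beta_or (p : ℕ) (l : Fin (H.r (p + 3))) (hl : H.a (p + 3) l ≤ 0)
    (k : Fin (H.r (p + 2))) : H.beta p k = 0 ∨ H.δ (p + 2) k l = 0 := by
  rcases le_or_gt (H.a (p + 2) k) 0 with hk | hk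
  · exact Or.inl (beta_nonpos H p k hk)
  · have hl' : H.a (p + 2 + 1) l ≤ 0 := hl
    exact Or.inr (H.posδ (p + 2) k l (by linarith))

private theorem castne {m : ℤ} (h : ¬ m ≤ 0) : ((m : ℤ) : K) ≠ 0 := by
  intro h0
  have : m = 0 := by exact_mod_cast h0
  omega

private theorem A_beta_zero (l : Fin (H.r 2)) :
    ((H.a 2 l : ℤ) : K) • H.beta 0 l = io (H.D (H.c l)) := by
  by_cases hl : H.a 2 l ≤ 0
  · have hc : H.c l = 0 := H.posc l hl
    rw [beta_nonpos H 0 l hl, hc, map_zero, map_zero, smul_zero]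
  · show ((H.a 2 l : ℤ) : K) • (((H.a 2 l : ℤ) : K)⁻¹ • io (H.D (H.c l))) = _
    rw [smul_inv_smul₀ (castne hl)]

private theorem A_beta_succ (p : ℕ) (l : Fin (H.r (p + 3))) :
    ((H.a (p + 3) l : ℤ) : K) • H.beta (p + 1) l =
      ∑ k, io (H.D (H.δ (p + 2) k l)) * H.beta p k := by
  by_cases hl : H.a (p + 3) l ≤ 0
  · rw [beta_nonpos H (p + 1) l hl, smul_zero, Finset.sum_eq_zero]
    intro k _
    rcases beta_or H p l hl k with h | h
    · rw [h, mul_zero]
    · rw [h, map_zero, map_zero, zero_mul]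
  · show ((H.a (p + 3) l : ℤ) : K) • (((H.a (p + 3) l : ℤ) : K)⁻¹ •
      ∑ k, io (H.D (H.δ (p + 2) k l)) * H.beta p k) = _
    rw [smul_inv_smul₀ (castne hl)]

theorem beta_iE_zero (l : Fin (H.r 2)) :
    iE H.ε (H.beta 0 l) = algebraMap K (ExteriorAlgebra K V) (H.φ (H.c l)) := by
  by_cases hl : H.a 2 l ≤ 0
  · have hc : H.c l = 0 := H.posc l hl
    rw [beta_nonpos H 0 l hl, hc, map_zero, map_zero, map_zero]
  · show iE H.ε (((H.a 2 l : ℤ) : K)⁻¹ • io (H.D (H.c l))) = _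
    have h1 : H.ε (H.D (H.c l)) = ((H.a 2 l : ℤ) : K) * H.φ (H.c l) := H.eulc l
    rw [map_smul, iE_io, h1, Algebra.smul_def, ← map_mul, inv_mul_cancel_left₀ (castne hl)]

/-- the claimed contractions -/
private noncomputable def th : ∀ p, Fin (H.r (p + 2)) → ExteriorAlgebra K V
  | 0, l => algebraMap K (ExteriorAlgebra K V) (H.φ (H.c l))
  | p + 1, l => ∑ k, H.φ (H.δ (p + 2) k l) • H.beta p k

private theorem th_zero (l : Fin (H.r 2)) :
    th H 0 l = algebraMap K (ExteriorAlgebra K V) (H.φ (H.c l)) := rfl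

private theorem th_succ (p : ℕ) (l : Fin (H.r (p + 3))) :
    th H (p + 1) l = ∑ k, H.φ (H.δ (p + 2) k l) • H.beta p k := rfl

private theorem key_zero (l : Fin (H.r 3)) :
    ∑ k, io (H.D (H.δ 2 k l)) * th H 0 k +
      ∑ k, H.φ (H.δ 2 k l) • (((H.a 2 k : ℤ) : K) • H.beta 0 k) = 0 := by
  have h1 : ∑ k, H.c k * H.δ 2 k l = 0 := by
    have h2 : (H.ψ ᵥ* (H.δ 1 * H.δ 2)) l = 0 := by
      rw [H.cx 1]
      simp
    rw [← Matrix.vecMul_vecMul] at h2
    exact h2
  have h3 : ∑ k, (H.φ (H.c k) • H.D (H.δ 2 k l) + H.φ (H.δ 2 k l) • H.D (H.c k)) = 0 := by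
    rw [← map_zero H.D, ← h1, map_sum]
    exact Finset.sum_congr rfl fun k _ => (H.leib _ _).symm
  have h4 := congrArg (fun x => (io x : ExteriorAlgebra K V)) h3
  simp only [map_sum, map_add, map_smul, map_zero] at h4
  rw [← h4, ← Finset.sum_add_distrib]
  refine Finset.sum_congr rfl fun k _ => ?_
  rw [A_beta_zero, th_zero, ← Algebra.commutes, ← Algebra.smul_def]

private theorem key_succ (p : ℕ) (l : Fin (H.r (p + 4))) :
    ∑ k, io (H.D (H.δ (p + 3) k l)) * th H (p + 1) k +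
      ∑ k, H.φ (H.δ (p + 3) k l) • (((H.a (p + 3) k : ℤ) : K) • H.beta (p + 1) k) = 0 := by
  have h3 : ∀ j, ∑ k, (H.φ (H.δ (p + 2) j k) • H.D (H.δ (p + 3) k l) +
      H.φ (H.δ (p + 3) k l) • H.D (H.δ (p + 2) j k)) = 0 := by
    intro j
    have h1 : ∑ k, H.δ (p + 2) j k * H.δ (p + 3) k l = 0 := by
      have h2 := congrFun (congrFun (H.cx (p + 2)) j) l
      rw [Matrix.mul_apply] at h2
      exact h2
    rw [← map_zero H.D, ← h1, map_sum]
    exact Finset.sum_congr rfl fun k _ => (H.leib _ _).symm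
  have h5 : ∑ j, (∑ k, (H.φ (H.δ (p + 2) j k) • io (H.D (H.δ (p + 3) k l)) +
      H.φ (H.δ (p + 3) k l) • io (H.D (H.δ (p + 2) j k)))) * H.beta p j = 0 := by
    refine Finset.sum_eq_zero fun j _ => ?_
    have h4 := congrArg (fun x => (io x : ExteriorAlgebra K V)) (h3 j)
    simp only [map_sum, map_add, map_smul, map_zero] at h4
    rw [h4, zero_mul]
  rw [← h5]
  have h6 : ∀ k, H.φ (H.δ (p + 3) k l) • (((H.a (p + 3) k : ℤ) : K) • H.beta (p + 1) k) =
      ∑ j, (H.φ (H.δ (p + 3) k l) • io (H.D (H.δ (p + 2) j k))) * H.beta p j := by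
    intro k
    rw [A_beta_succ, Finset.smul_sum]
    exact Finset.sum_congr rfl fun j _ => (smul_mul_assoc _ _ _).symm
  have h7 : ∀ k, io (H.D (H.δ (p + 3) k l)) * th H (p + 1) k =
      ∑ j, (H.φ (H.δ (p + 2) j k) • io (H.D (H.δ (p + 3) k l))) * H.beta p j := by
    intro k
    rw [th_succ, Finset.mul_sum]
    refine Finset.sum_congr rfl fun j _ => ?_
    rw [mul_smul_comm, smul_mul_assoc]
  rw [Finset.sum_congr rfl fun k _ => h7 k, Finset.sum_congr rfl fun k _ => h6 k,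
    Finset.sum_comm, Finset.sum_comm (s := Finset.univ) (t := Finset.univ)
      (f := fun k j => (H.φ (H.δ (p + 3) k l) • io (H.D (H.δ (p + 2) j k))) * H.beta p j),
    ← Finset.sum_add_distrib]
  refine Finset.sum_congr rfl fun j _ => ?_
  rw [Finset.sum_mul, ← Finset.sum_add_distrib]
  exact Finset.sum_congr rfl fun k _ => (add_mul _ _ _).symm

private theorem key (p : ℕ) (l : Fin (H.r (p + 3))) :
    ∑ k, io (H.D (H.δ (p + 2) k l)) * th H p k +
      ∑ k, H.φ (H.δ (p + 2) k l) • (((H.a (p + 2) k : ℤ) : K) • H.beta p k) = 0 := by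
  cases p with
  | zero => exact key_zero H l
  | succ p => exact key_succ H p l

private theorem beta_th : ∀ (p : ℕ) (l : Fin (H.r (p + 2))), iE H.ε (H.beta p l) = th H p l := by
  intro p
  induction p with
  | zero => exact fun l => beta_iE_zero H l
  | succ p ih =>
    intro l
    by_cases hl : H.a (p + 3) l ≤ 0
    · rw [beta_nonpos H (p + 1) l hl, map_zero, th_succ, Finset.sum_eq_zero]
      intro k _
      rcases beta_or H p l hl k with h | h
      · rw [h, smul_zero]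
      · rw [h, map_zero, zero_smul]
    · have h1 : iE H.ε (H.beta (p + 1) l) = ((H.a (p + 3) l : ℤ) : K)⁻¹ •
          ∑ k, (H.ε (H.D (H.δ (p + 2) k l)) • H.beta p k -
            io (H.D (H.δ (p + 2) k l)) * th H p k) := by
        show iE H.ε (((H.a (p + 3) l : ℤ) : K)⁻¹ •
          ∑ k, io (H.D (H.δ (p + 2) k l)) * H.beta p k) = _
        rw [map_smul, map_sum]
        congr 1
        refine Finset.sum_congr rfl fun k _ => ?_
        rw [iE_io_mul, ih k]
      have h2 := key H p l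
      have h3 : ∑ k, (H.ε (H.D (H.δ (p + 2) k l)) • H.beta p k -
            io (H.D (H.δ (p + 2) k l)) * th H p k) =
          ((H.a (p + 3) l : ℤ) : K) • ∑ k, H.φ (H.δ (p + 2) k l) • H.beta p k := by
        rw [Finset.sum_sub_distrib, eq_neg_of_add_eq_zero_left h2, sub_neg_eq_add,
          ← Finset.sum_add_distrib, Finset.smul_sum]
        refine Finset.sum_congr rfl fun k _ => ?_
        have h4 : H.ε (H.D (H.δ (p + 2) k l)) =
            ((H.a (p + 3) l - H.a (p + 2) k : ℤ) : K) * H.φ (H.δ (p + 2) k l) :=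
          H.eulδ (p + 2) k l
        rw [h4, smul_smul, smul_smul, ← add_smul]
        congr 1
        push_cast
        ring
      rw [h1, h3, th_succ, inv_smul_smul₀ (castne hl)]

theorem beta_iE_succ (p : ℕ) (l : Fin (H.r (p + 3))) :
    iE H.ε (H.beta (p + 1) l) = ∑ k, H.φ (H.δ (p + 2) k l) • H.beta p k :=
  beta_th H (p + 1) l

end VG
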