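import Pool.Agent.VG.Qgr

/-!
Project VG, module LocG: the graded ring `A/I` and its localization at the origin.

`m = Ideal.span (Set.range X)` is prime (hypothesis `[m.IsPrime]`), `S = Localization.AtPrime m`,
`IS = I.map (algebraMap A S)`, `B = S/IS`.  `I ≤ m` because `I` is homogeneous and proper.
PLAN.  `loc_injective`: let `mk f ↦ 0` in `B`; `B` is the localization of `A/I` at the image of
`m.primeCompl` (Mathlib instance), so `mk (g f) = 0` for some `g ∉ m`, i.e. `g f ∈ I`, `g` has a nonzero
constant term `c` (`g ∉ m`).  Suppose `f ∉ I`; let `e` be the smallest degree with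
`whc e f ∉ I`.  The component of degree `e` of `g f` is
`c * whc e f + ∑ (components of g of positive degree) * (components of f of degree < e)`, all of it
in `I`; so `whc e f ∈ I`, contradiction (weights are positive).
`mem_max`: for `z : A/I`: `algebraMap (A/I) B z ∈ maximalIdeal B ↔ z ∈ irr (qgr w I)` (`irr_qgr`;
the maximal ideal of `B` is the image of `m`).
`isLoc`: `B` is the localization of `A/I` at the prime `irr (qgr w I)`
(`Algebra.algebraMapSubmonoid (A ⧸ I) m.primeCompl = (irr (qgr w I)).primeCompl`, since `I ≤ m`).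
`height_irr`: `IsLocalization.AtPrime.ringKrullDim_eq_height`.
-/

open MvPolynomial

namespace VG

universe u

variable {k : Type u} [Field k] {n : ℕ} (w : Fin n → ℤ) (I : Ideal (MvPolynomial (Fin n) k))

private theorem weight_pos {w : Fin n → ℤ} (hw : ∀ i, 0 < w i) {d : Fin n →₀ ℕ} (hd : d ≠ 0) :
    0 < Finsupp.weight w d := by
  rw [Finsupp.weight_apply, Finsupp.sum]
  refine Finset.sum_pos (fun i hi => ?_) ?_
  · exact nsmul_pos (hw i) (Finsupp.mem_support_iff.1 hi)
  · rw [Finset.nonempty_iff_ne_empty, Ne, Finsupp.support_eq_empty]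
    exact hd

private theorem whc_zero {w : Fin n → ℤ} (hw : ∀ i, 0 < w i) (f : MvPolynomial (Fin n) k) :
    weightedHomogeneousComponent w 0 f = C (constantCoeff f) := by
  classical
  ext d
  rw [coeff_weightedHomogeneousComponent, coeff_C]
  by_cases hd : d = 0
  · rw [hd, map_zero, if_pos rfl, if_pos rfl]
    rfl
  · rw [if_neg (weight_pos hw hd).ne', if_neg (fun h => hd h.symm)]

private theorem mem_of_cc {m : Ideal (MvPolynomial (Fin n) k)} (hm : m = Ideal.span (Set.range X))
    {f : MvPolynomial (Fin n) k} (hf : constantCoeff f = 0) : f ∈ m := by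
  rw [hm, ← Set.image_univ, mem_ideal_span_X_image]
  intro d hd
  by_contra hcon
  push Not at hcon
  have h1 : d = 0 := Finsupp.ext fun i => hcon i (Set.mem_univ i)
  rw [mem_support_iff, h1] at hd
  exact hd hf

/-- an element of a connected graded ring with nonzero constant term is regular -/
private theorem eq_zero_of_mul {R : Type u} [CommRing R] [Algebra k R] (𝒜 : ℤ → Submodule k R)
    [GradedAlgebra 𝒜] (hC : Conn 𝒜) {G F : R} {c : k} (hc : c ≠ 0) (hG : gc 𝒜 0 G = algebraMap k R c)
    (h : G * F = 0) : F = 0 := by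
  have hneg : ∀ d : ℤ, d < 0 → ∀ x, gc 𝒜 d x = 0 := fun d hd x => hC.neg d hd _ (gc_mem 𝒜 d x)
  obtain ⟨s, hs, hs'⟩ := gc_sum 𝒜 G
  have key : ∀ d : ℕ, ∀ e : ℤ, e ≤ d → gc 𝒜 e F = 0 := by
    have step : ∀ e : ℤ, (∀ e' < e, gc 𝒜 e' F = 0) → gc 𝒜 e F = 0 := by
      intro e he
      have h1 : gc 𝒜 e (G * F) = ∑ d ∈ s, gc 𝒜 d G * gc 𝒜 (e - d) F := by
        conv_lhs => rw [hs]
        rw [Finset.sum_mul, map_sum]
        exact Finset.sum_congr rfl fun d _ => gc_mul 𝒜 (gc_mem 𝒜 d G) e F
      rw [h, map_zero] at h1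
      have h2 : ∑ d ∈ s, gc 𝒜 d G * gc 𝒜 (e - d) F = gc 𝒜 0 G * gc 𝒜 e F := by
        rw [Finset.sum_eq_single (0 : ℤ)]
        · rw [sub_zero]
        · intro d _ hd
          rcases lt_or_gt_of_ne hd with h3 | h3
          · rw [hneg d h3 G, zero_mul]
          · rw [he (e - d) (by omega), mul_zero]
        · intro h3
          rw [hs' 0 h3, zero_mul]
      rw [h2, hG] at h1
      have h4 : algebraMap k R c⁻¹ * (algebraMap k R c * gc 𝒜 e F) = gc 𝒜 e F := by
        rw [← mul_assoc, ← map_mul, inv_mul_cancel₀ hc, map_one, one_mul]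
      rw [← h4, ← h1, mul_zero]
    intro d
    induction d with
    | zero =>
      intro e he
      rcases lt_or_eq_of_le he with h1 | h1
      · exact hneg e h1 F
      · refine step e fun e' he' => hneg e' (by
          have : e = 0 := h1
          omega) F
    | succ d ih =>
      intro e he
      refine step e fun e' he' => ih e' ?_
      push_cast at he
      omega
  obtain ⟨t, ht, -⟩ := gc_sum 𝒜 F
  rw [ht]
  refine Finset.sum_eq_zero fun d _ => key d.toNat d (Int.self_le_toNat d)

private theorem mk_loc_mem (m : Ideal (MvPolynomial (Fin n) k)) [m.IsPrime]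
    [IsLocalRing (Localization.AtPrime m ⧸ I.map (algebraMap _ (Localization.AtPrime m)))]
    (x : Localization.AtPrime m) :
    Ideal.Quotient.mk (I.map (algebraMap _ (Localization.AtPrime m))) x ∈
      IsLocalRing.maximalIdeal _ ↔ x ∈ IsLocalRing.maximalIdeal (Localization.AtPrime m) := by
  have hl : IsLocalHom (Ideal.Quotient.mk (I.map (algebraMap _ (Localization.AtPrime m)))) :=
    IsLocalHom.of_surjective _ Ideal.Quotient.mk_surjective
  rw [IsLocalRing.mem_maximalIdeal, IsLocalRing.mem_maximalIdeal, mem_nonunits_iff, mem_nonunits_iff,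
    not_iff_not]
  constructor
  · intro h
    exact hl.map_nonunit x h
  · intro h
    exact h.map _

theorem loc_injective (hw : ∀ i, 0 < w i) (hI : HomI w I)
    (m : Ideal (MvPolynomial (Fin n) k)) [m.IsPrime] (hm : m = Ideal.span (Set.range X)) :
    Function.Injective (algebraMap (MvPolynomial (Fin n) k ⧸ I)
      (Localization.AtPrime m ⧸ I.map (algebraMap _ (Localization.AtPrime m)))) := by
  rw [injective_iff_map_eq_zero]
  intro z hz
  obtain ⟨f, rfl⟩ := Ideal.Quotient.mk_surjective z
  have h1 : algebraMap (MvPolynomial (Fin n) k) (Localization.AtPrime m) f ∈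
      I.map (algebraMap _ (Localization.AtPrime m)) := by
    rw [← Ideal.Quotient.eq_zero_iff_mem]
    exact hz
  obtain ⟨g, hg, hgf⟩ := (IsLocalization.algebraMap_mem_map_algebraMap_iff m.primeCompl _ I f).1 h1
  have hC := qgr_conn w I hw
  have hcc : constantCoeff g ≠ 0 := fun h => hg (mem_of_cc hm h)
  letI inst := qGraded w I hI
  have h2 : gc (qgr w I) 0 (Ideal.Quotient.mk I g) = algebraMap k _ (constantCoeff g) := by
    have h3 := gc_mk w I hI 0 g
    rw [whc_zero hw] at h3
    exact h3
  exact eq_zero_of_mul (qgr w I) hC hcc h2 (by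
    rw [← map_mul]
    exact Ideal.Quotient.eq_zero_iff_mem.2 hgf)

theorem map_ne_top (m : Ideal (MvPolynomial (Fin n) k)) [m.IsPrime] (hIm : I ≤ m) :
    I.map (algebraMap _ (Localization.AtPrime m)) ≠ ⊤ := by
  intro h
  have h1 : I.map (algebraMap _ (Localization.AtPrime m)) ≤
      IsLocalRing.maximalIdeal (Localization.AtPrime m) := by
    rw [← Localization.AtPrime.map_eq_maximalIdeal]
    exact Ideal.map_mono hIm
  rw [h, top_le_iff] at h1
  exact Ideal.IsPrime.ne_top' h1

theorem mem_max (hw : ∀ i, 0 < w i)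
    (m : Ideal (MvPolynomial (Fin n) k)) [m.IsPrime] (hm : m = Ideal.span (Set.range X))
    (hIm : I ≤ m) [IsLocalRing (Localization.AtPrime m ⧸
      I.map (algebraMap _ (Localization.AtPrime m)))] (z : MvPolynomial (Fin n) k ⧸ I) :
    algebraMap (MvPolynomial (Fin n) k ⧸ I)
      (Localization.AtPrime m ⧸ I.map (algebraMap _ (Localization.AtPrime m))) z ∈
        IsLocalRing.maximalIdeal _ ↔ z ∈ irr (qgr w I) := by
  obtain ⟨f, rfl⟩ := Ideal.Quotient.mk_surjective z
  rw [irr_qgr w I hw, ← hm, Ideal.mem_quotient_iff_mem hIm,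
    ← IsLocalization.AtPrime.to_map_mem_maximal_iff (Localization.AtPrime m) m f, ← mk_loc_mem I m]
  exact Iff.rfl

theorem height_irr (hw : ∀ i, 0 < w i)
    (m : Ideal (MvPolynomial (Fin n) k)) [m.IsPrime] (hm : m = Ideal.span (Set.range X))
    (hIm : I ≤ m) :
    ringKrullDim (Localization.AtPrime m ⧸ I.map (algebraMap _ (Localization.AtPrime m))) =
      (irr (qgr w I)).height := by
  have h1 : irr (qgr w I) = m.map (Ideal.Quotient.mk I) := by
    rw [irr_qgr w I hw, ← hm]
  rw [h1]
  have hp : (m.map (Ideal.Quotient.mk I)).IsPrime :=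
    Ideal.map_isPrime_of_surjective Ideal.Quotient.mk_surjective (by
      rw [Ideal.mk_ker]
      exact hIm)
  have h2 : Algebra.algebraMapSubmonoid (MvPolynomial (Fin n) k ⧸ I) m.primeCompl =
      (m.map (Ideal.Quotient.mk I)).primeCompl := by
    ext z
    obtain ⟨f, rfl⟩ := Ideal.Quotient.mk_surjective z
    constructor
    · rintro ⟨g, hg, hgf⟩
      rw [← hgf]
      intro h
      exact hg ((Ideal.mem_quotient_iff_mem hIm).1 h)
    · intro h
      exact ⟨f, fun h3 => h ((Ideal.mem_quotient_iff_mem hIm).2 h3), rfl⟩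
  have h3 : IsLocalization.AtPrime (Localization.AtPrime m ⧸
      I.map (algebraMap _ (Localization.AtPrime m))) (m.map (Ideal.Quotient.mk I)) := by
    unfold IsLocalization.AtPrime
    rw [← h2]
    infer_instance
  exact IsLocalization.AtPrime.ringKrullDim_eq_height (m.map (Ideal.Quotient.mk I))
    (Localization.AtPrime m ⧸ I.map (algebraMap _ (Localization.AtPrime m)))

end VG
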