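import Pool.Agent.Helper19.PdBasic

/-!
Project VG, module PerfL: perfection localizes.
-/

open CategoryTheory RingTheory.Sequence

namespace VG

universe u

open TensorProduct in
private theorem pl_ex {S T P M : Type u} [CommRing S] [CommRing T] [Algebra S T]
    [Module.Flat S T] [AddCommGroup P] [Module S P] [AddCommGroup M] [Module S M]
    (π : P →ₗ[S] M) :
    Function.Exact ((LinearMap.ker π).subtype.baseChange T) (π.baseChange T) := by
  have h5 : Function.Exact ((LinearMap.ker π).subtype) π := π.exact_subtype_ker_map
  exact Module.Flat.lTensor_exact T h5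

open Pool.Agent.Helper19 TensorProduct in
private theorem pl_aux {S T : Type u} [CommRing S] [CommRing T] [Algebra S T]
    [Module.Flat S T] (n : ℕ) : ∀ (M : Type u) [AddCommGroup M] [Module S M],
      PD S M n → PD T (T ⊗[S] M) n := by
  induction n with
  | zero =>
    intro M _ _ h
    have h1 := subsingleton_of_pd_zero h
    refine (hasProjectiveDimensionLT_zero_iff_isZero (ModuleCat.of T (T ⊗[S] M))).mpr ?_
    rw [ModuleCat.isZero_iff_subsingleton]
    infer_instance
  | succ n ih =>
    intro M _ _ h
    rcases n with _ | n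
    · have h1 := projective_of_pd_one h
      exact pd_of_projective
    · let π : (M →₀ S) →ₗ[S] M := Finsupp.linearCombination S id
      have hπ : Function.Surjective π := Finsupp.linearCombination_id_surjective S M
      have h1 : PD S (LinearMap.ker π) (n + 1) :=
        pd_ker (f := (LinearMap.ker π).subtype) (g := π) Subtype.val_injective hπ
          π.exact_subtype_ker_map h
      have h2 := ih (LinearMap.ker π) h1
      have h3 : PD T (T ⊗[S] (M →₀ S)) (n + 1 + 1) := (pd_of_projective).mono (by omega)
      refine pd_coker (f := (LinearMap.ker π).subtype.baseChange T) (g := π.baseChange T)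
        ?_ ?_ ?_ h2 h3
      · exact Module.Flat.lTensor_preserves_injective_linearMap (M := T) _ Subtype.val_injective
      · exact LinearMap.lTensor_surjective T hπ
      · exact pl_ex (T := T) π

theorem perf_loc {S T : Type u} [CommRing S] [IsNoetherianRing S] [CommRing T] [Algebra S T]
    (Q : Ideal S) [Q.IsPrime] [IsLocalization.AtPrime T Q] (J : Ideal S)
    (hne : J.map (algebraMap S T) ≠ ⊤) (gs : List S) (hgs : IsRegular S gs)
    (hmem : ∀ g ∈ gs, g ∈ J)
    (hpd : projectiveDimension (ModuleCat.of S (S ⧸ J)) ≤ gs.length) :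
    ∃ gs' : List T, IsRegular T gs' ∧ (∀ g ∈ gs', g ∈ J.map (algebraMap S T)) ∧
      projectiveDimension (ModuleCat.of T (T ⧸ J.map (algebraMap S T))) ≤ gs'.length := by
  have hJQ : ∀ r ∈ J, r ∈ Q := by
    intro r hr
    by_contra hrQ
    apply hne
    apply Ideal.eq_top_of_isUnit_mem _ (Ideal.mem_map_of_mem _ hr)
    exact IsLocalization.map_units T (⟨r, hrQ⟩ : Q.primeCompl)
  have hflat : Module.Flat S T := IsLocalization.flat T Q.primeCompl
  refine ⟨gs.map (algebraMap S T), ?_, ?_, ?_⟩
  · exact hgs.1.isRegular_of_isLocalization_of_mem T Q fun r hr => hJQ r (hmem r hr)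
  · intro g hg
    obtain ⟨r, hr, rfl⟩ := List.mem_map.1 hg
    exact Ideal.mem_map_of_mem _ (hmem r hr)
  · rw [List.length_map]
    rw [projectiveDimension_le_iff] at hpd ⊢
    have h1 := pl_aux (T := T) _ _ hpd
    exact Pool.Agent.Helper19.PD.congr
      (Algebra.TensorProduct.quotIdealMapEquivTensorQuot T J).symm.toLinearEquiv h1

end VG
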