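import Pool.Agent.VG.LciL
import Pool.Agent.VG.PerfL
import Pool.Agent.VG.FTp
import Pool.Agent.VG.LocG
import Pool.Agent.VG.GAv

/-!
Project VG, module ClsM: primes at which `I` is not locally generated by a regular sequence have
height `≥ h + 1` in `A/I`.

PLAN.  Let `R = A/I`, `p` a homogeneous prime of `R` containing the image of `FTI`, and suppose
`p.height ≤ h`.  `P = p.comap mk`, a prime of `A` containing `I`; `p ≤ irr` (`hom_le_irr`), so `P ≤ m`
(`irr_qgr`, `hm`, `I ≤ m`).  `Q = P.map (algebraMap A S)` is a prime of `S = Localization.AtPrime m`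
with `Q.comap = P` (`IsLocalization.isPrime_of_isPrime_disjoint`,
`IsLocalization.comap_map_of_isPrime_disjoint`/`under_map...`), `IS ≤ Q`.  `T = Localization.AtPrime Q` is
a localization of `A` at `P` (`IsLocalization.isLocalization_isLocalization_atPrime_isLocalization`,
with the `Algebra A T` of Mathlib and its scalar tower), `IT = I.map (algebraMap A T) =
IS.map (algebraMap S T)` (`Ideal.map_map`, `IsScalarTower.algebraMap_eq`), proper.
Heights: `T/IT` is the localization of `R` at `p`, `ringKrullDim (T/IT) = p.height`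
(`IsLocalization.AtPrime.ringKrullDim_eq_height`; the submonoid `Algebra.algebraMapSubmonoid R
P.primeCompl` is `p.primeCompl`), and `(Q.map (mk IS)).height = p.height` (`S/IS` is a localization of `R`,
`IsLocalization.height_map_of_disjoint`, `Q.map mk` is the image of `p`).
In the three cases of `hl` there is a `T`-regular sequence generating `IT`: `h ≤ 1`: `lci_one`
(`regT`); `h ≤ 2`, perfect: `perf_loc` (from `S` to `T`) and `lci_two`; third case: directly.
`ft_of_regular` gives `y ∉ P` with `FT I y`, so `mk y` is in the image of `FTI`, contained in `p`: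
`y ∈ P`, contradiction.
-/

open MvPolynomial Matrix CategoryTheory RingTheory.Sequence

namespace VG

universe u

variable {k : Type u} [Field k] {n : ℕ} (w : Fin n → ℤ) (I : Ideal (MvPolynomial (Fin n) k))

private theorem qsub {A : Type u} [CommRing A] (I : Ideal A) (p : Ideal (A ⧸ I)) [p.IsPrime]
    (P : Ideal A) [P.IsPrime] (hP : P = p.comap (Ideal.Quotient.mk I)) :
    Algebra.algebraMapSubmonoid (A ⧸ I) P.primeCompl = p.primeCompl := by
  ext x
  obtain ⟨a, rfl⟩ := Ideal.Quotient.mk_surjective x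
  constructor
  · rintro ⟨b, hb, hba⟩ hx
    apply hb
    rw [hP, SetLike.mem_coe, Ideal.mem_comap]
    have : Ideal.Quotient.mk I b = Ideal.Quotient.mk I a := hba
    rw [this]
    exact hx
  · intro h
    refine ⟨a, fun ha => h ?_, rfl⟩
    rw [hP, SetLike.mem_coe, Ideal.mem_comap] at ha
    exact ha

private theorem qloc {A T : Type u} [CommRing A] [CommRing T] [Algebra A T] (I : Ideal A)
    (p : Ideal (A ⧸ I)) [p.IsPrime] (P : Ideal A) [P.IsPrime]
    (hP : P = p.comap (Ideal.Quotient.mk I)) [IsLocalization.AtPrime T P] :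
    IsLocalization.AtPrime (T ⧸ I.map (algebraMap A T)) p := by
  have h1 : IsLocalization (Algebra.algebraMapSubmonoid (A ⧸ I) P.primeCompl)
      (T ⧸ I.map (algebraMap A T)) := inferInstance
  rw [qsub I p P hP] at h1
  exact h1

private theorem qheight {A S : Type u} [CommRing A] [CommRing S] [Algebra A S] (I : Ideal A)
    (p : Ideal (A ⧸ I)) [p.IsPrime] (P m : Ideal A) [m.IsPrime] [IsLocalization.AtPrime S m]
    (hP : P = p.comap (Ideal.Quotient.mk I)) (hPm : P ≤ m) :
    ((P.map (algebraMap A S)).map (Ideal.Quotient.mk (I.map (algebraMap A S)))).height =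
      p.height := by
  have h1 : IsLocalization (Algebra.algebraMapSubmonoid (A ⧸ I) m.primeCompl)
      (S ⧸ I.map (algebraMap A S)) := inferInstance
  have h2 : p = P.map (Ideal.Quotient.mk I) := by
    rw [hP, Ideal.map_comap_of_surjective _ Ideal.Quotient.mk_surjective]
  have h3 : (P.map (algebraMap A S)).map (Ideal.Quotient.mk (I.map (algebraMap A S))) =
      p.map (algebraMap (A ⧸ I) (S ⧸ I.map (algebraMap A S))) := by
    rw [h2, Ideal.map_map, Ideal.map_map]
    rfl
  rw [h3]
  refine IsLocalization.height_map_of_disjoint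
    (Algebra.algebraMapSubmonoid (A ⧸ I) m.primeCompl) p ?_
  rw [Set.disjoint_left]
  rintro x ⟨a, ha, rfl⟩ hx
  apply ha
  apply hPm
  rw [hP]
  exact hx

private theorem core {A S T : Type u} [CommRing A] [IsNoetherianRing A] [CommRing S]
    [IsNoetherianRing S] [CommRing T] [Algebra A S] [Algebra A T] [Algebra S T]
    [IsScalarTower A S T] (I P m : Ideal A) [P.IsPrime] [m.IsPrime] [IsLocalization.AtPrime S m]
    (Q : Ideal S) [Q.IsPrime] [IsLocalization.AtPrime T Q] [IsRegularLocalRing T]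
    (hQP : Q.comap (algebraMap A S) = P)
    (p : Ideal (A ⧸ I)) [p.IsPrime] (hP : P = p.comap (Ideal.Quotient.mk I)) {μ : ℕ} (f : Fin μ → I)
    (hspan : Submodule.span A (Set.range f) = ⊤) (r : ℕ → ℕ)
    (σ : Matrix (Fin μ) (Fin (r 0)) (A ⧸ I))
    (δ : ∀ p, Matrix (Fin (r p)) (Fin (r (p + 1))) (A ⧸ I))
    (cxσ : σ * δ 0 = 0) (cxδ : ∀ p, δ p * δ (p + 1) = 0)
    (exσ : ∀ u, σ *ᵥ u = 0 → ∃ w, u = δ 0 *ᵥ w)
    (exδ : ∀ p u, δ p *ᵥ u = 0 → ∃ w, u = δ (p + 1) *ᵥ w)
    (hK : ∀ u, u ∈ K0 I f ↔ ∃ v, u = σ *ᵥ v) (h : ℕ) (hr : r (h + 1) = 0)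
    (hph : p.height ≤ h)
    (hl : h ≤ 1 ∨ (h ≤ 2 ∧ ∃ gs : List S, IsRegular S gs ∧
          (∀ g ∈ gs, g ∈ I.map (algebraMap A S)) ∧
          projectiveDimension (ModuleCat.of S (S ⧸ I.map (algebraMap A S))) ≤ gs.length) ∨
        ∃ rs : List T, IsRegular T rs ∧
            Ideal.ofList rs = (I.map (algebraMap A S)).map (algebraMap S T)) :
    ∃ y : A, y ∉ P ∧ FT I y := by
  have hIP : I ≤ P := by
    intro x hx
    rw [hP, Ideal.mem_comap, Ideal.Quotient.eq_zero_iff_mem.mpr hx]
    exact zero_mem _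
  have hloc : IsLocalization.AtPrime T P := by
    have h1 := IsLocalization.isLocalization_isLocalization_atPrime_isLocalization
      m.primeCompl T Q
    simp_rw [hQP] at h1
    exact h1
  have hIT : I.map (algebraMap A T) = (I.map (algebraMap A S)).map (algebraMap S T) := by
    rw [Ideal.map_map, IsScalarTower.algebraMap_eq A S T]
  have hne : I.map (algebraMap A T) ≠ ⊤ := by
    intro h'
    have h1 : I.map (algebraMap A T) ≤ P.map (algebraMap A T) := Ideal.map_mono hIP
    rw [h', top_le_iff, IsLocalization.AtPrime.map_eq_maximalIdeal P] at h1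
    exact Ideal.IsPrime.ne_top (IsLocalRing.maximalIdeal.isMaximal _).isPrime h1
  have hqloc : IsLocalization.AtPrime (T ⧸ I.map (algebraMap A T)) p := qloc I p P hP
  have hdim : ringKrullDim (T ⧸ I.map (algebraMap A T)) = p.height :=
    IsLocalization.AtPrime.ringKrullDim_eq_height p _
  have hdim' : ringKrullDim (T ⧸ I.map (algebraMap A T)) ≤ (h : ℕ) := by
    rw [hdim]
    exact_mod_cast hph
  have key : ∃ rs : List T, IsRegular T rs ∧ Ideal.ofList rs = I.map (algebraMap A T) := by
    rcases hl with h1 | ⟨h2, gs, hgs, hgm, hgp⟩ | h3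
    · refine lci_one P.primeCompl I f hspan r σ δ cxσ cxδ exσ exδ hK h hr hne (hdim'.trans ?_)
      exact_mod_cast h1
    · rw [hIT] at hne
      obtain ⟨gs', hgs', hgm', hgp'⟩ := perf_loc Q (I.map (algebraMap A S)) hne gs hgs hgm hgp
      rw [← hIT] at hne hgm' hgp'
      refine lci_two P.primeCompl I f hspan r σ δ cxσ cxδ exσ exδ hK h hr hne
        (hdim'.trans ?_) gs' hgs' hgm' hgp'
      exact_mod_cast h2
    · rw [hIT]
      exact h3
  obtain ⟨rs, hrs, hrI⟩ := key
  exact ft_of_regular P I rs hrs.toIsWeaklyRegular hrI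

theorem ht_bound (hw : ∀ i, 0 < w i) (hI : HomI w I)
    (m : Ideal (MvPolynomial (Fin n) k)) [m.IsPrime] (hm : m = Ideal.span (Set.range X))
    (S : Type u) [CommRing S] [Algebra (MvPolynomial (Fin n) k) S] [IsLocalization.AtPrime S m]
    (hIm : I ≤ m) {μ : ℕ} (f : Fin μ → I)
    (hspan : Submodule.span (MvPolynomial (Fin n) k) (Set.range f) = ⊤)
    (t : Fin μ → ℤ) (r : ℕ → ℕ) (a : ∀ p, Fin (r p) → ℤ)
    (σ : Matrix (Fin μ) (Fin (r 0)) (MvPolynomial (Fin n) k ⧸ I))
    (δ : ∀ p, Matrix (Fin (r p)) (Fin (r (p + 1))) (MvPolynomial (Fin n) k ⧸ I))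
    (hres : IsRes (qgr w I) t r a σ δ) (hK : ∀ u, u ∈ K0 I f ↔ ∃ v, u = σ *ᵥ v)
    (h : ℕ) (hr : r (h + 1) = 0)
    (hl : h ≤ 1 ∨ (h ≤ 2 ∧ ∃ gs : List S,
          IsRegular S gs ∧
          (∀ g ∈ gs, g ∈ I.map (algebraMap _ S)) ∧
          projectiveDimension (ModuleCat.of S
            (S ⧸ I.map (algebraMap _ S))) ≤
              gs.length) ∨
        ∀ (Q : Ideal S) (_ : Q.IsPrime),
          I.map (algebraMap _ S) ≤ Q →
          (Q.map (Ideal.Quotient.mk (I.map (algebraMap _ S)))).height ≤ h →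
          ∃ rs : List (Localization.AtPrime Q), IsRegular (Localization.AtPrime Q) rs ∧
            Ideal.ofList rs = (I.map (algebraMap _ S)).map
              (algebraMap S (Localization.AtPrime Q)))
    (p : Ideal (MvPolynomial (Fin n) k ⧸ I)) (hp : p.IsPrime) (hph : ∀ z ∈ p, ∀ d,
      @gc k _ _ _ _ (qgr w I) (qGraded w I hI) d z ∈ p)
    (hle : ∀ y : MvPolynomial (Fin n) k, FT I y → Ideal.Quotient.mk I y ∈ p) :
    ((h + 1 : ℕ) : ℕ∞) ≤ p.height := by
  by_contra hlt
  have hph' : p.height ≤ h := by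
    rw [not_le, Nat.cast_add, Nat.cast_one] at hlt
    exact Order.le_of_lt_add_one hlt
  have hIne : I ≠ ⊤ := fun h' => Ideal.IsPrime.ne_top ‹m.IsPrime› (top_le_iff.mp (h' ▸ hIm))
  have : Nontrivial (MvPolynomial (Fin n) k ⧸ I) := Ideal.Quotient.nontrivial_iff.mpr hIne
  obtain ⟨P, hP⟩ : ∃ P, P = p.comap (Ideal.Quotient.mk I) := ⟨_, rfl⟩
  have hPp : P.IsPrime := hP ▸ Ideal.comap_isPrime _ _
  have hIP : I ≤ P := by
    intro x hx
    rw [hP, Ideal.mem_comap, Ideal.Quotient.eq_zero_iff_mem.mpr hx]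
    exact zero_mem _
  have hPm : P ≤ m := by
    let _ := qGraded w I hI
    have h1 : p ≤ irr (qgr w I) :=
      hom_le_irr _ (qgr_conn w I hw) p ((hom_iff _ p).mpr hph) hp.ne_top
    rw [irr_qgr w I hw, ← hm] at h1
    intro x hx
    rw [hP, Ideal.mem_comap] at hx
    have h2 := h1 hx
    rw [Ideal.mem_map_iff_of_surjective _ Ideal.Quotient.mk_surjective] at h2
    obtain ⟨z, hz, hzx⟩ := h2
    have h3 : z - x ∈ I := Ideal.Quotient.eq.mp hzx
    have : x = z - (z - x) := by ring
    rw [this]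
    exact m.sub_mem hz (hIm h3)
  have hdisj : Disjoint (m.primeCompl : Set (MvPolynomial (Fin n) k)) (P : Set _) := by
    rw [Set.disjoint_left]
    intro x hx hx'
    exact hx (hPm hx')
  obtain ⟨Q, hQ⟩ : ∃ Q, Q = P.map (algebraMap (MvPolynomial (Fin n) k)
    S) := ⟨_, rfl⟩
  have hQp : Q.IsPrime := hQ ▸ IsLocalization.isPrime_of_isPrime_disjoint m.primeCompl _ P hPp hdisj
  have hQP : Q.comap (algebraMap (MvPolynomial (Fin n) k) S) = P := by
    rw [hQ]
    exact IsLocalization.under_map_of_isPrime_disjoint m.primeCompl _ hPp hdisj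
  have hnoe : IsNoetherianRing S :=
    IsLocalization.isNoetherianRing m.primeCompl _ inferInstance
  have hloc : IsLocalization.AtPrime (Localization.AtPrime Q) P := by
    have h1 := IsLocalization.isLocalization_isLocalization_atPrime_isLocalization
      m.primeCompl (Localization.AtPrime Q) Q
    simp_rw [hQP] at h1
    exact h1
  have hreg : IsRegularLocalRing (Localization.AtPrime Q) := regT P
  obtain ⟨y, hy, hFT⟩ := core (S := S) (T := Localization.AtPrime Q)
    I P m Q hQP p hP f hspan r σ δ hres.cxσ hres.cxδ hres.exσ hres.exδ hK h hr hph' (by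
      rcases hl with h1 | h2 | h3
      · exact Or.inl h1
      · exact Or.inr (Or.inl h2)
      · refine Or.inr (Or.inr (h3 Q hQp ?_ ?_))
        · rw [hQ]
          exact Ideal.map_mono hIP
        · rw [hQ, qheight I p P m hP hPm]
          exact hph')
  apply hy
  rw [hP, Ideal.mem_comap]
  exact hle y hFT

end VG
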