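import Mathlib

/-!
Project VG (MP_c5773f_ag): the Cech differential on functions of lists.
-/

namespace VG

universe u v w

variable {ι : Type u} {W : Type v} {W' : Type w} [AddCommGroup W] [AddCommGroup W']

/-- The (unordered, augmented) Cech differential:
`cob u [a0, ..., aq] = sum (-1)^i u [a0, .., omit ai, .., aq]`. -/
def cob : (List ι → W) → List ι → W
  | _, [] => 0
  | u, a :: L => u L - cob (fun L' => u (a :: L')) L

@[simp] theorem cob_nil (u : List ι → W) : cob u [] = 0 := rfl

theorem cob_cons (u : List ι → W) (a : ι) (L : List ι) :
    cob u (a :: L) = u L - cob (fun L' => u (a :: L')) L := rfl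

theorem cob_map (f : W →+ W') (u : List ι → W) (L : List ι) :
    cob (fun L' => f (u L')) L = f (cob u L) := by
  induction L generalizing u with
  | nil => simp
  | cons a L ih => rw [cob_cons, cob_cons, map_sub, ih (fun L' => u (a :: L'))]

theorem cob_add (u u' : List ι → W) (L : List ι) :
    cob (fun L' => u L' + u' L') L = cob u L + cob u' L := by
  induction L generalizing u u' with
  | nil => simp
  | cons a L ih =>
    rw [cob_cons, cob_cons, cob_cons, ih (fun L' => u (a :: L')) (fun L' => u' (a :: L'))]
    abel

theorem cob_sub (u u' : List ι → W) (L : List ι) :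
    cob (fun L' => u L' - u' L') L = cob u L - cob u' L := by
  induction L generalizing u u' with
  | nil => simp
  | cons a L ih =>
    rw [cob_cons, cob_cons, cob_cons, ih (fun L' => u (a :: L')) (fun L' => u' (a :: L'))]
    abel

theorem cob_zero (L : List ι) : cob (fun _ => (0 : W)) L = 0 := by
  induction L with
  | nil => simp
  | cons a L ih => rw [cob_cons, ih, sub_zero]

theorem cob_sum {σ : Type*} (s : Finset σ) (u : σ → List ι → W) (L : List ι) :
    cob (fun L' => ∑ i ∈ s, u i L') L = ∑ i ∈ s, cob (u i) L := by
  classical
  induction s using Finset.induction_on with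
  | empty => simp [cob_zero]
  | insert i s hi ih =>
    rw [Finset.sum_insert hi, ← ih, ← cob_add]
    congr 1
    funext L'
    rw [Finset.sum_insert hi]

theorem cob_congr (u u' : List ι → W) (L : List ι)
    (h : ∀ L', L'.Sublist L → L'.length + 1 = L.length → u L' = u' L') :
    cob u L = cob u' L := by
  induction L generalizing u u' with
  | nil => simp
  | cons a L ih =>
    rw [cob_cons, cob_cons, h L (List.sublist_cons_self a L) (by simp),
      ih (fun L' => u (a :: L')) (fun L' => u' (a :: L'))
        (fun L' h1 h2 => h (a :: L') (h1.cons_cons a) (by simpa using h2))]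

theorem cob_mem (G : AddSubgroup W) (u : List ι → W) (L : List ι)
    (h : ∀ L', L'.Sublist L → L'.length + 1 = L.length → u L' ∈ G) :
    cob u L ∈ G := by
  induction L generalizing u with
  | nil => simp
  | cons a L ih =>
    rw [cob_cons]
    exact G.sub_mem (h L (List.sublist_cons_self a L) (by simp))
      (ih (fun L' => u (a :: L'))
        (fun L' h1 h2 => h (a :: L') (h1.cons_cons a) (by simpa using h2)))

theorem cob_cob (u : List ι → W) (L : List ι) : cob (cob u) L = 0 := by
  induction L generalizing u with
  | nil => simp
  | cons a L ih =>
    rw [cob_cons]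
    have h1 : (fun L' => cob u (a :: L')) = fun L' => u L' - cob (fun L'' => u (a :: L'')) L' := by
      funext L'
      rfl
    rw [h1, cob_sub, ih (fun L'' => u (a :: L'')), sub_zero, sub_self]

/-- if `u` takes one value on all lists of length one, `cob u` vanishes on lists of length two -/
theorem cob_const_two (u : List ι → W) (c : W) (h : ∀ a, u [a] = c) (L : List ι)
    (hL : L.length = 2) : cob u L = 0 := by
  match L, hL with
  | [a, b], _ => simp [cob_cons, h]

/-- more precise version of `cob_mem`, with the omitted index -/
theorem cob_mem_erase (G : AddSubgroup W) (u : List ι → W) (L : List ι)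
    (h : ∀ i, i < L.length → u (L.eraseIdx i) ∈ G) : cob u L ∈ G := by
  induction L generalizing u with
  | nil => simp
  | cons a L ih =>
    rw [cob_cons]
    refine G.sub_mem (by simpa using h 0 (by simp)) (ih (fun L' => u (a :: L')) fun i hi => ?_)
    simpa using h (i + 1) (by simpa using hi)

end VG
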