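import Pool.Agent.VG.Forms

/-!
Project VG, module TopR: normal form of regular forms and of functions with denominators.
-/

open Matrix

namespace VG

universe u v

variable {R K V : Type u} [CommRing R] [Field K] [AddCommGroup V] [Module K V] {ι : Type v}

/-- the generators of the normal form -/
private def gens (φ : R →+* K) (D : R →+ V) (y : ι → R) (T : Set ι) :
    Set (ExteriorAlgebra K V) :=
  {x : ExteriorAlgebra K V | ∃ b ∈ BT φ y T, ∃ L : List R,
      x = b • ((L.map fun q => io (D q)).prod)}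

private theorem gens_mul {φ : R →+* K} {D : R →+ V} {y : ι → R} {T : Set ι}
    {x z : ExteriorAlgebra K V} (hx : x ∈ AddSubgroup.closure (gens φ D y T))
    (hz : z ∈ AddSubgroup.closure (gens φ D y T)) :
    x * z ∈ AddSubgroup.closure (gens φ D y T) := by
  induction hx using AddSubgroup.closure_induction with
  | mem x hx =>
    obtain ⟨b, hb, L, rfl⟩ := hx
    induction hz using AddSubgroup.closure_induction with
    | mem z hz =>
      obtain ⟨b', hb', L', rfl⟩ := hz
      refine AddSubgroup.subset_closure ⟨b * b', (BT φ y T).mul_mem hb hb', L ++ L', ?_⟩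
      rw [smul_mul_smul_comm, List.map_append, List.prod_append]
    | zero =>
      rw [mul_zero]
      exact AddSubgroup.zero_mem _
    | add z z' _ _ hz hz' =>
      rw [mul_add]
      exact AddSubgroup.add_mem _ hz hz'
    | neg z _ hz =>
      rw [mul_neg]
      exact AddSubgroup.neg_mem _ hz
  | zero =>
    rw [zero_mul]
    exact AddSubgroup.zero_mem _
  | add x x' _ _ hx hx' =>
    rw [add_mul]
    exact AddSubgroup.add_mem _ hx hx'
  | neg x _ hx =>
    rw [neg_mul]
    exact AddSubgroup.neg_mem _ hx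

private theorem gens_scalar {φ : R →+* K} {D : R →+ V} {y : ι → R} {T : Set ι} {b : K}
    (hb : b ∈ BT φ y T) :
    algebraMap K (ExteriorAlgebra K V) b ∈ AddSubgroup.closure (gens φ D y T) := by
  refine AddSubgroup.subset_closure ⟨b, hb, [], ?_⟩
  rw [List.map_nil, List.prod_nil, Algebra.algebraMap_eq_smul_one]

theorem OmT_normal (φ : R →+* K) (D : R →+ V) (y : ι → R) (T : Set ι)
    (z : ExteriorAlgebra K V) (hz : z ∈ OmT φ D y T) :
    z ∈ AddSubgroup.closure {x : ExteriorAlgebra K V | ∃ b ∈ BT φ y T, ∃ L : List R,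
      x = b • ((L.map fun q => io (D q)).prod)} := by
  change z ∈ AddSubgroup.closure (gens φ D y T)
  unfold OmT at hz
  induction hz using Subring.closure_induction with
  | mem x hx =>
    rcases hx with (⟨q, rfl⟩ | ⟨t, ht, rfl⟩) | ⟨q, rfl⟩
    · exact gens_scalar (Subring.subset_closure (Or.inl ⟨q, rfl⟩))
    · exact gens_scalar (Subring.subset_closure (Or.inr ⟨t, ht, rfl⟩))
    · refine AddSubgroup.subset_closure ⟨1, (BT φ y T).one_mem, [q], ?_⟩
      rw [List.map_singleton, List.prod_singleton, one_smul]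
  | zero => exact AddSubgroup.zero_mem _
  | one =>
    have h := gens_scalar (D := D) (BT φ y T).one_mem
    rwa [map_one] at h
  | add x x' _ _ hx hx' => exact AddSubgroup.add_mem _ hx hx'
  | neg x _ hx => exact AddSubgroup.neg_mem _ hx
  | mul x x' _ _ hx hx' => exact gens_mul hx hx'

theorem BT_normal [DecidableEq ι] (φ : R →+* K) (y : ι → R) (T : Finset ι)
    (hy : ∀ t, φ (y t) ≠ 0) (b : K) (hb : b ∈ BT φ y (T : Set ι)) :
    ∃ (N : ℕ) (q : R), b * φ (∏ t ∈ T, y t) ^ N = φ q := by
  unfold BT at hb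
  induction hb using Subring.closure_induction with
  | mem x hx =>
    rcases hx with ⟨q, rfl⟩ | ⟨t, ht, rfl⟩
    · exact ⟨0, q, by rw [pow_zero, mul_one]⟩
    · refine ⟨1, ∏ s ∈ T.erase t, y s, ?_⟩
      rw [← Finset.mul_prod_erase T y (Finset.mem_coe.1 ht), map_mul, pow_one,
        inv_mul_cancel_left₀ (hy t)]
  | zero => exact ⟨0, 0, by rw [zero_mul, map_zero]⟩
  | one => exact ⟨0, 1, by rw [pow_zero, mul_one, map_one]⟩
  | add x x' _ _ hx hx' =>
    obtain ⟨N, q, h⟩ := hx
    obtain ⟨N', q', h'⟩ := hx'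
    refine ⟨N + N', q * (∏ t ∈ T, y t) ^ N' + q' * (∏ t ∈ T, y t) ^ N, ?_⟩
    rw [map_add, map_mul, map_mul, map_pow, map_pow, ← h, ← h']
    ring
  | neg x _ hx =>
    obtain ⟨N, q, h⟩ := hx
    exact ⟨N, -q, by rw [neg_mul, h, map_neg]⟩
  | mul x x' _ _ hx hx' =>
    obtain ⟨N, q, h⟩ := hx
    obtain ⟨N', q', h'⟩ := hx'
    refine ⟨N + N', q * q', ?_⟩
    rw [map_mul, ← h, ← h']
    ring

end VG
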