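import Mathlib

/-!
Project VG, module Lat: lattices over the localization of a factorial ring at a prime element.

PLAN.  `P = Ideal.span {p}` is prime, `D = Localization.AtPrime P`, a local Noetherian domain whose
maximal ideal is generated by the image of `p` (nonzero), hence a discrete valuation ring
(`IsDiscreteValuationRing.TFAE` / `IsDiscreteValuationRing.of_...`, `IsPrincipalIdealRing`).
`D → F` (`IsLocalization.lift`) is injective, its image is the set of `a / b`, `p ∤ b`, and
`IsFractionRing D F`.  Give `L` the induced `D`-module structure.  Take any `F`-basis `u j` of `L`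
and a finite generating set `g l` of `B` as a `Y`-module; let `N` be the `D`-span of the `g l * u j`.
`N` is a finite torsion free `D`-module, so it is free
(`Module.free_of_finite_type_torsion_free'`), it is stable under multiplication by `B`
(`x * g l` is a `Y`-combination of the `g l'`), and it contains the `u j` (`1 ∈ B`), so it spans
`L` over `F`.  A `D`-basis of `N` is linearly independent over `F` (clear denominators) and spans
`L`: an `F`-basis `e` of `L` with the required property (`x * e j ∈ N`).
Only `Prime p` is needed.
-/

open Matrix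

namespace VG

universe u

private theorem lat_aux {Y D F L : Type*} [CommRing Y] [IsDomain Y] [CommRing D] [IsDomain D]
    [Algebra Y D] [IsPrincipalIdealRing D] [Field F] [Algebra Y F] [Algebra D F]
    [IsFractionRing D F] [Field L] [Algebra F L] [Algebra Y L]
    [Algebra D L] [IsScalarTower D F L] [IsScalarTower Y D L]
    [FiniteDimensional F L] (B : Subalgebra Y L) (hB : (Subalgebra.toSubmodule B).FG) :
    ∃ (m : ℕ) (e : Module.Basis (Fin m) F L), ∀ x ∈ B, ∀ i j, ∃ c : D,
      Algebra.leftMulMatrix e x i j = algebraMap D F c := by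
  classical
  obtain ⟨T, hT⟩ := hB
  set n := Module.finrank F L with hn
  let u := Module.finBasis F L
  let N : Submodule D L := Submodule.span D
    (Set.range (fun q : T × Fin n => (q.1 : L) * u q.2))
  have hNfg : N.FG := Submodule.fg_span (Set.finite_range _)
  have h1 : ∀ j : Fin n, ∀ z ∈ Submodule.span Y (T : Set L), z * u j ∈ N := by
    intro j z hz
    induction hz using Submodule.span_induction with
    | mem t ht => exact Submodule.subset_span ⟨(⟨t, ht⟩, j), rfl⟩
    | zero => rw [zero_mul]; exact N.zero_mem
    | add a b _ _ ha hb => rw [add_mul]; exact N.add_mem ha hb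
    | smul r a _ ha =>
      have h : (r • a) * u j = (algebraMap Y D r) • (a * u j) := by
        rw [algebraMap_smul, smul_mul_assoc]
      rw [h]; exact N.smul_mem _ ha
  have hmemB : ∀ z, z ∈ B ↔ z ∈ Submodule.span Y (T : Set L) := by
    intro z
    rw [hT]
    exact (Subalgebra.mem_toSubmodule B).symm
  have h2 : ∀ x ∈ B, ∀ y ∈ N, x * y ∈ N := by
    intro x hx y hy
    induction hy using Submodule.span_induction with
    | mem t ht =>
      obtain ⟨⟨t', j⟩, rfl⟩ := ht
      show x * ((t' : L) * u j) ∈ N
      rw [← mul_assoc]
      refine h1 j _ ((hmemB _).1 (B.mul_mem hx ((hmemB _).2 (Submodule.subset_span t'.2))))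
    | zero => rw [mul_zero]; exact N.zero_mem
    | add a b _ _ ha hb => rw [mul_add]; exact N.add_mem ha hb
    | smul r a _ ha =>
      have h : x * (r • a) = r • (x * a) := mul_smul_comm _ _ _
      rw [h]; exact N.smul_mem _ ha
  have h3 : ∀ j, u j ∈ N := by
    intro j
    have h := h1 j 1 ((hmemB _).1 B.one_mem)
    rwa [one_mul] at h
  have : Module.Finite D N := Module.Finite.iff_fg.2 hNfg
  have : IsDomain D := inferInstance
  have hDF : FaithfulSMul D F := (faithfulSMul_iff_algebraMap_injective D F).2
    (IsFractionRing.injective D F)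
  have hDL : FaithfulSMul D L := (faithfulSMul_iff_algebraMap_injective D L).2 (by
    rw [IsScalarTower.algebraMap_eq D F L]
    exact (algebraMap F L).injective.comp (IsFractionRing.injective D F))
  have : Module.IsTorsionFree D L := inferInstance
  have : Module.IsTorsionFree D N := inferInstance
  obtain ⟨m, b⟩ := Module.basisOfFiniteTypeTorsionFree' (R := D) (M := N)
  have hli : LinearIndependent F (fun i => (b i : L)) := by
    rw [← LinearIndependent.iff_fractionRing (R := D) (K := F)]
    exact b.linearIndependent.map' N.subtype N.ker_subtype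
  have hsp : ∀ y ∈ N, y ∈ Submodule.span F (Set.range (fun i => (b i : L))) := by
    intro y hy
    have h := b.sum_repr ⟨y, hy⟩
    have h' : y = ∑ i, (b.repr ⟨y, hy⟩ i) • (b i : L) := by
      have h4 := congrArg (N.subtype) h
      rw [map_sum] at h4
      simpa using h4.symm
    rw [h']
    refine Submodule.sum_mem _ fun i _ => ?_
    rw [← algebraMap_smul F (b.repr ⟨y, hy⟩ i) (b i : L)]
    exact Submodule.smul_mem _ _ (Submodule.subset_span ⟨i, rfl⟩)
  have htop : ⊤ ≤ Submodule.span F (Set.range (fun i => (b i : L))) := by
    rw [← u.span_eq, Submodule.span_le]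
    rintro _ ⟨j, rfl⟩
    exact hsp _ (h3 j)
  refine ⟨m, Module.Basis.mk hli htop, ?_⟩
  intro x hx i j
  refine ⟨b.repr ⟨x * (b j : L), h2 x hx _ (b j).2⟩ i, ?_⟩
  rw [Algebra.leftMulMatrix_eq_repr_mul]
  rw [Module.Basis.mk_apply]
  set y : N := ⟨x * (b j : L), h2 x hx _ (b j).2⟩ with hy
  have h := b.sum_repr y
  have h' : x * (b j : L) = ∑ k, (algebraMap D F (b.repr y k)) • (b k : L) := by
    have h4 := congrArg (N.subtype) h
    rw [map_sum] at h4
    simp only [map_smul, Submodule.subtype_apply] at h4
    rw [show x * (b j : L) = (y : L) from rfl, ← h4]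
    refine Finset.sum_congr rfl fun k _ => ?_
    rw [algebraMap_smul]
  rw [h']
  have h5 : (∑ k, (algebraMap D F (b.repr y k)) • (b k : L))
      = ∑ k, (algebraMap D F (b.repr y k)) • (Module.Basis.mk hli htop) k :=
    Finset.sum_congr rfl fun k _ => by rw [Module.Basis.mk_apply]
  rw [h5, Module.Basis.repr_sum_self]

theorem lattice_basis {Y F L : Type u} [CommRing Y] [IsDomain Y] [IsNoetherianRing Y]
    [Field F] [Algebra Y F] [IsFractionRing Y F] [Field L] [Algebra F L] [Algebra Y L]
    [IsScalarTower Y F L] [FiniteDimensional F L] (p : Y) (hp : Prime p)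
    (B : Subalgebra Y L) (hB : (Subalgebra.toSubmodule B).FG) :
    ∃ (m : ℕ) (e : Module.Basis (Fin m) F L), ∀ x ∈ B, ∀ i j, ∃ a b : Y, ¬ p ∣ b ∧
      Algebra.leftMulMatrix e x i j * algebraMap Y F b = algebraMap Y F a := by
  classical
  set P : Ideal Y := Ideal.span {p} with hPdef
  have hPp : P.IsPrime := (Ideal.span_singleton_prime hp.ne_zero).2 hp
  have hle : P.primeCompl ≤ nonZeroDivisors Y := by
    intro x hx
    refine mem_nonZeroDivisors_of_ne_zero ?_
    rintro rfl
    exact hx P.zero_mem
  have hDdom : IsDomain (Localization.AtPrime P) := IsLocalization.isDomain_localization hle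
  have hDnoeth : IsNoetherianRing (Localization.AtPrime P) :=
    IsLocalization.isNoetherianRing P.primeCompl _ inferInstance
  have hpid : IsPrincipalIdealRing (Localization.AtPrime P) := by
    have h := (tfae_of_isNoetherianRing_of_isLocalRing_of_isDomain
      (Localization.AtPrime P)).out 0 4
    refine h.2 ?_
    refine ⟨⟨algebraMap Y _ p, ?_⟩⟩
    have h6 : Ideal.map (algebraMap Y (Localization.AtPrime P)) P
        = Ideal.map (algebraMap Y (Localization.AtPrime P)) (Ideal.span {p}) :=
      congrArg (Ideal.map (algebraMap Y (Localization.AtPrime P))) hPdef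
    rw [← Localization.AtPrime.map_eq_maximalIdeal, h6, Ideal.map_span, Set.image_singleton]
  letI algDF : Algebra (Localization.AtPrime P) F :=
    (IsLocalization.lift (M := P.primeCompl) (S := Localization.AtPrime P)
      (g := algebraMap Y F) (fun y => by
        have h0 : (y : Y) ≠ 0 := nonZeroDivisors.ne_zero (hle y.2)
        exact IsUnit.mk0 _ (by
          rw [Ne, IsFractionRing.to_map_eq_zero_iff]
          exact h0))).toAlgebra
  have tower : IsScalarTower Y (Localization.AtPrime P) F := by
    refine IsScalarTower.of_algebraMap_eq fun y => ?_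
    exact (IsLocalization.lift_eq _ _).symm
  have hfr : IsFractionRing (Localization.AtPrime P) F :=
    IsFractionRing.isFractionRing_of_isDomain_of_isLocalization P.primeCompl
      (Localization.AtPrime P) F
  letI algDL : Algebra (Localization.AtPrime P) L :=
    ((algebraMap F L).comp (algebraMap (Localization.AtPrime P) F)).toAlgebra
  have tower2 : IsScalarTower (Localization.AtPrime P) F L :=
    IsScalarTower.of_algebraMap_eq fun y => rfl
  have tower3 : IsScalarTower Y (Localization.AtPrime P) L := by
    refine IsScalarTower.of_algebraMap_eq fun y => ?_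
    rw [IsScalarTower.algebraMap_apply Y F L, IsScalarTower.algebraMap_apply Y
      (Localization.AtPrime P) F]
    rfl
  obtain ⟨m, e, he⟩ := lat_aux (Y := Y) (D := Localization.AtPrime P) (F := F) (L := L) B hB
  refine ⟨m, e, fun x hx i j => ?_⟩
  obtain ⟨c, hc⟩ := he x hx i j
  obtain ⟨a, s, hs⟩ := IsLocalization.exists_mk'_eq P.primeCompl c
  refine ⟨a, s, ?_, ?_⟩
  · intro hd
    exact s.2 (Ideal.mem_span_singleton.2 hd)
  · rw [hc, ← hs, IsScalarTower.algebraMap_apply Y (Localization.AtPrime P) F (s : Y),
      ← map_mul, IsLocalization.mk'_spec, ← IsScalarTower.algebraMap_apply]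

end VG
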