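import Pool.Agent.VG.TrA
import Pool.Agent.VG.Lat

/-!
Project VG, module TrInt: the trace lemma over the polynomial ring.

PLAN.  `Y = MvPolynomial (Fin d) k` is a Noetherian factorial domain.  `B = Algebra.adjoin Y
({s} ∪ range r)` is a finite `Y`-module (`fg_adjoin_of_finite`: all generators are integral).
Let `x = Tr (s * det)` in `F`.  For every prime element `p` of `Y` the set
`D_p = {z : F | ∃ a b, ¬ p ∣ b ∧ z * algebraMap b = algebraMap a}` is a subring of `F` stable under
`dF a` (quotient rule: `dF (a/b) = (da b - a db)/b^2`, `hY`), so `trace_det_mem` with the basis of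
`lattice_basis` gives `d! * x ∈ D_p`; `d!` is a unit of `k` (`CharZero`), so `x ∈ D_p`.
Now write `x = a / b` with `IsRelPrime a b` (`IsFractionRing.num`, `den` or
`IsFractionRing.exists_reduced_fraction`).  If `b` is not a unit take a prime `p ∣ b`
(`WfDvdMonoid.exists_irreducible_factor`): `x * b' = a'`, `p ∤ b'`, so `a * b' = a' * b`, `p ∣ a`,
contradiction.  So `b` is a unit and `x` comes from `Y`.
-/

open Matrix MvPolynomial

namespace VG

universe u

/-- The localization at the prime element `p` inside the field. -/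
private def locAt {Y F : Type*} [CommRing Y] [IsDomain Y] [Field F] [Algebra Y F] (p : Y)
    (hp : Prime p) : Subring F where
  carrier := {z | ∃ a b : Y, ¬ p ∣ b ∧ z * algebraMap Y F b = algebraMap Y F a}
  mul_mem' := by
    rintro z w ⟨a, b, hb, h⟩ ⟨a', b', hb', h'⟩
    refine ⟨a * a', b * b', fun h1 => (hp.dvd_or_dvd h1).elim hb hb', ?_⟩
    rw [map_mul, map_mul, ← h, ← h']
    ring
  one_mem' := ⟨1, 1, fun h => hp.not_unit (isUnit_of_dvd_one h), by rw [one_mul]⟩
  add_mem' := by
    rintro z w ⟨a, b, hb, h⟩ ⟨a', b', hb', h'⟩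
    refine ⟨a * b' + a' * b, b * b', fun h1 => (hp.dvd_or_dvd h1).elim hb hb', ?_⟩
    rw [map_add, map_mul, map_mul, map_mul, ← h, ← h']
    ring
  zero_mem' := ⟨0, 1, fun h => hp.not_unit (isUnit_of_dvd_one h), by rw [zero_mul, map_zero]⟩
  neg_mem' := by
    rintro z ⟨a, b, hb, h⟩
    exact ⟨-a, b, hb, by rw [neg_mul, h, map_neg]⟩

private theorem mem_locAt {Y F : Type*} [CommRing Y] [IsDomain Y] [Field F] [Algebra Y F] (p : Y)
    (hp : Prime p) (z : F) : z ∈ locAt (F := F) p hp ↔
      ∃ a b : Y, ¬ p ∣ b ∧ z * algebraMap Y F b = algebraMap Y F a := Iff.rfl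

theorem trace_int {k : Type u} [Field k] [CharZero k] {d : ℕ} {F L : Type u} [Field F]
    [Algebra (MvPolynomial (Fin d) k) F] [IsFractionRing (MvPolynomial (Fin d) k) F]
    [Field L] [Algebra F L] [Algebra (MvPolynomial (Fin d) k) L]
    [IsScalarTower (MvPolynomial (Fin d) k) F L] [FiniteDimensional F L]
    (dF : Fin d → Derivation ℤ F F) (dL : Fin d → Derivation ℤ L L)
    (hc : ∀ a x, dL a (algebraMap F L x) = algebraMap F L (dF a x))
    (hY : ∀ a (q : MvPolynomial (Fin d) k), dF a (algebraMap _ F q) = algebraMap _ F (pderiv a q))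
    (s : L) (r : Fin d → L) (hs : IsIntegral (MvPolynomial (Fin d) k) s)
    (hr : ∀ b, IsIntegral (MvPolynomial (Fin d) k) (r b)) :
    ∃ q : MvPolynomial (Fin d) k, algebraMap _ F q =
      Algebra.trace F L (s * Matrix.det (Matrix.of fun a b => dL a (r b))) := by
  set Y := MvPolynomial (Fin d) k with hYdef
  set x := Algebra.trace F L (s * Matrix.det (Matrix.of fun a b => dL a (r b))) with hx
  have hB : (Subalgebra.toSubmodule (Algebra.adjoin Y ({s} ∪ Set.range r))).FG := by
    refine fg_adjoin_of_finite ((Set.finite_singleton s).union (Set.finite_range r)) ?_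
    rintro y (hy | ⟨b, rfl⟩)
    · rw [Set.mem_singleton_iff] at hy
      rw [hy]
      exact hs
    · exact hr b
  have hdiv : ∀ p : Y, Prime p → ∃ a b : Y, ¬ p ∣ b ∧ x * algebraMap Y F b = algebraMap Y F a := by
    intro p hp
    obtain ⟨m, e, he⟩ := lattice_basis (F := F) p hp (Algebra.adjoin Y ({s} ∪ Set.range r)) hB
    have h1 : ∀ q : Y, algebraMap Y F q ∈ locAt (F := F) p hp := fun q =>
      ⟨q, 1, fun h => hp.not_unit (isUnit_of_dvd_one h), by rw [map_one, mul_one]⟩
    have h2 : (d.factorial : F) * x ∈ locAt (F := F) p hp := by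
      refine trace_det_mem (locAt (F := F) p hp) e dF dL hc ?_ s r ?_ ?_
      · rintro a z ⟨u, v, hv, h⟩
        refine ⟨pderiv a u * v - u * pderiv a v, v * v,
          fun h1 => (hp.dvd_or_dvd h1).elim hv hv, ?_⟩
        have h3 : dF a (z * algebraMap Y F v) = dF a (algebraMap Y F u) := by rw [h]
        rw [Derivation.leibniz, hY, hY, smul_eq_mul, smul_eq_mul] at h3
        rw [map_sub, map_mul, map_mul, map_mul, ← h3, ← h]
        ring
      · exact fun i j => he s (Algebra.subset_adjoin (Or.inl rfl)) i j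
      · exact fun b i j => he (r b) (Algebra.subset_adjoin (Or.inr ⟨b, rfl⟩)) i j
    have h3 : algebraMap Y F (C ((d.factorial : k)⁻¹)) * (d.factorial : F) = 1 := by
      have h4 : (d.factorial : F) = algebraMap Y F (C (d.factorial : k)) := by
        rw [map_natCast, map_natCast]
      rw [h4, ← map_mul, ← map_mul,
        inv_mul_cancel₀ (Nat.cast_ne_zero.2 (Nat.factorial_ne_zero d)), map_one, map_one]
    have h4 : x = algebraMap Y F (C ((d.factorial : k)⁻¹)) * ((d.factorial : F) * x) := by
      rw [← mul_assoc, h3, one_mul]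
    have h5 := (locAt (F := F) p hp).mul_mem (h1 (C ((d.factorial : k)⁻¹))) h2
    rw [← h4] at h5
    exact h5
  obtain ⟨a, b, hab, hx'⟩ := IsFractionRing.exists_reduced_fraction Y x
  have hb0 : algebraMap Y F (b : Y) ≠ 0 :=
    IsFractionRing.to_map_ne_zero_of_mem_nonZeroDivisors b.2
  have h1 : x * algebraMap Y F (b : Y) = algebraMap Y F a := by
    rw [← hx', IsLocalization.mk'_spec]
  have hbu : IsUnit (b : Y) := by
    by_contra hb
    have hb0' : (b : Y) ≠ 0 := nonZeroDivisors.ne_zero b.2
    obtain ⟨p, hp, hpb⟩ := WfDvdMonoid.exists_irreducible_factor hb hb0'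
    have hpp : Prime p := UniqueFactorizationMonoid.irreducible_iff_prime.1 hp
    obtain ⟨a', b', hb', h2⟩ := hdiv p hpp
    have h3 : a * b' = a' * (b : Y) := by
      apply IsFractionRing.injective Y F
      rw [map_mul, map_mul, ← h1, ← h2]
      ring
    have h4 : p ∣ a * b' := by
      rw [h3]
      exact hpb.mul_left a'
    have h5 : p ∣ a := (hpp.dvd_or_dvd h4).resolve_right hb'
    exact hp.not_isUnit (hab h5 hpb)
  obtain ⟨c, hc'⟩ := hbu.exists_right_inv
  refine ⟨a * c, ?_⟩
  rw [map_mul, ← h1, mul_assoc, ← map_mul, hc', map_one, mul_one]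

end VG
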