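import Pool.Agent.VG.TopF
import Pool.Agent.VG.TopR
import Pool.Agent.VG.TrInt

/-!
Project VG, module CoefR: traces of top coefficients of regular forms have controlled
denominators.

Normal form of regular forms (`OmT_normal`, `BT_normal`) and the trace lemma `trace_int`.
-/

open Matrix MvPolynomial

namespace VG

universe u

theorem coef_reg {k : Type u} [Field k] [CharZero k] {d h : ℕ} (hd : h + 1 ≤ d) {F K : Type u}
    [Field F] [Algebra (MvPolynomial (Fin d) k) F] [IsFractionRing (MvPolynomial (Fin d) k) F]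
    [Field K] [Algebra F K] [Algebra (MvPolynomial (Fin d) k) K]
    [IsScalarTower (MvPolynomial (Fin d) k) F K] [FiniteDimensional F K]
    (dF : Fin d → Derivation ℤ F F) (dK : Fin d → Derivation ℤ K K)
    (hc : ∀ a x, dK a (algebraMap F K x) = algebraMap F K (dF a x))
    (hY : ∀ a (q : MvPolynomial (Fin d) k), dF a (algebraMap _ F q) = algebraMap _ F (pderiv a q))
    {R : Type u} [CommRing R] (φ : R →+* K) (hφ : ∀ x, IsIntegral (MvPolynomial (Fin d) k) (φ x))
    (D : R →+ (Fin d → K)) (hD : ∀ x a, D x a = dK a (φ x))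
    (y : Fin (h + 1) → R)
    (hy : ∀ t, φ (y t) = algebraMap (MvPolynomial (Fin d) k) K (X (Fin.castLE hd t)))
    (T : Finset (Fin (h + 1))) (z : ExteriorAlgebra K (Fin d → K))
    (hz : z ∈ OmT φ D y (T : Set (Fin (h + 1)))) :
    ∃ (N : ℕ) (q : MvPolynomial (Fin d) k),
      Algebra.trace F K (topF K d z) *
        algebraMap (MvPolynomial (Fin d) k) F ((∏ t ∈ T, X (Fin.castLE hd t)) ^ N) =
          algebraMap (MvPolynomial (Fin d) k) F q := by
  classical
  set P : MvPolynomial (Fin d) k := ∏ t ∈ T, X (Fin.castLE hd t) with hP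
  have hinj : Function.Injective (algebraMap (MvPolynomial (Fin d) k) K) := by
    rw [IsScalarTower.algebraMap_eq (MvPolynomial (Fin d) k) F K]
    exact (algebraMap F K).injective.comp (IsFractionRing.injective (MvPolynomial (Fin d) k) F)
  have hy0 : ∀ t, φ (y t) ≠ 0 := by
    intro t
    rw [hy, ne_eq, map_eq_zero_iff _ hinj]
    exact X_ne_zero _
  have hφP : φ (∏ t ∈ T, y t) = algebraMap F K (algebraMap (MvPolynomial (Fin d) k) F P) := by
    rw [← IsScalarTower.algebraMap_apply, hP, map_prod, map_prod]
    exact Finset.prod_congr rfl fun t _ => hy t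
  refine AddSubgroup.closure_induction (p := fun z _ => ∃ (N : ℕ) (q : MvPolynomial (Fin d) k),
      Algebra.trace F K (topF K d z) * algebraMap (MvPolynomial (Fin d) k) F (P ^ N) =
          algebraMap (MvPolynomial (Fin d) k) F q) ?_ ?_ ?_ ?_ (OmT_normal φ D y (T : Set (Fin (h + 1))) z hz)
  · rintro x ⟨b, hb, L, rfl⟩
    have hL0 : (L.map fun q => (io (D q) : ExteriorAlgebra K (Fin d → K))) = (L.map fun q => D q).map fun x => io x := by
      rw [List.map_map]
      rfl
    by_cases hL : L.length = d
    · obtain ⟨N, q, hNq⟩ := BT_normal φ y T hy0 b hb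
      let r : Fin d → R := fun i => L.get (Fin.cast hL.symm i)
      have h1 : (L.map fun q => (io (D q) : ExteriorAlgebra K (Fin d → K))) = List.ofFn fun i : Fin d => io (D (r i)) := by
        apply List.ext_getElem
        · rw [List.length_map, List.length_ofFn, hL]
        · intro i h2 h3
          rw [List.getElem_map, List.getElem_ofFn]
          rfl
      obtain ⟨q', hq'⟩ := trace_int dF dK hc hY (φ q) (fun b => φ (r b)) (hφ q) (fun b => hφ _)
      have h2 : topF K d (L.map fun q => (io (D q) : ExteriorAlgebra K (Fin d → K))).prod =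
          Matrix.det (Matrix.of fun a b => dK a (φ (r b))) := by
        rw [h1, topF_ofFn, ← Matrix.det_transpose]
        congr 1
        ext a i
        exact hD (r i) a
      refine ⟨N, q', ?_⟩
      rw [hq', map_smul, h2, smul_eq_mul]
      have h3 : φ q * Matrix.det (Matrix.of fun a b => dK a (φ (r b))) =
          (algebraMap (MvPolynomial (Fin d) k) F (P ^ N)) •
            (b * Matrix.det (Matrix.of fun a b => dK a (φ (r b)))) := by
        rw [← hNq, Algebra.smul_def, map_pow, map_pow, hφP]
        ring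
      rw [h3, map_smul, smul_eq_mul, mul_comm]
    · refine ⟨0, 0, ?_⟩
      rw [map_smul, hL0, topF_prod_ne, smul_zero, map_zero, zero_mul, map_zero]
      rw [List.length_map]
      exact hL
  · refine ⟨0, 0, ?_⟩
    rw [map_zero, map_zero, zero_mul, map_zero]
  · rintro x x' - - ⟨N, q, h1⟩ ⟨N', q', h2⟩
    refine ⟨N + N', q * P ^ N' + q' * P ^ N, ?_⟩
    rw [map_add, map_add, pow_add, map_mul, map_add, map_mul, map_mul, ← h1, ← h2]
    ring
  · rintro x - ⟨N, q, h1⟩
    refine ⟨N, -q, ?_⟩
    rw [map_neg, map_neg, map_neg, ← h1, neg_mul]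

end VG
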