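import Pool.Agent.VG.TopF

/-!
Project VG, module ContA: multiplication by the forms in the remaining variables.

PLAN.  `basis_top`: for a list `l` of elements of `Fin d` which is a permutation of
`List.finRange d`, `topF ((l.map fun j => io (Pi.single j 1)).prod) = 1` or `-1` (swap adjacent
elements: `io_mul_comm`; or `List.Perm` induction; or `topF_ofFn` and `Matrix.det_permutation`).
`om_mu`: `mu lam L = (∏ t, c t) • ((L.map castLE).map (io (Pi.single · 1))).prod`,
`L = List.finRange (h + 1)`, and `omL d h ++ L.map (Fin.castLE hd)` is a permutation of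
`List.finRange d`.
`om_iE`: first `iE_prod`: for a list `l` of vectors and all `z`, by induction on `l` (`iE_io_mul`):
`iE ((l.map io).prod * z) = (iE ((l.map io).prod)) * z + (-1)^(length l) * (l.map io).prod * iE z`,
and `iE ((l.map io).prod)` is a signed sum over the positions of `l` of `ε (l i)` times the product
without the `i`-th element.  With `topF_iE`.
-/

open Matrix

namespace VG

universe u

variable (d h : ℕ)

/-- the indices `j > h` -/
def omL : List (Fin d) := (List.finRange d).filter fun j => decide (h < j.val)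

variable (K : Type u) [Field K]

/-- product of basis one-forms -/
noncomputable def bf (l : List (Fin d)) : ExteriorAlgebra K (Fin d → K) :=
  (l.map fun j => io (Pi.single j (1 : K))).prod

variable {d h K}

private theorem bf_nil : bf d K [] = 1 := rfl

private theorem bf_cons (a : Fin d) (l : List (Fin d)) :
    bf d K (a :: l) = io (Pi.single a (1 : K)) * bf d K l := by
  simp [bf]

private theorem bf_append (l l' : List (Fin d)) :
    bf d K (l ++ l') = bf d K l * bf d K l' := by
  simp [bf]

private theorem bf_perm {l l' : List (Fin d)} (hl : l.Perm l') :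
    bf d K l = bf d K l' ∨ bf d K l = - bf d K l' := by
  induction hl with
  | nil => exact Or.inl rfl
  | cons x _ ih =>
    rw [bf_cons, bf_cons]
    rcases ih with ih | ih
    · left; rw [ih]
    · right; rw [ih, mul_neg]
  | swap x y l =>
    right
    rw [bf_cons, bf_cons, bf_cons, bf_cons, ← mul_assoc, ← mul_assoc, io_mul_comm, neg_mul]
  | trans _ _ ih1 ih2 =>
    rcases ih1 with ih1 | ih1 <;> rcases ih2 with ih2 | ih2 <;> rw [ih1, ih2]
    · exact Or.inl rfl
    · exact Or.inr rfl
    · exact Or.inr rfl
    · left; rw [neg_neg]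

private theorem top_finRange : topF K d (bf d K (List.finRange d)) = 1 := by
  have h1 : bf d K (List.finRange d) =
      (List.ofFn fun i : Fin d => io (K := K) (Pi.single i (1 : K) : Fin d → K)).prod := by
    rw [bf, List.ofFn_eq_map]
  rw [h1, topF_ofFn]
  have h2 : (Matrix.of fun i : Fin d => (Pi.single i (1 : K) : Fin d → K)) = 1 := by
    ext i j
    rw [Matrix.of_apply, Matrix.one_apply, Pi.single_apply]
    by_cases hij : i = j
    · simp [hij]
    · rw [if_neg hij, if_neg (fun h => hij h.symm)]
  rw [h2, Matrix.det_one]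

private theorem mu_eq (hd : h + 1 ≤ d) (lam : Fin (h + 1) → (Fin d → K)) (c : Fin (h + 1) → K)
    (hlam : ∀ t, lam t = c t • Pi.single (Fin.castLE hd t) 1) (L : List (Fin (h + 1))) :
    mu lam L = (L.map c).prod • bf d K (L.map (Fin.castLE hd)) := by
  induction L with
  | nil => simp [mu, bf]
  | cons a L ih =>
    rw [mu, ih, hlam a, List.map_cons, List.map_cons, bf_cons, List.prod_cons, map_smul,
      smul_mul_smul_comm]

private theorem om_perm (hd : h + 1 ≤ d) :
    (omL d h ++ (List.finRange (h + 1)).map (Fin.castLE hd)).Perm (List.finRange d) := by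
  have hn : (omL d h ++ (List.finRange (h + 1)).map (Fin.castLE hd)).Nodup := by
    rw [List.nodup_append]
    refine ⟨(List.nodup_finRange d).filter _,
      (List.nodup_finRange (h + 1)).map (Fin.castLE_injective hd), ?_⟩
    intro a ha b hb hab
    subst hab
    rw [omL, List.mem_filter] at ha
    have h1 := of_decide_eq_true ha.2
    rw [List.mem_map] at hb
    obtain ⟨t, -, ht⟩ := hb
    have h2 : a.val = t.val := by rw [← ht]; rfl
    have h3 := t.2
    omega
  rw [List.perm_ext_iff_of_nodup hn (List.nodup_finRange d)]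
  intro a
  refine ⟨fun _ => List.mem_finRange a, fun _ => ?_⟩
  rw [List.mem_append]
  by_cases ha : h < a.val
  · left
    rw [omL, List.mem_filter]
    exact ⟨List.mem_finRange a, by simpa using ha⟩
  · right
    rw [List.mem_map]
    exact ⟨⟨a.val, by omega⟩, List.mem_finRange _, by ext; rfl⟩

private theorem iE_bf (ε : (Fin d → K) →ₗ[K] K) (z : ExteriorAlgebra K (Fin d → K))
    (l : List (Fin d)) (hl : l.Nodup) :
    ∃ sg : Fin d → ℤ, iE ε (bf d K l * z) =
      (∑ j ∈ l.toFinset, (((sg j : ℤ) : K) * ε (Pi.single j 1)) • (bf d K (l.erase j) * z)) +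
      ((-1 : K) ^ l.length) • (bf d K l * iE ε z) := by
  induction l with
  | nil => exact ⟨fun _ => 0, by simp [bf_nil]⟩
  | cons a l ih =>
    rw [List.nodup_cons] at hl
    obtain ⟨sg, hsg⟩ := ih hl.2
    refine ⟨fun j => if j = a then 1 else - sg j, ?_⟩
    have ha : a ∉ l.toFinset := by simpa using hl.1
    rw [bf_cons, mul_assoc, iE_io_mul, hsg, List.toFinset_cons, Finset.sum_insert ha,
      List.erase_cons_head]
    beta_reduce
    rw [if_pos rfl, Int.cast_one, one_mul, List.length_cons, pow_succ,
      mul_add, Finset.mul_sum, mul_smul_comm, mul_assoc]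
    have h1 : ∑ j ∈ l.toFinset, (((if j = a then (1 : ℤ) else - sg j : ℤ) : K) *
        ε (Pi.single j 1)) • (bf d K ((a :: l).erase j) * z) =
        - ∑ j ∈ l.toFinset, io (Pi.single a (1 : K)) *
          (((sg j : ℤ) : K) * ε (Pi.single j 1)) • (bf d K (l.erase j) * z) := by
      rw [← Finset.sum_neg_distrib]
      refine Finset.sum_congr rfl fun j hj => ?_
      have hja : j ≠ a := fun h => ha (h ▸ hj)
      rw [if_neg hja, List.erase_cons_tail (by simpa using fun h => hja h.symm), bf_cons,
        mul_smul_comm, mul_assoc, Int.cast_neg, neg_mul, neg_smul]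
    rw [h1]
    simp only [mul_smul_comm, mul_neg_one, neg_smul, mul_neg, mul_one]
    abel

theorem om_mu (hd : h + 1 ≤ d) (lam : Fin (h + 1) → (Fin d → K)) (c : Fin (h + 1) → K)
    (hlam : ∀ t, lam t = c t • Pi.single (Fin.castLE hd t) 1) :
    topF K d (bf d K (omL d h) * mu lam (List.finRange (h + 1))) = ∏ t, c t ∨
      topF K d (bf d K (omL d h) * mu lam (List.finRange (h + 1))) = - ∏ t, c t := by
  have h1 : ((List.finRange (h + 1)).map c).prod = ∏ t, c t := by
    rw [← List.ofFn_eq_map, List.prod_ofFn]
  rw [mu_eq hd lam c hlam, h1, mul_smul_comm, ← bf_append, map_smul, smul_eq_mul]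
  rcases bf_perm (K := K) (om_perm hd) with h2 | h2
  · left; rw [h2, top_finRange, mul_one]
  · right; rw [h2, map_neg, top_finRange, mul_neg, mul_one]

theorem om_iE (ε : (Fin d → K) →ₗ[K] K) (z : ExteriorAlgebra K (Fin d → K)) :
    ∃ sg : Fin d → ℤ, topF K d (bf d K (omL d h) * iE ε z) =
      ∑ j ∈ Finset.univ.filter (fun j : Fin d => h < j.val),
        ((sg j : ℤ) : K) * ε (Pi.single j 1) * topF K d (bf d K ((omL d h).erase j) * z) := by
  obtain ⟨sg, hsg⟩ := iE_bf ε z (omL d h) ((List.nodup_finRange d).filter _)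
  have h1 := congrArg (topF K d) hsg
  rw [topF_iE, map_add, map_sum, map_smul, smul_eq_mul] at h1
  have hF : (omL d h).toFinset = Finset.univ.filter (fun j : Fin d => h < j.val) := by
    ext j
    simp [omL]
  rw [hF] at h1
  have h2 : ((-1 : K) ^ (omL d h).length) * ((-1 : K) ^ (omL d h).length) = 1 := by
    rw [← mul_pow]; simp
  refine ⟨fun j => - (-1) ^ (omL d h).length * sg j, ?_⟩
  have h3 : topF K d (bf d K (omL d h) * iE ε z) =
      - ((-1 : K) ^ (omL d h).length) * ∑ j ∈ Finset.univ.filter (fun j : Fin d => h < j.val),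
        topF K d ((((sg j : ℤ) : K) * ε (Pi.single j 1)) • (bf d K ((omL d h).erase j) * z)) := by
    have h4 := eq_neg_of_add_eq_zero_left h1.symm
    rw [h4, neg_mul_neg, ← mul_assoc, h2, one_mul]
  rw [h3, Finset.mul_sum]
  refine Finset.sum_congr rfl fun j _ => ?_
  rw [map_smul, smul_eq_mul]
  push_cast
  ring

end VG
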