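import Mathlib

/-!
Project VG, module PolyF: the final polynomial contradiction.
-/

open MvPolynomial

namespace VG

universe u

theorem poly_contra {k : Type u} [Field k] {d : ℕ} (h N : ℕ) (c : k) (hc : c ≠ 0)
    (f : Fin d → MvPolynomial (Fin d) k)
    (heq : C c * ∏ a : Fin d, (if a.val ≤ h then X a ^ N else 1) =
      ∑ a : Fin d, (if a.val ≤ h then X a ^ (N + 1) else X a) * f a) : False := by
  classical
  let m : Fin d →₀ ℕ := Finsupp.equivFunOnFinite.symm fun a => if a.val ≤ h then N else 0
  have hm : ∀ a, m a = if a.val ≤ h then N else 0 := fun a => rfl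
  have hL : C c * ∏ a : Fin d, (if a.val ≤ h then X a ^ N else 1) =
      (monomial m c : MvPolynomial (Fin d) k) := by
    rw [MvPolynomial.monomial_eq, Finsupp.prod_fintype _ _ fun a => pow_zero _]
    congr 1
    refine Finset.prod_congr rfl fun a _ => ?_
    rw [hm]
    by_cases ha : a.val ≤ h
    · rw [if_pos ha, if_pos ha]
    · rw [if_neg ha, if_neg ha, pow_zero]
  have h1 := congrArg (coeff m) heq
  rw [hL, coeff_monomial, if_pos rfl, coeff_sum] at h1
  apply hc
  rw [h1]
  refine Finset.sum_eq_zero fun a _ => ?_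
  by_cases ha : a.val ≤ h
  · rw [if_pos ha, X_pow_eq_monomial, coeff_monomial_mul', if_neg]
    intro hle
    have h2 := hle a
    rw [Finsupp.single_eq_same, hm, if_pos ha] at h2
    omega
  · rw [if_neg ha, X, coeff_monomial_mul', if_neg]
    intro hle
    have h2 := hle a
    rw [Finsupp.single_eq_same, hm, if_neg ha] at h2
    omega

end VG
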