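import Pool.Agent.VG.CoefR
import Pool.Agent.VG.PolyF
import Pool.Agent.VG.ContA

/-!
Project VG, module Contra: the final contradiction.

PLAN.  `L = List.finRange (h + 1)`, `om = bf d K (omL d h)`.  `Pi.single j 1 = D (Y j)` (`hYY`, `hD`,
`hc`, `hY`: `dK a (algebraMap (X j)) = algebraMap (pderiv a (X j))`), so `bf d K l` lies in every `OmT`.
Multiply `hid` on the left by `om` and apply `topF`:
(1) `topF (om * mu lam L) = ± ∏ t, algebraMap (C (β' t)) * (φ (Y (castLE t)))⁻¹` (`om_mu`); it is the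
image of `± ∏ β' t / ∏ X t` in `F`, so its trace is `[K : F]` times that.
(2) `topF (om * iE ε z)`, `z = g L`: `om_iE`: a sum over `j > h` of
`± algebraMap (C (β j) * X j) * topF (bf (omL.erase j) * z)`, and `bf _ * z ∈ OmT univ`; by `coef_reg`
(`T = univ`) the trace of `topF (bf _ * z)` is `q_j / (∏ t, X t)^N`.
(3) `topF (om * cob g L)`: `cob_mem_erase` for the additive subgroup of all `z` with
`Tr (topF (om * z)) ∈ Bad`; `g (L.eraseIdx i) ∈ OmT (univ.erase i)` (`hg`; `i` does not occur in
`L.eraseIdx i`, `List.nodup_finRange`); traces are `q / (∏_{t ≠ i} X t)^N`.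
(4) Let `Bad ⊂ F` be the set of `x` with `x * (∏_{t} X t)^(M+1) = ∑_{i ≤ h} X_i^(M+1) q_i +
∑_{j > h} X_j q_j` (images of polynomials, `X t` stands for `X (castLE t)`) for some `M`; it is an
additive subgroup (multiply by a power of `∏ X t` to get a common `M`), it contains the traces in
(2) (`X_j q / (∏ X)^N`) and (3) (`q / (∏_{t ≠ i} X t)^N = X_i^N q / (∏ X)^N`, multiply by one more
`∏ X`).
So `± [K : F] ∏ β' t / ∏ X t ∈ Bad`: `c * (∏ X t)^M = ∑_{i ≤ h} X_i^(M+1) q_i + ∑_{j > h} X_j q_j` in
`Y`, `c ≠ 0` (`CharZero`, `Module.finrank_pos`), contradiction to `poly_contra`.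
-/

open Matrix MvPolynomial

namespace VG

universe u

private noncomputable def Dg {k : Type u} [Field k] (d h : ℕ) (M : ℕ) (a : Fin d) :
    MvPolynomial (Fin d) k :=
  if a.val ≤ h then X a ^ (M + 1) else X a

private noncomputable def IM (k : Type u) [Field k] (d h : ℕ) (M : ℕ) :
    Ideal (MvPolynomial (Fin d) k) :=
  Ideal.span (Set.range (Dg (k := k) d h M))

private noncomputable def PP (k : Type u) [Field k] {d h : ℕ} (hd : h + 1 ≤ d) :
    MvPolynomial (Fin d) k :=
  ∏ t : Fin (h + 1), X (Fin.castLE hd t)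

private theorem PP_split (k : Type u) [Field k] {d h : ℕ} (hd : h + 1 ≤ d) (i : Fin (h + 1)) :
    PP k hd = X (Fin.castLE hd i) * ∏ t ∈ Finset.univ.erase i, X (Fin.castLE hd t) := by
  unfold PP
  exact (Finset.mul_prod_erase Finset.univ
    (fun t => (X (Fin.castLE hd t) : MvPolynomial (Fin d) k)) (Finset.mem_univ i)).symm

private theorem IM_raise (k : Type u) [Field k] {d h : ℕ} (hd : h + 1 ≤ d) (M j : ℕ)
    (p : MvPolynomial (Fin d) k) (hp : p ∈ IM k d h M) :
    p * PP k hd ^ j ∈ IM k d h (M + j) := by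
  unfold IM at hp
  refine Submodule.span_induction ?_ ?_ ?_ ?_ hp
  · rintro _ ⟨a, rfl⟩
    by_cases ha : a.val ≤ h
    · have e1 : Dg (k := k) d h M a = X a ^ (M + 1) := by simp [Dg, ha]
      have e2 : Dg (k := k) d h (M + j) a = X a ^ (M + j + 1) := by simp [Dg, ha]
      have e3 := PP_split k hd (⟨a.val, by omega⟩ : Fin (h + 1))
      have e4 : Fin.castLE hd (⟨a.val, by omega⟩ : Fin (h + 1)) = a := by
        apply Fin.ext; rfl
      rw [e4] at e3
      have e5 : Dg (k := k) d h M a * PP k hd ^ j =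
          (∏ t ∈ Finset.univ.erase (⟨a.val, by omega⟩ : Fin (h + 1)),
            X (Fin.castLE hd t)) ^ j * Dg (k := k) d h (M + j) a := by
        rw [e1, e2, e3, mul_pow]
        ring
      rw [e5]
      exact Ideal.mul_mem_left _ _ (Ideal.subset_span ⟨a, rfl⟩)
    · have e1 : Dg (k := k) d h M a = Dg (k := k) d h (M + j) a := by simp [Dg, ha]
      rw [e1]
      exact Ideal.mul_mem_right _ _ (Ideal.subset_span ⟨a, rfl⟩)
  · rw [zero_mul]
    exact Ideal.zero_mem _
  · intro x y _ _ hx hy
    rw [add_mul]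
    exact Ideal.add_mem _ hx hy
  · intro a x _ hx
    rw [smul_eq_mul, mul_assoc]
    exact Ideal.mul_mem_left _ _ hx

private theorem PP_pow (k : Type u) [Field k] {d h : ℕ} (hd : h + 1 ≤ d) (N : ℕ) :
    PP k hd ^ N = ∏ a : Fin d, (if a.val ≤ h then (X a ^ N : MvPolynomial (Fin d) k) else 1) := by
  classical
  unfold PP
  rw [← Finset.prod_pow, ← Finset.prod_filter]
  symm
  refine Finset.prod_bij' (fun a _ => (⟨min a.val h, by omega⟩ : Fin (h + 1)))
    (fun t _ => Fin.castLE hd t) ?_ ?_ ?_ ?_ ?_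
  · intro a _
    exact Finset.mem_univ _
  · intro t _
    rw [Finset.mem_filter]
    refine ⟨Finset.mem_univ _, ?_⟩
    have := t.isLt
    simp only [Fin.val_castLE]
    omega
  · intro a ha
    rw [Finset.mem_filter] at ha
    apply Fin.ext
    simp only [Fin.val_castLE]
    omega
  · intro t _
    have := t.isLt
    apply Fin.ext
    simp only [Fin.val_castLE]
    omega
  · intro a ha
    rw [Finset.mem_filter] at ha
    have e : Fin.castLE hd (⟨min a.val h, by omega⟩ : Fin (h + 1)) = a := by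
      apply Fin.ext
      simp only [Fin.val_castLE]
      omega
    rw [e]

/-- the additive subgroup of bad elements -/
private noncomputable def Bad (k : Type u) [Field k] {d h : ℕ} (hd : h + 1 ≤ d) (F : Type u)
    [Field F] [Algebra (MvPolynomial (Fin d) k) F] : AddSubgroup F where
  carrier := {x | ∃ M : ℕ, ∃ p ∈ IM k d h M,
    x * algebraMap (MvPolynomial (Fin d) k) F (PP k hd ^ (M + 1)) = algebraMap _ F p}
  zero_mem' := ⟨0, 0, Ideal.zero_mem _, by simp⟩
  neg_mem' := by
    rintro x ⟨M, p, hp, hx⟩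
    exact ⟨M, -p, Submodule.neg_mem _ hp, by rw [neg_mul, hx, map_neg]⟩
  add_mem' := by
    rintro x y ⟨M, p, hp, hx⟩ ⟨N, q, hq, hy⟩
    refine ⟨M + N, p * PP k hd ^ N + q * PP k hd ^ M, Ideal.add_mem _ (IM_raise k hd M N p hp) ?_,
      ?_⟩
    · rw [add_comm M N]
      exact IM_raise k hd N M q hq
    · have e1 : PP k hd ^ (M + N + 1) = PP k hd ^ (M + 1) * PP k hd ^ N := by ring
      have e2 : PP k hd ^ (M + N + 1) = PP k hd ^ (N + 1) * PP k hd ^ M := by ring
      have e3 : x * algebraMap (MvPolynomial (Fin d) k) F (PP k hd ^ (M + N + 1)) =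
          algebraMap _ F (p * PP k hd ^ N) := by
        rw [e1, map_mul, map_mul, ← mul_assoc, hx]
      have e4 : y * algebraMap (MvPolynomial (Fin d) k) F (PP k hd ^ (M + N + 1)) =
          algebraMap _ F (q * PP k hd ^ M) := by
        rw [e2, map_mul, map_mul, ← mul_assoc, hy]
      rw [add_mul, map_add, e3, e4]

theorem final_contra {k : Type u} [Field k] [CharZero k] {d h : ℕ} (hd : h + 1 ≤ d) {F K : Type u}
    [Field F] [Algebra (MvPolynomial (Fin d) k) F] [IsFractionRing (MvPolynomial (Fin d) k) F]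
    [Field K] [Algebra F K] [Algebra (MvPolynomial (Fin d) k) K]
    [IsScalarTower (MvPolynomial (Fin d) k) F K] [FiniteDimensional F K]
    (dF : Fin d → Derivation ℤ F F) (dK : Fin d → Derivation ℤ K K)
    (hc : ∀ a x, dK a (algebraMap F K x) = algebraMap F K (dF a x))
    (hY : ∀ a (q : MvPolynomial (Fin d) k), dF a (algebraMap _ F q) = algebraMap _ F (pderiv a q))
    {R : Type u} [CommRing R] (φ : R →+* K) (hφ : ∀ x, IsIntegral (MvPolynomial (Fin d) k) (φ x))
    (D : R →+ (Fin d → K)) (hD : ∀ x a, D x a = dK a (φ x))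
    (Y : Fin d → R) (hYY : ∀ t, φ (Y t) = algebraMap (MvPolynomial (Fin d) k) K (X t))
    (ε : (Fin d → K) →ₗ[K] K) (β : Fin d → k)
    (hε : ∀ t, ε (Pi.single t 1) = algebraMap (MvPolynomial (Fin d) k) K (C (β t) * X t))
    (lam : Fin (h + 1) → (Fin d → K)) (β' : Fin (h + 1) → k) (hβ' : ∀ t, β' t ≠ 0)
    (hlam : ∀ t, lam t = (algebraMap (MvPolynomial (Fin d) k) K (C (β' t)) *
      (φ (Y (Fin.castLE hd t)))⁻¹) • Pi.single (Fin.castLE hd t) 1)
    (g : List (Fin (h + 1)) → ExteriorAlgebra K (Fin d → K))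
    (hg : ∀ (T : Finset (Fin (h + 1))) (L : List (Fin (h + 1))), (∀ t ∈ L, t ∈ T) →
      g L ∈ OmT φ D (fun t => Y (Fin.castLE hd t)) (T : Set (Fin (h + 1))))
    (hid : (-1) ^ (h + 1) * mu lam (List.finRange (h + 1)) =
      iE ε (g (List.finRange (h + 1))) - cob g (List.finRange (h + 1))) : False := by
  classical
  have inj : Function.Injective (algebraMap (MvPolynomial (Fin d) k) F) :=
    IsFractionRing.injective (MvPolynomial (Fin d) k) F
  set aF : MvPolynomial (Fin d) k →+* F := algebraMap (MvPolynomial (Fin d) k) F with haF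
  set aK : MvPolynomial (Fin d) k →+* K := algebraMap (MvPolynomial (Fin d) k) K with haK
  have tow : ∀ q, aK q = algebraMap F K (aF q) := fun q =>
    IsScalarTower.algebraMap_apply (MvPolynomial (Fin d) k) F K q
  set y : Fin (h + 1) → R := fun t => Y (Fin.castLE hd t) with hy
  have hy' : ∀ t, φ (y t) = algebraMap (MvPolynomial (Fin d) k) K (X (Fin.castLE hd t)) :=
    fun t => hYY _
  -- D (Y j) is the basis vector
  have hDY : ∀ j, D (Y j) = Pi.single j (1 : K) := by
    intro j
    funext a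
    rw [hD, hYY]
    have e1 : algebraMap (MvPolynomial (Fin d) k) K (X j) = algebraMap F K (aF (X j)) := tow _
    rw [e1, hc, haF, hY, pderiv_X]
    by_cases haj : a = j
    · subst haj
      simp
    · rw [Pi.single_eq_of_ne haj, Pi.single_eq_of_ne (Ne.symm haj)]
      simp
  have hbf : ∀ (l : List (Fin d)) (T : Set (Fin (h + 1))), bf d K l ∈ OmT φ D y T := by
    intro l T
    unfold bf
    refine Subring.list_prod_mem _ ?_
    intro x hx
    rw [List.mem_map] at hx
    obtain ⟨j, _, rfl⟩ := hx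
    rw [← hDY j]
    exact Subring.subset_closure (Or.inr ⟨Y j, rfl⟩)
  have hP0 : PP k hd ≠ 0 := by
    unfold PP
    exact Finset.prod_ne_zero_iff.mpr fun t _ => X_ne_zero _
  have hPF : aF (PP k hd) ≠ 0 := fun h0 => hP0 (inj (h0.trans (map_zero aF).symm))
  set L : List (Fin (h + 1)) := List.finRange (h + 1) with hL
  set om : ExteriorAlgebra K (Fin d → K) := bf d K (omL d h) with hom
  -- additive map
  let Tt : ExteriorAlgebra K (Fin d → K) →+ F :=
    { toFun := fun z => Algebra.trace F K (topF K d (om * z))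
      map_zero' := by simp
      map_add' := by
        intro a b
        rw [mul_add, map_add, map_add] }
  have hTt : ∀ z, Tt z = Algebra.trace F K (topF K d (om * z)) := fun z => rfl
  -- (3)
  have h3 : Tt (cob g L) ∈ Bad k hd F := by
    have := cob_mem_erase ((Bad k hd F).comap Tt) g L ?_
    · exact this
    intro i hi
    rw [AddSubgroup.mem_comap, hTt]
    have hi' : i < h + 1 := by simpa [hL] using hi
    have hmem : om * g (L.eraseIdx i) ∈ OmT φ D y
        (((Finset.univ.erase (⟨i, hi'⟩ : Fin (h + 1)) : Finset (Fin (h + 1)))) :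
          Set (Fin (h + 1))) := by
      refine Subring.mul_mem _ (hbf _ _) (hg _ _ ?_)
      intro t ht
      rw [Finset.mem_erase]
      refine ⟨?_, Finset.mem_univ _⟩
      rintro rfl
      rw [List.mem_eraseIdx_iff_getElem] at ht
      obtain ⟨j, hj, hij, hjj⟩ := ht
      have : j = i := by
        have h5 := congrArg Fin.val hjj
        simpa [hL] using h5
      omega
    obtain ⟨N, q, hq⟩ := coef_reg hd dF dK hc hY φ hφ D hD y hy' _ _ hmem
    refine ⟨N, q * X (Fin.castLE hd ⟨i, hi'⟩) ^ N * PP k hd, ?_, ?_⟩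
    · have e1 : Dg (k := k) d h N (Fin.castLE hd ⟨i, hi'⟩) =
          X (Fin.castLE hd ⟨i, hi'⟩) ^ (N + 1) := by
        simp [Dg, Nat.lt_succ_iff.mp hi']
      have e2 : q * X (Fin.castLE hd ⟨i, hi'⟩) ^ N * PP k hd =
          (q * ∏ t ∈ Finset.univ.erase (⟨i, hi'⟩ : Fin (h + 1)), X (Fin.castLE hd t)) *
            Dg (k := k) d h N (Fin.castLE hd ⟨i, hi'⟩) := by
        rw [e1, PP_split k hd ⟨i, hi'⟩]
        ring
      rw [e2]
      exact Ideal.mul_mem_left _ _ (Ideal.subset_span ⟨_, rfl⟩)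
    · have e3 : PP k hd ^ (N + 1) =
          (∏ t ∈ Finset.univ.erase (⟨i, hi'⟩ : Fin (h + 1)), X (Fin.castLE hd t)) ^ N *
            (X (Fin.castLE hd ⟨i, hi'⟩) ^ N * PP k hd) := by
        rw [pow_succ, PP_split k hd ⟨i, hi'⟩]
        ring
      have e4 : algebraMap (MvPolynomial (Fin d) k) F (PP k hd ^ (N + 1)) =
          algebraMap (MvPolynomial (Fin d) k) F
            ((∏ t ∈ Finset.univ.erase (⟨i, hi'⟩ : Fin (h + 1)), X (Fin.castLE hd t)) ^ N) *
          algebraMap (MvPolynomial (Fin d) k) F (X (Fin.castLE hd ⟨i, hi'⟩) ^ N * PP k hd) := by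
        rw [e3, map_mul]
      rw [e4, ← mul_assoc, hq, ← map_mul, mul_assoc]
  -- (2)
  have h2 : Tt (iE ε (g L)) ∈ Bad k hd F := by
    rw [hTt]
    obtain ⟨sg, hsg⟩ := om_iE (h := h) (K := K) ε (g L)
    rw [hom, hsg, map_sum]
    refine AddSubgroup.sum_mem _ ?_
    intro j hj
    rw [Finset.mem_filter] at hj
    have hj' := hj.2
    have hmem : bf d K ((omL d h).erase j) * g L ∈ OmT φ D y
        ((Finset.univ : Finset (Fin (h + 1))) : Set (Fin (h + 1))) :=
      Subring.mul_mem _ (hbf _ _) (hg _ _ fun t _ => Finset.mem_univ t)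
    obtain ⟨N, q, hq⟩ := coef_reg hd dF dK hc hY φ hφ D hD y hy' _ _ hmem
    have e0 : Algebra.trace F K (((sg j : ℤ) : K) * ε (Pi.single j 1) *
        topF K d (bf d K ((omL d h).erase j) * g L)) =
        aF (C ((sg j : ℤ) : k) * C (β j) * X j) *
          Algebra.trace F K (topF K d (bf d K ((omL d h).erase j) * g L)) := by
      have e1 : ((sg j : ℤ) : K) * ε (Pi.single j 1) = algebraMap F K
          (aF (C ((sg j : ℤ) : k) * C (β j) * X j)) := by
        rw [hε, ← tow, haK, mul_assoc, map_mul]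
        congr 1
        simp
      rw [e1, ← Algebra.smul_def, map_smul, smul_eq_mul]
    rw [e0]
    refine ⟨N, (C ((sg j : ℤ) : k) * C (β j) * q * PP k hd) * X j, ?_, ?_⟩
    · have e1 : Dg (k := k) d h N j = X j := by
        have : ¬ (j.val ≤ h) := by omega
        simp [Dg, this]
      rw [← e1]
      exact Ideal.mul_mem_left _ _ (Ideal.subset_span ⟨_, rfl⟩)
    · have e2 : (∏ t ∈ (Finset.univ : Finset (Fin (h + 1))),
          (X (Fin.castLE hd t) : MvPolynomial (Fin d) k)) = PP k hd := rfl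
      rw [e2] at hq
      have e5 : algebraMap (MvPolynomial (Fin d) k) F (PP k hd ^ (N + 1)) =
          aF (PP k hd ^ N) * aF (PP k hd) := by
        rw [haF, pow_succ, map_mul]
      rw [e5]
      calc aF (C ((sg j : ℤ) : k) * C (β j) * X j) *
            Algebra.trace F K (topF K d (bf d K ((omL d h).erase j) * g L)) *
            (aF (PP k hd ^ N) * aF (PP k hd))
          = aF (C ((sg j : ℤ) : k) * C (β j) * X j) *
            (Algebra.trace F K (topF K d (bf d K ((omL d h).erase j) * g L)) *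
              aF (PP k hd ^ N)) * aF (PP k hd) := by ring
        _ = aF (C ((sg j : ℤ) : k) * C (β j) * X j) * aF q * aF (PP k hd) := by
            rw [haF, hq]
        _ = aF (C ((sg j : ℤ) : k) * C (β j) * q * PP k hd * X j) := by
            rw [← map_mul, ← map_mul]
            congr 1
            ring
  -- combine
  have h4 : Tt ((-1) ^ (h + 1) * mu lam L) ∈ Bad k hd F := by
    rw [hid, map_sub]
    exact AddSubgroup.sub_mem _ h2 h3
  have h5 : Tt (mu lam L) ∈ Bad k hd F := by
    rcases neg_one_pow_eq_or (ExteriorAlgebra K (Fin d → K)) (h + 1) with e | e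
    · rw [e, one_mul] at h4
      exact h4
    · rw [e, neg_one_mul, map_neg] at h4
      exact (AddSubgroup.neg_mem_iff _).mp h4
  -- (1)
  have h6 : aF (C (∏ t, β' t)) * (aF (PP k hd))⁻¹ * (Module.finrank F K : F) ∈ Bad k hd F := by
    have e1 : ∏ t, ((algebraMap (MvPolynomial (Fin d) k) K (C (β' t)) *
        (φ (Y (Fin.castLE hd t)))⁻¹)) =
        algebraMap F K (aF (C (∏ t, β' t)) * (aF (PP k hd))⁻¹) := by
      rw [Finset.prod_mul_distrib, map_mul, map_inv₀, Finset.prod_inv_distrib, ← tow, ← tow]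
      congr 1
      · rw [haK, ← map_prod, ← map_prod]
      · congr 1
        unfold PP
        rw [haK, map_prod]
        exact Finset.prod_congr rfl fun t _ => hYY _
    have e2 : ∀ x : F, Algebra.trace F K (algebraMap F K x) = x * (Module.finrank F K : F) := by
      intro x
      rw [Algebra.trace_algebraMap, nsmul_eq_mul, mul_comm]
    rw [hTt] at h5
    rcases om_mu (K := K) hd lam _ hlam with e | e
    · rw [hom, hL, e, e1, e2] at h5
      exact h5
    · rw [hom, hL, e, e1, map_neg, e2] at h5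
      exact (AddSubgroup.neg_mem_iff _).mp h5
  obtain ⟨M, p, hp, hMp⟩ := h6
  have h7 : C ((∏ t, β' t) * (Module.finrank F K : k)) * PP k hd ^ M = p := by
    apply inj
    have e6 : algebraMap (MvPolynomial (Fin d) k) F (PP k hd ^ (M + 1)) =
        aF (PP k hd ^ M) * aF (PP k hd) := by
      rw [haF, pow_succ, map_mul]
    rw [e6] at hMp
    have hMp' : aF (C (∏ t, β' t)) * (aF (PP k hd))⁻¹ * (Module.finrank F K : F) *
        (aF (PP k hd ^ M) * aF (PP k hd)) = aF p := hMp
    have e7 : aF (C ((∏ t, β' t) * (Module.finrank F K : k)) * PP k hd ^ M) =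
        aF (C (∏ t, β' t)) * aF (C (Module.finrank F K : k)) * aF (PP k hd ^ M) := by
      rw [C_mul, map_mul aF, map_mul aF]
    rw [e7, ← hMp']
    have e3 : aF (C (Module.finrank F K : k)) = (Module.finrank F K : F) := by
      rw [map_natCast, map_natCast]
    rw [e3]
    field_simp
  unfold IM at hp
  rw [Ideal.mem_span_range_iff_exists_fun] at hp
  obtain ⟨f, hf⟩ := hp
  refine poly_contra h M ((∏ t, β' t) * (Module.finrank F K : k)) ?_ f ?_
  · refine mul_ne_zero (Finset.prod_ne_zero_iff.mpr fun t _ => hβ' t) ?_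
    exact Nat.cast_ne_zero.mpr (Module.finrank_pos (R := F) (M := K)).ne'
  · rw [← PP_pow k hd M, h7, ← hf]
    refine Finset.sum_congr rfl fun a _ => ?_
    rw [mul_comm]
    rfl

end VG
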