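import Pool.Agent.VG.Cob

/-!
Project VG (MP_c5773f_ag): forms, the data `FDat` and the recursive constructions
`U` (Cech null homotopy), `beta`, `v`, `gg`.
-/

open Matrix

namespace VG

universe u v

section Ext

variable {K V : Type u} [Field K] [AddCommGroup V] [Module K V] {ι : Type v}

/-- contraction with `ε` -/
noncomputable def iE (ε : V →ₗ[K] K) : ExteriorAlgebra K V →ₗ[K] ExteriorAlgebra K V :=
  CliffordAlgebra.contractLeft (Q := (0 : QuadraticForm K V)) ε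

/-- one-forms -/
noncomputable def io : V →ₗ[K] ExteriorAlgebra K V := ExteriorAlgebra.ι K

theorem iE_one (ε : V →ₗ[K] K) : iE ε 1 = 0 :=
  CliffordAlgebra.contractLeft_one _ _

theorem iE_scalar (ε : V →ₗ[K] K) (c : K) : iE ε (algebraMap K (ExteriorAlgebra K V) c) = 0 :=
  CliffordAlgebra.contractLeft_algebraMap _ _ _

theorem iE_io (ε : V →ₗ[K] K) (x : V) :
    iE ε (io x) = algebraMap K (ExteriorAlgebra K V) (ε x) :=
  CliffordAlgebra.contractLeft_ι _ _ _

theorem iE_io_mul (ε : V →ₗ[K] K) (x : V) (z : ExteriorAlgebra K V) :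
    iE ε (io x * z) = ε x • z - io x * iE ε z :=
  CliffordAlgebra.contractLeft_ι_mul _ _ _

theorem iE_iE (ε : V →ₗ[K] K) (z : ExteriorAlgebra K V) : iE ε (iE ε z) = 0 :=
  CliffordAlgebra.contractLeft_contractLeft _ _

theorem io_mul_self (x : V) : (io x : ExteriorAlgebra K V) * io x = 0 :=
  ExteriorAlgebra.ι_sq_zero x

theorem io_mul_comm (x y : V) : (io x : ExteriorAlgebra K V) * io y = -(io y * io x) := by
  have h := ExteriorAlgebra.ι_add_mul_swap (R := K) x y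
  exact eq_neg_of_add_eq_zero_left h

/-- `mu lam [a, b, c] = lam a * lam b * lam c` -/
noncomputable def mu (lam : ι → V) : List ι → ExteriorAlgebra K V
  | [] => 1
  | a :: L => io (lam a) * mu lam L

/-- the comparison cochain -/
noncomputable def gg (lam : ι → V) (v : List ι → ExteriorAlgebra K V) :
    List ι → ExteriorAlgebra K V
  | [] => 0
  | a :: L => io (lam a) * (v (a :: L) + gg lam v L)

end Ext

/-- The data of the main argument.  `r p` is the rank of the `p`-th module of the minimal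
resolution of `P = Hom(I/I^2, R)`, `a p` are the degrees of its basis, `δ p : P_(p+1) → P_p` the
differentials, `J i` the lifts of `∂/∂x_i`, `τ` the lift of the Euler relation, `ψ` a functional
on `P_1` with `ψ(τ) = 1`, `y a` the elements of the Cech cover, `s a p` homotopies for `y a`,
`D : R → V` a derivation, `ε : V → K` the contraction with the Euler field. -/
structure FDat (R K V : Type u) [CommRing R] [Field K] [AddCommGroup V] [Module K V]
    (ι : Type v) where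
  φ : R →+* K
  D : R →+ V
  ε : V →ₗ[K] K
  leib : ∀ x z, D (x * z) = φ x • D z + φ z • D x
  r : ℕ → ℕ
  a : ∀ p, Fin (r p) → ℤ
  δ : ∀ p, Matrix (Fin (r p)) (Fin (r (p + 1))) R
  cx : ∀ p, δ p * δ (p + 1) = 0
  eulδ : ∀ p i j, ε (D (δ p i j)) = ((a (p + 1) j - a p i : ℤ) : K) * φ (δ p i j)
  posδ : ∀ p i j, a (p + 1) j - a p i ≤ 0 → δ p i j = 0
  ψ : Fin (r 1) → R
  eulc : ∀ j, ε (D ((ψ ᵥ* δ 1) j)) = ((a 2 j : ℤ) : K) * φ ((ψ ᵥ* δ 1) j)
  posc : ∀ j, a 2 j ≤ 0 → (ψ ᵥ* δ 1) j = 0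
  n : ℕ
  X : Fin n → R
  w : Fin n → ℤ
  eulX : ∀ i, ε (D (X i)) = ((w i : ℤ) : K) * φ (X i)
  J : Fin n → Fin (r 0) → R
  τ : Fin (r 1) → R
  hτ : ∀ j, ∑ i, ((w i : ℤ) : R) * X i * J i j = (δ 0 *ᵥ τ) j
  hψ : ψ ⬝ᵥ τ = 1
  y : ι → R
  y0 : ∀ t, φ (y t) ≠ 0
  κ : ι → R
  hκ : ∀ t, φ (κ t) * ε (D (y t)) = φ (y t)
  s : ι → ∀ p, Matrix (Fin (r (p + 1))) (Fin (r p)) R
  Pi : ι → Matrix (Fin (r 0)) (Fin (r 0)) R
  h0 : ∀ t, δ 0 * s t 0 = y t • (1 : Matrix (Fin (r 0)) (Fin (r 0)) R) - Pi t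
  h1 : ∀ t p, δ (p + 1) * s t (p + 1) + s t p * δ p =
    y t • (1 : Matrix (Fin (r (p + 1))) (Fin (r (p + 1))) R)
  hPi0 : ∀ t, Pi t * δ 0 = 0
  hPiJ : ∀ t j, ∑ i, φ ((Pi t *ᵥ J i) j) • D (X i) = 0
  inv : ∀ m : ℤ, ∃ q : R, φ q = ((m : ℤ) : K)⁻¹

namespace FDat

variable {R K V : Type u} [CommRing R] [Field K] [AddCommGroup V] [Module K V] {ι : Type v}
variable (H : FDat R K V ι)

/-- the differentials over `K` -/
def Δ (p : ℕ) : Matrix (Fin (H.r p)) (Fin (H.r (p + 1))) K := (H.δ p).map H.φ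

/-- the homotopies over `K`, divided by `y t` -/
noncomputable def S (t : ι) (p : ℕ) : Matrix (Fin (H.r (p + 1))) (Fin (H.r p)) K :=
  (H.φ (H.y t))⁻¹ • (H.s t p).map H.φ

/-- the logarithmic one-forms -/
noncomputable def lam (t : ι) : V := (H.φ (H.κ t) * (H.φ (H.y t))⁻¹) • H.D (H.y t)

/-- `c = ψ δ_2` (a row vector on `P_2`) -/
def c : Fin (H.r 2) → R := H.ψ ᵥ* H.δ 1

/-- the Cech null homotopy `U p L χ`, a one-form attached to a functional `χ` on `P_(p+1)` and a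
list `L` of length `p + 1` -/
noncomputable def U : ∀ p, List ι → (Fin (H.r (p + 1)) → K) → V
  | 0, [], _ => 0
  | 0, t :: _, χ => (∑ i, (χ ⬝ᵥ (H.S t 0 *ᵥ fun j => H.φ (H.J i j))) • H.D (H.X i)) +
      (χ ⬝ᵥ (H.Δ 1 *ᵥ (H.S t 1 *ᵥ fun j => H.φ (H.τ j)))) • H.lam t
  | _ + 1, [], _ => 0
  | p + 1, t :: L, χ => cob (fun L' => U p L' (χ ᵥ* H.S t (p + 1))) (t :: L)

/-- the forms `beta p`, indexed by the basis of `P_(p+2)`, of degree `p + 1` -/
noncomputable def beta : ∀ p, Fin (H.r (p + 2)) → ExteriorAlgebra K V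
  | 0, l => ((H.a 2 l : ℤ) : K)⁻¹ • io (H.D (H.c l))
  | p + 1, l => ((H.a (p + 3) l : ℤ) : K)⁻¹ • ∑ k, io (H.D (H.δ (p + 2) k l)) * beta p k

/-- the cochain `v`; on a list of length `q + 1` it is a form of degree `q + 1` -/
noncomputable def vp : ℕ → List ι → ExteriorAlgebra K V
  | 0, _ => -1
  | 1, L => io (H.U 0 L fun j => H.φ (H.ψ j))
  | p + 2, L => ∑ k, io (H.U (p + 1) L (Pi.single k 1)) * H.beta p k

noncomputable def v (L : List ι) : ExteriorAlgebra K V := H.vp L.length L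

end FDat

section Reg

variable {R K V : Type u} [CommRing R] [Field K] [AddCommGroup V] [Module K V] {ι : Type v}

/-- functions with denominators in `y t`, `t ∈ T` -/
def BT (φ : R →+* K) (y : ι → R) (T : Set ι) : Subring K :=
  Subring.closure ({x | ∃ q, x = φ q} ∪ {x | ∃ t ∈ T, x = (φ (y t))⁻¹})

/-- regular forms with denominators in `y t`, `t ∈ T` -/
noncomputable def OmT (φ : R →+* K) (D : R →+ V) (y : ι → R) (T : Set ι) :
    Subring (ExteriorAlgebra K V) :=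
  Subring.closure ({x | ∃ q, x = algebraMap K (ExteriorAlgebra K V) (φ q)} ∪
    {x | ∃ t ∈ T, x = algebraMap K (ExteriorAlgebra K V) (φ (y t))⁻¹} ∪
    {x | ∃ q, x = io (D q)})

end Reg

end VG
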