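import Pool.Agent.VG.GDef

/-!
Project VG, module GBas: basic lemmas on homogeneous components and the irrelevant ideal.
-/

namespace VG

universe u

variable {k R : Type u} [Field k] [CommRing R] [Algebra k R] (𝒜 : ℤ → Submodule k R)
  [GradedAlgebra 𝒜]

private theorem gc_def (d : ℤ) (x : R) : gc 𝒜 d x = (DirectSum.decompose 𝒜 x d : R) := by
  unfold gc
  rw [GradedAlgebra.proj_apply]

theorem gc_mem (d : ℤ) (x : R) : gc 𝒜 d x ∈ 𝒜 d := by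
  rw [gc_def]
  exact SetLike.coe_mem _

theorem gc_same {d : ℤ} {x : R} (hx : x ∈ 𝒜 d) : gc 𝒜 d x = x := by
  rw [gc_def]
  exact DirectSum.decompose_of_mem_same 𝒜 hx

theorem gc_ne {d e : ℤ} {x : R} (hx : x ∈ 𝒜 d) (h : d ≠ e) : gc 𝒜 e x = 0 := by
  rw [gc_def]
  exact DirectSum.decompose_of_mem_ne 𝒜 hx h

theorem gc_sum (x : R) : ∃ s : Finset ℤ, x = ∑ d ∈ s, gc 𝒜 d x ∧ ∀ d ∉ s, gc 𝒜 d x = 0 := by
  classical
  refine ⟨(DirectSum.decompose 𝒜 x).support, ?_, fun d hd => ?_⟩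
  · conv_lhs => rw [← DirectSum.sum_support_decompose 𝒜 x]
    exact Finset.sum_congr rfl fun d _ => (gc_def 𝒜 d x).symm
  · rw [gc_def, DFinsupp.notMem_support_iff.1 hd, ZeroMemClass.coe_zero]

theorem gc_mul {m : ℤ} {a : R} (ha : a ∈ 𝒜 m) (d : ℤ) (x : R) :
    gc 𝒜 d (a * x) = a * gc 𝒜 (d - m) x := by
  have h := DirectSum.coe_decompose_mul_add_of_left_mem 𝒜 (i := m) (j := d - m) (b := x) ha
  rw [add_sub_cancel] at h
  rw [gc_def, gc_def, h]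

theorem irr_iff (hC : Conn 𝒜) (x : R) : x ∈ irr 𝒜 ↔ gc 𝒜 0 x = 0 := by
  constructor
  · intro h
    unfold irr at h
    induction h using Submodule.span_induction with
    | mem x hx =>
      obtain ⟨d, hd, hx⟩ := hx
      exact gc_ne 𝒜 hx hd.ne'
    | zero => exact map_zero _
    | add x y _ _ h1 h2 => rw [map_add, h1, h2, add_zero]
    | smul a x _ h1 =>
      obtain ⟨s, hs, -⟩ := gc_sum 𝒜 a
      rw [smul_eq_mul, hs, Finset.sum_mul, map_sum]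
      refine Finset.sum_eq_zero fun d _ => ?_
      rw [gc_mul 𝒜 (gc_mem 𝒜 d a)]
      rcases lt_trichotomy d 0 with h2 | h2 | h2
      · rw [hC.neg d h2 _ (gc_mem 𝒜 d a), zero_mul]
      · rw [h2, sub_zero, h1, mul_zero]
      · rw [hC.neg (0 - d) (by omega) _ (gc_mem 𝒜 (0 - d) x), mul_zero]
  · intro h
    obtain ⟨s, hs, -⟩ := gc_sum 𝒜 x
    rw [hs]
    refine Ideal.sum_mem _ fun d _ => ?_
    rcases lt_trichotomy d 0 with h2 | h2 | h2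
    · rw [hC.neg d h2 _ (gc_mem 𝒜 d x)]
      exact Ideal.zero_mem _
    · rw [h2, h]
      exact Ideal.zero_mem _
    · exact Ideal.subset_span ⟨d, h2, gc_mem 𝒜 d x⟩

theorem gc_irr_mem (hC : Conn 𝒜) {x : R} (hx : x ∈ irr 𝒜) (d : ℤ) : gc 𝒜 d x ∈ irr 𝒜 := by
  rw [irr_iff 𝒜 hC] at hx ⊢
  by_cases h : d = 0
  · rw [h, hx, map_zero]
  · exact gc_ne 𝒜 (gc_mem 𝒜 d x) h

theorem irr_isMaximal [Nontrivial R] (hC : Conn 𝒜) : (irr 𝒜).IsMaximal := by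
  have h1 : (1 : R) ∈ 𝒜 0 := SetLike.GradedOne.one_mem
  rw [Ideal.isMaximal_iff]
  refine ⟨fun h => ?_, fun J x hJ hx hxJ => ?_⟩
  · rw [irr_iff 𝒜 hC, gc_same 𝒜 h1] at h
    exact one_ne_zero h
  · obtain ⟨c, hc⟩ := hC.zero _ (gc_mem 𝒜 0 x)
    have hc0 : c ≠ 0 := by
      intro h
      rw [h, map_zero] at hc
      exact hx ((irr_iff 𝒜 hC x).2 hc)
    have h2 : x - algebraMap k R c ∈ irr 𝒜 := by
      rw [irr_iff 𝒜 hC, map_sub, ← hc, gc_same 𝒜 (gc_mem 𝒜 0 x), sub_self]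
    have h3 : algebraMap k R c ∈ J := by
      have h4 := J.sub_mem hxJ (hJ h2)
      rwa [sub_sub_cancel] at h4
    have h4 := J.mul_mem_left (algebraMap k R c⁻¹) h3
    rwa [← map_mul, inv_mul_cancel₀ hc0, map_one] at h4

theorem unit_of_not_irr (hC : Conn 𝒜) {d : ℤ} {x : R} (hx : x ∈ 𝒜 d) (hn : x ∉ irr 𝒜) :
    d = 0 ∧ ∃ c : k, c ≠ 0 ∧ x = algebraMap k R c := by
  have h1 : d = 0 := by
    by_contra h
    exact hn ((irr_iff 𝒜 hC x).2 (gc_ne 𝒜 hx h))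
  subst h1
  obtain ⟨c, hc⟩ := hC.zero x hx
  refine ⟨rfl, c, fun h => hn ?_, hc⟩
  rw [hc, h, map_zero]
  exact Ideal.zero_mem _

theorem hom_iff (J : Ideal R) : J.IsHomogeneous 𝒜 ↔ ∀ x ∈ J, ∀ d, gc 𝒜 d x ∈ J := by
  constructor
  · intro h x hx d
    rw [gc_def]
    exact h d hx
  · intro h d x hx
    have h1 := h x hx d
    rwa [gc_def] at h1

theorem irr_hom : (irr 𝒜).IsHomogeneous 𝒜 := by
  refine Ideal.homogeneous_span 𝒜 _ fun x hx => ?_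
  obtain ⟨d, -, h⟩ := hx
  exact ⟨d, h⟩

end VG
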