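import Mathlib

/-!
Project VG (MP_c5773f_ag): graded rings (`ℤ`-graded, nonnegative, `R_0 = k`), graded minimal
resolutions, factorisations of `y • id` on the conormal module.
-/

open Matrix

namespace VG

universe u

section Graded

variable {k R : Type u} [Field k] [CommRing R] [Algebra k R] (𝒜 : ℤ → Submodule k R)

/-- nonnegatively graded, with `R_0 = k` -/
structure Conn : Prop where
  neg : ∀ d : ℤ, d < 0 → ∀ x ∈ 𝒜 d, x = 0
  zero : ∀ x ∈ 𝒜 0, ∃ c : k, x = algebraMap k R c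

/-- the irrelevant ideal -/
def irr : Ideal R := Ideal.span {x | ∃ d : ℤ, 0 < d ∧ x ∈ 𝒜 d}

/-- homogeneous components -/
noncomputable def gc [GradedAlgebra 𝒜] (d : ℤ) : R →ₗ[k] R := GradedAlgebra.proj 𝒜 d

/-- minimal graded free resolution of the image of `σ` -/
structure IsRes {μ : ℕ} (t : Fin μ → ℤ) (r : ℕ → ℕ) (a : ∀ p, Fin (r p) → ℤ)
    (σ : Matrix (Fin μ) (Fin (r 0)) R) (δ : ∀ p, Matrix (Fin (r p)) (Fin (r (p + 1))) R) :
    Prop where
  homσ : ∀ i j, σ i j ∈ 𝒜 (a 0 j + t i)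
  homδ : ∀ p i j, δ p i j ∈ 𝒜 (a (p + 1) j - a p i)
  minδ : ∀ p i j, δ p i j ∈ irr 𝒜
  cxσ : σ * δ 0 = 0
  cxδ : ∀ p, δ p * δ (p + 1) = 0
  exσ : ∀ u, σ *ᵥ u = 0 → ∃ w, u = δ 0 *ᵥ w
  exδ : ∀ p u, δ p *ᵥ u = 0 → ∃ w, u = δ (p + 1) *ᵥ w
  z0 : (∀ u, σ *ᵥ u = 0 → u = 0) → r 1 = 0
  zp : ∀ p, (∀ u, δ p *ᵥ u = 0 → u = 0) → r (p + 2) = 0

end Graded

section Hom

variable {A : Type u} [CommRing A] (I : Ideal A)

/-- evaluation of functionals `I → A/I` at elements `f j` of `I` -/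
noncomputable def evf {μ : ℕ} (f : Fin μ → I) : (I →ₗ[A] A ⧸ I) →ₗ[A ⧸ I] (Fin μ → A ⧸ I) where
  toFun φ := fun j => φ (f j)
  map_add' _ _ := rfl
  map_smul' _ _ := rfl

/-- the image of `Hom(I, A/I)` in `(A/I)^μ` -/
noncomputable def K0 {μ : ℕ} (f : Fin μ → I) : Submodule (A ⧸ I) (Fin μ → A ⧸ I) :=
  LinearMap.range (evf I f)

/-- multiplication by `y` on `I/I^2` factors through a finite free `A/I`-module -/
def FT (y : A) : Prop := ∃ (m : ℕ) (φ : Fin m → (I →ₗ[A] A ⧸ I)) (ρ : Fin m → I),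
  ∀ (x : I) (c : Fin m → A), (∀ j, Ideal.Quotient.mk I (c j) = φ j x) →
    y * x - ∑ j, c j * ρ j ∈ I ^ 2

end Hom

section Poly

open MvPolynomial

variable {k : Type u} [Field k] {n : ℕ} (w : Fin n → ℤ) (I : Ideal (MvPolynomial (Fin n) k))

/-- homogeneous ideal -/
def HomI : Prop := ∀ f ∈ I, ∀ d : ℤ, weightedHomogeneousComponent w d f ∈ I

/-- the grading of the quotient ring -/
noncomputable def qgr (d : ℤ) : Submodule k (MvPolynomial (Fin n) k ⧸ I) :=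
  (weightedHomogeneousSubmodule k w d).map (Ideal.Quotient.mkₐ k I).toLinearMap

/-- the functional `x ↦ ∂x/∂x_i mod I` on `I` -/
noncomputable def dfun (i : Fin n) : I →ₗ[MvPolynomial (Fin n) k] (MvPolynomial (Fin n) k ⧸ I) where
  toFun x := Ideal.Quotient.mk I (pderiv i (x : MvPolynomial (Fin n) k))
  map_add' x y := by simp
  map_smul' c x := by
    have h : Ideal.Quotient.mk I ((x : MvPolynomial (Fin n) k) * pderiv i c) = 0 :=
      Ideal.Quotient.eq_zero_iff_mem.mpr (I.mul_mem_right _ x.2)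
    simp only [SetLike.val_smul, smul_eq_mul, Derivation.leibniz, map_add, RingHom.id_apply]
    rw [h, add_zero]
    rfl

end Poly

end VG
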