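import Pool.Agent.VG.Qgr

/-!
Project VG, module KGr: the functionals `I → A/I` form a graded module.

PLAN.  `K0_iff`: `u ∈ K0 I f` iff for all `c : Fin μ → A` with `∑ c j * f j = 0` we have
`∑ mk (c j) * u j = 0` (`f` generates `I`: a map on generators which respects the relations extends;
for example `Submodule.liftQ` on `(Fin μ → A) → I`, or choose the coefficients of each `x`).
`K0_graded`: let `u ∈ K0`, `c` a relation.  Every component
`c^e j = weightedHomogeneousComponent w (e - t j) (c j)` (`e : ℤ`) is again a relation (the component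
of degree `e` of `∑ c j * f j`, as `f j` is homogeneous of degree `t j`), so
`∑ mk (c^e j) * u j = 0`; its component of degree `e + d` is
`∑ mk (c^e j) * gc (d + t j) (u j) = 0`; sum over `e` (finitely many nonzero) and
`∑ e, c^e j = c j`.
`und_comp`: let `φ` be given, `u j = φ (f j)`, `x = ∑ g j * f j`.  Let `φ'` be the functional with
`φ' (f j) = gc (t j - d) (u j)` (`K0_graded`, degree `-d`).  `φ' x ∈ irr` gives
`0 = gc 0 (φ' x) = ∑ j, mk (whc (d - t j) (g j)) * gc (t j - d) (u j) = gc 0 (φ (x_d))`, since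
`x_d = ∑ j, whc (d - t j) (g j) * f j`.  Conclude by `irr_iff`.
-/

open MvPolynomial

namespace VG

universe u

variable {k : Type u} [Field k] {n : ℕ} (w : Fin n → ℤ) (I : Ideal (MvPolynomial (Fin n) k))

/-- homogeneous components in `A/I` -/
noncomputable def gq (hI : HomI w I) (d : ℤ) :
    (MvPolynomial (Fin n) k ⧸ I) →ₗ[k] (MvPolynomial (Fin n) k ⧸ I) :=
  @gc k _ _ _ _ (qgr w I) (qGraded w I hI) d

theorem K0_iff {A : Type u} [CommRing A] (I : Ideal A) {μ : ℕ} (f : Fin μ → I)
    (hspan : Submodule.span A (Set.range f) = ⊤) (u : Fin μ → A ⧸ I) :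
    u ∈ K0 I f ↔ ∀ c : Fin μ → A, ∑ j, c j * (f j : A) = 0 →
      ∑ j, Ideal.Quotient.mk I (c j) * u j = 0 := by
  constructor
  · rintro ⟨φ, rfl⟩ c hc
    have h1 : ∑ j, c j • f j = 0 := by
      apply Subtype.ext
      rw [AddSubmonoidClass.coe_finsetSum]
      exact hc
    have h2 : φ (∑ j, c j • f j) = 0 := by rw [h1, map_zero]
    rw [map_sum] at h2
    rw [← h2]
    refine Finset.sum_congr rfl fun j _ => ?_
    rw [map_smul]
    rfl
  · intro h
    have hF : Function.Surjective (Fintype.linearCombination A f) := by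
      rw [← LinearMap.range_eq_top, Fintype.range_linearCombination, hspan]
    have hle : LinearMap.ker (Fintype.linearCombination A f) ≤
        LinearMap.ker (Fintype.linearCombination A u) := by
      intro c hc
      rw [LinearMap.mem_ker, Fintype.linearCombination_apply] at hc ⊢
      have h1 : ∑ j, c j * (f j : A) = 0 := by
        have h2 := congrArg Subtype.val hc
        rw [AddSubmonoidClass.coe_finsetSum] at h2
        exact h2
      exact h c h1
    refine ⟨(Submodule.liftQ _ _ hle).comp
      (LinearMap.quotKerEquivOfSurjective _ hF).symm.toLinearMap, ?_⟩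
    funext j
    show (Submodule.liftQ _ _ hle) ((LinearMap.quotKerEquivOfSurjective _ hF).symm (f j)) = u j
    have h1 : (LinearMap.quotKerEquivOfSurjective _ hF).symm (f j) =
        Submodule.Quotient.mk (Pi.single j 1) := by
      rw [LinearEquiv.symm_apply_eq]
      show f j = Fintype.linearCombination A f (Pi.single j 1)
      rw [Fintype.linearCombination_apply_single, one_smul]
    rw [h1, Submodule.liftQ_apply, Fintype.linearCombination_apply_single, one_smul]

private theorem gq_mul (hI : HomI w I) {m : ℤ} {a : MvPolynomial (Fin n) k ⧸ I}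
    (ha : a ∈ qgr w I m) (d : ℤ) (x : MvPolynomial (Fin n) k ⧸ I) :
    gq w I hI d (a * x) = a * gq w I hI (d - m) x :=
  @gc_mul k _ _ _ _ (qgr w I) (qGraded w I hI) m a ha d x

private theorem gq_mem (hI : HomI w I) (d : ℤ) (x : MvPolynomial (Fin n) k ⧸ I) :
    gq w I hI d x ∈ qgr w I d :=
  @gc_mem k _ _ _ _ (qgr w I) (qGraded w I hI) d x

private theorem gq_ext (hI : HomI w I) {x : MvPolynomial (Fin n) k ⧸ I}
    (h : ∀ d, gq w I hI d x = 0) : x = 0 := by
  obtain ⟨s, hs, -⟩ := @gc_sum k _ _ _ _ (qgr w I) (qGraded w I hI) x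
  rw [hs]
  exact Finset.sum_eq_zero fun d _ => h d

private theorem gq_mk (hI : HomI w I) (d : ℤ) (f : MvPolynomial (Fin n) k) :
    gq w I hI d (Ideal.Quotient.mk I f) =
      Ideal.Quotient.mk I (weightedHomogeneousComponent w d f) := gc_mk w I hI d f

private theorem mk_mem {d : ℤ} {f : MvPolynomial (Fin n) k}
    (hf : f ∈ weightedHomogeneousSubmodule k w d) : Ideal.Quotient.mk I f ∈ qgr w I d :=
  ⟨f, hf, rfl⟩

private theorem whc_mul {t : ℤ} (c : MvPolynomial (Fin n) k) {f : MvPolynomial (Fin n) k}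
    (hf : f ∈ weightedHomogeneousSubmodule k w t) (e : ℤ) :
    weightedHomogeneousComponent w e (c * f) = weightedHomogeneousComponent w (e - t) c * f := by
  classical
  ext m
  rw [coeff_weightedHomogeneousComponent, coeff_mul, coeff_mul]
  have key : ∀ p ∈ Finset.HasAntidiagonal.antidiagonal m, (if Finsupp.weight w m = e then
      coeff p.1 c * coeff p.2 f else 0) =
      coeff p.1 (weightedHomogeneousComponent w (e - t) c) * coeff p.2 f := by
    intro p hp
    rw [coeff_weightedHomogeneousComponent]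
    by_cases h1 : coeff p.2 f = 0
    · rw [h1, mul_zero, mul_zero, ite_self]
    · have h2 : Finsupp.weight w p.2 = t := hf h1
      have h3 : Finsupp.weight w m = Finsupp.weight w p.1 + t := by
        rw [← Finset.HasAntidiagonal.mem_antidiagonal.1 hp, map_add, h2]
      by_cases h4 : Finsupp.weight w m = e
      · rw [if_pos h4, if_pos (by omega)]
      · rw [if_neg h4, if_neg (by omega), zero_mul]
  rw [← Finset.sum_congr rfl key]
  split_ifs
  · rfl
  · rw [Finset.sum_const_zero]

/-- the component of a product with a homogeneous element of the quotient -/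
private theorem gq_mk_mul (hI : HomI w I) (g : MvPolynomial (Fin n) k) {m : ℤ}
    {a : MvPolynomial (Fin n) k ⧸ I} (ha : a ∈ qgr w I m) (e : ℤ) :
    gq w I hI e (Ideal.Quotient.mk I g * a) =
      Ideal.Quotient.mk I (weightedHomogeneousComponent w (e - m) g) * a := by
  rw [mul_comm, gq_mul w I hI ha, gq_mk, mul_comm]

theorem K0_graded (hI : HomI w I) {μ : ℕ} (f : Fin μ → I) (t : Fin μ → ℤ)
    (hf : ∀ j, (f j : MvPolynomial (Fin n) k) ∈ weightedHomogeneousSubmodule k w (t j))
    (hspan : Submodule.span (MvPolynomial (Fin n) k) (Set.range f) = ⊤)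
    (u : Fin μ → MvPolynomial (Fin n) k ⧸ I) (hu : u ∈ K0 I f) (d : ℤ) :
    (fun i => gq w I hI (d + t i) (u i)) ∈ K0 I f := by
  rw [K0_iff I f hspan] at hu ⊢
  intro c hc
  apply gq_ext w I hI
  intro e
  rw [map_sum]
  have h1 : ∑ j, weightedHomogeneousComponent w (e - d - t j) (c j) *
      (f j : MvPolynomial (Fin n) k) = 0 := by
    have h2 := congrArg (weightedHomogeneousComponent w (e - d)) hc
    rw [map_sum, map_zero] at h2
    rw [← h2]
    exact Finset.sum_congr rfl fun j _ => (whc_mul w (c j) (hf j) (e - d)).symm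
  have h3 := congrArg (gq w I hI e) (hu _ h1)
  rw [map_sum, map_zero] at h3
  rw [← h3]
  refine Finset.sum_congr rfl fun j _ => ?_
  rw [gq_mk_mul w I hI (c j) (gq_mem w I hI (d + t j) (u j)) e,
    gq_mul w I hI (mk_mem w I (weightedHomogeneousComponent_mem w (c j) (e - d - t j))) e (u j),
    show e - (d + t j) = e - d - t j by ring, show e - (e - d - t j) = d + t j by ring]

theorem und_comp (hw : ∀ i, 0 < w i) (hI : HomI w I) {μ : ℕ} (f : Fin μ → I) (t : Fin μ → ℤ)
    (hf : ∀ j, (f j : MvPolynomial (Fin n) k) ∈ weightedHomogeneousSubmodule k w (t j))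
    (hspan : Submodule.span (MvPolynomial (Fin n) k) (Set.range f) = ⊤)
    (x : I) (hx : ∀ φ : I →ₗ[MvPolynomial (Fin n) k] (MvPolynomial (Fin n) k ⧸ I),
      φ x ∈ irr (qgr w I)) (d : ℤ)
    (φ : I →ₗ[MvPolynomial (Fin n) k] (MvPolynomial (Fin n) k ⧸ I)) :
    φ ⟨weightedHomogeneousComponent w d (x : MvPolynomial (Fin n) k), hI _ x.2 d⟩ ∈
      irr (qgr w I) := by
  have hC : Conn (qgr w I) := qgr_conn w I hw
  have hirr : ∀ y : MvPolynomial (Fin n) k ⧸ I, y ∈ irr (qgr w I) ↔ gq w I hI 0 y = 0 :=
    fun y => @irr_iff k _ _ _ _ (qgr w I) (qGraded w I hI) hC y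
  have hxs : x ∈ Submodule.span (MvPolynomial (Fin n) k) (Set.range f) := by
    rw [hspan]
    exact Submodule.mem_top
  obtain ⟨g, hg⟩ := (Submodule.mem_span_range_iff_exists_fun _).1 hxs
  obtain ⟨φ', hφ'⟩ := K0_graded w I hI f t hf hspan (fun j => φ (f j)) ⟨φ, rfl⟩ (-d)
  have h1 : ∀ j, φ' (f j) = gq w I hI (-d + t j) (φ (f j)) := fun j => congrFun hφ' j
  have h2 : (⟨weightedHomogeneousComponent w d (x : MvPolynomial (Fin n) k), hI _ x.2 d⟩ : I) =
      ∑ j, weightedHomogeneousComponent w (d - t j) (g j) • f j := by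
    apply Subtype.ext
    rw [AddSubmonoidClass.coe_finsetSum]
    show weightedHomogeneousComponent w d (x : MvPolynomial (Fin n) k) =
      ∑ j, weightedHomogeneousComponent w (d - t j) (g j) * (f j : MvPolynomial (Fin n) k)
    rw [← hg, AddSubmonoidClass.coe_finsetSum, map_sum]
    exact Finset.sum_congr rfl fun j _ => whc_mul w (g j) (hf j) d
  have h3 := (hirr _).1 (hx φ')
  rw [← hg, map_sum, map_sum] at h3
  rw [hirr, h2, map_sum, map_sum, ← h3]
  refine Finset.sum_congr rfl fun j _ => ?_
  rw [map_smul φ, map_smul φ', h1 j]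
  show gq w I hI 0 (Ideal.Quotient.mk I (weightedHomogeneousComponent w (d - t j) (g j)) *
    φ (f j)) = gq w I hI 0 (Ideal.Quotient.mk I (g j) * gq w I hI (-d + t j) (φ (f j)))
  rw [gq_mk_mul w I hI (g j) (gq_mem w I hI (-d + t j) (φ (f j))) 0,
    gq_mul w I hI (mk_mem w I (weightedHomogeneousComponent_mem w (g j) (d - t j))) 0 (φ (f j)),
    show (0 : ℤ) - (-d + t j) = d - t j by ring, show (0 : ℤ) - (d - t j) = -d + t j by ring]

end VG
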