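import Pool.Agent.VG.GDef

/-!
Project VG, module LocHom: `Hom(I/I^2, A/I)` after localization, described by the matrix `σ`.

PLAN.  `B = T/IT`, `ψ = algebraMap (A/I) B`; `B` is a localization of `A/I` (instance
`IsLocalization (Algebra.algebraMapSubmonoid (A ⧸ I) M) (T ⧸ I.map _)` of Mathlib).  Map
`Θ : (IT.Cotangent →ₗ[B] B) → (Fin μ → B)`, `φ ↦ (φ (toCotangent (image of f j)))_j`: `B`-linear, and
injective because the images of the `f j` generate `IT` (`hspan`, `Ideal.map` of a span).
Range of `Θ` = range of `(σ.map ψ).mulVecLin`: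
`⊇`: it is enough to treat a column `ψ (σ j l)`, `σ j l = h (f j)` for some `h : I →ₗ[A] A ⧸ I` (`hK`
applied to the column).  Extend `h` to `IT`: `IT` is the localization of the module `I`
(`IsLocalizedModule M (Algebra.idealMap T I)` or `Submodule.toLocalized`), so
`IsLocalizedModule.lift`/`mapExtendScalars` gives a `T`-linear map `IT → B` extending
`ψ ∘ h`, which descends to `IT.Cotangent` (`Ideal.Cotangent.lift`, values in `B` are killed by `IT`)
and is `B`-linear (`extendScalarsOfSurjective`).
`⊆`: for `φ`, the map `I → B`, `x ↦ φ (toCotangent x)` is `A`-linear; `I` is finitely presented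
(`A` Noetherian) and `A/I → B` is a localized module, so by
`Module.FinitePresentation.exists_lift_of_isLocalizedModule` there are `h : I →ₗ[A] A ⧸ I` and
`s ∈ M` with `ψ (h x) = s • φ (x)`; `evf I f h = σ *ᵥ v` (`hK`), so `s • Θ φ = (σ.map ψ) *ᵥ ψ v`; `s` is
invertible in `B`.
-/

open Matrix

namespace VG

universe u

/-- the `A`-linear map on `IT` underlying a functional on the cotangent module -/
noncomputable def flin {A T : Type u} [CommRing A] [CommRing T] [Algebra A T] (J : Ideal T)
    (φ : J.Cotangent →ₗ[T ⧸ J] (T ⧸ J)) : J →ₗ[A] (T ⧸ J) where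
  toFun x := φ (J.toCotangent x)
  map_add' x y := by rw [map_add, map_add]
  map_smul' a x := by
    have h1 : (a • x : J) = (algebraMap A T a) • x :=
      (algebraMap_smul T a x).symm
    have h2 : ∀ c : J.Cotangent, (algebraMap A T a) • c
        = (Ideal.Quotient.mk J (algebraMap A T a)) • c := fun c => rfl
    rw [h1, map_smul, h2, map_smul, RingHom.id_apply, smul_eq_mul, Algebra.smul_def]
    rfl

/-- a `T`-linear map `J → T/J` descends to a `T/J`-linear map on the cotangent module -/
noncomputable def flift {T : Type u} [CommRing T] (J : Ideal T)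
    (g : J →ₗ[T] (T ⧸ J)) : J.Cotangent →ₗ[T ⧸ J] (T ⧸ J) :=
  LinearMap.extendScalarsOfSurjective (Ideal.Quotient.mk_surjective)
    (Ideal.Cotangent.lift g (fun x y => by
      have h : (x * y : J) = (x : T) • y := rfl
      rw [h, map_smul, Algebra.smul_def]
      have h0 : algebraMap T (T ⧸ J) (x : T) = 0 := Ideal.Quotient.eq_zero_iff_mem.mpr x.2
      rw [h0, zero_mul]))

theorem flift_apply {T : Type u} [CommRing T] (J : Ideal T) (g : J →ₗ[T] (T ⧸ J)) (x : J) :
    flift J g (J.toCotangent x) = g x := rfl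

theorem hom_loc {A T : Type u} [CommRing A] [IsNoetherianRing A] [CommRing T] [Algebra A T]
    (M : Submonoid A) [IsLocalization M T] (I : Ideal A) {μ : ℕ} (f : Fin μ → I)
    (hspan : Submodule.span A (Set.range f) = ⊤) (r0 : ℕ) (σ : Matrix (Fin μ) (Fin r0) (A ⧸ I))
    (hK : ∀ u, u ∈ K0 I f ↔ ∃ v, u = σ *ᵥ v) :
    Nonempty (((I.map (algebraMap A T)).Cotangent →ₗ[T ⧸ I.map (algebraMap A T)]
        (T ⧸ I.map (algebraMap A T))) ≃ₗ[T ⧸ I.map (algebraMap A T)]
      LinearMap.range (σ.map (algebraMap (A ⧸ I) (T ⧸ I.map (algebraMap A T)))).mulVecLin) := by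
  set IT : Ideal T := I.map (algebraMap A T) with hIT
  let g0 : (A ⧸ I) →ₗ[A] (T ⧸ IT) := (IsScalarTower.toAlgHom A (A ⧸ I) (T ⧸ IT)).toLinearMap
  have hg0 : IsLocalizedModule M g0 := by
    dsimp only [g0]
    infer_instance
  let ι : I →ₗ[A] IT := Algebra.idealMap T I
  have hι : IsLocalizedModule M ι := inferInstanceAs (IsLocalizedModule M (Algebra.idealMap T I))
  have hg0a : ∀ x, g0 x = algebraMap (A ⧸ I) (T ⧸ IT) x := fun _ => rfl
  let Θ : (IT.Cotangent →ₗ[T ⧸ IT] (T ⧸ IT)) →ₗ[T ⧸ IT] (Fin μ → T ⧸ IT) :=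
    { toFun := fun φ j => φ (IT.toCotangent (ι (f j)))
      map_add' := fun _ _ => rfl
      map_smul' := fun _ _ => rfl }
  have hinj : Function.Injective Θ := by
    intro φ ψ h
    have h1 : (flin (A := A) IT φ) ∘ₗ ι = (flin (A := A) IT ψ) ∘ₗ ι := by
      apply LinearMap.ext_on_range hspan
      intro j
      exact congrFun h j
    have h2 : flin (A := A) IT φ = flin (A := A) IT ψ :=
      IsLocalizedModule.linearMap_ext M ι g0 h1
    apply LinearMap.ext
    intro c
    obtain ⟨x, rfl⟩ := IT.toCotangent_surjective c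
    exact LinearMap.congr_fun h2 x
  have hrange : LinearMap.range Θ =
      LinearMap.range (σ.map (algebraMap (A ⧸ I) (T ⧸ IT))).mulVecLin := by
    apply le_antisymm
    · rintro _ ⟨φ, rfl⟩
      have : Module.FinitePresentation A I := Module.finitePresentation_of_finite A I
      obtain ⟨h, s, hs⟩ := Module.FinitePresentation.exists_lift_of_isLocalizedModule M g0
        ((flin (A := A) IT φ) ∘ₗ ι)
      obtain ⟨v, hv⟩ := (hK (evf I f h)).mp ⟨h, rfl⟩
      have hu : IsUnit (algebraMap A (T ⧸ IT) (s : A)) := by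
        have h1 : IsUnit (algebraMap A T (s : A)) := IsLocalization.map_units T s
        exact h1.map (Ideal.Quotient.mk IT)
      obtain ⟨w, hw⟩ := hu
      refine ⟨fun l => ((w⁻¹ : (T ⧸ IT)ˣ) : T ⧸ IT) * algebraMap (A ⧸ I) (T ⧸ IT) (v l), ?_⟩
      funext j
      have h3 : algebraMap (A ⧸ I) (T ⧸ IT) (h (f j)) = (w : T ⧸ IT) * Θ φ j := by
        have := LinearMap.congr_fun hs (f j)
        rw [LinearMap.comp_apply, LinearMap.smul_apply, LinearMap.comp_apply, hg0a,
          Submonoid.smul_def, Algebra.smul_def, ← hw] at this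
        exact this
      have h4 : h (f j) = ∑ l, σ j l * v l := congrFun hv j
      have h5 : ((w⁻¹ : (T ⧸ IT)ˣ) : T ⧸ IT) * ((w : T ⧸ IT) * Θ φ j) = Θ φ j := by
        rw [← mul_assoc, Units.inv_mul, one_mul]
      rw [Matrix.mulVecLin_apply, Matrix.mulVec, dotProduct, ← h5, ← h3, h4, map_sum,
        Finset.mul_sum]
      apply Finset.sum_congr rfl
      intro l _
      rw [Matrix.map_apply, map_mul]
      ring
    · rintro _ ⟨v, rfl⟩
      have hcol : ∀ l, (fun j => algebraMap (A ⧸ I) (T ⧸ IT) (σ j l)) ∈ LinearMap.range Θ := by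
        intro l
        obtain ⟨h, hh⟩ := (hK (σ *ᵥ (Pi.single l 1))).mpr ⟨_, rfl⟩
        let e : IT →ₗ[A] (T ⧸ IT) := IsLocalizedModule.lift M ι (g0 ∘ₗ h)
          (IsLocalizedModule.map_units g0)
        have he : ∀ x, e (ι x) = g0 (h x) := fun x =>
          IsLocalizedModule.lift_apply M ι (g0 ∘ₗ h) (IsLocalizedModule.map_units g0) x
        refine ⟨flift IT (e.extendScalarsOfIsLocalization M T), ?_⟩
        funext j
        have h1 : Θ (flift IT (e.extendScalarsOfIsLocalization M T)) j = e (ι (f j)) := rfl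
        have h2 : h (f j) = σ j l := by
          have := congrFun hh j
          rw [Matrix.mulVec_single_one] at this
          exact this
        rw [h1, he, h2, hg0a]
      have hsum : (σ.map (algebraMap (A ⧸ I) (T ⧸ IT))).mulVecLin v
          = ∑ l, v l • (fun j => algebraMap (A ⧸ I) (T ⧸ IT) (σ j l)) := by
        funext j
        rw [Matrix.mulVecLin_apply, Matrix.mulVec, dotProduct, Finset.sum_apply]
        apply Finset.sum_congr rfl
        intro l _
        rw [Matrix.map_apply, Pi.smul_apply, smul_eq_mul, mul_comm]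
      rw [hsum]
      exact Submodule.sum_mem _ (fun l _ => Submodule.smul_mem _ _ (hcol l))
  exact ⟨(LinearEquiv.ofInjective Θ hinj).trans (LinearEquiv.ofEq _ _ hrange)⟩

end VG
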