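import Pool.Agent.VG.GBas

/-!
Project VG, module MinG: minimal homogeneous generators of a graded submodule of a graded free
module.
-/

open Matrix

namespace VG

universe u

variable {k R : Type u} [Field k] [CommRing R] [Algebra k R] (𝒜 : ℤ → Submodule k R)
  [GradedAlgebra 𝒜]

/-- generated by `s` homogeneous elements -/
private def PGen {m : ℕ} (a : Fin m → ℤ) (K : Submodule R (Fin m → R)) (s : ℕ) : Prop :=
  ∃ (b : Fin s → ℤ) (g : Fin s → (Fin m → R)), (∀ j i, g j i ∈ 𝒜 (b j - a i)) ∧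
    Submodule.span R (Set.range g) = K

private theorem span_hom {m : ℕ} (a : Fin m → ℤ) (K : Submodule R (Fin m → R))
    (hK : ∀ u ∈ K, ∀ d : ℤ, (fun i => gc 𝒜 (d - a i) (u i)) ∈ K) :
    Submodule.span R {v | v ∈ K ∧ ∃ d : ℤ, ∀ i, v i ∈ 𝒜 (d - a i)} = K := by
  apply le_antisymm
  · rw [Submodule.span_le]
    exact fun v hv => hv.1
  · intro u hu
    -- a common finite set of degrees
    choose s hs1 hs2 using fun i => gc_sum 𝒜 (u i)
    set S : Finset ℤ := Finset.univ.biUnion fun i => (s i).image fun d => d + a i with hS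
    have h1 : u = ∑ d ∈ S, fun i => gc 𝒜 (d - a i) (u i) := by
      funext i
      rw [Finset.sum_apply]
      have h2 : ∑ d ∈ S, gc 𝒜 (d - a i) (u i) = ∑ d ∈ (s i).image (fun d => d + a i), gc 𝒜 (d - a i) (u i) := by
        symm
        apply Finset.sum_subset
        · exact Finset.subset_biUnion_of_mem (fun i => (s i).image fun d => d + a i) (Finset.mem_univ i)
        · intro d _ hd
          apply hs2
          intro h3
          apply hd
          exact Finset.mem_image.2 ⟨d - a i, h3, by ring⟩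
      rw [h2, Finset.sum_image (fun x _ y _ h => by simpa using h)]
      have h3 : ∀ d ∈ s i, gc 𝒜 (d + a i - a i) (u i) = gc 𝒜 d (u i) := fun d _ => by
        rw [add_sub_cancel_right]
      rw [Finset.sum_congr rfl h3]
      exact hs1 i
    rw [h1]
    refine Submodule.sum_mem _ fun d _ => Submodule.subset_span ⟨hK u hu d, d, fun i => gc_mem 𝒜 _ _⟩

private theorem exists_pgen [IsNoetherianRing R] {m : ℕ} (a : Fin m → ℤ) (K : Submodule R (Fin m → R))
    (hK : ∀ u ∈ K, ∀ d : ℤ, (fun i => gc 𝒜 (d - a i) (u i)) ∈ K) : ∃ s, PGen 𝒜 a K s := by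
  have h1 := span_hom 𝒜 a K hK
  have h2 : (Submodule.span R {v | v ∈ K ∧ ∃ d : ℤ, ∀ i, v i ∈ 𝒜 (d - a i)}).FG := by
    rw [h1]
    exact IsNoetherian.noetherian K
  obtain ⟨t, ht1, ht2⟩ := (Submodule.fg_span_iff_fg_span_finset_subset _).1 h2
  let e := t.equivFin
  have h3 : ∀ j : Fin t.card, ∃ d : ℤ, ∀ i, (e.symm j : Fin m → R) i ∈ 𝒜 (d - a i) := fun j =>
    (ht1 (e.symm j).2).2
  choose b hb using h3
  refine ⟨t.card, b, fun j => (e.symm j : Fin m → R), hb, ?_⟩
  rw [← h1, ht2]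
  congr 1
  ext v
  constructor
  · rintro ⟨j, rfl⟩
    exact (e.symm j).2
  · intro hv
    exact ⟨e ⟨v, hv⟩, by simp⟩

theorem min_gens [Nontrivial R] [IsNoetherianRing R] (hC : Conn 𝒜) {m : ℕ} (a : Fin m → ℤ)
    (K : Submodule R (Fin m → R))
    (hK : ∀ u ∈ K, ∀ d : ℤ, (fun i => gc 𝒜 (d - a i) (u i)) ∈ K) :
    ∃ (s : ℕ) (b : Fin s → ℤ) (M : Matrix (Fin m) (Fin s) R),
      (∀ i j, M i j ∈ 𝒜 (b j - a i)) ∧ (∀ u, u ∈ K ↔ ∃ w, u = M *ᵥ w) ∧
      (∀ w, M *ᵥ w = 0 → ∀ j, w j ∈ irr 𝒜) ∧ ((∀ u ∈ K, u = 0) → s = 0) := by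
  classical
  have hex := exists_pgen 𝒜 a K hK
  obtain ⟨s, hs, hmin⟩ : ∃ s, PGen 𝒜 a K s ∧ ∀ s' < s, ¬ PGen 𝒜 a K s' :=
    ⟨Nat.find hex, Nat.find_spec hex, fun s' h => Nat.find_min hex h⟩
  obtain ⟨b, g, hg, hspan⟩ := hs
  have hmv : ∀ w : Fin s → R, (Matrix.of fun i j => g j i) *ᵥ w = ∑ j, w j • g j := by
    intro w
    funext i
    rw [Finset.sum_apply]
    show ∑ j, g j i * w j = _
    exact Finset.sum_congr rfl fun j _ => by rw [Pi.smul_apply, smul_eq_mul, mul_comm]
  refine ⟨s, b, Matrix.of fun i j => g j i, fun i j => hg j i, ?_, ?_, ?_⟩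
  · intro u
    rw [← hspan, Submodule.mem_span_range_iff_exists_fun]
    constructor
    · rintro ⟨w, hw⟩
      exact ⟨w, by rw [hmv, hw]⟩
    · rintro ⟨w, hw⟩
      exact ⟨w, by rw [hw, hmv]⟩
  · intro w hw j
    by_contra hj
    rw [hmv] at hw
    rw [irr_iff 𝒜 hC] at hj
    obtain ⟨c, hc⟩ := hC.zero _ (gc_mem 𝒜 0 (w j))
    have hc0 : c ≠ 0 := by
      rintro rfl
      rw [map_zero] at hc
      exact hj hc
    -- the homogeneous relation
    set w' : Fin s → R := fun l => gc 𝒜 (b j - b l) (w l) with hw'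
    have hrel : ∑ l, w' l • g l = 0 := by
      funext i
      have h1 := congrFun hw i
      rw [Finset.sum_apply] at h1 ⊢
      have h2 := congrArg (gc 𝒜 (b j - a i)) h1
      rw [map_sum] at h2
      have h3 : ∀ l ∈ Finset.univ, gc 𝒜 (b j - a i) ((w l • g l) i) = (w' l • g l) i := by
        intro l _
        rw [Pi.smul_apply, Pi.smul_apply, smul_eq_mul, smul_eq_mul, mul_comm, gc_mul 𝒜 (hg l i), mul_comm]
        have e : b j - a i - (b l - a i) = b j - b l := by ring
        rw [e]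
      rw [Finset.sum_congr rfl h3] at h2
      rw [h2, Pi.zero_apply, map_zero]
    have hwj : w' j = algebraMap k R c := by
      rw [hw']
      show gc 𝒜 (b j - b j) (w j) = _
      rw [sub_self, hc]
    -- remove `g j`
    obtain ⟨s', rfl⟩ : ∃ s', s = s' + 1 := ⟨s - 1, by have := j.2; omega⟩
    apply hmin s' (Nat.lt_succ_self s')
    refine ⟨fun l => b (j.succAbove l), fun l => g (j.succAbove l), fun l i => hg _ i, ?_⟩
    have hsub : ∀ l, l ≠ j → g l ∈ Submodule.span R (Set.range fun l => g (j.succAbove l)) := by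
      intro l hl
      obtain ⟨l', rfl⟩ := Fin.exists_succAbove_eq hl
      exact Submodule.subset_span ⟨l', rfl⟩
    have hj' : g j ∈ Submodule.span R (Set.range fun l => g (j.succAbove l)) := by
      have h1 : w' j • g j = - ∑ l ∈ Finset.univ.erase j, w' l • g l := by
        rw [← Finset.add_sum_erase _ _ (Finset.mem_univ j)] at hrel
        exact eq_neg_of_add_eq_zero_left hrel
      have h2 : w' j • g j ∈ Submodule.span R (Set.range fun l => g (j.succAbove l)) := by
        rw [h1]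
        exact Submodule.neg_mem _ (Submodule.sum_mem _ fun l hl =>
          Submodule.smul_mem _ _ (hsub l (Finset.ne_of_mem_erase hl)))
      have h3 : g j = algebraMap k R c⁻¹ • (w' j • g j) := by
        rw [hwj, smul_smul, ← map_mul, inv_mul_cancel₀ hc0, map_one, one_smul]
      rw [h3]
      exact Submodule.smul_mem _ _ h2
    apply le_antisymm
    · rw [← hspan]
      apply Submodule.span_mono
      rintro _ ⟨l, rfl⟩
      exact ⟨_, rfl⟩
    · rw [← hspan, Submodule.span_le]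
      rintro _ ⟨l, rfl⟩
      by_cases hl : l = j
      · rw [hl]
        exact hj'
      · exact hsub l hl
  · intro h0
    by_contra hs0
    apply hmin 0 (Nat.pos_of_ne_zero hs0)
    refine ⟨fun j => j.elim0, fun j => j.elim0, fun j => j.elim0, ?_⟩
    have h1 : K = ⊥ := (Submodule.eq_bot_iff K).2 h0
    rw [h1, Submodule.span_eq_bot]
    rintro _ ⟨j, _⟩
    exact j.elim0

end VG
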