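import Pool.Agent.VG.GBas

/-!
Project VG, module Qgr: the grading of `k[x]/I`.

PLAN.  Decomposition of `mk f`: `∑ d, mk (weightedHomogeneousComponent w d f)`; it is well defined
because `I` is homogeneous (`HomI`).  For the instance use `GradedAlgebra.ofAlgHom` or build
`DirectSum.Decomposition` with `Ideal.Quotient.lift`-type map; `one_mem`, `mul_mem` from
`weightedHomogeneousSubmodule`.  Or: `DirectSum.Decomposition.ofLinearMap`/`IsInternal`:
independence: if `∑ d, mk (f d) = 0` with `f d` homogeneous of degree `d` then `∑ f d ∈ I`, so each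
`f d ∈ I` by `HomI`.
`qgr_conn`: weighted degrees of monomials are `≥ 0` (`hw`), and a polynomial of degree `0` is a
constant (every monomial `m ≠ 0` has positive weight).
`irr_qgr`: the irrelevant ideal is the image of `Ideal.span (Set.range X)`.
-/

open MvPolynomial

namespace VG

universe u

variable {k : Type u} [Field k] {n : ℕ} (w : Fin n → ℤ) (I : Ideal (MvPolynomial (Fin n) k))

private theorem sum_comp (f : MvPolynomial (Fin n) k) :
    f = ∑ d ∈ f.support.image (Finsupp.weight w), weightedHomogeneousComponent w d f := by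
  classical
  conv_lhs => rw [← sum_weightedHomogeneousComponent w f]
  apply finsum_eq_sum_of_support_subset
  intro d hd
  by_contra h
  exact hd (weightedHomogeneousComponent_eq_zero_of_notMem w f d (by simpa using h))

private theorem gmon : SetLike.GradedMonoid (qgr w I) where
  one_mem := ⟨1, isWeightedHomogeneous_one k w, map_one (Ideal.Quotient.mk I)⟩
  mul_mem := by
    rintro i j _ _ ⟨f, hf, rfl⟩ ⟨g, hg, rfl⟩
    exact ⟨f * g, IsWeightedHomogeneous.mul hf hg, map_mul (Ideal.Quotient.mk I) f g⟩

private theorem intern (hI : HomI w I) : DirectSum.IsInternal (qgr w I) := by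
  classical
  constructor
  · rw [injective_iff_map_eq_zero]
    intro x hx
    have hrep : ∀ d, ∃ f : MvPolynomial (Fin n) k, IsWeightedHomogeneous w f d ∧
        Ideal.Quotient.mk I f = (x d : MvPolynomial (Fin n) k ⧸ I) := by
      intro d
      obtain ⟨f, hf, h⟩ := (x d).2
      exact ⟨f, hf, h⟩
    choose f hf hfx using hrep
    have hsum : (∑ d ∈ DFinsupp.support x, f d) ∈ I := by
      rw [← Ideal.Quotient.eq_zero_iff_mem, map_sum, ← hx]
      rw [DirectSum.coeAddMonoidHom_eq_dfinsuppSum]
      exact Finset.sum_congr rfl (fun d _ => hfx d)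
    apply DFinsupp.ext
    intro e
    by_cases he : e ∈ DFinsupp.support x
    · have h1 := hI _ hsum e
      rw [map_sum, Finset.sum_eq_single e] at h1
      · rw [(hf e).weightedHomogeneousComponent_same] at h1
        apply Subtype.ext
        rw [← hfx e, Ideal.Quotient.eq_zero_iff_mem.mpr h1]
        rfl
      · intro d _ hde
        exact (hf d).weightedHomogeneousComponent_ne e (Ne.symm hde)
      · intro h
        exact absurd he h
    · simpa using he
  · intro x
    obtain ⟨f, rfl⟩ := Ideal.Quotient.mk_surjective x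
    refine ⟨∑ d ∈ f.support.image (Finsupp.weight w), DirectSum.of (fun i => qgr w I i) d
      ⟨Ideal.Quotient.mk I (weightedHomogeneousComponent w d f),
        ⟨_, weightedHomogeneousComponent_mem w f d, rfl⟩⟩, ?_⟩
    rw [map_sum]
    conv_rhs => rw [sum_comp w f, map_sum]
    exact Finset.sum_congr rfl (fun d _ => DirectSum.coeAddMonoidHom_of _ _ _)

/-- the grading of the quotient by a homogeneous ideal -/
noncomputable def qGraded (hI : HomI w I) : GradedAlgebra (qgr w I) :=
  { gmon w I with toDecomposition := (intern w I hI).chooseDecomposition }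

private theorem weight_nonneg (hw : ∀ i, 0 < w i) (m : Fin n →₀ ℕ) : 0 ≤ Finsupp.weight w m := by
  rw [Finsupp.weight_apply]
  exact Finset.sum_nonneg (fun i _ => by
    have := (hw i).le
    positivity)

private theorem weight_pos (hw : ∀ i, 0 < w i) (m : Fin n →₀ ℕ) (hm : m ≠ 0) :
    0 < Finsupp.weight w m := by
  rw [Finsupp.weight_apply]
  obtain ⟨i, hi⟩ := Finsupp.ne_iff.mp hm
  apply Finset.sum_pos' (fun i _ => by
    have := (hw i).le
    positivity)
  refine ⟨i, by simpa using hi, ?_⟩
  have h1 := hw i
  have h2 : 0 < m i := Nat.pos_of_ne_zero hi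
  have : (0 : ℤ) < (m i : ℤ) := by exact_mod_cast h2
  change 0 < m i • w i
  rw [nsmul_eq_mul]
  positivity

theorem qgr_conn (hw : ∀ i, 0 < w i) : Conn (qgr w I) := by
  constructor
  · rintro d hd _ ⟨f, hf, rfl⟩
    have : f = 0 := by
      ext m
      rw [coeff_zero]
      by_contra h
      have h1 := hf h
      have h2 := weight_nonneg w hw m
      omega
    rw [this, map_zero]
  · rintro _ ⟨f, hf, rfl⟩
    refine ⟨coeff 0 f, ?_⟩
    have : f = C (coeff 0 f) := by
      classical
      ext m
      rw [coeff_C]
      split_ifs with h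
      · rw [h]
      · by_contra h'
        have h1 := hf h'
        have h2 := weight_pos w hw m (Ne.symm h)
        omega
    conv_lhs => rw [this]
    rfl

theorem gc_mk (hI : HomI w I) (d : ℤ) (f : MvPolynomial (Fin n) k) :
    @gc k _ _ _ _ (qgr w I) (qGraded w I hI) d (Ideal.Quotient.mk I f) =
      Ideal.Quotient.mk I (weightedHomogeneousComponent w d f) := by
  classical
  let _ := qGraded w I hI
  have h1 : ∀ e, gc (qgr w I) d (Ideal.Quotient.mk I (weightedHomogeneousComponent w e f)) =
      if e = d then Ideal.Quotient.mk I (weightedHomogeneousComponent w e f) else 0 := by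
    intro e
    have hmem : Ideal.Quotient.mk I (weightedHomogeneousComponent w e f) ∈ qgr w I e :=
      ⟨_, weightedHomogeneousComponent_mem w f e, rfl⟩
    split_ifs with h
    · subst h
      exact gc_same _ hmem
    · exact gc_ne _ hmem h
  have h2 : gc (qgr w I) d (Ideal.Quotient.mk I f) =
      ∑ e ∈ f.support.image (Finsupp.weight w),
        gc (qgr w I) d (Ideal.Quotient.mk I (weightedHomogeneousComponent w e f)) := by
    conv_lhs => rw [sum_comp w f, map_sum, map_sum]
  rw [h2]
  simp_rw [h1]
  rw [Finset.sum_ite_eq']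
  split_ifs with h
  · rfl
  · rw [weightedHomogeneousComponent_eq_zero_of_notMem w f d h, map_zero]

theorem irr_qgr (hw : ∀ i, 0 < w i) :
    irr (qgr w I) = (Ideal.span (Set.range (X : Fin n → MvPolynomial (Fin n) k))).map
      (Ideal.Quotient.mk I) := by
  apply le_antisymm
  · apply Ideal.span_le.mpr
    rintro _ ⟨d, hd, f, hf, rfl⟩
    apply Ideal.mem_map_of_mem
    rw [← Set.image_univ, mem_ideal_span_X_image]
    intro m hm
    have h1 := hf (mem_support_iff.mp hm)
    have h2 : m ≠ 0 := by
      rintro rfl
      rw [map_zero] at h1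
      omega
    obtain ⟨i, hi⟩ := Finsupp.ne_iff.mp h2
    exact ⟨i, Set.mem_univ _, hi⟩
  · rw [Ideal.map_span]
    apply Ideal.span_le.mpr
    rintro _ ⟨_, ⟨i, rfl⟩, rfl⟩
    exact Ideal.subset_span ⟨w i, hw i, X i, isWeightedHomogeneous_X k w i, rfl⟩

/-- homogeneous generators of a homogeneous ideal -/
theorem exists_hom_gens (hI : HomI w I) :
    ∃ (μ : ℕ) (f : Fin μ → I) (t : Fin μ → ℤ),
      (∀ j, (f j : MvPolynomial (Fin n) k) ∈ weightedHomogeneousSubmodule k w (t j)) ∧
      Submodule.span (MvPolynomial (Fin n) k) (Set.range f) = ⊤ := by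
  classical
  obtain ⟨s, hs⟩ : ∃ s : Finset (MvPolynomial (Fin n) k), Ideal.span (s : Set _) = I :=
    (inferInstance : IsNoetherianRing (MvPolynomial (Fin n) k)).noetherian I
  have hsI : ∀ g ∈ s, g ∈ I := fun g hg => by
    rw [← hs]
    exact Ideal.subset_span hg
  let ι := Σ g : s, ((g : MvPolynomial (Fin n) k).support.image (Finsupp.weight w))
  let F : ι → I := fun p =>
    ⟨weightedHomogeneousComponent w (p.2 : ℤ) (p.1 : MvPolynomial (Fin n) k),
      hI _ (hsI _ p.1.2) _⟩
  let e : Fin (Fintype.card ι) ≃ ι := (Fintype.equivFin ι).symm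
  refine ⟨Fintype.card ι, fun j => F (e j), fun j => ((e j).2 : ℤ), ?_, ?_⟩
  · intro j
    exact weightedHomogeneousComponent_mem w _ _
  · have hr : Set.range (fun j => F (e j)) = Set.range F := e.surjective.range_comp F
    have hsp : Submodule.span (MvPolynomial (Fin n) k) (Set.range fun j => F (e j)) =
        Submodule.span (MvPolynomial (Fin n) k) (Set.range F) := congrArg _ hr
    refine hsp.trans ?_
    apply Submodule.map_injective_of_injective (f := I.subtype) I.injective_subtype
    rw [Submodule.map_top, Submodule.range_subtype]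
    apply le_antisymm
    · rintro _ ⟨x, _, rfl⟩
      exact x.2
    · conv_lhs => rw [← hs]
      apply Ideal.span_le.mpr
      intro g hg
      rw [Submodule.map_span]
      change g ∈ Submodule.span _ _
      rw [sum_comp w g]
      apply Submodule.sum_mem
      intro d hd
      apply Submodule.subset_span
      exact ⟨F ⟨⟨g, hg⟩, ⟨d, hd⟩⟩, ⟨_, rfl⟩, rfl⟩

end VG
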