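import Pool.Agent.VG.GAv

/-!
Project VG, module Sop: homogeneous systems of parameters whose first elements lie in a given
homogeneous ideal.

The sequence is built one element at a time: the next element avoids the minimal primes of the
ideal generated by the elements before (graded prime avoidance, Krull height theorem).
-/

namespace VG

universe u

variable {k R : Type u} [Field k] [CommRing R] [Algebra k R] (𝒜 : ℤ → Submodule k R)
  [GradedAlgebra 𝒜]

private theorem step [Nontrivial R] [IsNoetherianRing R] (hC : Conn 𝒜) (J : Ideal R)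
    (hJ : J.IsHomogeneous 𝒜) (h d : ℕ) (hd : (irr 𝒜).height = d)
    (hJp : ∀ p : Ideal R, p.IsPrime → p.IsHomogeneous 𝒜 → J ≤ p →
      ((h + 1 : ℕ) : ℕ∞) ≤ p.height) (i : ℕ) (hi : i ≤ d) :
    ∃ (y : Fin i → R) (b : Fin i → ℤ), (∀ a, 0 < b a ∧ y a ∈ 𝒜 (b a)) ∧
      (∀ a : Fin i, a.val ≤ h → y a ∈ J) ∧
      ∀ p : Ideal R, p.IsPrime → Ideal.span (Set.range y) ≤ p → (i : ℕ∞) ≤ p.height := by
  induction i with
  | zero =>
    refine ⟨Fin.elim0, Fin.elim0, fun a => a.elim0, fun a => a.elim0, fun p _ _ => ?_⟩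
    rw [Nat.cast_zero]
    exact zero_le
  | succ i ih =>
    obtain ⟨y, b, h1, h2, h3⟩ := ih (by omega)
    have hQ : (Ideal.span (Set.range y)).IsHomogeneous 𝒜 := by
      refine Ideal.homogeneous_span 𝒜 _ fun x hx => ?_
      obtain ⟨a, rfl⟩ := hx
      exact ⟨b a, (h1 a).2⟩
    have hfin := Ideal.finite_minimalPrimes_of_isNoetherianRing R (Ideal.span (Set.range y))
    have hht : ∀ p ∈ (Ideal.span (Set.range y)).minimalPrimes, p.height ≤ (i : ℕ∞) := by
      intro p hp
      refine (Ideal.height_le_card_of_mem_minimalPrimes_span (Set.finite_range y) hp).trans ?_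
      have h4 : (Set.range y).ncard ≤ i := by
        rw [← Set.image_univ]
        refine (Set.ncard_image_le Set.finite_univ).trans ?_
        rw [Set.ncard_univ, Nat.card_eq_fintype_card, Fintype.card_fin]
      exact_mod_cast h4
    obtain ⟨J', hJ'1, hJ'2, hJ'3, hJ'4⟩ : ∃ J' : Ideal R, J'.IsHomogeneous 𝒜 ∧ J' ≤ irr 𝒜 ∧
        (i ≤ h → J' ≤ J) ∧ ∀ p ∈ (Ideal.span (Set.range y)).minimalPrimes, ¬ J' ≤ p := by
      have h5 : ∀ p ∈ (Ideal.span (Set.range y)).minimalPrimes, ¬ irr 𝒜 ≤ p := by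
        intro p hp hle
        have h6 := (Ideal.height_mono hle).trans (hht p hp)
        rw [hd] at h6
        have h7 : d ≤ i := by exact_mod_cast h6
        omega
      by_cases hih : i ≤ h
      · refine ⟨J ⊓ irr 𝒜, hJ.inf (irr_hom 𝒜), inf_le_right, fun _ => inf_le_left, ?_⟩
        intro p hp hle
        have hpp : p.IsPrime := hp.1.1
        rcases (Ideal.IsPrime.inf_le hpp).1 hle with h6 | h6
        · have h7 := (hJp p hpp (minimal_hom 𝒜 _ hQ p hp) h6).trans (hht p hp)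
          have h8 : h + 1 ≤ i := by exact_mod_cast h7
          omega
        · exact h5 p hp h6
      · exact ⟨irr 𝒜, irr_hom 𝒜, le_rfl, fun h' => absurd h' hih, h5⟩
    obtain ⟨z, c, hc, hz, hzJ, hzp⟩ := graded_avoid 𝒜 hC J' hJ'1 hJ'2 hfin.toFinset (by
      intro p hp
      rw [Set.Finite.mem_toFinset] at hp
      exact ⟨hp.1.1, hJ'4 p hp⟩)
    refine ⟨Fin.snoc (α := fun _ => R) y z, Fin.snoc (α := fun _ => ℤ) b c, ?_, ?_, ?_⟩
    · intro a
      refine Fin.lastCases ?_ (fun a => ?_) a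
      · rw [Fin.snoc_last, Fin.snoc_last]
        exact ⟨hc, hz⟩
      · rw [Fin.snoc_castSucc, Fin.snoc_castSucc]
        exact h1 a
    · intro a
      refine Fin.lastCases ?_ (fun a => ?_) a
      · intro ha
        rw [Fin.snoc_last]
        exact hJ'3 (by simpa using ha) hzJ
      · intro ha
        rw [Fin.snoc_castSucc]
        exact h2 a (by simpa using ha)
    · intro p hp hle
      have h6 : Ideal.span (Set.range y) ≤ p := by
        rw [Ideal.span_le]
        rintro _ ⟨a, rfl⟩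
        refine hle (Ideal.subset_span ⟨a.castSucc, ?_⟩)
        rw [Fin.snoc_castSucc]
      have h7 : z ∈ p := by
        refine hle (Ideal.subset_span ⟨Fin.last i, ?_⟩)
        rw [Fin.snoc_last]
      obtain ⟨p', hp', hpp'⟩ := Ideal.exists_minimalPrimes_le h6
      have hp'p : p'.IsPrime := hp'.1.1
      have h8 : p' < p := by
        refine lt_of_le_of_ne hpp' ?_
        rintro rfl
        exact hzp p' (hfin.mem_toFinset.2 hp') h7
      have h9 := Ideal.height_add_one_le_of_lt_of_isPrime h8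
      have h10 := h3 p' hp'p hp'.1.2
      rw [Nat.cast_add, Nat.cast_one]
      exact (add_le_add_left h10 1).trans h9

theorem exists_sop [Nontrivial R] [IsNoetherianRing R] (hC : Conn 𝒜) (J : Ideal R)
    (hJ : J.IsHomogeneous 𝒜) (h d : ℕ) (hd : (irr 𝒜).height = d) (hhd : h + 1 ≤ d)
    (hJp : ∀ p : Ideal R, p.IsPrime → p.IsHomogeneous 𝒜 → J ≤ p →
      ((h + 1 : ℕ) : ℕ∞) ≤ p.height) :
    ∃ (y : Fin d → R) (b : Fin d → ℤ) (N : ℕ), (∀ a, 0 < b a ∧ y a ∈ 𝒜 (b a)) ∧
      (∀ a : Fin d, a.val ≤ h → y a ∈ J) ∧ (irr 𝒜) ^ N ≤ Ideal.span (Set.range y) := by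
  obtain ⟨y, b, h1, h2, h3⟩ := step 𝒜 hC J hJ h d hd hJp d le_rfl
  have hQ : (Ideal.span (Set.range y)).IsHomogeneous 𝒜 := by
    refine Ideal.homogeneous_span 𝒜 _ fun x hx => ?_
    obtain ⟨a, rfl⟩ := hx
    exact ⟨b a, (h1 a).2⟩
  have h4 : irr 𝒜 ≤ (Ideal.span (Set.range y)).radical := by
    rw [← Ideal.sInf_minimalPrimes]
    refine le_sInf fun p hp => ?_
    have hpp : p.IsPrime := hp.1.1
    have h5 := hom_le_irr 𝒜 hC p (minimal_hom 𝒜 _ hQ p hp) hpp.ne_top
    by_contra h6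
    have h7 : p < irr 𝒜 := lt_of_le_not_ge h5 h6
    have h8 := Ideal.height_strict_mono_of_isPrime h7
    rw [hd] at h8
    exact absurd (h3 p hpp hp.1.2) (not_le.2 h8)
  obtain ⟨N, hN⟩ := Ideal.exists_pow_le_of_le_radical_of_fg h4 (IsNoetherian.noetherian _)
  exact ⟨y, b, N, h1, h2, hN⟩

end VG
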