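import Pool.Agent.VG.Forms

/-!
Project VG, module TopF: the coefficient of the top form.

Products of one-forms; `iE` lowers the degree by one, products of `d + 1` one-forms vanish.
-/

open Matrix

namespace VG

universe u

variable (K : Type u) [Field K] (d : ℕ)

/-- the determinant in degree `d`, zero in the other degrees -/
noncomputable def topA (i : ℕ) : (Fin d → K) [⋀^Fin i]→ₗ[K] K :=
  if h : i = d then
    (Matrix.detRowAlternating (R := K) (n := Fin d)).domDomCongr (finCongr h.symm)
  else 0

/-- the coefficient of the top form -/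
noncomputable def topF : ExteriorAlgebra K (Fin d → K) →ₗ[K] K :=
  ExteriorAlgebra.liftAlternating (topA K d)

theorem topF_ofFn (m : Fin d → Fin d → K) :
    topF K d ((List.ofFn fun i => io (m i)).prod) = Matrix.det (Matrix.of m) := by
  have h1 : topF K d ((List.ofFn fun i => io (m i)).prod) = topA K d d m :=
    ExteriorAlgebra.liftAlternating_apply_ιMulti (topA K d) m
  rw [h1]
  unfold topA
  rw [dif_pos rfl]
  rfl

private theorem tf_list {V : Type u} [AddCommGroup V] [Module K V] (L : List V) :
    (L.map fun x => (io x : ExteriorAlgebra K V)).prod = ExteriorAlgebra.ιMulti K L.length L.get := by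
  rw [ExteriorAlgebra.ιMulti_apply]
  conv_lhs => rw [← List.ofFn_get L]
  rw [List.map_ofFn]
  rfl

theorem topF_prod_ne (L : List (Fin d → K)) (hL : L.length ≠ d) :
    topF K d ((L.map fun x => io x).prod) = 0 := by
  rw [tf_list]
  have h1 : topF K d (ExteriorAlgebra.ιMulti K L.length L.get) = topA K d L.length L.get :=
    ExteriorAlgebra.liftAlternating_apply_ιMulti (topA K d) L.get
  rw [h1]
  unfold topA
  rw [dif_neg hL]
  rfl

private theorem tf_mul {V : Type u} [AddCommGroup V] [Module K V] {S T : Set (ExteriorAlgebra K V)} (x : V)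
    (h : ∀ y ∈ S, io x * y ∈ T) : ∀ z ∈ Submodule.span K S, io x * z ∈ Submodule.span K T := by
  intro z hz
  induction hz using Submodule.span_induction with
  | mem y hy => exact Submodule.subset_span (h y hy)
  | zero =>
    rw [mul_zero]
    exact Submodule.zero_mem _
  | add a b _ _ ha hb =>
    rw [mul_add]
    exact Submodule.add_mem _ ha hb
  | smul c a _ ha =>
    rw [mul_smul_comm]
    exact Submodule.smul_mem _ c ha

private theorem tf_iE {V : Type u} [AddCommGroup V] [Module K V] (ε : V →ₗ[K] K) (L : List V) :
    iE ε ((L.map fun x => (io x : ExteriorAlgebra K V)).prod) ∈ Submodule.span K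
      {z | ∃ L' : List V, L'.length + 1 = L.length ∧ z = (L'.map fun x => (io x : ExteriorAlgebra K V)).prod} := by
  induction L with
  | nil =>
    rw [List.map_nil, List.prod_nil, iE_one]
    exact Submodule.zero_mem _
  | cons x L ih =>
    rw [List.map_cons, List.prod_cons, iE_io_mul]
    refine Submodule.sub_mem _ ?_ ?_
    · exact Submodule.smul_mem _ _ (Submodule.subset_span ⟨L, rfl, rfl⟩)
    · refine tf_mul K x ?_ _ ih
      rintro y ⟨L', hL', rfl⟩
      refine ⟨x :: L', ?_, ?_⟩
      · rw [List.length_cons, List.length_cons, hL']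
      · rw [List.map_cons, List.prod_cons]

private theorem tf_span {V : Type u} [AddCommGroup V] [Module K V] (z : ExteriorAlgebra K V) :
    z ∈ Submodule.span K {z | ∃ L : List V, z = (L.map fun x => (io x : ExteriorAlgebra K V)).prod} := by
  induction z using CliffordAlgebra.left_induction with
  | algebraMap r =>
    rw [Algebra.algebraMap_eq_smul_one]
    exact Submodule.smul_mem _ _ (Submodule.subset_span ⟨[], rfl⟩)
  | add a b ha hb => exact Submodule.add_mem _ ha hb
  | ι_mul a x ha =>
    refine tf_mul K x ?_ _ ha
    rintro y ⟨L, rfl⟩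
    exact ⟨x :: L, by rw [List.map_cons, List.prod_cons]⟩

private theorem tf_zero (L : List (Fin d → K)) (hL : L.length = d + 1) :
    (L.map fun x => (io x : ExteriorAlgebra K (Fin d → K))).prod = 0 := by
  rw [tf_list]
  refine AlternatingMap.map_linearDependent _ _ ?_
  intro hli
  have h1 := hli.fintype_card_le_finrank
  rw [Fintype.card_fin, Module.finrank_fin_fun] at h1
  omega

theorem topF_iE (ε : (Fin d → K) →ₗ[K] K) (z : ExteriorAlgebra K (Fin d → K)) :
    topF K d (iE ε z) = 0 := by
  have hz := tf_span K z
  induction hz using Submodule.span_induction with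
  | mem y hy =>
    obtain ⟨L, rfl⟩ := hy
    by_cases hL : L.length = d + 1
    · rw [tf_zero K d L hL, map_zero, map_zero]
    · have h1 := tf_iE K ε L
      generalize iE ε ((L.map fun x => (io x : ExteriorAlgebra K (Fin d → K))).prod) = w at h1
      induction h1 using Submodule.span_induction with
      | mem y hy =>
        obtain ⟨L', hL', rfl⟩ := hy
        exact topF_prod_ne K d L' (by omega)
      | zero => rw [map_zero]
      | add a b _ _ ha hb => rw [map_add, ha, hb, add_zero]
      | smul c a _ ha => rw [map_smul, ha, smul_zero]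
  | zero => rw [map_zero, map_zero]
  | add a b _ _ ha hb => rw [map_add, map_add, ha, hb, add_zero]
  | smul c a _ ha => rw [map_smul, map_smul, ha, smul_zero]

end VG
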