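import Mathlib

/-!
Project VG, module TrC: a determinant identity in a commutative ring.

PLAN.  `x b := ∑ a, z b a * m a b`.  `x b * x b = ∑ a a', z b a * z b a' * m a b * m a' b = 0`
by `hz0` and `hz` (for `b' = b`: `z b a * z b a' = - z b a' * z b a`; symmetrise: the sum equals its
negative; to avoid division by two split the double sum in `a < a'`, `a = a'`, `a > a'`).
`(∑ b, x b) ^ d = d! * ∏ b, x b` for commuting square zero elements (for example by
`Finset.sum_pow_eq_sum_piAntidiag`/multinomial theorem, or by the general lemma: for a finset `s`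
of indices `(∑ b ∈ s, x b)^(card s) = (card s)! ∏ b ∈ s, x b` and `(∑ b ∈ s, x b)^(card s + 1) = 0`,
induction on `s` with `add_pow`: only two terms survive).
`∏ b, x b = ∑ f : Fin d → Fin d, (∏ b, z b (f b)) * ∏ b, m (f b) b` (`Finset.prod_univ_sum`,
`Fintype.piFinset`); if `f` is not injective the product of the `z` vanishes (`f b = f b'`, `b ≠ b'`:
`z b a * z b' a = 0` by `hz1`); for a permutation `f`,
`∏ b, z b (f b) = sign f • ∏ b, z b b` (`Equiv.Perm.swap_induction_on`, `hz`).
-/

open Matrix Finset

namespace VG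

universe u

private theorem tc_add {Z : Type u} [CommRing Z] (S x : Z) (hx : x * x = 0) (n : ℕ) :
    (S + x) ^ (n + 1) = S ^ (n + 1) + ((n : Z) + 1) * (S ^ n * x) := by
  induction n with
  | zero => simp
  | succ n ih =>
    rw [pow_succ, ih]
    push_cast
    linear_combination ((n : Z) + 1) * S ^ n * hx

private theorem tc_pow {Z : Type u} [CommRing Z] {ι : Type} [DecidableEq ι] (x : ι → Z) (hx : ∀ b, x b * x b = 0)
    (s : Finset ι) : (∑ b ∈ s, x b) ^ s.card = (s.card.factorial : Z) * ∏ b ∈ s, x b ∧
      (∑ b ∈ s, x b) ^ (s.card + 1) = 0 := by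
  induction s using Finset.induction_on with
  | empty => simp
  | insert b s hb ih =>
    obtain ⟨h1, h2⟩ := ih
    rw [Finset.sum_insert hb, Finset.prod_insert hb, Finset.card_insert_of_notMem hb, add_comm (x b)]
    constructor
    · rw [tc_add _ _ (hx b), h2, h1, Nat.factorial_succ]
      push_cast
      ring
    · rw [tc_add _ _ (hx b), h2, pow_succ, h2]
      ring

private theorem tc_sign {Z : Type u} [CommRing Z] {d : ℕ} (z : Fin d → Fin d → Z)
    (hz : ∀ b b' a a', z b a * z b' a' = - (z b a' * z b' a)) (σ : Equiv.Perm (Fin d)) :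
    ∏ b, z b (σ b) = ((Equiv.Perm.sign σ : ℤ) : Z) * ∏ b, z b b := by
  induction σ using Equiv.Perm.swap_induction_on' with
  | one => simp
  | mul_swap σ x y hxy ih =>
    have h1 : ∏ b, z b ((σ * Equiv.swap x y) b) = - ∏ b, z b (σ b) := by
      have hy : y ∈ Finset.univ.erase x := Finset.mem_erase.2 ⟨hxy.symm, Finset.mem_univ y⟩
      rw [← Finset.mul_prod_erase Finset.univ _ (Finset.mem_univ x), ← Finset.mul_prod_erase (Finset.univ.erase x) _ hy,
        ← Finset.mul_prod_erase Finset.univ (fun b => z b (σ b)) (Finset.mem_univ x),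
        ← Finset.mul_prod_erase (Finset.univ.erase x) (fun b => z b (σ b)) hy]
      have h2 : ∏ b ∈ (Finset.univ.erase x).erase y, z b ((σ * Equiv.swap x y) b) =
          ∏ b ∈ (Finset.univ.erase x).erase y, z b (σ b) := by
        refine Finset.prod_congr rfl fun b hb => ?_
        have hb1 := (Finset.mem_erase.1 hb).1
        have hb2 := (Finset.mem_erase.1 (Finset.mem_erase.1 hb).2).1
        rw [Equiv.Perm.mul_apply, Equiv.swap_apply_of_ne_of_ne hb2 hb1]
      rw [h2, Equiv.Perm.mul_apply, Equiv.Perm.mul_apply, Equiv.swap_apply_left, Equiv.swap_apply_right]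
      have h3 := hz x y (σ y) (σ x)
      linear_combination (∏ b ∈ (Finset.univ.erase x).erase y, z b (σ b)) * h3
    rw [h1, ih, Equiv.Perm.sign_mul, Equiv.Perm.sign_swap hxy]
    push_cast
    ring

theorem sum_pow_det {Z : Type u} [CommRing Z] {d : ℕ} (z : Fin d → Fin d → Z)
    (hz : ∀ b b' a a', z b a * z b' a' = - (z b a' * z b' a))
    (hz0 : ∀ b a, z b a * z b a = 0) (hz1 : ∀ b b' a, z b a * z b' a = 0)
    (m : Matrix (Fin d) (Fin d) Z) :
    (∑ b, ∑ a, z b a * m a b) ^ d = (d.factorial : Z) * (m.det * ∏ b, z b b) := by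
  have hx : ∀ b, (∑ a, z b a * m a b) * (∑ a, z b a * m a b) = 0 := by
    intro b
    rw [Finset.sum_mul_sum, ← Finset.sum_product']
    refine Finset.sum_involution (fun p _ => (p.2, p.1)) ?_ ?_ ?_ ?_
    · rintro ⟨a, a'⟩ _
      show z b a * m a b * (z b a' * m a' b) + z b a' * m a' b * (z b a * m a b) = 0
      linear_combination (m a b * m a' b) * hz b b a a'
    · rintro ⟨a, a'⟩ _ h1 h2
      apply h1
      have h3 : a' = a := (Prod.mk.inj h2).1
      show z b a * m a b * (z b a' * m a' b) = 0
      rw [h3]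
      linear_combination (m a b * m a b) * hz0 b a
    · intro p _
      exact Finset.mem_univ _
    · intro p _
      rfl
  have h1 := (tc_pow (fun b => ∑ a, z b a * m a b) hx Finset.univ).1
  rw [Finset.card_univ, Fintype.card_fin] at h1
  rw [h1]
  congr 1
  rw [Finset.prod_univ_sum, Fintype.piFinset_univ, Matrix.det_apply', Finset.sum_mul]
  symm
  refine Finset.sum_of_injOn (fun σ : Equiv.Perm (Fin d) => (σ : Fin d → Fin d)) ?_ ?_ ?_ ?_
  · intro σ _ τ _ h
    exact Equiv.coe_fn_injective h
  · intro σ _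
    exact Finset.mem_coe.2 (Finset.mem_univ _)
  · intro f _ hf
    have hni : ¬ Function.Injective f := by
      intro hi
      apply hf
      exact ⟨Equiv.ofBijective f (Finite.injective_iff_bijective.1 hi), Finset.mem_coe.2 (Finset.mem_univ _), rfl⟩
    rw [Function.Injective] at hni
    push Not at hni
    obtain ⟨b, b', hbb, hne⟩ := hni
    have hy : b' ∈ Finset.univ.erase b := Finset.mem_erase.2 ⟨hne.symm, Finset.mem_univ _⟩
    rw [← Finset.mul_prod_erase Finset.univ _ (Finset.mem_univ b), ← Finset.mul_prod_erase (Finset.univ.erase b) _ hy]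
    have h3 := hz1 b b' (f b)
    rw [← hbb]
    linear_combination (m (f b) b * m (f b) b' * ∏ x ∈ (Finset.univ.erase b).erase b', z x (f x) * m (f x) x) * h3
  · intro σ _
    rw [Finset.prod_mul_distrib, tc_sign z hz σ]
    ring

end VG
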