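import Pool.Agent.VG.TopF
import Pool.Agent.VG.TrC

/-!
Project VG, module TrE: Grassmann generators `xi`, `eta`, and the power of `X0`.

PLAN.  `xi a`, `eta b` are `io` of distinct basis vectors, so they anticommute and square to zero
(`io_mul_comm`, `io_mul_self`); `eta b * xi a` is central (`center_two`: it commutes with every
`io v`, which generate the exterior algebra: `ExteriorAlgebra.induction` or
`CliffordAlgebra.adjoin_range_ι`).
`pow_X0`: let `C = Subalgebra.center K E` (a commutative ring), and `Φ : C ⊗[K] L → Matrix (Fin m) (Fin m) E`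
the ring homomorphism `z ⊗ l ↦ st z (ρ l)` (`Algebra.TensorProduct.lift`, the images commute; or
`Algebra.TensorProduct.productMap`-like construction for commuting algebra homs
`Algebra.TensorProduct.lift f g hcomm`).  `sum_pow_det` in `C ⊗[K] L` with
`z b a = (eta b * xi a) ⊗ 1`, matrix entries `1 ⊗ M a b`; `hz`, `hz0`, `hz1` follow from the
anticommutation.  Apply `Φ`; the determinant of `(1 ⊗ M a b)` is `1 ⊗ det M` (`RingHom.map_det`), the
product over `b` is taken in the commutative ring `C`, equal to the list product in `E`.
`top_unit`: the list product is the product of `io` of the `d + d` standard basis vectors in some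
order; `topF_ofFn`: determinant of a permutation matrix (`Matrix.det_permutation`), or: it is a
nonzero integer unit: square is `1`.
`top_int`: `topF` of a product of generators `xi`, `eta` is `0` (`topF_prod_ne`) or a determinant with
entries `0, 1` (`topF_ofFn`), so the image of an integer, in every subring `D`; the additive subgroup
generated by `c • (product of generators)`, `c ∈ D`, is closed under multiplication
(`Subring.closure_induction`).
-/

open Matrix

namespace VG

universe u

variable (K : Type u) [Field K] (d : ℕ)

/-- first half of the generators -/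
noncomputable def xi (a : Fin d) : ExteriorAlgebra K (Fin (d + d) → K) :=
  io (Pi.single (Fin.castAdd d a) 1)

/-- second half of the generators -/
noncomputable def eta (b : Fin d) : ExteriorAlgebra K (Fin (d + d) → K) :=
  io (Pi.single (Fin.natAdd d b) 1)

variable {K d}

/-- the matrix `w * A` -/
noncomputable def st {m : ℕ} (w : ExteriorAlgebra K (Fin (d + d) → K))
    (A : Matrix (Fin m) (Fin m) K) : Matrix (Fin m) (Fin m) (ExteriorAlgebra K (Fin (d + d) → K)) :=
  A.map fun c => c • w

theorem center_two (v v' : Fin (d + d) → K) :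
    (io v * io v' : ExteriorAlgebra K (Fin (d + d) → K)) ∈ Subring.center _ := by
  rw [Subring.mem_center_iff]
  intro g
  induction g using ExteriorAlgebra.induction with
  | algebraMap r => exact Algebra.commutes r _
  | ι x =>
    change io x * (io v * io v') = io v * io v' * io x
    have h1 : (io x : ExteriorAlgebra K (Fin (d + d) → K)) * io v = -(io v * io x) :=
      io_mul_comm x v
    have h2 : (io x : ExteriorAlgebra K (Fin (d + d) → K)) * io v' = -(io v' * io x) :=
      io_mul_comm x v'
    rw [← mul_assoc, h1, neg_mul, mul_assoc, h2, mul_neg, neg_neg, mul_assoc]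
  | mul a b ha hb => rw [mul_assoc, hb, ← mul_assoc, ha, mul_assoc]
  | add a b ha hb => rw [add_mul, mul_add, ha, hb]

private theorem st_mul_map {m : ℕ} (w : ExteriorAlgebra K (Fin (d + d) → K))
    (A : Matrix (Fin m) (Fin m) K) :
    Matrix.scalar (Fin m) w * A.map (algebraMap K (ExteriorAlgebra K (Fin (d + d) → K))) =
      st w A := by
  ext i j
  simp only [Matrix.scalar_apply, Matrix.diagonal_mul, Matrix.map_apply, st]
  rw [Algebra.smul_def, Algebra.commutes]

private theorem xi_sq (a : Fin d) : xi K d a * xi K d a = 0 := io_mul_self _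

private theorem eta_sq (b : Fin d) : eta K d b * eta K d b = 0 := io_mul_self _

private theorem xi_xi (a a' : Fin d) : xi K d a * xi K d a' = -(xi K d a' * xi K d a) :=
  io_mul_comm _ _

private theorem xi_eta (a b : Fin d) : xi K d a * eta K d b = -(eta K d b * xi K d a) :=
  io_mul_comm _ _

private theorem four (b b' a a' : Fin d) :
    eta K d b * xi K d a * (eta K d b' * xi K d a') =
      -(eta K d b * eta K d b' * (xi K d a * xi K d a')) := by
  calc eta K d b * xi K d a * (eta K d b' * xi K d a')
      = eta K d b * (xi K d a * eta K d b') * xi K d a' := by simp only [mul_assoc]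
    _ = -(eta K d b * eta K d b' * (xi K d a * xi K d a')) := by
      rw [xi_eta]
      simp only [mul_neg, neg_mul, mul_assoc]

theorem pow_X0 {L : Type u} [Field L] [Algebra K L] {m : ℕ}
    (ρ : L →ₐ[K] Matrix (Fin m) (Fin m) K) (M : Matrix (Fin d) (Fin d) L) :
    (∑ b, ∑ a, st (eta K d b * xi K d a) (ρ (M a b))) ^ d =
      (d.factorial : ℕ) • st ((List.ofFn fun b => eta K d b * xi K d b).prod) (ρ M.det) := by
  classical
  let E := ExteriorAlgebra K (Fin (d + d) → K)
  let C : Subalgebra K E := Subalgebra.center K E
  have hmem : ∀ b a : Fin d, eta K d b * xi K d a ∈ C := by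
    intro b a
    have h1 := center_two (K := K) (d := d) (Pi.single (Fin.natAdd d b) 1)
      (Pi.single (Fin.castAdd d a) 1)
    rw [Subring.mem_center_iff] at h1
    exact Subalgebra.mem_center_iff.2 h1
  let zC : Fin d → Fin d → C := fun b a => ⟨eta K d b * xi K d a, hmem b a⟩
  let f : C →ₐ[K] Matrix (Fin m) (Fin m) E := (Matrix.scalarAlgHom (Fin m) K).comp C.val
  let g : L →ₐ[K] Matrix (Fin m) (Fin m) E := (Algebra.ofId K E).mapMatrix.comp ρ
  have hcomm : ∀ x y, Commute (f x) (g y) := by
    intro x y
    change Matrix.scalar (Fin m) (x : E) * _ = _ * Matrix.scalar (Fin m) (x : E)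
    ext i j
    simp only [Matrix.scalar_apply, Matrix.diagonal_mul, Matrix.mul_diagonal]
    exact ((Subalgebra.mem_center_iff.1 x.2) _).symm
  let Φ : TensorProduct K C L →ₐ[K] Matrix (Fin m) (Fin m) E :=
    Algebra.TensorProduct.lift f g hcomm
  have hΦ : ∀ (c : C) (l : L), Φ (c ⊗ₜ[K] l) = st (c : E) (ρ l) := by
    intro c l
    change f c * g l = _
    exact st_mul_map (c : E) (ρ l)
  have key := sum_pow_det (Z := TensorProduct K C L) (d := d)
    (fun b a => zC b a ⊗ₜ[K] (1 : L)) (by
      intro b b' a a'
      rw [Algebra.TensorProduct.tmul_mul_tmul, Algebra.TensorProduct.tmul_mul_tmul]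
      have h0 : zC b a * zC b' a' = -(zC b a' * zC b' a) := by
        apply Subtype.ext
        change eta K d b * xi K d a * (eta K d b' * xi K d a') =
          -(eta K d b * xi K d a' * (eta K d b' * xi K d a))
        rw [four, four, xi_xi a a']
        simp
      rw [h0]
      exact TensorProduct.neg_tmul _ _) (by
      intro b a
      rw [Algebra.TensorProduct.tmul_mul_tmul]
      have : zC b a * zC b a = 0 := by
        apply Subtype.ext
        change eta K d b * xi K d a * (eta K d b * xi K d a) = 0
        rw [four, xi_sq]
        simp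
      rw [this, TensorProduct.zero_tmul]) (by
      intro b b' a
      rw [Algebra.TensorProduct.tmul_mul_tmul]
      have : zC b a * zC b' a = 0 := by
        apply Subtype.ext
        change eta K d b * xi K d a * (eta K d b' * xi K d a) = 0
        rw [four, xi_sq]
        simp
      rw [this, TensorProduct.zero_tmul])
    (M.map fun l => (1 : C) ⊗ₜ[K] l)
  have key2 := congrArg Φ key
  rw [map_pow, map_sum, map_mul, map_natCast] at key2
  have hL : ∀ b : Fin d, Φ (∑ a, zC b a ⊗ₜ[K] (1 : L) *
      (M.map fun l => (1 : C) ⊗ₜ[K] l) a b) = ∑ a, st (eta K d b * xi K d a) (ρ (M a b)) := by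
    intro b
    rw [map_sum]
    apply Finset.sum_congr rfl
    intro a _
    rw [Matrix.map_apply, Algebra.TensorProduct.tmul_mul_tmul, mul_one, one_mul, hΦ]
  rw [Finset.sum_congr rfl fun b _ => hL b] at key2
  rw [key2]
  have hdet : (M.map fun l => (1 : C) ⊗ₜ[K] l).det = (1 : C) ⊗ₜ[K] M.det := by
    have := (Algebra.TensorProduct.includeRight (R := K) (A := C) (B := L)).toRingHom.map_det M
    exact this.symm
  have hprod : ∏ b, (zC b b ⊗ₜ[K] (1 : L)) = (∏ b, zC b b) ⊗ₜ[K] (1 : L) := by
    have := map_prod (Algebra.TensorProduct.includeLeft (R := K) (S := K) (A := C) (B := L))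
      (fun b => zC b b) Finset.univ
    exact this.symm
  have hval : (((∏ b, zC b b : C)) : E) = (List.ofFn fun b => eta K d b * xi K d b).prod := by
    have h1 : (∏ b, zC b b : C) = (List.ofFn fun b => zC b b).prod := (List.prod_ofFn).symm
    rw [h1]
    have h2 := map_list_prod C.val (List.ofFn fun b => zC b b)
    rw [List.map_ofFn] at h2
    exact h2
  rw [hdet, hprod, Algebra.TensorProduct.tmul_mul_tmul, one_mul, mul_one, hΦ, hval, nsmul_eq_mul]

/-- The matrix of a list of basis vectors. -/
private theorem topF_list (L : List (Fin (d + d))) :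
    ∃ c : ℤ, topF K (d + d)
      ((L.map fun i => (io (Pi.single i 1) : ExteriorAlgebra K (Fin (d + d) → K))).prod) = c ∧
      (L.length = d + d → L.Nodup → c = 1 ∨ c = -1) := by
  by_cases hL : L.length = d + d
  · obtain ⟨σ, hσ⟩ : ∃ σ : Fin (d + d) → Fin (d + d), L = List.ofFn σ := by
      refine ⟨fun i => L.get (Fin.cast hL.symm i), ?_⟩
      apply List.ext_get
      · simp [hL]
      · intro n h1 h2
        simp
    refine ⟨(Matrix.of fun i j : Fin (d + d) => if j = σ i then (1 : ℤ) else 0).det, ?_, ?_⟩
    · rw [hσ, List.map_ofFn]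
      have h1 := topF_ofFn K (d + d) (fun i => Pi.single (σ i) (1 : K))
      have h2 : ((fun i : Fin (d + d) =>
          (io (Pi.single i 1) : ExteriorAlgebra K (Fin (d + d) → K))) ∘ σ) =
          fun i => io (Pi.single (σ i) 1) := rfl
      rw [h2, h1]
      have h3 := (Int.castRingHom K).map_det
        (Matrix.of fun i j : Fin (d + d) => if j = σ i then (1 : ℤ) else 0)
      rw [eq_intCast] at h3
      rw [h3]
      congr 1
      ext i j
      simp only [RingHom.mapMatrix_apply, Matrix.map_apply, Matrix.of_apply, Pi.single_apply]
      split_ifs <;> simp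
    · intro _ hn
      have hinj : Function.Injective σ := by
        rw [hσ] at hn
        exact List.nodup_ofFn.1 hn
      let τ : Equiv.Perm (Fin (d + d)) := Equiv.ofBijective σ (Finite.injective_iff_bijective.1 hinj)
      have h1 : (Matrix.of fun i j : Fin (d + d) => if j = σ i then (1 : ℤ) else 0) =
          (1 : Matrix (Fin (d + d)) (Fin (d + d)) ℤ).submatrix τ id := by
        ext i j
        simp only [Matrix.of_apply, Matrix.submatrix_apply, Matrix.one_apply, id]
        have : τ i = σ i := rfl
        rw [this]
        by_cases h : j = σ i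
        · rw [if_pos h, if_pos h.symm]
        · rw [if_neg h, if_neg (Ne.symm h)]
      rw [h1, Matrix.det_permute, Matrix.det_one, mul_one]
      rcases Int.units_eq_one_or (Equiv.Perm.sign τ) with h | h
      · left
        rw [h]
        rfl
      · right
        rw [h]
        rfl
  · refine ⟨0, ?_, fun h => absurd h hL⟩
    have h1 := topF_prod_ne K (d + d) (L.map fun i => (Pi.single i 1 : Fin (d + d) → K))
      (by rw [List.length_map]; exact hL)
    rw [List.map_map] at h1
    rw [Int.cast_zero]
    exact h1

theorem top_unit : topF K (d + d) ((List.ofFn fun b => eta K d b * xi K d b).prod) = 1 ∨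
    topF K (d + d) ((List.ofFn fun b => eta K d b * xi K d b).prod) = -1 := by
  let L : List (Fin (d + d)) :=
    (List.ofFn fun b : Fin d => [Fin.natAdd d b, Fin.castAdd d b]).flatten
  have hLp : (L.map fun i => (io (Pi.single i 1) : ExteriorAlgebra K (Fin (d + d) → K))).prod =
      (List.ofFn fun b => eta K d b * xi K d b).prod := by
    rw [List.map_flatten, List.prod_flatten, List.map_map, List.map_ofFn]
    congr 2
    funext b
    simp [eta, xi]
  have hlen : L.length = d + d := by
    simp only [L, List.length_flatten, List.map_ofFn]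
    rw [List.sum_ofFn]
    simp
    ring
  have hnd : L.Nodup := by
    rw [List.nodup_flatten]
    refine ⟨?_, ?_⟩
    · intro l hl
      rw [List.mem_ofFn] at hl
      obtain ⟨b, rfl⟩ := hl
      simp only [List.nodup_cons, List.mem_singleton, List.not_mem_nil, not_false_eq_true,
        List.nodup_nil, and_true]
      intro h
      have := congrArg Fin.val h
      simp only [Fin.val_natAdd, Fin.val_castAdd] at this
      omega
    · rw [List.pairwise_ofFn]
      intro i j hij
      rw [List.disjoint_left]
      intro x hx hx'
      simp only [List.mem_cons, List.not_mem_nil, or_false] at hx hx'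
      have hij' : (i : ℕ) < j := hij
      have := i.2
      have := j.2
      rcases hx with h | h <;> rcases hx' with h' | h' <;>
        · rw [h] at h'
          have h3 := congrArg Fin.val h'
          simp only [Fin.val_natAdd, Fin.val_castAdd] at h3
          omega
  obtain ⟨c, hc, h1⟩ := topF_list (K := K) (d := d) L
  rw [hLp] at hc
  rcases h1 hlen hnd with h | h
  · left
    rw [hc, h, Int.cast_one]
  · right
    rw [hc, h, Int.cast_neg, Int.cast_one]

theorem top_int (D : Subring K) (z : ExteriorAlgebra K (Fin (d + d) → K))
    (hz : z ∈ Subring.closure ({x | ∃ c ∈ D, x = algebraMap K _ c} ∪ {x | ∃ a, x = xi K d a} ∪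
      {x | ∃ b, x = eta K d b})) : topF K (d + d) z ∈ D := by
  let gen : Set (ExteriorAlgebra K (Fin (d + d) → K)) :=
    {x | ∃ c ∈ D, ∃ L : List (Fin (d + d)), x = c • (L.map fun i => io (Pi.single i 1)).prod}
  let G : AddSubgroup (ExteriorAlgebra K (Fin (d + d) → K)) := AddSubgroup.closure gen
  have hmul : ∀ x ∈ G, ∀ y ∈ G, x * y ∈ G := by
    intro x hx y hy
    induction hx using AddSubgroup.closure_induction with
    | mem x hx =>
      induction hy using AddSubgroup.closure_induction with
      | mem y hy =>
        obtain ⟨c, hc, L, rfl⟩ := hx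
        obtain ⟨c', hc', L', rfl⟩ := hy
        apply AddSubgroup.subset_closure
        refine ⟨c * c', D.mul_mem hc hc', L ++ L', ?_⟩
        rw [List.map_append, List.prod_append, smul_mul_smul_comm]
      | zero => rw [mul_zero]; exact G.zero_mem
      | add y y' _ _ h h' => rw [mul_add]; exact G.add_mem h h'
      | neg y _ h => rw [mul_neg]; exact G.neg_mem h
    | zero => rw [zero_mul]; exact G.zero_mem
    | add x x' _ _ h h' => rw [add_mul]; exact G.add_mem h h'
    | neg x _ h => rw [neg_mul]; exact G.neg_mem h
  have hzG : z ∈ G := by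
    induction hz using Subring.closure_induction with
    | mem x hx =>
      apply AddSubgroup.subset_closure
      rcases hx with (⟨c, hc, rfl⟩ | ⟨a, rfl⟩) | ⟨b, rfl⟩
      · refine ⟨c, hc, [], ?_⟩
        rw [List.map_nil, List.prod_nil, Algebra.algebraMap_eq_smul_one]
      · refine ⟨1, D.one_mem, [Fin.castAdd d a], ?_⟩
        simp [xi]
      · refine ⟨1, D.one_mem, [Fin.natAdd d b], ?_⟩
        simp [eta]
    | zero => exact G.zero_mem
    | one =>
      apply AddSubgroup.subset_closure
      exact ⟨1, D.one_mem, [], by simp⟩
    | add x y _ _ h h' => exact G.add_mem h h'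
    | neg x _ h => exact G.neg_mem h
    | mul x y _ _ h h' => exact hmul x h y h'
  clear hz
  induction hzG using AddSubgroup.closure_induction with
  | mem x hx =>
    obtain ⟨c, hc, L, rfl⟩ := hx
    obtain ⟨n, hn, _⟩ := topF_list (K := K) (d := d) L
    rw [map_smul, hn, smul_eq_mul]
    exact D.mul_mem hc (intCast_mem D n)
  | zero => rw [map_zero]; exact D.zero_mem
  | add x y _ _ h h' => rw [map_add]; exact D.add_mem h h'
  | neg x _ h => rw [map_neg]; exact D.neg_mem h

end VG
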