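import Pool.Agent.VG.TrB
import Pool.Agent.VG.TrE

/-!
Project VG, module TrA: the trace lemma (integrality of `Tr (s det (∂_a r_b))`), Grassmann proof.

PLAN.  `ρ = Algebra.leftMulMatrix e : L →ₐ[K] Matrix (Fin m) (Fin m) K`; work in
`Matrix (Fin m) (Fin m) E`, `E = ExteriorAlgebra K (Fin (d + d) → K)` with `xi`, `eta`, `st` of TrE.
`rh = ∑ b, st (eta b) (ρ (r b))`, `G = ∑ a, st (xi a) (Γ a)` with `dL a (e j) = ∑ i, Γ a i j • e i`,
`X0 = ∑ b, ∑ a, st (eta b * xi a) (ρ (dL a (r b)))`,
`X = ∑ b, ∑ a, st (eta b * xi a) ((ρ (r b)).map (dK a))`, `S = st 1 (ρ s)`.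
(1) `dL a (x * e j)` computed in two ways (`x * e j = ∑ i, ρ x i j • e i`, Leibniz, `hc`) gives
`(ρ x).map (dK a) + Γ a * ρ x = ρ (dL a x) + ρ x * Γ a`.  Hence `X = X0 + (rh * G + G * rh)`
(`st w A * st w' A' = st (w * w') (A * A')`, `xi a * eta b = - eta b * xi a`).
(2) `rh * rh = 0` (the `ρ (r b)` commute, the `eta b` anticommute and square to zero);
`rh * S = S * rh`, `rh * X0 = X0 * rh` (`center_two`, the `ρ`s commute).
(3) `trace_inv` with `Od` = range of `io` (as additive subgroup... closed under multiplication by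
central elements is needed, so take
`Od = {x | (∀ v, x * io v + io v * x = 0) ∧ (∃ odd part...)}`; simplest: `Od` = additive subgroup
generated by the products `z * io v`, `z` central: two such elements anticommute, and it is closed
under multiplication by central elements).
(4) `pow_X0` with `M a b = dL a (r b)`: `trace (S * X0 ^ d) = (d! * Tr (s * det M)) • w`,
`w = (List.ofFn fun b => eta b * xi b).prod` (`Algebra.trace_eq_matrix_trace`), so
`topF (trace (S * X0 ^ d)) = ± d! * Tr (s * det M)` (`top_unit`).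
(5) the entries of `S`, `X` lie in the subring of `top_int` (`hs`, `hr`, `hD`), so
`topF (trace (S * X ^ d)) ∈ D`.
-/

open Matrix

namespace VG

universe u

section Aux

variable {K : Type u} [Field K] {d m : ℕ}

private theorem st_mul_st (w w' : ExteriorAlgebra K (Fin (d + d) → K))
    (A A' : Matrix (Fin m) (Fin m) K) : st w A * st w' A' = st (w * w') (A * A') := by
  ext i j
  simp only [st, Matrix.mul_apply, Matrix.map_apply, Finset.sum_smul]
  apply Finset.sum_congr rfl
  intro k _
  rw [smul_mul_smul_comm]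

private theorem st_add (w : ExteriorAlgebra K (Fin (d + d) → K))
    (A A' : Matrix (Fin m) (Fin m) K) : st w (A + A') = st w A + st w A' := by
  ext i j
  simp only [st, Matrix.map_apply, Matrix.add_apply, add_smul]

private theorem st_neg (w : ExteriorAlgebra K (Fin (d + d) → K))
    (A : Matrix (Fin m) (Fin m) K) : st w (-A) = -st w A := by
  ext i j
  simp only [st, Matrix.map_apply, Matrix.neg_apply, neg_smul]

private theorem neg_st (w : ExteriorAlgebra K (Fin (d + d) → K))
    (A : Matrix (Fin m) (Fin m) K) : st (-w) A = -st w A := by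
  ext i j
  simp only [st, Matrix.map_apply, Matrix.neg_apply, smul_neg]

private theorem st_zero (A : Matrix (Fin m) (Fin m) K) :
    st (0 : ExteriorAlgebra K (Fin (d + d) → K)) A = 0 := by
  ext i j
  simp only [st, Matrix.map_apply, Matrix.zero_apply, smul_zero]

private theorem trace_st (w : ExteriorAlgebra K (Fin (d + d) → K))
    (A : Matrix (Fin m) (Fin m) K) : Matrix.trace (st w A) = Matrix.trace A • w := by
  simp only [Matrix.trace, st, Matrix.diag_apply, Matrix.map_apply, Finset.sum_smul]

private theorem st_central (w : ExteriorAlgebra K (Fin (d + d) → K))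
    (hw : w ∈ Subring.center (ExteriorAlgebra K (Fin (d + d) → K)))
    (A : Matrix (Fin m) (Fin m) K) (i j : Fin m) :
    st w A i j ∈ Subring.center (ExteriorAlgebra K (Fin (d + d) → K)) := by
  simp only [st, Matrix.map_apply]
  rw [Algebra.smul_def]
  apply Subring.mul_mem _ _ hw
  rw [Subring.mem_center_iff]
  intro g
  exact (Algebra.commutes _ g).symm

private theorem sum_antisymm {A : Type u} [AddCommGroup A] {n : ℕ} (F : Fin n → Fin n → A)
    (h0 : ∀ b, F b b = 0) (h1 : ∀ b b', F b b' + F b' b = 0) : ∑ b, ∑ b', F b b' = 0 := by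
  rw [← Finset.sum_product']
  refine Finset.sum_involution (fun p _ => (p.2, p.1)) ?_ ?_ ?_ ?_
  · intro p _
    exact h1 p.1 p.2
  · intro p _ hp hpp
    apply hp
    have : p.2 = p.1 := congrArg Prod.fst hpp
    rw [this]
    exact h0 _
  · intro p _
    exact Finset.mem_product.2 ⟨Finset.mem_univ _, Finset.mem_univ _⟩
  · intro p _
    rfl

private theorem mat_mul_mem {E : Type u} [Ring E] (T : Subring E) (A B : Matrix (Fin m) (Fin m) E)
    (hA : ∀ i j, A i j ∈ T) (hB : ∀ i j, B i j ∈ T) (i j : Fin m) : (A * B) i j ∈ T := by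
  rw [Matrix.mul_apply]
  exact T.sum_mem fun k _ => T.mul_mem (hA i k) (hB k j)

private theorem mat_pow_mem {E : Type u} [Ring E] (T : Subring E) (A : Matrix (Fin m) (Fin m) E)
    (hA : ∀ i j, A i j ∈ T) (k : ℕ) (i j : Fin m) : (A ^ k) i j ∈ T := by
  induction k generalizing i j with
  | zero =>
    rw [pow_zero, Matrix.one_apply]
    split_ifs
    · exact T.one_mem
    · exact T.zero_mem
  | succ k ih =>
    rw [pow_succ]
    exact mat_mul_mem T _ _ ih hA i j

/-- odd elements -/
private noncomputable def Odd' (K : Type u) [Field K] (d : ℕ) :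
    AddSubgroup (ExteriorAlgebra K (Fin (d + d) → K)) :=
  AddSubgroup.closure {x | ∃ z ∈ Subring.center (ExteriorAlgebra K (Fin (d + d) → K)),
    ∃ v : Fin (d + d) → K, x = z * io v}

private theorem odd_anti (x z : ExteriorAlgebra K (Fin (d + d) → K)) (hx : x ∈ Odd' K d)
    (hz : z ∈ Odd' K d) : x * z + z * x = 0 := by
  unfold Odd' at hx hz
  induction hx using AddSubgroup.closure_induction with
  | mem x hx =>
    obtain ⟨c, hc, v, rfl⟩ := hx
    induction hz using AddSubgroup.closure_induction with
    | mem z hz =>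
      obtain ⟨c', hc', v', rfl⟩ := hz
      rw [Subring.mem_center_iff] at hc hc'
      have h1 : c * io v * (c' * io v') = c * c' * (io v * io v') := by
        rw [mul_assoc, ← mul_assoc (io v) c' (io v'), hc' (io v), mul_assoc c' (io v) (io v'),
          ← mul_assoc]
      have h2 : c' * io v' * (c * io v) = c * c' * (io v' * io v) := by
        rw [mul_assoc, ← mul_assoc (io v') c (io v), hc (io v'), mul_assoc c (io v') (io v),
          ← mul_assoc, hc c']
      rw [h1, h2, ← mul_add, io_mul_comm v v', neg_add_cancel, mul_zero]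
    | zero => rw [mul_zero, zero_mul, add_zero]
    | add y y' _ _ h h' =>
      rw [mul_add, add_mul]
      calc _ = (c * io v * y + y * (c * io v)) + (c * io v * y' + y' * (c * io v)) := by abel
        _ = 0 := by rw [h, h', add_zero]
    | neg y _ h =>
      rw [mul_neg, neg_mul, ← neg_add, h, neg_zero]
  | zero => rw [mul_zero, zero_mul, add_zero]
  | add y y' _ _ h h' =>
    rw [mul_add, add_mul]
    calc _ = (y * z + z * y) + (y' * z + z * y') := by abel
      _ = 0 := by rw [h, h', add_zero]
  | neg y _ h =>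
    rw [mul_neg, neg_mul, ← neg_add, h, neg_zero]

private theorem odd_central (x : ExteriorAlgebra K (Fin (d + d) → K)) (hx : x ∈ Odd' K d)
    (z : ExteriorAlgebra K (Fin (d + d) → K))
    (hz : z ∈ Subring.center (ExteriorAlgebra K (Fin (d + d) → K))) : z * x ∈ Odd' K d := by
  unfold Odd' at hx ⊢
  induction hx using AddSubgroup.closure_induction with
  | mem x hx =>
    obtain ⟨c, hc, v, rfl⟩ := hx
    apply AddSubgroup.subset_closure
    exact ⟨z * c, Subring.mul_mem _ hz hc, v, by rw [mul_assoc]⟩
  | zero => rw [mul_zero]; exact AddSubgroup.zero_mem _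
  | add y y' _ _ h h' => rw [mul_add]; exact AddSubgroup.add_mem _ h h'
  | neg y _ h => rw [mul_neg]; exact AddSubgroup.neg_mem _ h

private theorem st_odd (v : Fin (d + d) → K) (A : Matrix (Fin m) (Fin m) K) (i j : Fin m) :
    st (io v) A i j ∈ Odd' K d := by
  simp only [st, Matrix.map_apply]
  apply AddSubgroup.subset_closure
  refine ⟨algebraMap K _ (A i j), ?_, v, by rw [Algebra.smul_def]⟩
  rw [Subring.mem_center_iff]
  intro g
  exact (Algebra.commutes _ g).symm

end Aux

theorem trace_det_mem {K L : Type u} [Field K] [Field L] [Algebra K L] [FiniteDimensional K L]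
    (D : Subring K) {m : ℕ} (e : Module.Basis (Fin m) K L) {d : ℕ}
    (dK : Fin d → Derivation ℤ K K) (dL : Fin d → Derivation ℤ L L)
    (hc : ∀ a x, dL a (algebraMap K L x) = algebraMap K L (dK a x))
    (hD : ∀ a, ∀ x ∈ D, dK a x ∈ D)
    (s : L) (r : Fin d → L) (hs : ∀ i j, Algebra.leftMulMatrix e s i j ∈ D)
    (hr : ∀ b i j, Algebra.leftMulMatrix e (r b) i j ∈ D) :
    (d.factorial : K) *
      Algebra.trace K L (s * Matrix.det (Matrix.of fun a b => dL a (r b))) ∈ D := by
  classical
  obtain ⟨ρ, hρ⟩ : ∃ ρ : L →ₐ[K] Matrix (Fin m) (Fin m) K, ρ = Algebra.leftMulMatrix e := ⟨_, rfl⟩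
  rw [← hρ] at hs hr
  let Γ : Fin d → Matrix (Fin m) (Fin m) K := fun a => Matrix.of fun i j => e.repr (dL a (e j)) i
  -- the derivative of the multiplication matrix
  have hrel : ∀ a x, (ρ x).map (dK a) + Γ a * ρ x = ρ (dL a x) + ρ x * Γ a := by
    intro a x
    ext k j
    have hx : x * e j = ∑ i, ρ x i j • e i := by
      rw [← e.sum_repr (x * e j)]
      apply Finset.sum_congr rfl
      intro i _
      rw [hρ, Algebra.leftMulMatrix_eq_repr_mul]
    have hmul : ∀ z : L, e.repr (x * z) k = ∑ i, ρ x k i * e.repr z i := by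
      intro z
      conv_lhs => rw [← e.sum_repr z, Finset.mul_sum]
      rw [map_sum, Finsupp.finsetSum_apply]
      apply Finset.sum_congr rfl
      intro i _
      rw [mul_smul_comm, map_smul, Finsupp.smul_apply, smul_eq_mul, hρ,
        Algebra.leftMulMatrix_eq_repr_mul, mul_comm]
    have h1 : e.repr (dL a (x * e j)) k = (ρ (dL a x) + ρ x * Γ a) k j := by
      rw [Derivation.leibniz, map_add, Finsupp.add_apply, smul_eq_mul, smul_eq_mul, hmul,
        Matrix.add_apply, Matrix.mul_apply, add_comm]
      congr 1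
      rw [hρ, Algebra.leftMulMatrix_eq_repr_mul, mul_comm]
    have h2 : e.repr (dL a (x * e j)) k = ((ρ x).map (dK a) + Γ a * ρ x) k j := by
      rw [hx, map_sum, map_sum, Finsupp.finsetSum_apply, Matrix.add_apply, Matrix.mul_apply,
        Matrix.map_apply]
      have h3 : ∀ i, e.repr (dL a (ρ x i j • e i)) k =
          (if i = k then dK a (ρ x i j) else 0) + Γ a k i * ρ x i j := by
        intro i
        rw [Algebra.smul_def, Derivation.leibniz, hc, smul_eq_mul, smul_eq_mul,
          ← Algebra.smul_def, mul_comm (e i), ← Algebra.smul_def, map_add, Finsupp.add_apply,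
          map_smul, map_smul, Finsupp.smul_apply, Finsupp.smul_apply, smul_eq_mul, smul_eq_mul,
          Module.Basis.repr_self, Finsupp.single_apply, add_comm, mul_ite, mul_one, mul_zero]
        congr 1
        rw [mul_comm]
        rfl
      rw [Finset.sum_congr rfl fun i _ => h3 i, Finset.sum_add_distrib]
      congr 1
      rw [Finset.sum_ite_eq' Finset.univ k (fun i => dK a (ρ x i j))]
      simp
    rw [← h1, ← h2]
  have hcomm : ∀ x y, ρ x * ρ y = ρ y * ρ x := by
    intro x y
    rw [← map_mul, ← map_mul, mul_comm]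
  let E := ExteriorAlgebra K (Fin (d + d) → K)
  let M : Matrix (Fin d) (Fin d) L := Matrix.of fun a b => dL a (r b)
  let rh : Matrix (Fin m) (Fin m) E := ∑ b, st (eta K d b) (ρ (r b))
  let G : Matrix (Fin m) (Fin m) E := ∑ a, st (xi K d a) (Γ a)
  let X0 : Matrix (Fin m) (Fin m) E := ∑ b, ∑ a, st (eta K d b * xi K d a) (ρ (M a b))
  let X : Matrix (Fin m) (Fin m) E := ∑ b, ∑ a, st (eta K d b * xi K d a) ((ρ (r b)).map (dK a))
  let S : Matrix (Fin m) (Fin m) E := st (1 : E) (ρ s)
  have hcen : ∀ b a : Fin d, eta K d b * xi K d a ∈ Subring.center E := fun b a =>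
    center_two _ _
  have hxe : ∀ a b : Fin d, xi K d a * eta K d b = -(eta K d b * xi K d a) := fun a b =>
    io_mul_comm _ _
  have h1 : X = X0 + (rh * G + G * rh) := by
    have e1 : rh * G = ∑ b, ∑ a, st (eta K d b * xi K d a) (ρ (r b) * Γ a) := by
      change (∑ b, st (eta K d b) (ρ (r b))) * (∑ a, st (xi K d a) (Γ a)) = _
      rw [Finset.sum_mul_sum]
      apply Finset.sum_congr rfl
      intro b _
      apply Finset.sum_congr rfl
      intro a _
      rw [st_mul_st]
    have e2 : G * rh = ∑ b, ∑ a, -st (eta K d b * xi K d a) (Γ a * ρ (r b)) := by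
      change (∑ a, st (xi K d a) (Γ a)) * (∑ b, st (eta K d b) (ρ (r b))) = _
      rw [Finset.sum_mul_sum, Finset.sum_comm]
      apply Finset.sum_congr rfl
      intro b _
      apply Finset.sum_congr rfl
      intro a _
      rw [st_mul_st, hxe, neg_st]
    rw [e1, e2]
    change (∑ b, ∑ a, st (eta K d b * xi K d a) ((ρ (r b)).map (dK a))) =
      (∑ b, ∑ a, st (eta K d b * xi K d a) (ρ (M a b))) + _
    rw [← Finset.sum_add_distrib, ← Finset.sum_add_distrib]
    apply Finset.sum_congr rfl
    intro b _
    rw [← Finset.sum_add_distrib, ← Finset.sum_add_distrib]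
    apply Finset.sum_congr rfl
    intro a _
    rw [← st_neg, ← st_add, ← st_add]
    congr 1
    have h3 := hrel a (r b)
    have h4 : (ρ (r b)).map (dK a) = ρ (dL a (r b)) + ρ (r b) * Γ a - Γ a * ρ (r b) :=
      eq_sub_of_add_eq h3
    rw [h4]
    change _ = ρ (dL a (r b)) + _
    abel
  have h2 : rh * rh = 0 := by
    change (∑ b, st (eta K d b) (ρ (r b))) * (∑ b, st (eta K d b) (ρ (r b))) = 0
    rw [Finset.sum_mul_sum]
    apply sum_antisymm (A := Matrix (Fin m) (Fin m) E)
    · intro b
      have : eta K d b * eta K d b = 0 := io_mul_self _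
      rw [st_mul_st, this, st_zero]
    · intro b b'
      have : eta K d b * eta K d b' = -(eta K d b' * eta K d b) := io_mul_comm _ _
      rw [st_mul_st, st_mul_st, this, neg_st, hcomm (r b) (r b'), neg_add_cancel]
  have h3 : rh * S = S * rh := by
    change (∑ b, st (eta K d b) (ρ (r b))) * st (1 : E) (ρ s) =
      st (1 : E) (ρ s) * (∑ b, st (eta K d b) (ρ (r b)))
    rw [Finset.sum_mul, Finset.mul_sum]
    apply Finset.sum_congr rfl
    intro b _
    rw [st_mul_st, st_mul_st, mul_one, one_mul, hcomm]
  have h4 : rh * X0 = X0 * rh := by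
    change (∑ b, st (eta K d b) (ρ (r b))) * X0 = X0 * (∑ b, st (eta K d b) (ρ (r b)))
    rw [Finset.sum_mul, Finset.mul_sum]
    apply Finset.sum_congr rfl
    intro b _
    change st (eta K d b) (ρ (r b)) *
      (∑ b', ∑ a, st (eta K d b' * xi K d a) (ρ (M a b'))) =
      (∑ b', ∑ a, st (eta K d b' * xi K d a) (ρ (M a b'))) * st (eta K d b) (ρ (r b))
    rw [Finset.mul_sum, Finset.sum_mul]
    apply Finset.sum_congr rfl
    intro b' _
    rw [Finset.mul_sum, Finset.sum_mul]
    apply Finset.sum_congr rfl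
    intro a _
    rw [st_mul_st, st_mul_st, hcomm (r b), (Subring.mem_center_iff.1 (hcen b' a)) (eta K d b)]
  have hS : ∀ i j, S i j ∈ Subring.center E := fun i j =>
    st_central (1 : E) (Subring.one_mem _) _ i j
  have hX : ∀ i j, X i j ∈ Subring.center E := by
    intro i j
    change (∑ b, ∑ a, st (eta K d b * xi K d a) ((ρ (r b)).map (dK a))) i j ∈ _
    rw [Matrix.sum_apply]
    apply Subring.sum_mem
    intro b _
    rw [Matrix.sum_apply]
    apply Subring.sum_mem
    intro a _
    exact st_central _ (hcen b a) _ i j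
  have hX0 : ∀ i j, X0 i j ∈ Subring.center E := by
    intro i j
    change (∑ b, ∑ a, st (eta K d b * xi K d a) (ρ (M a b))) i j ∈ _
    rw [Matrix.sum_apply]
    apply Subring.sum_mem
    intro b _
    rw [Matrix.sum_apply]
    apply Subring.sum_mem
    intro a _
    exact st_central _ (hcen b a) _ i j
  have hrh : ∀ i j, rh i j ∈ Odd' K d := by
    intro i j
    change (∑ b, st (eta K d b) (ρ (r b))) i j ∈ _
    rw [Matrix.sum_apply]
    exact AddSubgroup.sum_mem _ fun b _ => st_odd _ _ i j
  have hG : ∀ i j, G i j ∈ Odd' K d := by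
    intro i j
    change (∑ a, st (xi K d a) (Γ a)) i j ∈ _
    rw [Matrix.sum_apply]
    exact AddSubgroup.sum_mem _ fun a _ => st_odd _ _ i j
  have htr := trace_inv (Odd' K d) (fun x hx z hz => odd_anti x z hx hz)
    (fun x hx z hz => odd_central x hx z hz) S X X0 rh G hS hX hX0 hrh hG h1 h2 h3 h4 d
  -- the value of the right hand side
  obtain ⟨w, hw⟩ : ∃ w, w = (List.ofFn fun b => eta K d b * xi K d b).prod := ⟨_, rfl⟩
  have hval : Matrix.trace (S * X0 ^ d) =
      ((d.factorial : K) * Algebra.trace K L (s * M.det)) • w := by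
    have e1 : X0 ^ d = (d.factorial : ℕ) • st w (ρ M.det) := by
      rw [hw]
      exact pow_X0 ρ M
    rw [e1, mul_smul_comm]
    change Matrix.trace (d.factorial • (st (1 : E) (ρ s) * st w (ρ M.det))) = _
    rw [st_mul_st, one_mul, ← map_mul, Matrix.trace_smul, trace_st, hρ,
      ← Algebra.trace_eq_matrix_trace, mul_smul, Nat.cast_smul_eq_nsmul]
  -- the left hand side is integral
  have hmem : topF K (d + d) (Matrix.trace (S * X ^ d)) ∈ D := by
    apply top_int D
    obtain ⟨T, hT⟩ : ∃ T : Subring E, T = Subring.closure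
      ({x | ∃ c ∈ D, x = algebraMap K _ c} ∪ {x | ∃ a, x = xi K d a} ∪
      {x | ∃ b, x = eta K d b}) := ⟨_, rfl⟩
    rw [← hT]
    have hTc : ∀ c ∈ D, algebraMap K E c ∈ T := by
      intro c hcD
      rw [hT]
      exact Subring.subset_closure (Or.inl (Or.inl ⟨c, hcD, rfl⟩))
    have hTx : ∀ a, xi K d a ∈ T := by
      intro a
      rw [hT]
      exact Subring.subset_closure (Or.inl (Or.inr ⟨a, rfl⟩))
    have hTe : ∀ b, eta K d b ∈ T := by
      intro b
      rw [hT]
      exact Subring.subset_closure (Or.inr ⟨b, rfl⟩)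
    have hST : ∀ i j, S i j ∈ T := by
      intro i j
      change ρ s i j • (1 : E) ∈ T
      rw [← Algebra.algebraMap_eq_smul_one]
      exact hTc _ (hs i j)
    have hXT : ∀ i j, X i j ∈ T := by
      intro i j
      change (∑ b, ∑ a, st (eta K d b * xi K d a) ((ρ (r b)).map (dK a))) i j ∈ _
      rw [Matrix.sum_apply]
      apply Subring.sum_mem
      intro b _
      rw [Matrix.sum_apply]
      apply Subring.sum_mem
      intro a _
      change dK a (ρ (r b) i j) • (eta K d b * xi K d a) ∈ T
      rw [Algebra.smul_def]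
      exact T.mul_mem (hTc _ (hD a _ (hr b i j))) (T.mul_mem (hTe b) (hTx a))
    rw [Matrix.trace]
    apply Subring.sum_mem
    intro i _
    exact mat_mul_mem T _ _ hST (mat_pow_mem T X hXT d) i i
  rw [htr, hval, map_smul, smul_eq_mul, hw] at hmem
  have hunit := top_unit (K := K) (d := d)
  rcases hunit with h | h
  · rw [h, mul_one] at hmem
    exact hmem
  · rw [h, mul_neg, mul_one] at hmem
    have := D.neg_mem hmem
    rwa [neg_neg] at this

end VG
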