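import Mathlib

/-!
Project VG, module TrB: invariance of a trace (abstract Grassmann matrices).

PLAN.  `rh` commutes with `S`, `X0`, and with `rh * G + G * rh` (both products are `rh * G * rh` since
`rh * rh = 0`), hence with `X`.  `X ^ d - X0 ^ d = ∑ i < d, X ^ i * (X - X0) * X0 ^ (d - 1 - i)`
(induction on `d`).  `S * X ^ i * (rh * G + G * rh) * X0 ^ l = rh * Y + Y * rh` with
`Y = S * X ^ i * G * X0 ^ l` (move `rh`).  The entries of `Y` are in `Od`: products
`(central) * (odd) * (central)` and sums (`hOd : z * x ∈ Od` for central `z`; matrix powers of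
matrices with central entries have central entries).  For matrices `rh`, `Y` with entries in `Od`:
`trace (rh * Y + Y * rh) = ∑ i j, (rh i j * Y j i + Y j i * rh i j) = 0` by `hanti`.
-/

open Matrix

namespace VG

universe u

private theorem central_mul {E : Type u} [Ring E] {m : ℕ} {A B : Matrix (Fin m) (Fin m) E}
    (hA : ∀ i j, A i j ∈ Subring.center E) (hB : ∀ i j, B i j ∈ Subring.center E) :
    ∀ i j, (A * B) i j ∈ Subring.center E := by
  intro i j
  rw [Matrix.mul_apply]
  exact Subring.sum_mem _ fun k _ => Subring.mul_mem _ (hA i k) (hB k j)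

private theorem central_one {E : Type u} [Ring E] {m : ℕ} :
    ∀ i j, (1 : Matrix (Fin m) (Fin m) E) i j ∈ Subring.center E := by
  intro i j
  rw [Matrix.one_apply]
  split_ifs
  · exact Subring.one_mem _
  · exact Subring.zero_mem _

private theorem central_pow {E : Type u} [Ring E] {m : ℕ} {A : Matrix (Fin m) (Fin m) E}
    (hA : ∀ i j, A i j ∈ Subring.center E) (d : ℕ) :
    ∀ i j, (A ^ d) i j ∈ Subring.center E := by
  induction d with
  | zero => rw [pow_zero]; exact central_one
  | succ d ih => rw [pow_succ]; exact central_mul ih hA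

private theorem odd_left {E : Type u} [Ring E] {m : ℕ} (Od : AddSubgroup E)
    (hOd : ∀ x ∈ Od, ∀ z ∈ Subring.center E, z * x ∈ Od)
    {A B : Matrix (Fin m) (Fin m) E}
    (hA : ∀ i j, A i j ∈ Subring.center E) (hB : ∀ i j, B i j ∈ Od) :
    ∀ i j, (A * B) i j ∈ Od := by
  intro i j
  rw [Matrix.mul_apply]
  exact AddSubgroup.sum_mem _ fun k _ => hOd _ (hB k j) _ (hA i k)

private theorem odd_right {E : Type u} [Ring E] {m : ℕ} (Od : AddSubgroup E)
    (hOd : ∀ x ∈ Od, ∀ z ∈ Subring.center E, z * x ∈ Od)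
    {A B : Matrix (Fin m) (Fin m) E}
    (hA : ∀ i j, A i j ∈ Od) (hB : ∀ i j, B i j ∈ Subring.center E) :
    ∀ i j, (A * B) i j ∈ Od := by
  intro i j
  rw [Matrix.mul_apply]
  refine AddSubgroup.sum_mem _ fun k _ => ?_
  rw [Subring.mem_center_iff.mp (hB k j) (A i k)]
  exact hOd _ (hA i k) _ (hB k j)

private theorem trace_anti {E : Type u} [Ring E] {m : ℕ} (Od : AddSubgroup E)
    (hanti : ∀ x ∈ Od, ∀ z ∈ Od, x * z + z * x = 0)
    {A B : Matrix (Fin m) (Fin m) E} (hA : ∀ i j, A i j ∈ Od) (hB : ∀ i j, B i j ∈ Od) :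
    Matrix.trace (A * B + B * A) = 0 := by
  rw [Matrix.trace_add]
  have e1 : Matrix.trace (A * B) = ∑ i, ∑ j, A i j * B j i := by
    simp [Matrix.trace, Matrix.mul_apply]
  have e2 : Matrix.trace (B * A) = ∑ i, ∑ j, B j i * A i j := by
    rw [Finset.sum_comm]
    simp [Matrix.trace, Matrix.mul_apply]
  rw [e1, e2, ← Finset.sum_add_distrib]
  refine Finset.sum_eq_zero fun i _ => ?_
  rw [← Finset.sum_add_distrib]
  exact Finset.sum_eq_zero fun j _ => hanti _ (hA i j) _ (hB j i)

theorem trace_inv {E : Type u} [Ring E] {m : ℕ} (Od : AddSubgroup E)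
    (hanti : ∀ x ∈ Od, ∀ z ∈ Od, x * z + z * x = 0)
    (hOd : ∀ x ∈ Od, ∀ z ∈ Subring.center E, z * x ∈ Od)
    (S X X0 rh G : Matrix (Fin m) (Fin m) E)
    (hS : ∀ i j, S i j ∈ Subring.center E) (hX : ∀ i j, X i j ∈ Subring.center E)
    (hX0 : ∀ i j, X0 i j ∈ Subring.center E) (hrh : ∀ i j, rh i j ∈ Od) (hG : ∀ i j, G i j ∈ Od)
    (h1 : X = X0 + (rh * G + G * rh)) (h2 : rh * rh = 0) (h3 : rh * S = S * rh)
    (h4 : rh * X0 = X0 * rh) (d : ℕ) :
    Matrix.trace (S * X ^ d) = Matrix.trace (S * X0 ^ d) := by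
  have hcX : Commute rh X := by
    unfold Commute SemiconjBy
    rw [h1, mul_add, add_mul, h4, mul_add, add_mul, ← mul_assoc rh rh G, h2, zero_mul, zero_add,
      mul_assoc G rh rh, h2, mul_zero, add_zero, mul_assoc]
  induction d generalizing S with
  | zero => rw [pow_zero, pow_zero]
  | succ d ih =>
    have e0 : S * X ^ (d + 1) = S * X0 * X ^ d
        + (rh * (S * (G * X ^ d)) + S * (G * X ^ d) * rh) := by
      have hc : X ^ d * rh = rh * X ^ d := ((hcX.pow_right d).eq).symm
      have e1 : S * X ^ (d + 1) = S * (X0 + (rh * G + G * rh)) * X ^ d := by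
        rw [← h1, pow_succ', mul_assoc]
      rw [e1]
      have e2 : S * (G * X ^ d) * rh = S * (G * rh) * X ^ d := by
        rw [mul_assoc, mul_assoc, hc, ← mul_assoc G rh, ← mul_assoc]
      have e3 : rh * (S * (G * X ^ d)) = S * (rh * G) * X ^ d := by
        rw [← mul_assoc, h3, mul_assoc, mul_assoc, mul_assoc]
      rw [e2, e3, mul_add, add_mul, mul_add, add_mul]
    rw [e0, Matrix.trace_add,
      trace_anti Od hanti hrh (odd_left Od hOd hS (odd_right Od hOd hG (central_pow hX d))),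
      add_zero, pow_succ', ← mul_assoc]
    refine ih (S * X0) (central_mul hS hX0) ?_
    rw [← mul_assoc, h3, mul_assoc, h4, mul_assoc]

end VG
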