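import Pool.Agent.VG.Forms

/-!
Project VG, module UpsA: linearity and contraction of the null homotopy `U`.
-/

open Matrix

namespace VG

universe u v

variable {R K V : Type u} [CommRing R] [Field K] [AddCommGroup V] [Module K V]
  {ι : Type v} (H : FDat R K V ι)

theorem U_add (p : ℕ) (L : List ι) (χ χ' : Fin (H.r (p + 1)) → K) :
    H.U p L (χ + χ') = H.U p L χ + H.U p L χ' := by
  induction p generalizing L with
  | zero =>
    cases L with
    | nil => exact (add_zero (0 : V)).symm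
    | cons t L =>
      show (∑ i, ((χ + χ') ⬝ᵥ (H.S t 0 *ᵥ fun j => H.φ (H.J i j))) • H.D (H.X i)) +
          ((χ + χ') ⬝ᵥ (H.Δ 1 *ᵥ (H.S t 1 *ᵥ fun j => H.φ (H.τ j)))) • H.lam t =
        ((∑ i, (χ ⬝ᵥ (H.S t 0 *ᵥ fun j => H.φ (H.J i j))) • H.D (H.X i)) +
          (χ ⬝ᵥ (H.Δ 1 *ᵥ (H.S t 1 *ᵥ fun j => H.φ (H.τ j)))) • H.lam t) +
        ((∑ i, (χ' ⬝ᵥ (H.S t 0 *ᵥ fun j => H.φ (H.J i j))) • H.D (H.X i)) +
          (χ' ⬝ᵥ (H.Δ 1 *ᵥ (H.S t 1 *ᵥ fun j => H.φ (H.τ j)))) • H.lam t)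
      have h1 : ∀ i, ((χ + χ') ⬝ᵥ (H.S t 0 *ᵥ fun j => H.φ (H.J i j))) • H.D (H.X i) =
          (χ ⬝ᵥ (H.S t 0 *ᵥ fun j => H.φ (H.J i j))) • H.D (H.X i) +
          (χ' ⬝ᵥ (H.S t 0 *ᵥ fun j => H.φ (H.J i j))) • H.D (H.X i) := by
        intro i
        rw [add_dotProduct, add_smul]
      rw [Finset.sum_congr rfl fun i _ => h1 i, Finset.sum_add_distrib, add_dotProduct, add_smul]
      abel
  | succ p ih =>
    cases L with
    | nil => exact (add_zero (0 : V)).symm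
    | cons t L =>
      show cob (fun L' => H.U p L' ((χ + χ') ᵥ* H.S t (p + 1))) (t :: L) =
        cob (fun L' => H.U p L' (χ ᵥ* H.S t (p + 1))) (t :: L) +
        cob (fun L' => H.U p L' (χ' ᵥ* H.S t (p + 1))) (t :: L)
      rw [← cob_add]
      congr 1
      funext L'
      rw [Matrix.add_vecMul, ih]

theorem U_smul (p : ℕ) (L : List ι) (q : K) (χ : Fin (H.r (p + 1)) → K) :
    H.U p L (q • χ) = q • H.U p L χ := by
  induction p generalizing L with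
  | zero =>
    cases L with
    | nil => exact (smul_zero q).symm
    | cons t L =>
      show (∑ i, ((q • χ) ⬝ᵥ (H.S t 0 *ᵥ fun j => H.φ (H.J i j))) • H.D (H.X i)) +
          ((q • χ) ⬝ᵥ (H.Δ 1 *ᵥ (H.S t 1 *ᵥ fun j => H.φ (H.τ j)))) • H.lam t =
        q • ((∑ i, (χ ⬝ᵥ (H.S t 0 *ᵥ fun j => H.φ (H.J i j))) • H.D (H.X i)) +
          (χ ⬝ᵥ (H.Δ 1 *ᵥ (H.S t 1 *ᵥ fun j => H.φ (H.τ j)))) • H.lam t)
      have h1 : ∀ i, ((q • χ) ⬝ᵥ (H.S t 0 *ᵥ fun j => H.φ (H.J i j))) • H.D (H.X i) =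
          q • ((χ ⬝ᵥ (H.S t 0 *ᵥ fun j => H.φ (H.J i j))) • H.D (H.X i)) := by
        intro i
        rw [smul_dotProduct, smul_assoc]
      rw [Finset.sum_congr rfl fun i _ => h1 i, smul_dotProduct, smul_assoc, smul_add, Finset.smul_sum]
  | succ p ih =>
    cases L with
    | nil => exact (smul_zero q).symm
    | cons t L =>
      show cob (fun L' => H.U p L' ((q • χ) ᵥ* H.S t (p + 1))) (t :: L) =
        q • cob (fun L' => H.U p L' (χ ᵥ* H.S t (p + 1))) (t :: L)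
      have h1 := cob_map (DistribSMul.toAddMonoidHom V q) (fun L' => H.U p L' (χ ᵥ* H.S t (p + 1))) (t :: L)
      rw [DistribSMul.toAddMonoidHom_apply] at h1
      rw [← h1]
      congr 1
      funext L'
      rw [Matrix.smul_vecMul, ih]
      rfl

theorem U_sum (p : ℕ) (L : List ι) (χ : Fin (H.r (p + 1)) → K) :
    H.U p L χ = ∑ k, χ k • H.U p L (Pi.single k 1) := by
  obtain ⟨f, hf⟩ : ∃ f : (Fin (H.r (p + 1)) → K) →ₗ[K] V, ∀ χ, f χ = H.U p L χ :=
    ⟨{ toFun := H.U p L, map_add' := U_add H p L, map_smul' := U_smul H p L }, fun _ => rfl⟩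
  have h1 : χ = ∑ k, χ k • (Pi.single k 1 : Fin (H.r (p + 1)) → K) := by
    funext l
    rw [Finset.sum_apply, Finset.sum_eq_single l]
    · rw [Pi.smul_apply, Pi.single_eq_same, smul_eq_mul, mul_one]
    · intro k _ hk
      rw [Pi.smul_apply, Pi.single_eq_of_ne hk.symm, smul_zero]
    · intro h
      exact absurd (Finset.mem_univ l) h
  have h2 : f χ = ∑ k, χ k • f (Pi.single k 1) := by
    conv_lhs => rw [h1]
    rw [map_sum]
    exact Finset.sum_congr rfl fun k _ => map_smul f _ _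
  rw [hf] at h2
  rw [h2]
  exact Finset.sum_congr rfl fun k _ => by rw [hf]

theorem lam_ε (t : ι) : H.ε (H.lam t) = 1 := by
  unfold FDat.lam
  rw [map_smul, smul_eq_mul, mul_right_comm, H.hκ, mul_inv_cancel₀ (H.y0 t)]

private theorem upsA_one (t : ι) : H.Δ 1 * H.S t 1 + H.S t 0 * H.Δ 0 = 1 := by
  have h1 := congrArg (fun M : Matrix (Fin (H.r 1)) (Fin (H.r 1)) R => M.map H.φ) (H.h1 t 0)
  have h2 : (H.δ (0 + 1) * H.s t (0 + 1) + H.s t 0 * H.δ 0).map H.φ =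
      (H.δ 1).map H.φ * (H.s t 1).map H.φ + (H.s t 0).map H.φ * (H.δ 0).map H.φ := by
    rw [Matrix.map_add _ (map_add H.φ), Matrix.map_mul, Matrix.map_mul]
  have h3 : (H.y t • (1 : Matrix (Fin (H.r 1)) (Fin (H.r 1)) R)).map H.φ =
      H.φ (H.y t) • (1 : Matrix (Fin (H.r 1)) (Fin (H.r 1)) K) := by
    ext i j
    rw [Matrix.map_apply, Matrix.smul_apply, Matrix.smul_apply, smul_eq_mul, smul_eq_mul, map_mul]
    by_cases hij : i = j
    · rw [hij, Matrix.one_apply_eq, Matrix.one_apply_eq, map_one]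
    · rw [Matrix.one_apply_ne hij, Matrix.one_apply_ne hij, map_zero]
  have h4 : (H.δ 1).map H.φ * (H.s t 1).map H.φ + (H.s t 0).map H.φ * (H.δ 0).map H.φ =
      H.φ (H.y t) • (1 : Matrix (Fin (H.r 1)) (Fin (H.r 1)) K) := by
    rw [← h2, ← h3]
    exact h1
  unfold FDat.Δ FDat.S
  rw [Matrix.mul_smul, Matrix.smul_mul, ← smul_add, h4, smul_smul, inv_mul_cancel₀ (H.y0 t), one_smul]

theorem U_contract_zero (t : ι) (χ : Fin (H.r 1) → K) :
    H.ε (H.U 0 [t] χ) = χ ⬝ᵥ fun j => H.φ (H.τ j) := by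
  show H.ε ((∑ i, (χ ⬝ᵥ (H.S t 0 *ᵥ fun j => H.φ (H.J i j))) • H.D (H.X i)) +
      (χ ⬝ᵥ (H.Δ 1 *ᵥ (H.S t 1 *ᵥ fun j => H.φ (H.τ j)))) • H.lam t) = _
  rw [map_add, map_sum, map_smul, lam_ε, smul_eq_mul, mul_one]
  have h1 : ∀ i, H.ε ((χ ⬝ᵥ (H.S t 0 *ᵥ fun j => H.φ (H.J i j))) • H.D (H.X i)) =
      χ ⬝ᵥ (H.S t 0 *ᵥ ((((H.w i : ℤ) : K) * H.φ (H.X i)) • fun j => H.φ (H.J i j))) := by
    intro i
    rw [map_smul, smul_eq_mul, H.eulX, Matrix.mulVec_smul, dotProduct_smul, smul_eq_mul, mul_comm]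
  rw [Finset.sum_congr rfl fun i _ => h1 i, ← dotProduct_sum, ← Matrix.mulVec_sum]
  have h2 : (∑ i, (((H.w i : ℤ) : K) * H.φ (H.X i)) • fun j => H.φ (H.J i j)) =
      H.Δ 0 *ᵥ fun j => H.φ (H.τ j) := by
    funext j
    have h3 := congrArg H.φ (H.hτ j)
    rw [map_sum] at h3
    rw [Finset.sum_apply]
    have h4 : H.φ ((H.δ 0 *ᵥ H.τ) j) = (H.Δ 0 *ᵥ fun j => H.φ (H.τ j)) j := by
      unfold FDat.Δ Matrix.mulVec dotProduct
      rw [map_sum]
      exact Finset.sum_congr rfl fun l _ => map_mul H.φ _ _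
    rw [← h4, ← h3]
    refine Finset.sum_congr rfl fun i _ => ?_
    rw [Pi.smul_apply, smul_eq_mul, map_mul, map_mul, map_intCast]
  rw [h2, ← dotProduct_add, Matrix.mulVec_mulVec, Matrix.mulVec_mulVec, ← Matrix.add_mulVec,
    add_comm (H.S t 0 * H.Δ 0), upsA_one, Matrix.one_mulVec]

theorem U_contract_succ (p : ℕ) (L : List ι) (hL : L.length = p + 2)
    (χ : Fin (H.r (p + 2)) → K) : H.ε (H.U (p + 1) L χ) = 0 := by
  induction p generalizing L with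
  | zero =>
    cases L with
    | nil => exact absurd hL (by simp)
    | cons t L =>
      show H.ε (cob (fun L' => H.U 0 L' (χ ᵥ* H.S t (0 + 1))) (t :: L)) = 0
      have h1 := cob_map H.ε.toAddMonoidHom (fun L' => H.U 0 L' (χ ᵥ* H.S t (0 + 1))) (t :: L)
      have h2 : H.ε (cob (fun L' => H.U 0 L' (χ ᵥ* H.S t (0 + 1))) (t :: L)) =
          cob (fun L' => H.ε (H.U 0 L' (χ ᵥ* H.S t (0 + 1)))) (t :: L) := h1.symm
      rw [h2]
      exact cob_const_two _ _ (fun a => U_contract_zero H a _) _ hL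
  | succ p ih =>
    cases L with
    | nil => exact absurd hL (by simp)
    | cons t L =>
      show H.ε (cob (fun L' => H.U (p + 1) L' (χ ᵥ* H.S t (p + 1 + 1))) (t :: L)) = 0
      have h1 := cob_map H.ε.toAddMonoidHom (fun L' => H.U (p + 1) L' (χ ᵥ* H.S t (p + 1 + 1))) (t :: L)
      have h2 : H.ε (cob (fun L' => H.U (p + 1) L' (χ ᵥ* H.S t (p + 1 + 1))) (t :: L)) =
          cob (fun L' => H.ε (H.U (p + 1) L' (χ ᵥ* H.S t (p + 1 + 1)))) (t :: L) := h1.symm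
      rw [h2, cob_congr _ (fun _ => (0 : K)) (t :: L), cob_zero]
      intro L' _ h3
      exact ih L' (by omega) _

end VG
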